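import Pool.Agent.R134.PB.Stm

/-!
# Project PB: the chain of scales
-/

set_option autoImplicit false

namespace Pool.Agent.R134.PB.Chain

open Finset Equiv
open Pool.Agent.Y998.ST
open Pool.Agent.R134.PB

theorem er_nonneg (d L K n ρ R : ℕ) {t s : ℝ} (ht : 0 < t) (hs : 0 < s) :
    0 ≤ er d L K n ρ R t s := by
  have h1 : 0 ≤ eK d L K t := by
    unfold eK
    have : 0 < t ^ (1 - (d : ℝ) / 2) := Real.rpow_pos_of_pos ht _
    positivity
  unfold er
  positivity

theorem sc_pos {s0 t : ℝ} (hs : 0 < s0) (ht : 0 ≤ t) (m : ℕ) (i : ℕ) : 0 < sc s0 t m i := by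
  induction i with
  | zero => exact hs
  | succ i ih =>
    have : (0 : ℝ) ≤ (m ^ i : ℕ) * t := mul_nonneg (Nat.cast_nonneg _) ht
    show 0 < sc s0 t m i + (m ^ i : ℕ) * t
    linarith

theorem main : S_STEP → S_STA → S_NUM → S_MONO → S_CORE := by
  intro hstep hsta hnum hmono d hd ε Λ η hε hΛ hη
  obtain ⟨C1, hC1, hstep⟩ := hstep d hd
  obtain ⟨C2, hC2, hsta⟩ := hsta d hd
  obtain ⟨T, I, hT, hnum⟩ := hnum d hd ε Λ (max C1 C2) (η / 4) hε hΛ (lt_max_of_lt_left hC1)
    (by positivity)
  refine ⟨T, hT, fun t ht L _ hL s hs hst hsL => ?_⟩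
  obtain ⟨m, n, ρ, s0, hm, hs0, hs0t, hn, hρ, hnρ, hρt, htI, hR⟩ := hnum t ht
  have ht1 : 1 ≤ t := hT.trans ht
  have ht0 : 0 < t := by linarith
  have hmo : ∀ s s' : ℝ, 0 ≤ s → s ≤ s' → AA (nnRate d L) t s' ≤ AA (nnRate d L) t s :=
    hmono (Fin d → ZMod L) (nnRate d L) nn_nonneg nn_symm (nn_diag hL) t ht0.le
  have hsq : (0 : ℝ) ≤ Real.sqrt t := Real.sqrt_nonneg t
  rcases lt_or_ge L ρ with hLρ | hLρ
  · have h1 := (hsta L hL t s ht0 hs).2
    have h2 : C2 * ((L : ℝ) / Real.sqrt t) ≤ max C1 C2 * ((ρ : ℝ) / Real.sqrt t) := by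
      have : (L : ℝ) ≤ ρ := by exact_mod_cast hLρ.le
      refine mul_le_mul (le_max_right _ _) ?_ (by positivity) (hC2.le.trans (le_max_right _ _))
      gcongr
    linarith
  · have hst0 : 1 / 2 - η / 4 ≤ AA (nnRate d L) t s0 := by
      have h1 := (hsta L hL t s0 ht0 hs0.le).1
      have h2 : C2 * (Real.sqrt s0 / Real.sqrt t) ≤
          max C1 C2 * (Real.sqrt s0 / Real.sqrt t) :=
        mul_le_mul_of_nonneg_right (le_max_right _ _) (by positivity)
      linarith
    rcases le_or_gt s s0 with hss | hss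
    · have := hmo s s0 hs hss
      linarith
    · -- the least index
      have hex : ∃ i, s ≤ sc s0 t m i := by
        refine ⟨I, hst.trans (le_trans ?_ htI)⟩
        exact Real.rpow_le_rpow_of_exponent_le ht1 (by linarith)
      classical
      set i := Nat.find hex with hi
      have hi1 : s ≤ sc s0 t m i := Nat.find_spec hex
      have hi2 : ∀ j, j < i → sc s0 t m j < s := fun j hj =>
        lt_of_not_ge (Nat.find_min hex hj)
      have hiI : i ≤ I := by
        refine Nat.find_le ?_
        refine hst.trans (le_trans ?_ htI)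
        exact Real.rpow_le_rpow_of_exponent_le ht1 (by linarith)
      have key : ∀ j, j ≤ i → 1 / 2 - η / 4 - j * (η / 4 / (I + 1)) ≤
          AA (nnRate d L) t (sc s0 t m j) := by
        intro j
        induction j with
        | zero =>
          intro _
          simpa [sc] using hst0
        | succ j ih =>
          intro hj
          have ih := ih (by omega)
          have hlt := hi2 j (by omega)
          obtain ⟨R, hR1, hR2, hR3⟩ := hR L hL j (by omega) (hlt.le.trans hst)
            (hlt.le.trans hsL)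
          have hp := sc_pos hs0 ht0.le m j
          have h1 := hstep L hL t (sc s0 t m j) ht1 hp (m ^ j) n ρ R (Nat.one_le_pow _ _ hm) hn hρ
            hLρ hR1 hnρ hR2
          have h2 : C1 * er d L (m ^ j) n ρ R t (sc s0 t m j) ≤
              max C1 C2 * er d L (m ^ j) n ρ R t (sc s0 t m j) :=
            mul_le_mul_of_nonneg_right (le_max_left _ _) (er_nonneg _ _ _ _ _ _ ht0 hp)
          have h3 : sc s0 t m (j + 1) = sc s0 t m j + (m ^ j : ℕ) * t := rfl
          rw [h3]
          push_cast at h1 h2 hR3 ⊢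
          linarith
      have h1 := key i le_rfl
      have h2 := hmo s _ hs hi1
      have h3 : (i : ℝ) * (η / 4 / (I + 1)) ≤ η / 4 := by
        have hI : (0 : ℝ) < (I : ℝ) + 1 := by positivity
        have : (i : ℝ) ≤ (I : ℝ) + 1 := by
          have : (i : ℝ) ≤ I := by exact_mod_cast hiI
          linarith
        calc (i : ℝ) * (η / 4 / (I + 1)) ≤ (I + 1) * (η / 4 / (I + 1)) :=
              mul_le_mul_of_nonneg_right this (by positivity)
          _ = η / 4 := by field_simp
      linarith

end Pool.Agent.R134.PB.Chain
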