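import Pool.Agent.R134.PB.Stm

/-!
# Project PB, part CHO: the choice of points
-/

set_option autoImplicit false

namespace Pool.Agent.R134.PB.Cho

open Finset
open Pool.Agent.R134.PB

theorem prod_two {n : ℕ} {l l' : Fin n} (hne : l ≠ l') (N : ℝ) :
    N ^ 2 * ∏ i : Fin n, (if i = l ∨ i = l' then 1 else N) = N ^ n := by
  have h1 : ∏ i : Fin n, (if i = l ∨ i = l' then N else 1) = N ^ 2 := by
    rw [prod_ite, prod_const_one, mul_one, prod_const]
    congr 1
    have : (univ.filter fun i : Fin n => i = l ∨ i = l') = {l, l'} := by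
      ext i
      simp
    rw [this, card_pair hne]
  rw [← h1, ← prod_mul_distrib]
  have h2 : ∀ i : Fin n, (if i = l ∨ i = l' then N else 1) *
      (if i = l ∨ i = l' then 1 else N) = N := by
    intro i
    split_ifs <;> simp
  rw [prod_congr rfl fun i _ => h2 i]
  simp

theorem pair_sum {V : Type} [DecidableEq V] (B : Finset V) {n : ℕ} {l l' : Fin n} (hne : l ≠ l')
    (W : V → V → ℝ) :
    (B.card : ℝ) ^ 2 * ∑ β ∈ Fintype.piFinset (fun _ : Fin n => B), W (β l) (β l') =
      (B.card : ℝ) ^ n * ∑ x ∈ B, ∑ y ∈ B, W x y := by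
  have h1 : ∀ β ∈ Fintype.piFinset (fun _ : Fin n => B), W (β l) (β l') =
      ∑ x ∈ B, ∑ y ∈ B, W x y * ∏ i, (if i = l then (if β i = x then (1 : ℝ) else 0) else
        if i = l' then (if β i = y then (1 : ℝ) else 0) else 1) := by
    intro β hβ
    rw [Fintype.mem_piFinset] at hβ
    have h2 : ∀ x y, ∏ i, (if i = l then (if β i = x then (1 : ℝ) else 0) else
        if i = l' then (if β i = y then (1 : ℝ) else 0) else 1) =
        (if β l = x then (1 : ℝ) else 0) * (if β l' = y then (1 : ℝ) else 0) := by
      intro x y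
      rw [← mul_prod_erase univ _ (mem_univ l), if_pos rfl]
      congr 1
      rw [← mul_prod_erase (univ.erase l) _ (mem_erase.mpr ⟨Ne.symm hne, mem_univ l'⟩),
        if_neg (Ne.symm hne), if_pos rfl]
      rw [prod_eq_one, mul_one]
      intro i hi
      rw [mem_erase, mem_erase] at hi
      rw [if_neg hi.2.1, if_neg hi.1]
    simp only [h2]
    have h3 : ∀ x, ∑ y ∈ B, W x y * ((if β l = x then (1 : ℝ) else 0) *
        (if β l' = y then (1 : ℝ) else 0)) = W x (β l') * (if β l = x then (1 : ℝ) else 0) := by
      intro x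
      rw [sum_eq_single (β l')]
      · rw [if_pos rfl, mul_one]
      · intro y _ hy
        rw [if_neg (Ne.symm hy), mul_zero, mul_zero]
      · intro h
        exact absurd (hβ l') h
    simp only [h3]
    rw [sum_eq_single (β l)]
    · rw [if_pos rfl, mul_one]
    · intro x _ hx
      rw [if_neg (Ne.symm hx), mul_zero]
    · intro h
      exact absurd (hβ l) h
  rw [sum_congr rfl h1, sum_comm]
  have h4 : ∀ x ∈ B, ∑ β ∈ Fintype.piFinset (fun _ : Fin n => B), ∑ y ∈ B,
      W x y * ∏ i, (if i = l then (if β i = x then (1 : ℝ) else 0) else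
        if i = l' then (if β i = y then (1 : ℝ) else 0) else 1) =
      ∑ y ∈ B, W x y * ∏ i : Fin n, (if i = l ∨ i = l' then 1 else (B.card : ℝ)) := by
    intro x hx
    rw [sum_comm]
    refine sum_congr rfl fun y hy => ?_
    rw [← mul_sum]
    congr 1
    have h5 := (Finset.prod_univ_sum (fun _ : Fin n => B) (fun i z =>
      if i = l then (if z = x then (1 : ℝ) else 0) else
        if i = l' then (if z = y then (1 : ℝ) else 0) else 1)).symm
    rw [h5]
    refine prod_congr rfl fun i _ => ?_
    by_cases hi : i = l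
    · simp only [hi, if_true, true_or]
      rw [sum_ite_eq', if_pos hx]
    · by_cases hi' : i = l'
      · simp only [hi', Ne.symm hne, if_true, if_false, or_true]
        rw [sum_ite_eq', if_pos hy]
      · simp only [hi, hi', if_false, or_self, sum_const, nsmul_eq_mul, mul_one]
  rw [sum_congr rfl h4]
  have h6 : ∑ x ∈ B, ∑ y ∈ B, W x y * ∏ i : Fin n, (if i = l ∨ i = l' then 1 else (B.card : ℝ)) =
      (∏ i : Fin n, (if i = l ∨ i = l' then 1 else (B.card : ℝ))) * ∑ x ∈ B, ∑ y ∈ B, W x y := by
    rw [mul_sum]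
    refine sum_congr rfl fun x _ => ?_
    rw [mul_sum]
    exact sum_congr rfl fun y _ => by ring
  rw [h6, ← mul_assoc, prod_two hne]

theorem main : S_CHO := by
  classical
  intro V _ B n W hW hB hn
  have hN : 0 < B.card := card_pos.mpr hB
  have hNr : (0 : ℝ) < B.card := by exact_mod_cast hN
  set A : ℝ := (∑ x ∈ B, ∑ y ∈ B, W x y) / (B.card : ℝ) ^ 2 with hA
  have hWs : 0 ≤ ∑ x ∈ B, ∑ y ∈ B, W x y := sum_nonneg fun x _ => sum_nonneg fun y _ => hW x y
  have hA0 : 0 ≤ A := by rw [hA]; positivity
  rcases Nat.eq_zero_or_pos n with rfl | hn0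
  · refine ⟨fun i => i.elim0, fun i => i.elim0, fun i => i.elim0, ?_⟩
    simp only [univ_eq_empty, sum_empty, zero_div]
    positivity
  have hnr : (0 : ℝ) < n := by exact_mod_cast hn0
  set P := Fintype.piFinset (fun _ : Fin n => B) with hP
  have hPc : (P.card : ℝ) = (B.card : ℝ) ^ n := by
    rw [hP, Fintype.card_piFinset]
    simp
  -- the sum over all families
  set S : (Fin n → V) → ℝ := fun β =>
    (∑ l, ∑ l', if l = l' then 0 else W (β l) (β l')) / (n : ℝ) ^ 2 with hS
  have hS0 : ∀ β, 0 ≤ S β := by
    intro β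
    rw [hS]
    apply div_nonneg _ (by positivity)
    exact sum_nonneg fun l _ => sum_nonneg fun l' _ => by split_ifs <;> [exact le_rfl; exact hW _ _]
  have hsumS : ∑ β ∈ P, S β ≤ (B.card : ℝ) ^ n * A := by
    have h1 : ∑ β ∈ P, S β = (∑ l : Fin n, ∑ l' : Fin n,
        ∑ β ∈ P, if l = l' then 0 else W (β l) (β l')) / (n : ℝ) ^ 2 := by
      rw [hS]
      simp only
      rw [← sum_div, sum_comm]
      congr 1
      exact sum_congr rfl fun l _ => sum_comm
    rw [h1, div_le_iff₀ (by positivity)]
    have h2 : ∀ l l' : Fin n, ∑ β ∈ P, (if l = l' then 0 else W (β l) (β l')) ≤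
        (B.card : ℝ) ^ n * A := by
      intro l l'
      by_cases hl : l = l'
      · simp only [hl, if_true, sum_const_zero]
        positivity
      · simp only [hl, if_false]
        have h3 := pair_sum B hl W
        rw [hA, ← mul_div_assoc, le_div_iff₀ (by positivity), ← h3]
        exact le_of_eq (mul_comm _ _)
    calc ∑ l : Fin n, ∑ l' : Fin n, ∑ β ∈ P, (if l = l' then 0 else W (β l) (β l')) ≤
          ∑ l : Fin n, ∑ l' : Fin n, (B.card : ℝ) ^ n * A :=
          sum_le_sum fun l _ => sum_le_sum fun l' _ => h2 l l'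
      _ = (B.card : ℝ) ^ n * A * (n : ℝ) ^ 2 := by
          simp only [sum_const, card_univ, Fintype.card_fin, nsmul_eq_mul]
          ring
  -- the families that are not injective
  have hnon : ((P.filter fun β => ¬ Function.Injective β).card : ℝ) ≤ (B.card : ℝ) ^ n / 2 := by
    have h1 : ((P.filter fun β => ¬ Function.Injective β).card : ℝ) ≤
        ∑ l : Fin n, ∑ l' : Fin n, if l = l' then 0 else
          ∑ β ∈ P, (if β l = β l' then (1 : ℝ) else 0) := by
      have h2 : ((P.filter fun β => ¬ Function.Injective β).card : ℝ) =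
          ∑ β ∈ P, (if ¬ Function.Injective β then (1 : ℝ) else 0) := by
        rw [sum_boole]
      rw [h2]
      have h3 : ∑ l : Fin n, ∑ l' : Fin n, (if l = l' then 0 else
          ∑ β ∈ P, (if β l = β l' then (1 : ℝ) else 0)) =
          ∑ β ∈ P, ∑ l : Fin n, ∑ l' : Fin n, (if l = l' then 0 else
            (if β l = β l' then (1 : ℝ) else 0)) := by
        rw [sum_comm' (s := P) (t := fun _ => univ) (t' := univ) (s' := fun _ => P) (by simp)]
        refine sum_congr rfl fun l _ => ?_
        rw [sum_comm' (s := P) (t := fun _ => univ) (t' := univ) (s' := fun _ => P) (by simp)]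
        refine sum_congr rfl fun l' _ => ?_
        split_ifs
        · simp
        · rfl
      rw [h3]
      refine sum_le_sum fun β _ => ?_
      have hnn : ∀ l l' : Fin n, (0 : ℝ) ≤ (if l = l' then 0 else
            (if β l = β l' then (1 : ℝ) else 0)) := fun l l' => by split_ifs <;> norm_num
      by_cases hβ : Function.Injective β
      · rw [if_neg (not_not.mpr hβ)]
        exact sum_nonneg fun l _ => sum_nonneg fun l' _ => hnn l l'
      · rw [if_pos hβ]
        rw [Function.Injective] at hβ
        push Not at hβ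
        obtain ⟨l, l', h4, h5⟩ := hβ
        calc (1 : ℝ) = (if l = l' then 0 else (if β l = β l' then (1 : ℝ) else 0)) := by
              rw [if_neg h5, if_pos h4]
          _ ≤ ∑ l' : Fin n, (if l = l' then 0 else (if β l = β l' then (1 : ℝ) else 0)) :=
              single_le_sum (f := fun l' => if l = l' then (0 : ℝ) else
                (if β l = β l' then (1 : ℝ) else 0)) (fun l' _ => hnn l l') (mem_univ l')
          _ ≤ _ := single_le_sum (f := fun l => ∑ l' : Fin n, if l = l' then (0 : ℝ) else
                (if β l = β l' then (1 : ℝ) else 0))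
                (fun l _ => sum_nonneg fun l' _ => hnn l l') (mem_univ l)
    have h4 : ∀ l l' : Fin n, (if l = l' then (0 : ℝ) else
        ∑ β ∈ P, (if β l = β l' then (1 : ℝ) else 0)) ≤ (B.card : ℝ) ^ n / B.card := by
      intro l l'
      split_ifs with hl
      · positivity
      · have h5 := pair_sum B hl (fun x y => if x = y then (1 : ℝ) else 0)
        have h6 : ∑ x ∈ B, ∑ y ∈ B, (if x = y then (1 : ℝ) else 0) = B.card := by
          have : ∀ x ∈ B, ∑ y ∈ B, (if x = y then (1 : ℝ) else 0) = 1 := by
            intro x hx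
            rw [sum_ite_eq, if_pos hx]
          rw [sum_congr rfl this]
          simp
        rw [h6] at h5
        rw [le_div_iff₀ hNr]
        have h7 : (B.card : ℝ) * ((∑ β ∈ P, if β l = β l' then (1 : ℝ) else 0) * B.card) =
            (B.card : ℝ) * (B.card : ℝ) ^ n := by
          rw [mul_comm (B.card : ℝ) ((B.card : ℝ) ^ n), ← h5]
          ring
        exact le_of_eq (mul_left_cancel₀ hNr.ne' h7)
    refine h1.trans ?_
    calc ∑ l : Fin n, ∑ l' : Fin n, (if l = l' then (0 : ℝ) else
          ∑ β ∈ P, (if β l = β l' then (1 : ℝ) else 0)) ≤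
          ∑ l : Fin n, ∑ l' : Fin n, (B.card : ℝ) ^ n / B.card :=
          sum_le_sum fun l _ => sum_le_sum fun l' _ => h4 l l'
      _ = (n : ℝ) ^ 2 * ((B.card : ℝ) ^ n / B.card) := by
          simp only [sum_const, card_univ, Fintype.card_fin, nsmul_eq_mul]
          ring
      _ ≤ (B.card : ℝ) ^ n / 2 := by
          have h5 : (2 : ℝ) * (n : ℝ) ^ 2 ≤ B.card := by exact_mod_cast hn
          have h6 : (0 : ℝ) ≤ (B.card : ℝ) ^ n := by positivity
          rw [← mul_div_assoc, div_le_div_iff₀ hNr (by norm_num)]
          nlinarith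
  have hcard : (P.card : ℝ) = ((P.filter fun β => Function.Injective β).card : ℝ) +
      ((P.filter fun β => ¬ Function.Injective β).card : ℝ) := by
    have := card_filter_add_card_filter_not (s := P) (fun β => Function.Injective β)
    exact_mod_cast this.symm
  have hinj : (B.card : ℝ) ^ n / 2 ≤ ((P.filter fun β => Function.Injective β).card : ℝ) := by
    rw [hPc] at hcard
    linarith
  have hpos : (0 : ℝ) < (B.card : ℝ) ^ n := by positivity
  by_contra hcon
  push Not at hcon
  have hne : (P.filter fun β => Function.Injective β).Nonempty := by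
    rw [← card_pos]
    have : (0 : ℝ) < ((P.filter fun β => Function.Injective β).card : ℝ) := by linarith
    exact_mod_cast this
  have h1 : ∑ β ∈ P.filter (fun β => Function.Injective β), 4 * A <
      ∑ β ∈ P.filter (fun β => Function.Injective β), S β := by
    apply sum_lt_sum_of_nonempty hne
    intro β hβ
    rw [mem_filter, hP, Fintype.mem_piFinset] at hβ
    exact hcon β hβ.2 hβ.1
  have h2 : ∑ β ∈ P.filter (fun β => Function.Injective β), S β ≤ ∑ β ∈ P, S β :=
    sum_le_sum_of_subset_of_nonneg (filter_subset _ _) fun β _ _ => hS0 β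
  rw [sum_const, nsmul_eq_mul] at h1
  have h3 : (B.card : ℝ) ^ n / 2 * (4 * A) ≤
      ((P.filter fun β => Function.Injective β).card : ℝ) * (4 * A) :=
    mul_le_mul_of_nonneg_right hinj (by linarith)
  nlinarith [mul_nonneg hpos.le hA0]

end Pool.Agent.R134.PB.Cho
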