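import Pool.Agent.R134.PB.Stm2

/-!
# Project PB: small scales
-/

set_option autoImplicit false

namespace Pool.Agent.R134.PB.Sta

open Finset Equiv
open Pool.Agent.Y998.ST
open Pool.Agent.Y661.PD (dl Free tdist)

theorem con_self {V : Type} [Fintype V] [DecidableEq V] (J : V → V → ℝ) (t : ℝ) (x : V) :
    con J t x x = 1 := by
  unfold con
  have h : (fun g : Perm V => open Classical in if g.SameCycle x x then (1 : ℝ) else 0) =
      fun _ => 1 := by
    funext g
    rw [if_pos (Perm.SameCycle.refl g x)]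
  rw [h, exp_const]

theorem main : S_TP → (S_MOM ∧ S_GEO) → S_STA := by
  intro hTP hMG d hd
  obtain ⟨hMOM, hGEO⟩ := hMG
  obtain ⟨C1, hC1, h1⟩ := hTP d (by omega)
  obtain ⟨C2, hC2, h2⟩ := hMOM d
  have hd1 : (1 : ℝ) ≤ d := by exact_mod_cast (show 1 ≤ d by omega)
  refine ⟨C1 * C2 + C1 * d, by positivity, fun L _ hL t s ht hs => ?_⟩
  have hst : 0 < Real.sqrt t := Real.sqrt_pos.2 ht
  have hJ0 : ∀ x y, 0 ≤ nnRate d L x y := nn_nonneg
  have hN : (0 : ℝ) < Fintype.card (Fin d → ZMod L) := by exact_mod_cast Fintype.card_pos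
  have hlow : ∀ x y : Fin d → ZMod L,
      1 / 2 - C1 * tdist x y / Real.sqrt t ≤ con (nnRate d L) t x y := by
    intro x y
    have hp : 0 ≤ C1 * (tdist x y : ℝ) / Real.sqrt t := by positivity
    by_cases hxy : x = y
    · subst hxy
      rw [con_self]
      linarith
    · have := (abs_le.1 (h1 L hL t ht x y hxy)).1
      linarith
  have key : ∀ c : ℝ, (∀ x : Fin d → ZMod L,
      ∑ y, qq (nnRate d L) s x y * (tdist x y : ℝ) ≤ c) →
      1 / 2 - C1 * (c / Real.sqrt t) ≤ AA (nnRate d L) t s := by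
    intro c hc
    unfold AA
    rw [le_div_iff₀ hN]
    have h3 : ∀ x : Fin d → ZMod L, 1 / 2 - C1 * (c / Real.sqrt t) ≤
        ∑ y, qq (nnRate d L) s x y * con (nnRate d L) t x y := by
      intro x
      have h4 : ∑ y, qq (nnRate d L) s x y * (1 / 2 - C1 * tdist x y / Real.sqrt t) ≤
          ∑ y, qq (nnRate d L) s x y * con (nnRate d L) t x y :=
        Finset.sum_le_sum fun y _ => mul_le_mul_of_nonneg_left (hlow x y) (qq_nonneg hJ0 hs x y)
      refine le_trans ?_ h4
      have h5 : ∑ y, qq (nnRate d L) s x y * (1 / 2 - C1 * tdist x y / Real.sqrt t) =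
          1 / 2 - C1 / Real.sqrt t * ∑ y, qq (nnRate d L) s x y * (tdist x y : ℝ) := by
        have h6 : ∀ y, qq (nnRate d L) s x y * (1 / 2 - C1 * tdist x y / Real.sqrt t) =
            qq (nnRate d L) s x y * (1 / 2) - C1 / Real.sqrt t *
              (qq (nnRate d L) s x y * (tdist x y : ℝ)) := by
          intro y
          ring
        rw [Finset.sum_congr rfl fun y _ => h6 y, Finset.sum_sub_distrib, ← Finset.sum_mul,
          qq_row, ← Finset.mul_sum]
        ring
      rw [h5]
      have h7 := mul_le_mul_of_nonneg_left (hc x) (by positivity : 0 ≤ C1 / Real.sqrt t)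
      have h8 : C1 * (c / Real.sqrt t) = C1 / Real.sqrt t * c := by ring
      rw [h8]
      linarith
    calc (1 / 2 - C1 * (c / Real.sqrt t)) * Fintype.card (Fin d → ZMod L) =
        ∑ _x : Fin d → ZMod L, (1 / 2 - C1 * (c / Real.sqrt t)) := by
          rw [Finset.sum_const, Finset.card_univ, nsmul_eq_mul, mul_comm]
      _ ≤ _ := Finset.sum_le_sum fun x _ => h3 x
  constructor
  · refine le_trans ?_ (key (C2 * Real.sqrt s) fun x => (h2 L hL s hs x).1)
    have h9 : C1 * (C2 * Real.sqrt s / Real.sqrt t) =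
        C1 * C2 * (Real.sqrt s / Real.sqrt t) := by ring
    rw [h9]
    have h10 : 0 ≤ C1 * d * (Real.sqrt s / Real.sqrt t) := by positivity
    nlinarith
  · refine le_trans ?_ (key (d * L) fun x => ?_)
    · have h9 : C1 * ((d : ℝ) * L / Real.sqrt t) = C1 * d * (L / Real.sqrt t) := by ring
      rw [h9]
      have h10 : 0 ≤ C1 * C2 * (L / Real.sqrt t) := by positivity
      nlinarith
    · have h11 : ∑ y, qq (nnRate d L) s x y * (tdist x y : ℝ) ≤
          ∑ y, qq (nnRate d L) s x y * ((d : ℝ) * L) := by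
        refine Finset.sum_le_sum fun y _ => mul_le_mul_of_nonneg_left ?_ (qq_nonneg hJ0 hs x y)
        exact_mod_cast (hGEO d L).2.2.2.1 x y
      rwa [← Finset.sum_mul, qq_row, one_mul] at h11

end Pool.Agent.R134.PB.Sta
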