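import Pool.Agent.R134.PB.Stm3
import Pool.Agent.R134.PB.Sta

/-!
# Project PB: comparison of two sets of points
-/

set_option autoImplicit false

namespace Pool.Agent.R134.PB.Cmp

open Finset Equiv
open Pool.Agent.Y998.ST
open Pool.Agent.TH268.PD (Cyc cyOf)

section gen

variable {V : Type} [Fintype V] [DecidableEq V]

open Classical in
theorem bf_eq (B : Finset V) (g : Perm V) (γ : Cyc g) :
    bf B g γ = (∑ x ∈ B, if cyOf g x = γ then (1 : ℝ) else 0) / B.card := by
  unfold bf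
  congr 1
  rw [Nat.card_eq_fintype_card, Fintype.card_subtype, ← Finset.sum_filter, Finset.sum_const,
    nsmul_eq_mul, mul_one]
  congr 2
  ext x
  simp

open Classical in
theorem prod_eq (B B' : Finset V) (g : Perm V) :
    ∑ᶠ γ : Cyc g, bf B g γ * bf B' g γ =
      (∑ x ∈ B, ∑ y ∈ B', if g.SameCycle x y then (1 : ℝ) else 0) / (B.card * B'.card) := by
  have hfin : Finite (Cyc g) := Quotient.finite _
  have : Fintype (Cyc g) := Fintype.ofFinite _
  rw [finsum_eq_sum_of_fintype]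
  simp only [bf_eq]
  have h1 : ∀ γ : Cyc g, (∑ x ∈ B, if cyOf g x = γ then (1 : ℝ) else 0) / B.card *
      ((∑ x ∈ B', if cyOf g x = γ then (1 : ℝ) else 0) / B'.card) =
      (∑ x ∈ B, ∑ y ∈ B', (if cyOf g x = γ then (1 : ℝ) else 0) *
        (if cyOf g y = γ then (1 : ℝ) else 0)) / (B.card * B'.card) := by
    intro γ
    rw [div_mul_div_comm, Finset.sum_mul_sum]
  rw [Finset.sum_congr rfl fun γ _ => h1 γ, ← Finset.sum_div, Finset.sum_comm]
  congr 1
  refine Finset.sum_congr rfl fun x _ => ?_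
  rw [Finset.sum_comm]
  refine Finset.sum_congr rfl fun y _ => ?_
  have h2 : ∀ γ : Cyc g, (if cyOf g x = γ then (1 : ℝ) else 0) *
      (if cyOf g y = γ then (1 : ℝ) else 0) =
      if cyOf g x = γ then (if cyOf g y = cyOf g x then (1 : ℝ) else 0) else 0 := by
    intro γ
    by_cases h : cyOf g x = γ
    · subst h
      simp
    · rw [if_neg h, if_neg h, zero_mul]
  rw [Finset.sum_congr rfl fun γ _ => h2 γ, Finset.sum_ite_eq, if_pos (Finset.mem_univ _)]
  have h3 : cyOf g y = cyOf g x ↔ g.SameCycle x y := by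
    rw [eq_comm]
    exact Quotient.eq
  simp only [h3]

theorem exp_div (J : V → V → ℝ) (t : ℝ) (F : Perm V → ℝ) (c : ℝ) :
    stirExp J t (fun g => F g / c) = stirExp J t F / c := by
  unfold stirExp
  rw [Finset.sum_div]
  exact Finset.sum_congr rfl fun g _ => by ring

theorem exp_finsum (J : V → V → ℝ) (t : ℝ) (B B' : Finset V) (F : V → V → Perm V → ℝ) :
    stirExp J t (fun g => ∑ x ∈ B, ∑ y ∈ B', F x y g) =
      ∑ x ∈ B, ∑ y ∈ B', stirExp J t (F x y) := by
  unfold stirExp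
  simp only [Finset.mul_sum]
  rw [Finset.sum_comm]
  refine Finset.sum_congr rfl fun x _ => ?_
  rw [Finset.sum_comm]

theorem exp_prod (J : V → V → ℝ) (t : ℝ) (B B' : Finset V) :
    stirExp J t (fun g => ∑ᶠ γ : Cyc g, bf B g γ * bf B' g γ) =
      (∑ x ∈ B, ∑ y ∈ B', con J t x y) / (B.card * B'.card) := by
  classical
  have h1 : (fun g : Perm V => ∑ᶠ γ : Cyc g, bf B g γ * bf B' g γ) =
      fun g : Perm V => (∑ x ∈ B, ∑ y ∈ B', if g.SameCycle x y then (1 : ℝ) else 0) /
        (B.card * B'.card) := by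
    funext g
    rw [prod_eq]
  rw [h1, exp_div, exp_finsum]
  congr 1

theorem upper {J : V → V → ℝ} {t η : ℝ} {B : Finset V} (hB : B.Nonempty) (hη : 0 ≤ η)
    (h : Near J t η B B) :
    (∑ x ∈ B, ∑ y ∈ B, con J t x y) / (B.card * B.card) ≤ 1 / 2 + η + 1 / B.card := by
  classical
  have hc : (0 : ℝ) < B.card := by exact_mod_cast hB.card_pos
  rw [div_le_iff₀ (by positivity)]
  have h1 : ∀ x ∈ B, ∀ y ∈ B, con J t x y ≤ 1 / 2 + η + (if x = y then 1 else 0) := by
    intro x hx y hy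
    by_cases hxy : x = y
    · rw [if_pos hxy]
      subst hxy
      rw [Sta.con_self]
      linarith
    · rw [if_neg hxy]
      have := (abs_le.1 (h x hx y hy hxy)).2
      linarith
  refine (Finset.sum_le_sum fun x hx => Finset.sum_le_sum fun y hy => h1 x hx y hy).trans ?_
  have h2 : ∀ x ∈ B, ∑ y ∈ B, ((1 : ℝ) / 2 + η + (if x = y then 1 else 0)) =
      B.card * (1 / 2 + η) + 1 := by
    intro x hx
    rw [Finset.sum_add_distrib, Finset.sum_const, nsmul_eq_mul, Finset.sum_ite_eq, if_pos hx]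
  rw [Finset.sum_congr rfl h2, Finset.sum_const, nsmul_eq_mul]
  apply le_of_eq
  field_simp

theorem lower {J : V → V → ℝ} {t η : ℝ} {B B' : Finset V} (hB : B.Nonempty) (hB' : B'.Nonempty)
    (hη : 0 ≤ η) (h : Near J t η B B') :
    1 / 2 - η ≤ (∑ x ∈ B, ∑ y ∈ B', con J t x y) / (B.card * B'.card) := by
  have hc : (0 : ℝ) < B.card := by exact_mod_cast hB.card_pos
  have hc' : (0 : ℝ) < B'.card := by exact_mod_cast hB'.card_pos
  rw [le_div_iff₀ (by positivity)]
  have h1 : ∀ x ∈ B, ∀ y ∈ B', 1 / 2 - η ≤ con J t x y := by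
    intro x hx y hy
    by_cases hxy : x = y
    · subst hxy
      rw [Sta.con_self]
      linarith
    · have := (abs_le.1 (h x hx y hy hxy)).1
      linarith
  refine le_trans (le_of_eq ?_) (Finset.sum_le_sum fun x hx =>
    Finset.sum_le_sum fun y hy => h1 x hx y hy)
  rw [Finset.sum_const, Finset.sum_const, nsmul_eq_mul, nsmul_eq_mul]
  ring

end gen

theorem main : S_CMP := by
  intro V _ _ J hJ t η ht hη B B' hB hB' h1 h2 h3
  have e1 : stirExp J t (fun g => ∑ᶠ γ : Cyc g, (bf B g γ - bf B' g γ) ^ 2) =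
      stirExp J t (fun g => ∑ᶠ γ : Cyc g, bf B g γ * bf B g γ) +
      stirExp J t (fun g => ∑ᶠ γ : Cyc g, bf B' g γ * bf B' g γ) -
      2 * stirExp J t (fun g => ∑ᶠ γ : Cyc g, bf B g γ * bf B' g γ) := by
    unfold stirExp
    rw [Finset.mul_sum, ← Finset.sum_add_distrib, ← Finset.sum_sub_distrib]
    refine Finset.sum_congr rfl fun g _ => ?_
    have hfin : Finite (Cyc g) := Quotient.finite _
    have : Fintype (Cyc g) := Fintype.ofFinite _
    simp only [finsum_eq_sum_of_fintype]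
    have h4 : ∑ γ : Cyc g, (bf B g γ - bf B' g γ) ^ 2 = ∑ γ : Cyc g, bf B g γ * bf B g γ +
        ∑ γ : Cyc g, bf B' g γ * bf B' g γ - 2 * ∑ γ : Cyc g, bf B g γ * bf B' g γ := by
      rw [Finset.mul_sum, ← Finset.sum_add_distrib, ← Finset.sum_sub_distrib]
      exact Finset.sum_congr rfl fun γ _ => by ring
    rw [h4]
    ring
  rw [e1, exp_prod, exp_prod, exp_prod]
  have h4 := upper hB hη h1
  have h5 := upper hB' hη h2
  have h6 := lower hB hB' hη h3
  linarith

end Pool.Agent.R134.PB.Cmp
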