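import Pool.Agent.R134.PB.Stm
import Pool.Agent.Y998.LQ.Final

/-!
# Project PB: the law changes little under transpositions
-/

set_option autoImplicit false

namespace Pool.Agent.R134.PB.Dl

open Finset Equiv
open Pool.Agent.Y998.ST
open Pool.Agent.Y661.PD (dl Free tdist)

theorem dl_eq {V : Type} [Fintype V] [DecidableEq V] (J : V → V → ℝ) (t : ℝ) (x y : V) :
    Pool.Agent.Y998.LP.NN J t (swap x y) = dl J t (swap x y) := by
  unfold Pool.Agent.Y998.LP.NN dl
  rw [swap_inv]

theorem main : Pool.Agent.R134.PB.S_DL := by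
  intro d hd
  obtain ⟨C, hC, h⟩ := Pool.Agent.Y998.LQ.t_dist d hd
  refine ⟨C, hC, fun L _ hL t ht x y => ?_⟩
  have h1 := h L hL t ht x y
  rw [dl_eq] at h1
  exact h1

end Pool.Agent.R134.PB.Dl
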