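import Pool.Agent.R134.PB.Stm
import Pool.Agent.Y799.PD.PR2

/-!
# Project PB: the contribution of fixed points `b`
-/

set_option autoImplicit false

namespace Pool.Agent.R134.PB.Fix

open Finset Equiv
open Pool.Agent.Y998.ST
open Pool.Agent.Y661.PD (dl Free tdist)
open Pool.Agent.Y799.PD.PR2 (qq_col)

section lemmas

variable {V : Type} [Fintype V] [DecidableEq V]

theorem ex_add (J : V → V → ℝ) (t : ℝ) (F G : Perm V → ℝ) :
    stirExp J t (fun g => F g + G g) = stirExp J t F + stirExp J t G := by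
  unfold stirExp
  rw [← Finset.sum_add_distrib]
  exact Finset.sum_congr rfl fun g _ => mul_add _ _ _

theorem ex_sub (J : V → V → ℝ) (t : ℝ) (F G : Perm V → ℝ) :
    stirExp J t (fun g => F g - G g) = stirExp J t F - stirExp J t G := by
  unfold stirExp
  rw [← Finset.sum_sub_distrib]
  exact Finset.sum_congr rfl fun g _ => mul_sub _ _ _

theorem ex_mul (J : V → V → ℝ) (t c : ℝ) (F : Perm V → ℝ) :
    stirExp J t (fun g => c * F g) = c * stirExp J t F := by
  unfold stirExp
  rw [Finset.mul_sum]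
  exact Finset.sum_congr rfl fun g _ => by ring

theorem ex_div (J : V → V → ℝ) (t c : ℝ) (F : Perm V → ℝ) :
    stirExp J t (fun g => F g / c) = stirExp J t F / c := by
  unfold stirExp
  rw [Finset.sum_div]
  exact Finset.sum_congr rfl fun g _ => by ring

theorem ex_abs {J : V → V → ℝ} (hJ : ∀ x y, 0 ≤ J x y) {t : ℝ} (ht : 0 ≤ t) (F : Perm V → ℝ) :
    |stirExp J t F| ≤ stirExp J t (fun g => |F g|) := by
  unfold stirExp
  refine (Finset.abs_sum_le_sum_abs _ _).trans (Finset.sum_le_sum fun g _ => ?_)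
  rw [abs_mul, abs_of_nonneg (law_nonneg hJ ht g)]

theorem ex_comp (J : V → V → ℝ) (t : ℝ) (f : Perm V → V) (φ : V → ℝ) :
    stirExp J t (fun g => φ (f g)) =
      ∑ u, stirExp J t (fun g => if f g = u then 1 else 0) * φ u := by
  unfold stirExp
  simp only [Finset.sum_mul]
  rw [Finset.sum_comm]
  refine Finset.sum_congr rfl fun g _ => ?_
  rw [Finset.sum_eq_single (f g)]
  · rw [if_pos rfl, mul_one]
  · intro u _ hu
    rw [if_neg (Ne.symm hu), mul_zero, zero_mul]
  · intro h; exact absurd (Finset.mem_univ _) h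

theorem qq_sy {J : V → V → ℝ} (hs : ∀ x y, J x y = J y x) (h0 : ∀ x, J x x = 0) (t : ℝ)
    (a b : V) : qq J t a b = qq J t b a := by
  have h : ∀ u, qq J u = E (GG J) u := eq_E (qq_deriv hs h0) (qq_zero J)
  have hG : (GG J).transpose = GG J := by
    ext x y
    rw [Matrix.transpose_apply]
    unfold GG
    by_cases hxy : x = y
    · subst hxy; rfl
    · rw [if_neg hxy, if_neg (Ne.symm hxy), hs]
  have hE : (E (GG J) t).transpose = E (GG J) t := by
    unfold E
    rw [← Matrix.exp_transpose, Matrix.transpose_smul, hG]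
  rw [h]
  exact congrFun (congrFun hE b) a

theorem qq_add_le {J : V → V → ℝ} (hJ : ∀ x y, 0 ≤ J x y) (hs : ∀ x y, J x y = J y x)
    (h0 : ∀ x, J x x = 0) {s u : ℝ} (hu : 0 ≤ u) {S : ℝ} (hS : ∀ x y, qq J s x y ≤ S)
    (x y : V) : qq J (s + u) x y ≤ S := by
  rw [qq_add hs h0, Matrix.mul_apply]
  calc ∑ j, qq J s x j * qq J u j y ≤ ∑ j, S * qq J u j y :=
        Finset.sum_le_sum fun j _ => mul_le_mul_of_nonneg_right (hS x j) (qq_nonneg hJ hu j y)
    _ = S := by rw [← Finset.mul_sum, qq_col, mul_one]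

theorem HH_abs {J : V → V → ℝ} (hJ : ∀ x y, 0 ≤ J x y) {t s : ℝ} (ht : 0 ≤ t) (hs0 : 0 ≤ s)
    (K : ℕ) {n : ℕ} (b : Fin n → V) (l : Fin n) (x : V) (g : Perm V) :
    |HH J t s K b l x g| ≤ qq J s x ((g ^ K) (b l)) + qq J (s + K * t) x (b l) := by
  unfold HH
  have h1 := qq_nonneg hJ hs0 x ((g ^ K) (b l))
  have h2 := qq_nonneg hJ (t := s + K * t) (by positivity) x (b l)
  rw [abs_le]; constructor <;> linarith

theorem HH_sum {J : V → V → ℝ} (hJ : ∀ x y, 0 ≤ J x y) {t s : ℝ} (ht : 0 ≤ t) (hs0 : 0 ≤ s)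
    (K : ℕ) {n : ℕ} (b : Fin n → V) (l : Fin n) (g : Perm V) :
    ∑ x, |HH J t s K b l x g| ≤ 2 := by
  refine (Finset.sum_le_sum fun x _ => HH_abs hJ ht hs0 K b l x g).trans ?_
  rw [Finset.sum_add_distrib, qq_col, qq_col]
  norm_num

theorem HH_le {J : V → V → ℝ} (hJ : ∀ x y, 0 ≤ J x y) (hs : ∀ x y, J x y = J y x)
    (h0 : ∀ x, J x x = 0) {t s : ℝ} (ht : 0 ≤ t) (hs0 : 0 ≤ s) {S : ℝ}
    (hS : ∀ x y, qq J s x y ≤ S)
    (K : ℕ) {n : ℕ} (b : Fin n → V) (l : Fin n) (x : V) (g : Perm V) :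
    |HH J t s K b l x g| ≤ S := by
  unfold HH
  have h1 := qq_nonneg hJ hs0 x ((g ^ K) (b l))
  have h2 := qq_nonneg hJ (t := s + K * t) (by positivity) x (b l)
  have h3 := hS x ((g ^ K) (b l))
  have h4 := qq_add_le hJ hs h0 (s := s) (u := K * t) (by positivity) hS x (b l)
  rw [abs_le]; constructor <;> linarith

theorem hh_HH (J : V → V → ℝ) (t s : ℝ) (K : ℕ) {n : ℕ} (b : Fin n → V) (l : Fin n) (x : V)
    (g : Perm V) : |hh J t s K b l x g| ≤ |HH J t s K b l x g| := by
  classical
  unfold hh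
  by_cases h : Free b g (b l) K
  · rw [if_pos h]
  · rw [if_neg h, abs_zero]; exact abs_nonneg _

/-- outside of `B` -/
theorem outside {J : V → V → ℝ} (hJ : ∀ x y, 0 ≤ J x y) (hs : ∀ x y, J x y = J y x)
    (h0 : ∀ x, J x x = 0) {t s : ℝ} (ht : 0 ≤ t) (hs0 : 0 ≤ s) (K : ℕ) {n : ℕ} (b : Fin n → V)
    (B : Finset V) (e1 τ : ℝ) (l : Fin n) (hPD : PD1 J t K (b l) ≤ e1)
    (hτ : ∑ x ∈ Bᶜ, qq J (s + K * t) x (b l) ≤ τ) :
    stirExp J t (fun g => ∑ x ∈ Bᶜ, |hh J t s K b l x g|) ≤ 2 * τ + e1 := by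
  set φ : V → ℝ := fun u => ∑ x ∈ Bᶜ, qq J s x u with hφ
  have hφ0 : ∀ u, 0 ≤ φ u := fun u => Finset.sum_nonneg fun x _ => qq_nonneg hJ hs0 x u
  have hφ1 : ∀ u, φ u ≤ 1 := fun u => by
    rw [← qq_col J s u]
    exact Finset.sum_le_sum_of_subset_of_nonneg (Finset.subset_univ _)
      fun x _ _ => qq_nonneg hJ hs0 x u
  have h1 : stirExp J t (fun g => ∑ x ∈ Bᶜ, |hh J t s K b l x g|) ≤
      stirExp J t (fun g => φ ((g ^ K) (b l)) + τ) := by
    refine exp_mono hJ ht fun g => ?_
    refine (Finset.sum_le_sum fun x _ => (hh_HH J t s K b l x g).trans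
      (HH_abs hJ ht hs0 K b l x g)).trans ?_
    rw [Finset.sum_add_distrib]
    exact add_le_add le_rfl hτ
  refine h1.trans ?_
  rw [ex_add, exp_const, ex_comp]
  have h2 : ∑ u, stirExp J t (fun g => if (g ^ K) (b l) = u then 1 else 0) * φ u ≤
      ∑ u, (qq J (K * t) (b l) u * φ u +
        |stirExp J t (fun g => if (g ^ K) (b l) = u then 1 else 0) - qq J (K * t) (b l) u|) := by
    refine Finset.sum_le_sum fun u _ => ?_
    have h3 := le_abs_self
      (stirExp J t (fun g => if (g ^ K) (b l) = u then 1 else 0) - qq J (K * t) (b l) u)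
    have h4 := abs_nonneg
      (stirExp J t (fun g => if (g ^ K) (b l) = u then 1 else 0) - qq J (K * t) (b l) u)
    nlinarith [hφ0 u, hφ1 u]
  have h5 : ∑ u, qq J (K * t) (b l) u * φ u = ∑ x ∈ Bᶜ, qq J (s + K * t) x (b l) := by
    simp only [hφ, Finset.mul_sum]
    rw [Finset.sum_comm]
    refine Finset.sum_congr rfl fun x _ => ?_
    rw [qq_add hs h0, Matrix.mul_apply]
    refine Finset.sum_congr rfl fun u _ => ?_
    rw [qq_sy hs h0 (K * t) (b l) u, mul_comm]
  rw [Finset.sum_add_distrib, h5] at h2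
  have h6 : ∑ u, |stirExp J t (fun g => if (g ^ K) (b l) = u then 1 else 0) -
      qq J (K * t) (b l) u| ≤ e1 := hPD
  linarith

end lemmas

open Classical in
/-- at most one thread contains `x` -/
theorem thread_le (hTHR : S_THR) {V : Type} [Fintype V] [DecidableEq V] {n : ℕ} (b : Fin n → V)
    (hb : Function.Injective b) (g : Perm V) (x : V) (a : Fin n → ℝ) {S : ℝ} (hS0 : 0 ≤ S)
    (ha : ∀ l, |a l| ≤ S) : |∑ l, (if OnT b g x l then (1 : ℝ) else 0) * a l| ≤ S := by
  by_cases hex : ∃ m, OnT b g x m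
  · obtain ⟨m, hm⟩ := hex
    rw [Finset.sum_eq_single m]
    · rw [if_pos hm, one_mul]; exact ha m
    · intro l _ hl
      rw [if_neg (fun h => hl ((hTHR V n b hb g).1 x l m h hm)), zero_mul]
    · intro h; exact absurd (Finset.mem_univ _) h
  · have : ∀ l, (if OnT b g x l then (1 : ℝ) else 0) * a l = 0 := fun l => by
      rw [if_neg (fun h => hex ⟨l, h⟩), zero_mul]
    simp only [this, Finset.sum_const_zero, abs_zero]
    exact hS0

open Classical in
/-- FIX: the contribution of fixed points `b`. -/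
theorem main : S_THR → S_SYM → S_LLN → S_FIX := by
  intro hTHR hSYM hLLN V _ _ J hJ hs h0 t s ht hs0 K n hn b hb B S e1 e3 η τ hS0 hη hS hPD hFree
    hdl hτ
  have hnpos : (0 : ℝ) < n := by exact_mod_cast hn
  set F1 : Perm V → ℝ := fun g =>
    (∑ l, ∑ x, (if g.SameCycle x (b l) then hh J t s K b l x g else 0)) / n with hF1
  set G : Perm V → ℝ := fun g => (∑ l, ∑ x, ((if ∃ m, OnT b g x m then (1 : ℝ) else 0) +
      (if OnT b g x l then 1 else 0)) / 2 * hh J t s K b l x g) / n with hG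
  have hhh : ∀ l g, ∑ x, |hh J t s K b l x g| ≤ 2 := fun l g =>
    (Finset.sum_le_sum fun x _ => hh_HH J t s K b l x g).trans (HH_sum hJ ht hs0 K b l g)
  have hhS : ∀ l x g, |hh J t s K b l x g| ≤ S := fun l x g =>
    (hh_HH J t s K b l x g).trans (HH_le hJ hs h0 ht hs0 hS K b l x g)
  -- (i)
  have hi : |UF J t s K b - stirExp J t F1| ≤ 2 * e3 := by
    unfold UF
    rw [← ex_sub]
    refine (ex_abs hJ ht _).trans ?_
    have h1 : ∀ g : Perm V, |(∑ l, ∑ x, (if g.SameCycle x (b l) then HH J t s K b l x g else 0)) / n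
        - F1 g| ≤ (∑ l, 2 * (if Free b g (b l) K then (0 : ℝ) else 1)) / n := by
      intro g
      rw [hF1]
      simp only
      rw [← sub_div, abs_div, abs_of_pos hnpos]
      refine div_le_div_of_nonneg_right ?_ hnpos.le
      rw [← Finset.sum_sub_distrib]
      refine (Finset.abs_sum_le_sum_abs _ _).trans (Finset.sum_le_sum fun l _ => ?_)
      rw [← Finset.sum_sub_distrib]
      by_cases hf : Free b g (b l) K
      · have h2 : ∀ x, hh J t s K b l x g = HH J t s K b l x g := fun x => if_pos hf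
        simp only [h2, sub_self, Finset.sum_const_zero, abs_zero]
        rw [if_pos hf, mul_zero]
      · have h2 : ∀ x, hh J t s K b l x g = 0 := fun x => if_neg hf
        rw [if_neg hf, mul_one]
        refine (Finset.abs_sum_le_sum_abs _ _).trans
          ((Finset.sum_le_sum fun x _ => ?_).trans (HH_sum hJ ht hs0 K b l g))
        rw [h2]
        split_ifs
        · rw [sub_zero]
        · rw [sub_zero, abs_zero]; exact abs_nonneg _
    refine (exp_mono hJ ht h1).trans ?_
    rw [ex_div, ← exp_sum, div_le_iff₀ hnpos]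
    have h3 : ∀ l ∈ (Finset.univ : Finset (Fin n)),
        stirExp J t (fun g => 2 * (if Free b g (b l) K then (0 : ℝ) else 1)) ≤ 2 * e3 := by
      intro l _
      rw [ex_mul]
      have := hFree l
      linarith
    refine (Finset.sum_le_sum h3).trans ?_
    rw [Finset.sum_const, Finset.card_univ, Fintype.card_fin, nsmul_eq_mul]
    exact le_of_eq (by ring)
  -- (ii)
  have hii : |stirExp J t F1 - stirExp J t G| ≤ n * (2 * η) := by
    refine hSYM V J hJ t ht n b hb η hη hdl (fun l x g => hh J t s K b l x g) ?_ 2 zero_le_two hhh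
    intro i j l x g
    have h4 := (hTHR V n b hb g).2.2.2 i j (b l) K
    show (if Free b (swap (b i) (b j) * g) (b l) K then
      HH J t s K b l x (swap (b i) (b j) * g) else 0) =
      (if Free b g (b l) K then HH J t s K b l x g else 0)
    by_cases hf : Free b g (b l) K
    · rw [if_pos hf, if_pos (h4.1.2 hf)]
      unfold HH
      rw [h4.2 hf K le_rfl]
    · rw [if_neg hf, if_neg (fun h => hf (h4.1.1 h))]
  -- (iii)
  have hiii : |stirExp J t G| ≤ Real.sqrt (B.card * S * (2 / n + 2 * ((∑ l, ∑ l',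
      if l = l' then 0 else PD2 J t K (b l) (b l')) / (n : ℝ) ^ 2) + 4 * e3)) / 2 +
      B.card * S / (2 * n) + (2 * τ + e1) := by
    refine (ex_abs hJ ht _).trans ?_
    have h1 : ∀ g : Perm V, |G g| ≤ ((∑ x ∈ B, |(∑ l, hh J t s K b l x g) / n|) / 2 +
        B.card * S / (2 * n)) + (∑ l, ∑ x ∈ Bᶜ, |hh J t s K b l x g|) / n := by
      intro g
      rw [hG]
      simp only
      rw [Finset.sum_comm, abs_div, abs_of_pos hnpos]
      have h2 : ∀ x ∈ B, |∑ l, ((if ∃ m, OnT b g x m then (1 : ℝ) else 0) +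
          (if OnT b g x l then 1 else 0)) / 2 * hh J t s K b l x g| ≤
          |∑ l, hh J t s K b l x g| / 2 + S / 2 := by
        intro x _
        have h3 : ∑ l, ((if ∃ m, OnT b g x m then (1 : ℝ) else 0) +
          (if OnT b g x l then 1 else 0)) / 2 * hh J t s K b l x g =
          (if ∃ m, OnT b g x m then (1 : ℝ) else 0) * (∑ l, hh J t s K b l x g) / 2 +
          (∑ l, (if OnT b g x l then (1 : ℝ) else 0) * hh J t s K b l x g) / 2 := by
          rw [← add_div, Finset.mul_sum, ← Finset.sum_add_distrib, Finset.sum_div]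
          exact Finset.sum_congr rfl fun l _ => by ring
        rw [h3]
        have h4 := thread_le hTHR b hb g x (fun l => hh J t s K b l x g) hS0
          (fun l => hhS l x g)
        have h5 : |(if ∃ m, OnT b g x m then (1 : ℝ) else 0) * (∑ l, hh J t s K b l x g)| ≤
            |∑ l, hh J t s K b l x g| := by
          split_ifs
          · rw [one_mul]
          · rw [zero_mul, abs_zero]; exact abs_nonneg _
        refine (abs_add_le _ _).trans ?_
        rw [abs_div, abs_div, abs_of_pos (zero_lt_two' ℝ)]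
        exact add_le_add (div_le_div_of_nonneg_right h5 zero_le_two)
          (div_le_div_of_nonneg_right h4 zero_le_two)
      have h6 : ∀ x ∈ Bᶜ, |∑ l, ((if ∃ m, OnT b g x m then (1 : ℝ) else 0) +
          (if OnT b g x l then 1 else 0)) / 2 * hh J t s K b l x g| ≤
          ∑ l, |hh J t s K b l x g| := by
        intro x _
        refine (Finset.abs_sum_le_sum_abs _ _).trans (Finset.sum_le_sum fun l _ => ?_)
        rw [abs_mul]
        refine mul_le_of_le_one_left (abs_nonneg _) ?_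
        split_ifs <;> norm_num
      have h7 : |∑ x, ∑ l, ((if ∃ m, OnT b g x m then (1 : ℝ) else 0) +
          (if OnT b g x l then 1 else 0)) / 2 * hh J t s K b l x g| ≤
          (∑ x ∈ B, (|∑ l, hh J t s K b l x g| / 2 + S / 2)) +
            ∑ x ∈ Bᶜ, ∑ l, |hh J t s K b l x g| := by
        refine (Finset.abs_sum_le_sum_abs _ _).trans ?_
        rw [← Finset.sum_add_sum_compl B]
        exact add_le_add (Finset.sum_le_sum h2) (Finset.sum_le_sum h6)
      refine (div_le_div_of_nonneg_right h7 hnpos.le).trans ?_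
      rw [Finset.sum_comm (s := Bᶜ)]
      refine le_of_eq ?_
      rw [add_div]
      congr 1
      rw [Finset.sum_add_distrib, Finset.sum_const, nsmul_eq_mul, add_div, Finset.sum_div,
        Finset.sum_div]
      congr 1
      · refine Finset.sum_congr rfl fun x _ => ?_
        rw [abs_div, abs_of_pos hnpos]
        ring
      · field_simp
    refine (exp_mono hJ ht h1).trans ?_
    have h12 : stirExp J t (fun g => ∑ l, ∑ x ∈ Bᶜ, |hh J t s K b l x g|) =
        ∑ l, stirExp J t (fun g => ∑ x ∈ Bᶜ, |hh J t s K b l x g|) :=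
      (exp_sum J t Finset.univ fun l g => ∑ x ∈ Bᶜ, |hh J t s K b l x g|).symm
    rw [ex_add, ex_add, exp_const, ex_div, ex_div, h12]
    have h8 := hLLN V J hJ hs h0 t s ht hs0 K n hn b B S e3 hS0 hS hFree
    have h9 : (∑ l, stirExp J t (fun g => ∑ x ∈ Bᶜ, |hh J t s K b l x g|)) / n ≤ 2 * τ + e1 := by
      rw [div_le_iff₀ hnpos]
      refine (Finset.sum_le_sum fun l _ =>
        outside hJ hs h0 ht hs0 K b B e1 τ l (hPD l) (hτ l)).trans ?_
      rw [Finset.sum_const, Finset.card_univ, Fintype.card_fin, nsmul_eq_mul]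
      exact le_of_eq (by ring)
    exact add_le_add (add_le_add (div_le_div_of_nonneg_right h8 zero_le_two) le_rfl) h9
  have h10 : |UF J t s K b| ≤ |UF J t s K b - stirExp J t F1| +
      |stirExp J t F1 - stirExp J t G| + |stirExp J t G| := by
    have h11 : UF J t s K b = (UF J t s K b - stirExp J t F1) +
      (stirExp J t F1 - stirExp J t G) + stirExp J t G := by ring
    calc |UF J t s K b| = |(UF J t s K b - stirExp J t F1) +
      (stirExp J t F1 - stirExp J t G) + stirExp J t G| := by rw [← h11]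
      _ ≤ _ := (abs_add_le _ _).trans (add_le_add (abs_add_le _ _) le_rfl)
  linarith

end Pool.Agent.R134.PB.Fix
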