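import Pool.Agent.R134.PB.Stm2

/-!
# PB-GRAD: smoothness of the heat semigroup
-/

set_option autoImplicit false

namespace Pool.Agent.R134.PB.Grad

open Finset Equiv
open Pool.Agent.Y998.ST
open Pool.Agent.Y661.PD (dl Free tdist)

theorem qq_colsum {V : Type} [Fintype V] [DecidableEq V] (J : V → V → ℝ) (t : ℝ) (b : V) :
    ∑ x, qq J t x b = 1 := by
  unfold qq hop
  rw [exp_sum]
  have h : (fun g : Perm V => ∑ x, (if g x = b then (1 : ℝ) else 0)) = fun _ => 1 := by
    funext g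
    rw [Finset.sum_eq_single (g.symm b)]
    · rw [if_pos (by simp)]
    · intro x _ hx
      rw [if_neg]
      intro h
      exact hx (by rw [← h]; simp)
    · exact fun h => absurd (Finset.mem_univ _) h
  rw [h, exp_const]

section

variable {d L : ℕ} [NeZero L]

/-- heat semigroup -/
noncomputable def Pf (u : ℝ) (f : (Fin d → ZMod L) → ℝ) (x : Fin d → ZMod L) : ℝ :=
  ∑ y, qq (nnRate d L) u x y * f y

/-- squared norm of the difference of a shift -/
noncomputable def Nn (a : Fin d → ZMod L) (g : (Fin d → ZMod L) → ℝ) : ℝ :=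
  ∑ x, (g (x + a) - g x) ^ 2

theorem Nn_nonneg (a : Fin d → ZMod L) (g : (Fin d → ZMod L) → ℝ) : 0 ≤ Nn a g :=
  Finset.sum_nonneg fun _ _ => sq_nonneg _

theorem qq_shift (hL : 3 ≤ L) (u : ℝ) (a x y : Fin d → ZMod L) :
    qq (nnRate d L) u (x + a) (y + a) = qq (nnRate d L) u x y := by
  rw [qq_eq_hk hL]
  unfold hk
  refine Finset.prod_congr rfl fun i _ => ?_
  congr 1
  simp only [Pi.add_apply]
  ring

theorem contr {u : ℝ} (hu : 0 ≤ u) (g : (Fin d → ZMod L) → ℝ) :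
    ∑ x, (Pf u g x) ^ 2 ≤ ∑ x, g x ^ 2 := by
  have h1 : ∀ x, (Pf u g x) ^ 2 ≤ ∑ y, qq (nnRate d L) u x y * g y ^ 2 := by
    intro x
    obtain ⟨m, hm⟩ : ∃ m, m = Pf u g x := ⟨_, rfl⟩
    have h2 : 0 ≤ ∑ y, qq (nnRate d L) u x y * (g y - m) ^ 2 :=
      Finset.sum_nonneg fun y _ => mul_nonneg (qq_nonneg nn_nonneg hu x y) (sq_nonneg _)
    have h3 : ∑ y, qq (nnRate d L) u x y * (g y - m) ^ 2 =
        ∑ y, qq (nnRate d L) u x y * g y ^ 2 - m ^ 2 := by
      have h4 : ∀ y ∈ (Finset.univ : Finset (Fin d → ZMod L)),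
          qq (nnRate d L) u x y * (g y - m) ^ 2 = qq (nnRate d L) u x y * g y ^ 2 -
            2 * m * (qq (nnRate d L) u x y * g y) + m ^ 2 * qq (nnRate d L) u x y :=
        fun y _ => by ring
      have h5 : ∑ y, qq (nnRate d L) u x y * g y = m := by rw [hm]; rfl
      rw [Finset.sum_congr rfl h4, Finset.sum_add_distrib, Finset.sum_sub_distrib,
        ← Finset.mul_sum, ← Finset.mul_sum, qq_row, h5]
      ring
    rw [h3] at h2
    rw [← hm]
    linarith
  refine (Finset.sum_le_sum fun x _ => h1 x).trans (le_of_eq ?_)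
  rw [Finset.sum_comm]
  refine Finset.sum_congr rfl fun y _ => ?_
  rw [← Finset.sum_mul, qq_colsum, one_mul]

theorem semi (hL : 3 ≤ L) (u v : ℝ) (f : (Fin d → ZMod L) → ℝ) :
    Pf (u + v) f = Pf u (Pf v f) := by
  funext x
  unfold Pf
  rw [qq_add nn_symm (nn_diag hL)]
  simp only [Matrix.mul_apply, Finset.sum_mul, Finset.mul_sum]
  rw [Finset.sum_comm]
  refine Finset.sum_congr rfl fun z _ => Finset.sum_congr rfl fun y _ => ?_
  ring

theorem shift (hL : 3 ≤ L) (u : ℝ) (f : (Fin d → ZMod L) → ℝ) (a x : Fin d → ZMod L) :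
    Pf u f (x + a) = Pf u (fun y => f (y + a)) x := by
  unfold Pf
  rw [← Equiv.sum_comp (Equiv.addRight a)]
  refine Finset.sum_congr rfl fun y _ => ?_
  rw [Equiv.coe_addRight, qq_shift hL]

theorem Nn_mono (hL : 3 ≤ L) {w : ℝ} (hw : 0 ≤ w) (a : Fin d → ZMod L)
    (g : (Fin d → ZMod L) → ℝ) : Nn a (Pf w g) ≤ Nn a g := by
  unfold Nn
  refine le_of_eq_of_le ?_ (contr hw (fun y => g (y + a) - g y))
  refine Finset.sum_congr rfl fun x _ => ?_
  rw [shift hL]
  congr 1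
  unfold Pf
  rw [← Finset.sum_sub_distrib]
  refine Finset.sum_congr rfl fun y _ => ?_
  ring

theorem gen (hL : 3 ≤ L) (g : (Fin d → ZMod L) → ℝ) (x : Fin d → ZMod L) :
    ∑ z, GG (nnRate d L) x z * g z =
      ∑ a : Fin d, (g (x + Pi.single a 1) + g (x - Pi.single a 1) - 2 * g x) := by
  have h2 : ∀ z ∈ (Finset.univ : Finset (Fin d → ZMod L)), GG (nnRate d L) x z * g z =
      g z * nnRate d L z x - (if x = z then (2 * d) * g z else 0) := by
    intro z _
    unfold GG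
    by_cases hx : x = z
    · subst hx
      rw [if_pos rfl, if_pos rfl, nn_row hL, nn_diag hL]
      ring
    · rw [if_neg hx, if_neg hx, sub_zero, nn_symm x z]
      ring
  rw [Finset.sum_congr rfl h2, Finset.sum_sub_distrib, nn_sum hL g, Finset.sum_ite_eq,
    if_pos (Finset.mem_univ _), Finset.sum_sub_distrib]
  have h3 : ∑ _a : Fin d, 2 * g x = 2 * d * g x := by
    rw [Finset.sum_const, Finset.card_univ, Fintype.card_fin, nsmul_eq_mul]
    ring
  rw [h3]
  congr 1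
  refine Finset.sum_congr rfl fun a _ => ?_
  have e1 : Function.update x a (x a + 1) = x + Pi.single a 1 := by
    funext i
    by_cases h : i = a
    · subst h; simp
    · simp [Function.update_of_ne h, Pi.single_eq_of_ne h]
  have e2 : Function.update x a (x a - 1) = x - Pi.single a 1 := by
    funext i
    by_cases h : i = a
    · subst h; simp
    · simp [Function.update_of_ne h, Pi.single_eq_of_ne h]
  rw [e1, e2]

theorem parts (g : (Fin d → ZMod L) → ℝ) (e : Fin d → ZMod L) :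
    ∑ x, g x * (g (x + e) + g (x - e) - 2 * g x) = - Nn e g := by
  unfold Nn
  have h1 : ∑ x, g x * g (x - e) = ∑ x, g (x + e) * g x := by
    rw [← Equiv.sum_comp (Equiv.addRight e)]
    refine Finset.sum_congr rfl fun x _ => ?_
    rw [Equiv.coe_addRight, add_sub_cancel_right]
  have h2 : ∑ x, g (x + e) ^ 2 = ∑ x, g x ^ 2 :=
    Equiv.sum_comp (Equiv.addRight e) (fun x => g x ^ 2)
  have h3 : ∑ x, g x * (g (x + e) + g (x - e) - 2 * g x) =
      ∑ x, g (x + e) * g x + ∑ x, g x * g (x - e) - 2 * ∑ x, g x ^ 2 := by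
    rw [Finset.mul_sum, ← Finset.sum_add_distrib, ← Finset.sum_sub_distrib]
    exact Finset.sum_congr rfl fun x _ => by ring
  have h4 : ∑ x, (g (x + e) - g x) ^ 2 =
      ∑ x, g (x + e) ^ 2 - 2 * ∑ x, g (x + e) * g x + ∑ x, g x ^ 2 := by
    rw [Finset.mul_sum, ← Finset.sum_sub_distrib, ← Finset.sum_add_distrib]
    exact Finset.sum_congr rfl fun x _ => by ring
  rw [h3, h4, h1, h2]
  ring

theorem Pf_deriv (hL : 3 ≤ L) (f : (Fin d → ZMod L) → ℝ) (x : Fin d → ZMod L) (u : ℝ) :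
    HasDerivAt (fun v => Pf v f x)
      (∑ a : Fin d, (Pf u f (x + Pi.single a 1) + Pf u f (x - Pi.single a 1) - 2 * Pf u f x)) u := by
  have hq : ∀ v, qq (nnRate d L) v = E (GG (nnRate d L)) v :=
    eq_E (qq_deriv nn_symm (nn_diag hL)) (qq_zero _)
  have h1 : ∀ y, HasDerivAt (fun v => qq (nnRate d L) v x y)
      ((GG (nnRate d L) * qq (nnRate d L) u) x y) u := by
    intro y
    have h2 := E_deriv (GG (nnRate d L)) u x y
    simp only [← hq] at h2
    exact h2
  have h3 : HasDerivAt (fun v => ∑ y, qq (nnRate d L) v x y * f y)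
      (∑ y, (GG (nnRate d L) * qq (nnRate d L) u) x y * f y) u :=
    HasDerivAt.fun_sum fun y _ => (h1 y).mul_const (f y)
  refine h3.congr_deriv ?_
  rw [← gen hL]
  simp only [Matrix.mul_apply, Finset.sum_mul]
  rw [Finset.sum_comm]
  refine Finset.sum_congr rfl fun z _ => ?_
  unfold Pf
  rw [Finset.mul_sum]
  refine Finset.sum_congr rfl fun y _ => ?_
  ring

theorem S_deriv (hL : 3 ≤ L) (f : (Fin d → ZMod L) → ℝ) (u : ℝ) :
    HasDerivAt (fun v => ∑ x, (Pf v f x) ^ 2)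
      (-2 * ∑ a : Fin d, Nn (Pi.single a 1) (Pf u f)) u := by
  have h1 : HasDerivAt (fun v => ∑ x, (Pf v f x) ^ 2)
      (∑ x, 2 * Pf u f x ^ (2 - 1) * (∑ a : Fin d, (Pf u f (x + Pi.single a 1) +
        Pf u f (x - Pi.single a 1) - 2 * Pf u f x))) u := by
    refine HasDerivAt.fun_sum fun x _ => ?_
    have := (Pf_deriv hL f x u).fun_pow 2
    exact this.congr_deriv (by push_cast; ring)
  refine h1.congr_deriv ?_
  have h2 : ∀ x ∈ (Finset.univ : Finset (Fin d → ZMod L)),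
      2 * Pf u f x ^ (2 - 1) * (∑ a : Fin d, (Pf u f (x + Pi.single a 1) +
        Pf u f (x - Pi.single a 1) - 2 * Pf u f x)) =
      2 * ∑ a : Fin d, Pf u f x * (Pf u f (x + Pi.single a 1) +
        Pf u f (x - Pi.single a 1) - 2 * Pf u f x) := by
    intro x _
    rw [← Finset.mul_sum]
    ring
  rw [Finset.sum_congr rfl h2, ← Finset.mul_sum, Finset.sum_comm]
  have h3 : ∀ a ∈ (Finset.univ : Finset (Fin d)), ∑ x, Pf u f x * (Pf u f (x + Pi.single a 1) +
        Pf u f (x - Pi.single a 1) - 2 * Pf u f x) = - Nn (Pi.single a 1) (Pf u f) :=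
    fun a _ => parts (Pf u f) (Pi.single a 1)
  rw [Finset.sum_congr rfl h3, Finset.sum_neg_distrib]
  ring

theorem Pf_zero (f : (Fin d → ZMod L) → ℝ) : Pf 0 f = f := by
  funext x
  unfold Pf
  rw [qq_zero]
  simp [Matrix.one_apply]

theorem grad_sum (hL : 3 ≤ L) (f : (Fin d → ZMod L) → ℝ) {u : ℝ} (hu : 0 < u) :
    2 * u * ∑ a : Fin d, Nn (Pi.single a 1) (Pf u f) ≤ ∑ x, f x ^ 2 := by
  obtain ⟨T, hT⟩ : ∃ T, T = ∑ a : Fin d, Nn (Pi.single a 1) (Pf u f) := ⟨_, rfl⟩
  have hd : ∀ v, HasDerivAt (fun v => ∑ x, (Pf v f x) ^ 2 + 2 * T * v)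
      (-2 * ∑ a : Fin d, Nn (Pi.single a 1) (Pf v f) + 2 * T * 1) v :=
    fun v => (S_deriv hL f v).add ((hasDerivAt_id v).const_mul (2 * T))
  have hmono : AntitoneOn (fun v => ∑ x, (Pf v f x) ^ 2 + 2 * T * v) (Set.Icc 0 u) := by
    refine antitoneOn_of_deriv_nonpos (convex_Icc 0 u) ?_ ?_ ?_
    · exact fun v _ => (hd v).continuousAt.continuousWithinAt
    · exact fun v _ => (hd v).differentiableAt.differentiableWithinAt
    · intro v hv
      rw [interior_Icc] at hv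
      rw [(hd v).deriv]
      have h1 : T ≤ ∑ a : Fin d, Nn (Pi.single a 1) (Pf v f) := by
        rw [hT]
        refine Finset.sum_le_sum fun a _ => ?_
        have e : u = (u - v) + v := by ring
        rw [e, semi hL]
        exact Nn_mono hL (by linarith [hv.2]) _ _
      linarith
  have h1 := hmono (Set.left_mem_Icc.2 hu.le) (Set.right_mem_Icc.2 hu.le) hu.le
  simp only [Pf_zero, mul_zero, add_zero] at h1
  have h2 : 0 ≤ ∑ x, (Pf u f x) ^ 2 := Finset.sum_nonneg fun _ _ => sq_nonneg _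
  rw [← hT]
  linarith

/-- norm of the difference of a shift -/
noncomputable def Rn (g : (Fin d → ZMod L) → ℝ) (a : Fin d → ZMod L) : ℝ := Real.sqrt (Nn a g)

theorem Rn_eq (g : (Fin d → ZMod L) → ℝ) (a : Fin d → ZMod L) :
    Rn g a = ‖(WithLp.toLp 2 (fun x => g (x + a) - g x) : EuclideanSpace ℝ (Fin d → ZMod L))‖ := by
  rw [EuclideanSpace.norm_eq]
  unfold Rn Nn
  congr 1
  refine Finset.sum_congr rfl fun x _ => ?_
  rw [Real.norm_eq_abs, sq_abs]

theorem Rn_add (g : (Fin d → ZMod L) → ℝ) (a b : Fin d → ZMod L) :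
    Rn g (a + b) ≤ Rn g a + Rn g b := by
  have h1 : Rn g a = ‖(WithLp.toLp 2 (fun x => g (x + b + a) - g (x + b)) :
      EuclideanSpace ℝ (Fin d → ZMod L))‖ := by
    rw [EuclideanSpace.norm_eq]
    unfold Rn Nn
    congr 1
    rw [← Equiv.sum_comp (Equiv.addRight b)]
    refine Finset.sum_congr rfl fun x _ => ?_
    rw [Real.norm_eq_abs, sq_abs, Equiv.coe_addRight]
  rw [h1, Rn_eq, Rn_eq]
  refine le_trans (le_of_eq ?_) (norm_add_le _ _)
  congr 1
  ext x
  simp only [PiLp.add_apply]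
  have e : x + (a + b) = x + b + a := by abel
  rw [e]
  ring

theorem Rn_zero (g : (Fin d → ZMod L) → ℝ) : Rn g 0 = 0 := by
  unfold Rn Nn
  simp

theorem Rn_neg (g : (Fin d → ZMod L) → ℝ) (a : Fin d → ZMod L) : Rn g (-a) = Rn g a := by
  unfold Rn Nn
  congr 1
  rw [← Equiv.sum_comp (Equiv.addRight a)]
  refine Finset.sum_congr rfl fun x _ => ?_
  rw [Equiv.coe_addRight, add_neg_cancel_right]
  ring

theorem Rn_nsmul (g : (Fin d → ZMod L) → ℝ) (a : Fin d → ZMod L) (n : ℕ) :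
    Rn g (n • a) ≤ n * Rn g a := by
  induction n with
  | zero => simp [Rn_zero]
  | succ n ih =>
    rw [add_smul, one_smul]
    refine (Rn_add g _ _).trans ?_
    push_cast
    linarith

theorem Rn_single (g : (Fin d → ZMod L) → ℝ) (i : Fin d) (c : ZMod L) :
    Rn g (Pi.single i c) ≤ (c.valMinAbs.natAbs : ℝ) * Rn g (Pi.single i 1) := by
  have h1 : c = ((c.valMinAbs : ℤ) : ZMod L) := (ZMod.coe_valMinAbs c).symm
  rcases Int.natAbs_eq c.valMinAbs with h | h
  · have h2 : c = ((c.valMinAbs.natAbs : ℕ) : ZMod L) := by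
      have h3 : (c.valMinAbs : ℤ) = ((c.valMinAbs.natAbs : ℕ) : ℤ) := h
      calc c = ((c.valMinAbs : ℤ) : ZMod L) := h1
        _ = (((c.valMinAbs.natAbs : ℕ) : ℤ) : ZMod L) := by rw [← h3]
        _ = _ := Int.cast_natCast _
    have h4 : (Pi.single i c : Fin d → ZMod L) = c.valMinAbs.natAbs • Pi.single i 1 := by
      rw [← Pi.single_smul, nsmul_eq_mul, mul_one, ← h2]
    rw [h4]
    exact Rn_nsmul g _ _
  · have h2 : c = -((c.valMinAbs.natAbs : ℕ) : ZMod L) := by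
      have h3 : (c.valMinAbs : ℤ) = -((c.valMinAbs.natAbs : ℕ) : ℤ) := h
      calc c = ((c.valMinAbs : ℤ) : ZMod L) := h1
        _ = ((-((c.valMinAbs.natAbs : ℕ) : ℤ) : ℤ) : ZMod L) := by rw [← h3]
        _ = _ := by rw [Int.cast_neg, Int.cast_natCast]
    have h4 : (Pi.single i c : Fin d → ZMod L) = -(c.valMinAbs.natAbs • Pi.single i 1) := by
      rw [← Pi.single_smul, nsmul_eq_mul, mul_one, ← Pi.single_neg, ← h2]
    rw [h4, Rn_neg]
    exact Rn_nsmul g _ _

end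

theorem main : S_GRAD := by
  intro d L _ hL s hs f h
  have hs2 : 0 < s / 2 := by positivity
  obtain ⟨F, hF⟩ : ∃ F, F = Pf (s / 2) f := ⟨_, rfl⟩
  have hA : 0 ≤ (∑ x, f x ^ 2) / s := div_nonneg (Finset.sum_nonneg fun _ _ => sq_nonneg _) hs.le
  have h1 := grad_sum hL f hs2
  rw [← hF] at h1
  have hN : ∀ a : Fin d, Rn F (Pi.single a 1) ≤ Real.sqrt ((∑ x, f x ^ 2) / s) := by
    intro a
    unfold Rn
    apply Real.sqrt_le_sqrt
    rw [le_div_iff₀ hs]
    have h2 : Nn (Pi.single a 1) F ≤ ∑ a : Fin d, Nn (Pi.single a 1) F :=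
      Finset.single_le_sum (f := fun a : Fin d => Nn (Pi.single a 1) F)
        (fun i _ => Nn_nonneg _ _) (Finset.mem_univ a)
    have h3 : Nn (Pi.single a 1) F * s ≤ (∑ a : Fin d, Nn (Pi.single a 1) F) * s :=
      mul_le_mul_of_nonneg_right h2 hs.le
    linarith
  have hR : Rn F h ≤ (tdist h 0 : ℝ) * Real.sqrt ((∑ x, f x ^ 2) / s) := by
    have e1 : h = ∑ i : Fin d, Pi.single i (h i) := (Finset.univ_sum_single h).symm
    have h2 : Rn F (∑ i : Fin d, Pi.single i (h i)) ≤ ∑ i : Fin d, Rn F (Pi.single i (h i)) :=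
      Finset.le_sum_of_subadditive (Rn F) (Rn_zero F).le (Rn_add F) _ _
    rw [← e1] at h2
    refine h2.trans ?_
    unfold tdist
    push_cast
    rw [Finset.sum_mul]
    refine Finset.sum_le_sum fun i _ => ?_
    refine (Rn_single F i (h i)).trans ?_
    rw [Pi.zero_apply, sub_zero]
    exact mul_le_mul_of_nonneg_left (hN i) (Nat.cast_nonneg _)
  have hR0 : 0 ≤ Rn F h := Real.sqrt_nonneg _
  have h4 : Nn h F = Rn F h ^ 2 := (Real.sq_sqrt (Nn_nonneg h F)).symm
  have h5 : Nn h F ≤ ((tdist h 0 : ℝ) * Real.sqrt ((∑ x, f x ^ 2) / s)) ^ 2 := by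
    rw [h4]
    exact pow_le_pow_left₀ hR0 hR 2
  rw [mul_pow, Real.sq_sqrt hA] at h5
  have e6 : Nn h F = ∑ x, (∑ y, qq (nnRate d L) (s / 2) (x + h) y * f y -
      ∑ y, qq (nnRate d L) (s / 2) x y * f y) ^ 2 := by
    rw [hF]; rfl
  rw [← e6]
  refine h5.trans (le_of_eq ?_)
  ring

end Pool.Agent.R134.PB.Grad
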