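import Pool.Agent.R134.PB.Stm
import Pool.Agent.Y431.PD.CO2

/-!
# Project PB, piece LCO: coincidences, for a family of starting points
-/

set_option autoImplicit false

namespace Pool.Agent.R134.PB.Lco

open Finset Equiv
open Pool.Agent.Y998.ST
open Pool.Agent.Y431.PD.CO2 (two_le not_inj)

section

variable {V : Type} [Fintype V] [DecidableEq V]

theorem GG_transpose {J : V → V → ℝ} (hs : ∀ x y, J x y = J y x) :
    (GG J).transpose = GG J := by
  ext a b
  rw [Matrix.transpose_apply]
  unfold GG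
  by_cases h : a = b
  · subst h
    rfl
  · rw [if_neg h, if_neg (Ne.symm h), hs]

theorem qq_symm {J : V → V → ℝ} (hs : ∀ x y, J x y = J y x) (h0 : ∀ x, J x x = 0) (t : ℝ)
    (x y : V) : qq J t x y = qq J t y x := by
  have h : qq J t = E (GG J) t := eq_E (qq_deriv hs h0) (qq_zero J) t
  have h1 : (E (GG J) t).transpose = E (GG J) t := by
    unfold E
    rw [← Matrix.exp_transpose, Matrix.transpose_smul, GG_transpose hs]
  rw [h]
  conv_lhs => rw [← h1]
  rw [Matrix.transpose_apply]

/-- the law of one point of the walk -/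
theorem marg {J : V → V → ℝ} (hs : ∀ x y, J x y = J y x) (h0 : ∀ x, J x x = 0) {K : ℕ}
    (t : ℝ) (i : Fin K) (x c : V) :
    ∑ p : Fin K → V, (if p i = c then VV J K t (pre x p) p else 0) =
      qq J ((i : ℕ) * t + t) x c := by
  obtain ⟨k, hk⟩ : ∃ k : ℕ → V → V → ℝ, k = fun l x w =>
    if l = (i : ℕ) then qq J t x c * (if w = c then 1 else 0) else qq J t x w := ⟨_, rfl⟩
  have h2 := one_special (q := qq J t) (qq_row J t) (fun x => qq J t x c)
    (fun w => if w = c then 1 else 0)
    (by rw [Finset.sum_ite_eq', if_pos (Finset.mem_univ _)]) (i : ℕ) K k x i.2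
    (fun l hl => by funext x w; rw [hk]; simp only; rw [if_neg hl])
    (fun x w => by rw [hk]; simp only [if_true])
  rw [mulVec_qq hs h0] at h2
  rw [← h2]
  unfold CS
  refine Finset.sum_congr rfl fun p _ => ?_
  by_cases h : p i = c
  · rw [if_pos h]
    unfold VV
    refine Finset.prod_congr rfl fun l _ => ?_
    rw [hk]
    simp only
    by_cases hl : (l : ℕ) = i
    · have : l = i := Fin.ext hl
      subst this
      rw [if_pos rfl, if_pos h, mul_one, h]
    · rw [if_neg hl]
  · rw [if_neg h]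
    symm
    refine Finset.prod_eq_zero (Finset.mem_univ i) ?_
    rw [hk]
    simp [h]

theorem meet {J : V → V → ℝ} (hs : ∀ x y, J x y = J y x) (h0 : ∀ x, J x x = 0) {K : ℕ}
    (t : ℝ) (i j : Fin K) (x y : V) :
    ∑ c, (∑ p : Fin K → V, (if p i = c then VV J K t (pre x p) p else 0)) *
      (∑ q : Fin K → V, (if q j = c then VV J K t (pre y q) q else 0)) =
      qq J (((i : ℕ) + (j : ℕ) + 2 : ℕ) * t) x y := by
  have h1 : ∀ c, (∑ p : Fin K → V, (if p i = c then VV J K t (pre x p) p else 0)) *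
      (∑ q : Fin K → V, (if q j = c then VV J K t (pre y q) q else 0)) =
      qq J ((i : ℕ) * t + t) x c * qq J ((j : ℕ) * t + t) c y := by
    intro c
    rw [marg hs h0, marg hs h0, qq_symm hs h0 _ y c]
  simp only [h1]
  rw [sum_qq hs h0]
  congr 2
  push_cast
  ring

end

theorem count (K : ℕ) (Q : ℕ → ℝ) (hQ0 : ∀ m, 0 < m → 0 ≤ Q m) :
    ∑ i : Fin K, ∑ j : Fin K, Q ((i : ℕ) + (j : ℕ) + 2) ≤
      ∑ m ∈ Finset.Icc (1 : ℕ) (2 * K), (((m : ℕ) : ℝ) + 1) * Q m := by
  have e1 : ∑ i : Fin K, ∑ j : Fin K, Q ((i : ℕ) + (j : ℕ) + 2) =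
      ∑ a : Fin K × Fin K, Q ((a.1 : ℕ) + (a.2 : ℕ) + 2) := by
    rw [Fintype.sum_prod_type]
  rw [e1]
  have hmaps : ∀ a ∈ (Finset.univ : Finset (Fin K × Fin K)),
      (a.1 : ℕ) + (a.2 : ℕ) + 2 ∈ Finset.Icc (1 : ℕ) (2 * K) := by
    intro a _
    have h1 := a.1.isLt
    have h2 := a.2.isLt
    rw [Finset.mem_Icc]
    omega
  rw [← Finset.sum_fiberwise_of_maps_to hmaps]
  refine Finset.sum_le_sum fun m hm => ?_
  rw [Finset.mem_Icc] at hm
  have h1 : ∑ a ∈ (Finset.univ : Finset (Fin K × Fin K)) with (a.1 : ℕ) + (a.2 : ℕ) + 2 = m,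
      Q ((a.1 : ℕ) + (a.2 : ℕ) + 2) =
      ∑ a ∈ (Finset.univ : Finset (Fin K × Fin K)) with (a.1 : ℕ) + (a.2 : ℕ) + 2 = m, Q m := by
    refine Finset.sum_congr rfl fun a ha => ?_
    rw [(Finset.mem_filter.1 ha).2]
  rw [h1, Finset.sum_const, nsmul_eq_mul]
  apply mul_le_mul_of_nonneg_right _ (hQ0 m (by omega))
  have h2 : ((Finset.univ : Finset (Fin K × Fin K)).filter
      fun a => (a.1 : ℕ) + (a.2 : ℕ) + 2 = m).card ≤ (Finset.range (m + 1)).card := by
    refine Finset.card_le_card_of_injOn (fun a => (a.1 : ℕ)) ?_ ?_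
    · intro a ha
      have ha' := (Finset.mem_filter.1 ha).2
      rw [Finset.mem_coe, Finset.mem_range]
      show (a.1 : ℕ) < m + 1
      omega
    · intro a ha b hb hab
      have ha' := (Finset.mem_filter.1 ha).2
      have hb' := (Finset.mem_filter.1 hb).2
      simp only at hab
      exact Prod.ext (Fin.ext hab) (Fin.ext (by omega))
  rw [Finset.card_range] at h2
  exact_mod_cast h2

theorem one {V : Type} [Fintype V] [DecidableEq V] {J : V → V → ℝ} (hJ : ∀ x y, 0 ≤ J x y)
    (hs : ∀ x y, J x y = J y x) (h0 : ∀ x, J x x = 0) (K : ℕ) (t : ℝ) (ht : 0 ≤ t)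
    (Q : ℕ → ℝ) (hQ : ∀ m : ℕ, 0 < m → ∀ a b, qq J (m * t) a b ≤ Q m) (x y : V) :
    ∑ p : Fin K → V, ∑ q : Fin K → V, (if Function.Injective (Fin.append p q) then 0 else
      VV J K t (pre x p) p * VV J K t (pre y q) q) ≤
      2 * (K * ∑ m ∈ Finset.Ioo 0 K, Q m) +
        ∑ m ∈ Finset.Icc (1 : ℕ) (2 * K), (((m : ℕ) : ℝ) + 1) * Q m := by
  have hQ0 : ∀ m, 0 < m → 0 ≤ Q m := by
    intro m h1
    exact (qq_nonneg hJ (by positivity) x x).trans (hQ m h1 x x)
  obtain ⟨A, hA⟩ : ∃ A : V → (Fin K → V) → ℝ, A = fun x p => VV J K t (pre x p) p := ⟨_, rfl⟩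
  have hA0 : ∀ x p, 0 ≤ A x p := by
    intro x p
    rw [hA]
    exact VV_nonneg hJ K ht _ _
  have hA1 : ∀ x, ∑ p, A x p = 1 := by
    intro x
    rw [hA]
    exact CS_stoch (qq_row J t) K x
  obtain ⟨S, hS⟩ : ∃ S : ℝ, S = ∑ m ∈ Finset.Ioo 0 K, Q m := ⟨_, rfl⟩
  obtain ⟨c, hc⟩ : ∃ c : (Fin K → V) → ℝ, c = fun p => ∑ i : Fin K, ∑ j : Fin K,
      (if i < j ∧ p i = p j then (1 : ℝ) else 0) := ⟨_, rfl⟩
  have hc0 : ∀ p, 0 ≤ c p := by
    intro p
    rw [hc]
    refine Finset.sum_nonneg fun i _ => Finset.sum_nonneg fun j _ => ?_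
    split_ifs <;> norm_num
  have hc1 : ∀ p, (∃ i j, i < j ∧ p i = p j) → 1 ≤ c p := by
    rintro p ⟨i, j, hij⟩
    rw [hc]
    have h1 : (if i < j ∧ p i = p j then (1 : ℝ) else 0) ≤ ∑ i : Fin K, ∑ j : Fin K,
        (if i < j ∧ p i = p j then (1 : ℝ) else 0) :=
      two_le (fun i j : Fin K => if i < j ∧ p i = p j then (1 : ℝ) else 0)
        (fun i j => by split_ifs <;> norm_num) i j
    rw [if_pos hij] at h1
    exact h1
  have hcoin : ∀ x, ∑ p, c p * A x p ≤ K * S := by
    intro x
    rw [hS]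
    refine le_trans ?_ (pairs_le Q fun m h1 _ => hQ0 m h1)
    have h1 : ∀ p, c p * A x p = ∑ i : Fin K, ∑ j : Fin K,
        (if i < j then (if p i = p j then A x p else 0) else 0) := by
      intro p
      rw [hc]
      simp only [Finset.sum_mul]
      refine Finset.sum_congr rfl fun i _ => Finset.sum_congr rfl fun j _ => ?_
      by_cases h2 : i < j <;> by_cases h3 : p i = p j <;> simp [h2, h3]
    simp only [h1]
    rw [Finset.sum_comm]
    refine Finset.sum_le_sum fun i _ => ?_
    rw [Finset.sum_comm]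
    refine Finset.sum_le_sum fun j _ => ?_
    by_cases hij : i < j
    · simp only [if_pos hij]
      rw [hA]
      exact coin_le hJ hs h0 x ht i j hij Q fun m h1 _ => hQ m h1
    · simp only [if_neg hij]
      rw [Finset.sum_const_zero]
  have hpt : ∀ p q, (if Function.Injective (Fin.append p q) then 0 else A x p * A y q) ≤
      (c p * A x p) * A y q + A x p * (c q * A y q) + ∑ a : Fin K × Fin K × V,
        (if p a.1 = a.2.2 then A x p else 0) * (if q a.2.1 = a.2.2 then A y q else 0) := by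
    intro p q
    have n1 : 0 ≤ (c p * A x p) * A y q := mul_nonneg (mul_nonneg (hc0 p) (hA0 x p)) (hA0 y q)
    have n2 : 0 ≤ A x p * (c q * A y q) := mul_nonneg (hA0 x p) (mul_nonneg (hc0 q) (hA0 y q))
    have n0 : ∀ a : Fin K × Fin K × V,
        0 ≤ (if p a.1 = a.2.2 then A x p else 0) * (if q a.2.1 = a.2.2 then A y q else 0) := by
      intro a
      refine mul_nonneg ?_ ?_
      · split_ifs
        · exact hA0 x p
        · exact le_rfl
      · split_ifs
        · exact hA0 y q
        · exact le_rfl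
    have n3 : 0 ≤ ∑ a : Fin K × Fin K × V,
        (if p a.1 = a.2.2 then A x p else 0) * (if q a.2.1 = a.2.2 then A y q else 0) :=
      Finset.sum_nonneg fun a _ => n0 a
    by_cases h : Function.Injective (Fin.append p q)
    · rw [if_pos h]
      positivity
    · rw [if_neg h]
      have n4 : 0 ≤ A x p * A y q := mul_nonneg (hA0 x p) (hA0 y q)
      rcases not_inj p q h with h1 | h1 | ⟨i, j, hij⟩
      · have h2 := hc1 p h1
        have h3 : A x p * A y q ≤ (c p * A x p) * A y q := by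
          rw [mul_assoc]
          exact le_mul_of_one_le_left n4 h2
        linarith
      · have h2 := hc1 q h1
        have h3 : A x p * A y q ≤ A x p * (c q * A y q) := by
          have : A x p * (c q * A y q) = c q * (A x p * A y q) := by ring
          rw [this]
          exact le_mul_of_one_le_left n4 h2
        linarith
      · have h3 := Finset.single_le_sum (f := fun a : Fin K × Fin K × V =>
          (if p a.1 = a.2.2 then A x p else 0) * (if q a.2.1 = a.2.2 then A y q else 0))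
          (fun a _ => n0 a) (Finset.mem_univ (i, j, p i))
        simp only [if_true] at h3
        rw [if_pos hij.symm] at h3
        linarith
  have e0 : ∀ x p, VV J K t (pre x p) p = A x p := by
    intro x p
    rw [hA]
  have hcross : ∑ a : Fin K × Fin K × V,
      (∑ p : Fin K → V, (if p a.1 = a.2.2 then A x p else 0)) *
        (∑ q : Fin K → V, (if q a.2.1 = a.2.2 then A y q else 0)) ≤
      ∑ m ∈ Finset.Icc (1 : ℕ) (2 * K), (((m : ℕ) : ℝ) + 1) * Q m := by
    refine le_trans ?_ (count K Q hQ0)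
    rw [Fintype.sum_prod_type]
    refine Finset.sum_le_sum fun i _ => ?_
    rw [Fintype.sum_prod_type]
    refine Finset.sum_le_sum fun j _ => ?_
    have h1 := meet hs h0 t i j x y
    simp only [e0] at h1
    rw [h1]
    exact hQ _ (by omega) x y
  have fac2 : ∀ f g : (Fin K → V) → ℝ, ∑ p, ∑ q, f p * g q = (∑ p, f p) * ∑ q, g q := by
    intro f g
    rw [Finset.sum_mul_sum]
  simp only [e0]
  calc ∑ p : Fin K → V, ∑ q : Fin K → V,
        (if Function.Injective (Fin.append p q) then 0 else A x p * A y q)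
      ≤ ∑ p : Fin K → V, ∑ q : Fin K → V,
        ((c p * A x p) * A y q + A x p * (c q * A y q) + ∑ a : Fin K × Fin K × V,
        (if p a.1 = a.2.2 then A x p else 0) * (if q a.2.1 = a.2.2 then A y q else 0)) :=
        Finset.sum_le_sum fun p _ => Finset.sum_le_sum fun q _ => hpt p q
    _ = (∑ p, c p * A x p) * (∑ q, A y q) + (∑ p, A x p) * (∑ q, c q * A y q) +
        ∑ a : Fin K × Fin K × V,
        (∑ p : Fin K → V, (if p a.1 = a.2.2 then A x p else 0)) *
          (∑ q : Fin K → V, (if q a.2.1 = a.2.2 then A y q else 0)) := by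
        simp only [Finset.sum_add_distrib]
        have h5 : ∑ p : Fin K → V, ∑ q : Fin K → V, ∑ a : Fin K × Fin K × V,
            (if p a.1 = a.2.2 then A x p else 0) * (if q a.2.1 = a.2.2 then A y q else 0) =
            ∑ a : Fin K × Fin K × V, ∑ p : Fin K → V, ∑ q : Fin K → V,
            (if p a.1 = a.2.2 then A x p else 0) * (if q a.2.1 = a.2.2 then A y q else 0) := by
          calc ∑ p : Fin K → V, ∑ q : Fin K → V, ∑ a : Fin K × Fin K × V,
              (if p a.1 = a.2.2 then A x p else 0) * (if q a.2.1 = a.2.2 then A y q else 0)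
              = ∑ p : Fin K → V, ∑ a : Fin K × Fin K × V, ∑ q : Fin K → V,
              (if p a.1 = a.2.2 then A x p else 0) * (if q a.2.1 = a.2.2 then A y q else 0) :=
                Finset.sum_congr rfl fun p _ => Finset.sum_comm
            _ = _ := Finset.sum_comm
        rw [h5, fac2, fac2]
        congr 1
        refine Finset.sum_congr rfl fun a _ => ?_
        rw [fac2]
    _ ≤ (K * S) * 1 + 1 * (K * S) +
        ∑ m ∈ Finset.Icc (1 : ℕ) (2 * K), (((m : ℕ) : ℝ) + 1) * Q m := by
        rw [hA1, hA1]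
        have h1 := hcoin x
        have h2 := hcoin y
        linarith
    _ = 2 * (K * ∑ m ∈ Finset.Ioo 0 K, Q m) +
        ∑ m ∈ Finset.Icc (1 : ℕ) (2 * K), (((m : ℕ) : ℝ) + 1) * Q m := by
        rw [← hS]
        ring

theorem main : S_LCO := by
  intro V _ _ _ J hJ hs h0 K t ht Q hQ ι _ X Y
  refine (Finset.sum_le_sum fun a _ => one hJ hs h0 K t ht Q hQ (X a) (Y a)).trans ?_
  rw [Finset.sum_const, Finset.card_univ, nsmul_eq_mul]

end Pool.Agent.R134.PB.Lco
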