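import Pool.Agent.R134.PB.Stm3

/-!
# PB-LEN: the cycles of the points of a small set have many points in a large set (helper33)
-/

set_option autoImplicit false

namespace Pool.Agent.R134.PB.Len

open Finset Equiv
open Pool.Agent.Y998.ST
open Pool.Agent.Y661.PD (dl)
open Pool.Agent.TH268.PD (Cyc cyOf FirstRet)

section gen

variable {V : Type} [Fintype V] [DecidableEq V]

theorem card_eq_le (B : Finset V) (m : ℕ) (i l : Fin m) (hil : i ≠ l) :
    ((Fintype.piFinset (fun _ : Fin m => B)).filter (fun c => c i = c l)).card ≤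
      B.card ^ (m - 1) := by
  classical
  have h1 : (Fintype.piFinset (fun _ : {j : Fin m // j ≠ l} => B)).card = B.card ^ (m - 1) := by
    rw [Fintype.card_piFinset, Finset.prod_const, Finset.card_univ]
    congr 1
    rw [Fintype.card_subtype_compl, Fintype.card_fin, Fintype.card_subtype_eq]
  rw [← h1]
  apply Finset.card_le_card_of_injOn (fun c (j : {j : Fin m // j ≠ l}) => c j.1)
  · intro c hc
    rw [Finset.mem_coe, Finset.mem_filter, Fintype.mem_piFinset] at hc
    rw [Finset.mem_coe, Fintype.mem_piFinset]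
    exact fun j => hc.1 j.1
  · intro b hb b' hb' hbb
    rw [Finset.mem_coe, Finset.mem_filter] at hb hb'
    have h2 : ∀ j, j ≠ l → b j = b' j := fun j hj => congrFun hbb ⟨j, hj⟩
    funext j
    by_cases hj : j = l
    · rw [hj, ← hb.2, ← hb'.2, h2 i hil]
    · exact h2 j hj

theorem noninj (B : Finset V) (m : ℕ) :
    (((Fintype.piFinset (fun _ : Fin m => B)).filter
      (fun c => ¬ Function.Injective c)).card : ℝ) ≤ (m : ℝ) ^ 2 * (B.card : ℝ) ^ (m - 1) := by
  classical
  have key : ((Fintype.piFinset (fun _ : Fin m => B)).filter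
      (fun c => ¬ Function.Injective c)).card ≤
      ((univ : Finset (Fin m)) ×ˢ (univ : Finset (Fin m))).card * B.card ^ (m - 1) := by
    calc ((Fintype.piFinset (fun _ : Fin m => B)).filter
          (fun c => ¬ Function.Injective c)).card
        ≤ (((univ : Finset (Fin m)) ×ˢ (univ : Finset (Fin m))).biUnion fun x =>
          if x.1 = x.2 then ∅ else
            (Fintype.piFinset (fun _ : Fin m => B)).filter (fun c => c x.1 = c x.2)).card := by
          apply Finset.card_le_card
          intro b hb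
          rw [Finset.mem_filter] at hb
          obtain ⟨hbB, hb⟩ := hb
          unfold Function.Injective at hb
          push Not at hb
          obtain ⟨i, l, hil, hne⟩ := hb
          rw [Finset.mem_biUnion]
          refine ⟨(i, l), by simp, ?_⟩
          rw [if_neg hne, Finset.mem_filter]
          exact ⟨hbB, hil⟩
      _ ≤ _ := by
          refine Finset.card_biUnion_le_card_mul _ _ _ ?_
          intro x _
          split_ifs with h
          · simp
          · exact card_eq_le B m x.1 x.2 h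
  rw [Finset.card_product, Finset.card_univ, Fintype.card_fin] at key
  calc (((Fintype.piFinset (fun _ : Fin m => B)).filter
      (fun c => ¬ Function.Injective c)).card : ℝ) ≤
        ((m * m * B.card ^ (m - 1) : ℕ) : ℝ) := by exact_mod_cast key
    _ = _ := by push_cast; ring

open Classical in
theorem p0 {J : V → V → ℝ} (hJ : ∀ x y, 0 ≤ J x y) {t : ℝ} (ht : 0 ≤ t) (k : ℕ)
    (c : Fin (k + 1) → V) (hc : Function.Injective c) (η0 : ℝ)
    (hη : ∀ i j, dl J t (swap (c i) (c j)) ≤ η0) :
    stirExp J t (fun g => if ∃ n, FirstRet c g 0 0 n then 1 else 0) ≤ 1 / (k + 1) + η0 := by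
  obtain ⟨F, hF⟩ : ∃ F : Fin (k + 1) → Perm V → ℝ, F = fun j g =>
    if ∃ n, FirstRet c g 0 j n then 1 else 0 := ⟨_, rfl⟩
  have hF0 : ∀ j g, 0 ≤ F j g := by
    intro j g
    rw [hF]
    beta_reduce
    split_ifs <;> norm_num
  have hF1 : ∀ j g, F j g ≤ 1 := by
    intro j g
    rw [hF]
    beta_reduce
    split_ifs <;> norm_num
  have h1 : ∀ j, stirExp J t (F 0) - η0 ≤ stirExp J t (F j) := by
    intro j
    have e1 : stirExp J t (F j) = ∑ g, stirLaw J t (swap (c 0) (c j) * g) *
        F j (swap (c 0) (c j) * g) := by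
      unfold stirExp
      exact (Equiv.sum_comp (Equiv.mulLeft (swap (c 0) (c j)))
        (fun g => stirLaw J t g * F j g)).symm
    have e2 : ∀ g, F 0 g ≤ F j (swap (c 0) (c j) * g) := by
      intro g
      by_cases h : ∃ n, FirstRet c g 0 0 n
      · have h2 : ∃ n, FirstRet c (swap (c 0) (c j) * g) 0 j n := by
          obtain ⟨n, hn⟩ := h
          have := hn.swap hc (i := 0) (j := j)
          rw [swap_apply_left] at this
          exact ⟨n, this⟩
        rw [hF]
        beta_reduce
        rw [if_pos h, if_pos h2]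
      · have : F 0 g = 0 := by rw [hF]; beta_reduce; rw [if_neg h]
        rw [this]
        exact hF0 _ _
    rw [e1]
    calc stirExp J t (F 0) - η0 ≤ stirExp J t (F 0) - dl J t (swap (c 0) (c j)) := by
          linarith [hη 0 j]
      _ = ∑ g, (stirLaw J t g * F 0 g -
            |stirLaw J t (swap (c 0) (c j) * g) - stirLaw J t g|) := by
          unfold stirExp dl
          rw [Finset.sum_sub_distrib]
      _ ≤ _ := by
          refine Finset.sum_le_sum fun g _ => ?_
          have l0 := law_nonneg hJ ht (swap (c 0) (c j) * g)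
          have a1 : stirLaw J t (swap (c 0) (c j) * g) * F 0 g ≤
              stirLaw J t (swap (c 0) (c j) * g) * F j (swap (c 0) (c j) * g) :=
            mul_le_mul_of_nonneg_left (e2 g) l0
          have a2 : (stirLaw J t g - stirLaw J t (swap (c 0) (c j) * g)) * F 0 g ≤
              |stirLaw J t (swap (c 0) (c j) * g) - stirLaw J t g| := by
            rw [abs_sub_comm]
            calc (stirLaw J t g - stirLaw J t (swap (c 0) (c j) * g)) * F 0 g
                ≤ |stirLaw J t g - stirLaw J t (swap (c 0) (c j) * g)| * F 0 g :=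
                  mul_le_mul_of_nonneg_right (le_abs_self _) (hF0 _ _)
              _ ≤ |stirLaw J t g - stirLaw J t (swap (c 0) (c j) * g)| * 1 :=
                  mul_le_mul_of_nonneg_left (hF1 _ _) (abs_nonneg _)
              _ = _ := mul_one _
          linarith
  have h2 : ∑ j, stirExp J t (F j) ≤ 1 := by
    rw [exp_sum]
    rw [← exp_const J t 1]
    refine exp_mono hJ ht fun g => ?_
    obtain ⟨j0, n0, h0⟩ := FirstRet.exists c g 0
    have : ∀ j, F j g = if j = j0 then 1 else 0 := by
      intro j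
      by_cases h : j = j0
      · rw [if_pos h, hF]
        beta_reduce
        rw [if_pos ⟨n0, h ▸ h0⟩]
      · rw [if_neg h, hF]
        beta_reduce
        rw [if_neg]
        rintro ⟨n, hn⟩
        exact h (hn.unique hc h0).2
    simp only [this]
    rw [Finset.sum_ite_eq' univ j0]
    simp
  have h3 : ((k : ℝ) + 1) * (stirExp J t (F 0) - η0) ≤ 1 := by
    calc ((k : ℝ) + 1) * (stirExp J t (F 0) - η0) =
          ∑ _j : Fin (k + 1), (stirExp J t (F 0) - η0) := by
          rw [Finset.sum_const, Finset.card_univ, Fintype.card_fin, nsmul_eq_mul]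
          push_cast
          ring
      _ ≤ ∑ j, stirExp J t (F j) := Finset.sum_le_sum fun j _ => h1 j
      _ ≤ 1 := h2
  have hk : (0 : ℝ) < (k : ℝ) + 1 := by positivity
  have h4 : stirExp J t (F 0) - η0 ≤ 1 / (k + 1) := by
    rw [le_div_iff₀ hk, mul_comm]
    exact h3
  have h5 : stirExp J t (fun g => if ∃ n, FirstRet c g 0 0 n then 1 else 0) =
      stirExp J t (F 0) := by rw [hF]
  rw [h5]
  linarith

open Classical in
/-- the probability that the cycle of a point avoids `k` others -/
theorem avoid {J : V → V → ℝ} (hJ : ∀ x y, 0 ≤ J x y) {t : ℝ} (ht : 0 ≤ t) (k : ℕ)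
    (c : Fin (k + 1) → V) (hc : Function.Injective c) (η0 : ℝ)
    (hη : ∀ i j, dl J t (swap (c i) (c j)) ≤ η0) :
    stirExp J t (fun g => ∏ i : Fin k, (if g.SameCycle (c 0) (c i.succ) then (0 : ℝ) else 1)) ≤
      1 / (k + 1) + η0 := by
  refine le_trans (exp_mono hJ ht fun g => ?_) (p0 hJ ht k c hc η0 hη)
  by_cases h : ∃ i : Fin k, g.SameCycle (c 0) (c i.succ)
  · obtain ⟨i, hi⟩ := h
    have hz : ∏ i : Fin k, (if g.SameCycle (c 0) (c i.succ) then (0 : ℝ) else 1) = 0 :=
      Finset.prod_eq_zero (Finset.mem_univ i) (if_pos hi)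
    rw [hz]
    split_ifs <;> norm_num
  · push Not at h
    have h1 : ∏ i : Fin k, (if g.SameCycle (c 0) (c i.succ) then (0 : ℝ) else 1) = 1 :=
      Finset.prod_eq_one fun i _ => if_neg (h i)
    rw [h1]
    obtain ⟨j0, n0, h0⟩ := FirstRet.exists c g 0
    have hj : j0 = 0 := by
      by_contra hj
      obtain ⟨i, rfl⟩ := Fin.exists_succ_eq.mpr hj
      exact h i ⟨(n0 : ℤ), by rw [zpow_natCast]; exact h0.2.1⟩
    rw [if_pos ⟨n0, hj ▸ h0⟩]

open Classical in
theorem bf_eq (B : Finset V) (g : Perm V) (γ : Cyc g) :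
    bf B g γ = ((B.filter fun w => cyOf g w = γ).card : ℝ) / B.card := by
  unfold bf
  congr 2
  exact Nat.subtype_card _ (fun x => by rw [Finset.mem_filter])

theorem bf_nonneg (B : Finset V) (g : Perm V) (γ : Cyc g) : 0 ≤ bf B g γ := by
  unfold bf
  positivity

theorem bf_le_one (B : Finset V) (g : Perm V) (γ : Cyc g) : bf B g γ ≤ 1 := by
  classical
  rw [bf_eq]
  apply div_le_one_of_le₀ _ (Nat.cast_nonneg _)
  exact_mod_cast Finset.card_filter_le _ _

theorem same_iff (g : Perm V) (v w : V) : cyOf g w = cyOf g v ↔ g.SameCycle v w := by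
  unfold cyOf
  rw [Quotient.eq]
  exact ⟨fun h => Perm.SameCycle.symm h, fun h => Perm.SameCycle.symm h⟩

theorem bf_len (B : Finset V) (g : Perm V) (v : V) :
    bf B g (cyOf g v) * B.card ≤ cycleLen g v := by
  classical
  by_cases hB : (B.card : ℝ) = 0
  · rw [hB, mul_zero]
    positivity
  rw [bf_eq, div_mul_cancel₀ _ hB]
  have : (B.filter fun w => cyOf g w = cyOf g v).card ≤ cycleLen g v := by
    unfold cycleLen
    have h1 : Nat.card {w : V // g.SameCycle v w} = (univ.filter fun w => g.SameCycle v w).card :=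
      Nat.subtype_card _ (fun x => by simp)
    rw [h1]
    apply Finset.card_le_card
    intro w hw
    rw [Finset.mem_filter] at hw ⊢
    exact ⟨Finset.mem_univ _, (same_iff g v w).1 hw.2⟩
  exact_mod_cast this

open Classical in
/-- sum over the points of `B` -/
theorem sum_pts (B : Finset V) (hB : B.Nonempty) (g : Perm V) [Fintype (Cyc g)] (F : Cyc g → ℝ) :
    ∑ v ∈ B, F (cyOf g v) = B.card * ∑ γ, bf B g γ * F γ := by
  have hc : (B.card : ℝ) ≠ 0 := by
    have := hB.card_pos
    positivity
  rw [Finset.mul_sum, ← Finset.sum_fiberwise B (fun v => cyOf g v)]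
  refine Finset.sum_congr rfl fun γ _ => ?_
  rw [bf_eq]
  have h1 : ∑ v ∈ B.filter (fun v => cyOf g v = γ), F (cyOf g v) =
      ∑ v ∈ B.filter (fun v => cyOf g v = γ), F γ :=
    Finset.sum_congr rfl fun v hv => by rw [(Finset.mem_filter.1 hv).2]
  rw [h1, Finset.sum_const, nsmul_eq_mul]
  field_simp

/-- the second event -/
theorem second (B B0 : Finset V) (hB0 : B0.Nonempty) (g : Perm V) :
    ∑ v ∈ B0, |bf B g (cyOf g v) - bf B0 g (cyOf g v)| ≤
      B0.card * Real.sqrt (∑ᶠ γ : Cyc g, (bf B g γ - bf B0 g γ) ^ 2) := by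
  classical
  have hfin : Finite (Cyc g) := Quotient.finite _
  have : Fintype (Cyc g) := Fintype.ofFinite _
  rw [finsum_eq_sum_of_fintype, sum_pts B0 hB0 g (fun γ => |bf B g γ - bf B0 g γ|)]
  refine mul_le_mul_of_nonneg_left ?_ (Nat.cast_nonneg _)
  have hs : ∑ γ, bf B0 g γ = 1 := by
    have h1 := sum_pts B0 hB0 g (fun _ => 1)
    rw [Finset.sum_const, nsmul_eq_mul, mul_one] at h1
    have hc : (B0.card : ℝ) ≠ 0 := by
      have := hB0.card_pos
      positivity
    simp only [mul_one] at h1
    have h2 : (B0.card : ℝ) * ∑ γ, bf B0 g γ = B0.card * 1 := by rw [← h1, mul_one]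
    exact mul_left_cancel₀ hc h2
  have h2 : ∑ γ, bf B0 g γ ^ 2 ≤ 1 := by
    rw [← hs]
    refine Finset.sum_le_sum fun γ _ => ?_
    have a := bf_nonneg B0 g γ
    have b := bf_le_one B0 g γ
    nlinarith
  calc ∑ γ, bf B0 g γ * |bf B g γ - bf B0 g γ|
      ≤ Real.sqrt (∑ γ, bf B0 g γ ^ 2) * Real.sqrt (∑ γ, |bf B g γ - bf B0 g γ| ^ 2) :=
        Real.sum_mul_le_sqrt_mul_sqrt _ _ _
    _ ≤ 1 * Real.sqrt (∑ γ, |bf B g γ - bf B0 g γ| ^ 2) := by
        refine mul_le_mul_of_nonneg_right ?_ (Real.sqrt_nonneg _)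
        rw [Real.sqrt_le_one]
        exact h2
    _ = _ := by
        rw [one_mul]
        simp only [sq_abs]

/-- Jensen's inequality for the square root -/
theorem jensen {J : V → V → ℝ} (hJ : ∀ x y, 0 ≤ J x y) {t : ℝ} (ht : 0 ≤ t)
    (X : Perm V → ℝ) (hX : ∀ g, 0 ≤ X g) :
    stirExp J t (fun g => Real.sqrt (X g)) ≤ Real.sqrt (stirExp J t X) := by
  have h1 : ∑ g, stirLaw J t g = 1 := by
    have := exp_const J t 1
    unfold stirExp at this
    simpa using this
  unfold stirExp
  calc ∑ g, stirLaw J t g * Real.sqrt (X g)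
      = ∑ g, Real.sqrt (stirLaw J t g) * Real.sqrt (stirLaw J t g * X g) := by
        refine Finset.sum_congr rfl fun g _ => ?_
        have l0 := law_nonneg hJ ht g
        rw [Real.sqrt_mul l0, ← mul_assoc, Real.mul_self_sqrt l0]
    _ ≤ Real.sqrt (∑ g, Real.sqrt (stirLaw J t g) ^ 2) *
          Real.sqrt (∑ g, Real.sqrt (stirLaw J t g * X g) ^ 2) :=
        Real.sum_mul_le_sqrt_mul_sqrt _ _ _
    _ = Real.sqrt (∑ g, stirLaw J t g * X g) := by
        have e1 : ∑ g, Real.sqrt (stirLaw J t g) ^ 2 = 1 := by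
          rw [← h1]
          exact Finset.sum_congr rfl fun g _ => Real.sq_sqrt (law_nonneg hJ ht g)
        have e2 : ∑ g, Real.sqrt (stirLaw J t g * X g) ^ 2 = ∑ g, stirLaw J t g * X g :=
          Finset.sum_congr rfl fun g _ => Real.sq_sqrt (mul_nonneg (law_nonneg hJ ht g) (hX g))
        rw [e1, e2, Real.sqrt_one, one_mul]

open Classical in
/-- the first event, for a permutation and a point -/
theorem powe (B0 : Finset V) (hB0 : B0.Nonempty) (g : Perm V) (v : V) (k : ℕ) :
    (B0.card : ℝ) ^ k * (1 - bf B0 g (cyOf g v)) ^ k =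
      ∑ b ∈ Fintype.piFinset (fun _ : Fin k => B0),
        ∏ i : Fin k, (if g.SameCycle v (b i) then (0 : ℝ) else 1) := by
  have hc : (B0.card : ℝ) ≠ 0 := by
    have := hB0.card_pos
    positivity
  have h1 := Finset.prod_univ_sum (fun _ : Fin k => B0)
    (fun _ w => if g.SameCycle v w then (0 : ℝ) else 1)
  rw [← h1, Finset.prod_const, Finset.card_univ, Fintype.card_fin, ← mul_pow]
  congr 1
  rw [bf_eq]
  have h2 : ∑ w ∈ B0, (if g.SameCycle v w then (0 : ℝ) else 1) =
      B0.card - (B0.filter fun w => cyOf g w = cyOf g v).card := by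
    have h3 : ∀ w, (if g.SameCycle v w then (0 : ℝ) else 1) =
        1 - (if cyOf g w = cyOf g v then 1 else 0) := by
      intro w
      by_cases h : g.SameCycle v w
      · rw [if_pos h, if_pos ((same_iff g v w).2 h), sub_self]
      · rw [if_neg h, if_neg (fun h' => h ((same_iff g v w).1 h')), sub_zero]
    simp only [h3]
    rw [Finset.sum_sub_distrib, Finset.sum_const, nsmul_eq_mul, mul_one, Finset.sum_boole]
  rw [h2]
  field_simp

open Classical in
theorem tuples {J : V → V → ℝ} (hJ : ∀ x y, 0 ≤ J x y) {t : ℝ} (ht : 0 ≤ t) (B0 : Finset V)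
    (η0 : ℝ) (hη0 : 0 ≤ η0) (hη : ∀ x ∈ B0, ∀ y ∈ B0, dl J t (swap x y) ≤ η0) (k : ℕ) :
    ∑ c ∈ Fintype.piFinset (fun _ : Fin (k + 1) => B0), stirExp J t (fun g =>
      ∏ i : Fin k, (if g.SameCycle (c 0) (c i.succ) then (0 : ℝ) else 1)) ≤
      (B0.card : ℝ) ^ (k + 1) * (1 / (k + 1) + η0) + ((k : ℝ) + 1) ^ 2 * (B0.card : ℝ) ^ k := by
  have hle1 : ∀ c : Fin (k + 1) → V, stirExp J t (fun g =>
      ∏ i : Fin k, (if g.SameCycle (c 0) (c i.succ) then (0 : ℝ) else 1)) ≤ 1 := by
    intro c
    refine le_trans (exp_mono (G := fun _ => 1) hJ ht fun g => ?_) (exp_const J t 1).le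
    refine Finset.prod_le_one (fun i _ => ?_) (fun i _ => ?_) <;> split_ifs <;> norm_num
  have hpt : ∀ c ∈ Fintype.piFinset (fun _ : Fin (k + 1) => B0), stirExp J t (fun g =>
      ∏ i : Fin k, (if g.SameCycle (c 0) (c i.succ) then (0 : ℝ) else 1)) ≤
      (1 / (k + 1) + η0) + (if ¬ Function.Injective c then 1 else 0) := by
    intro c hc
    rw [Fintype.mem_piFinset] at hc
    by_cases hi : Function.Injective c
    · rw [if_neg (not_not.2 hi), add_zero]
      exact avoid hJ ht k c hi η0 (fun i j => hη _ (hc i) _ (hc j))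
    · rw [if_pos hi]
      have : 0 ≤ 1 / ((k : ℝ) + 1) + η0 := by positivity
      linarith [hle1 c]
  refine (Finset.sum_le_sum hpt).trans ?_
  rw [Finset.sum_add_distrib, Finset.sum_const, Finset.sum_boole, nsmul_eq_mul,
    Fintype.card_piFinset_const]
  have h1 := noninj B0 (k + 1)
  rw [Nat.add_sub_cancel] at h1
  push_cast at h1 ⊢
  linarith

end gen

theorem main : S_CMP → S_LEN := by
  intro hcmp V _ _ J hJ t η η0 ht hη hη0 B B0 hB hB0 hBB h00 hB0' hdl k hk
  classical
  have hN : (0 : ℝ) < B0.card := by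
    have := hB0.card_pos
    exact_mod_cast this
  have hM : (0 : ℝ) < B.card := by
    have := hB.card_pos
    exact_mod_cast this
  have hk0 : (0 : ℝ) < k := by exact_mod_cast hk
  obtain ⟨X, hX⟩ : ∃ X : Perm V → ℝ, X = fun g => ∑ᶠ γ : Cyc g, (bf B g γ - bf B0 g γ) ^ 2 :=
    ⟨_, rfl⟩
  have hX0 : ∀ g, 0 ≤ X g := by
    intro g
    rw [hX]
    exact finsum_nonneg fun γ => sq_nonneg _
  have hXb : stirExp J t X ≤ 4 * η + 1 / B.card + 1 / B0.card := by
    rw [hX]
    exact hcmp V J hJ t η ht hη B B0 hB hB0 hBB h00 hB0'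
  -- the pointwise bound
  have hpt : ∀ (g : Perm V) (v : V), (if (cycleLen g v : ℝ) ≤ B.card / (4 * k) then (1 : ℝ) else 0) ≤
      2 * (1 - bf B0 g (cyOf g v)) ^ k + 4 * k * |bf B g (cyOf g v) - bf B0 g (cyOf g v)| := by
    intro g v
    have hp0 : 0 ≤ (1 - bf B0 g (cyOf g v)) ^ k :=
      pow_nonneg (by linarith [bf_le_one B0 g (cyOf g v)]) k
    have ha0 : 0 ≤ |bf B g (cyOf g v) - bf B0 g (cyOf g v)| := abs_nonneg _
    by_cases h : (cycleLen g v : ℝ) ≤ B.card / (4 * k)
    · rw [if_pos h]
      have h1 : bf B g (cyOf g v) ≤ 1 / (4 * k) := by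
        have h2 := (bf_len B g v).trans h
        have h3 : bf B g (cyOf g v) * B.card ≤ 1 / (4 * k) * B.card := by
          calc bf B g (cyOf g v) * B.card ≤ B.card / (4 * k) := h2
            _ = _ := by ring
        exact le_of_mul_le_mul_right h3 hM
      by_cases h4 : bf B0 g (cyOf g v) ≤ 1 / (2 * k)
      · have h5 : (1 : ℝ) / 2 ≤ (1 - bf B0 g (cyOf g v)) ^ k := by
          have hb : (-2 : ℝ) ≤ -(1 / (2 * k)) := by
            have : 1 / (2 * (k : ℝ)) ≤ 1 := by
              rw [div_le_one (by positivity)]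
              have : (1 : ℝ) ≤ k := by exact_mod_cast hk
              linarith
            linarith
          have h6 := one_add_mul_le_pow hb k
          have h7 : (1 : ℝ) + k * (-(1 / (2 * k))) = 1 / 2 := by
            field_simp
            norm_num
          rw [h7] at h6
          refine h6.trans (pow_le_pow_left₀ ?_ (by linarith) k)
          have : 1 / (2 * (k : ℝ)) ≤ 1 := by
            rw [div_le_one (by positivity)]
            have : (1 : ℝ) ≤ k := by exact_mod_cast hk
            linarith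
          linarith
        have : 0 ≤ 4 * (k : ℝ) * |bf B g (cyOf g v) - bf B0 g (cyOf g v)| := by positivity
        linarith
      · push Not at h4
        have h5 : 1 / (4 * (k : ℝ)) ≤ |bf B g (cyOf g v) - bf B0 g (cyOf g v)| := by
          rw [abs_sub_comm]
          refine le_trans ?_ (le_abs_self _)
          have : 1 / (2 * (k : ℝ)) = 1 / (4 * k) + 1 / (4 * k) := by
            field_simp
            norm_num
          linarith
        have h6 : 4 * (k : ℝ) * (1 / (4 * k)) = 1 := by field_simp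
        have h7 := mul_le_mul_of_nonneg_left h5 (show (0 : ℝ) ≤ 4 * k by positivity)
        linarith
    · rw [if_neg h]
      positivity
  -- the first part
  have hfirst : stirExp J t (fun g => ∑ v ∈ B0, (1 - bf B0 g (cyOf g v)) ^ k) ≤
      B0.card * (1 / (k + 1) + η0) + ((k : ℝ) + 1) ^ 2 := by
    have h1 := tuples hJ ht B0 η0 hη0 hdl k
    have h2 : ∑ c ∈ Fintype.piFinset (fun _ : Fin (k + 1) => B0), stirExp J t (fun g =>
        ∏ i : Fin k, (if g.SameCycle (c 0) (c i.succ) then (0 : ℝ) else 1)) =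
        (B0.card : ℝ) ^ k * stirExp J t (fun g => ∑ v ∈ B0, (1 - bf B0 g (cyOf g v)) ^ k) := by
      rw [exp_sum]
      unfold stirExp
      rw [Finset.mul_sum]
      refine Finset.sum_congr rfl fun g _ => ?_
      have h3 : ∑ c ∈ Fintype.piFinset (fun _ : Fin (k + 1) => B0),
          ∏ i : Fin k, (if g.SameCycle (c 0) (c i.succ) then (0 : ℝ) else 1) =
          ∑ v ∈ B0, ∑ b ∈ Fintype.piFinset (fun _ : Fin k => B0),
            ∏ i : Fin k, (if g.SameCycle v (b i) then (0 : ℝ) else 1) := by
        rw [← Finset.sum_product']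
        refine Finset.sum_nbij' (fun c => (c 0, fun i => c i.succ))
          (fun p => Fin.cons p.1 p.2) ?_ ?_ ?_ ?_ ?_
        · intro c hc
          rw [Fintype.mem_piFinset] at hc
          rw [Finset.mem_product, Fintype.mem_piFinset]
          exact ⟨hc 0, fun i => hc i.succ⟩
        · intro p hp
          rw [Finset.mem_product, Fintype.mem_piFinset] at hp
          rw [Fintype.mem_piFinset]
          intro i
          refine Fin.cases ?_ (fun i => ?_) i
          · exact hp.1
          · exact hp.2 i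
        · intro c _
          exact Fin.cons_self_tail c
        · intro p _
          rfl
        · intro c _
          rfl
      beta_reduce
      rw [h3]
      have h4 : ∀ v ∈ B0, ∑ b ∈ Fintype.piFinset (fun _ : Fin k => B0),
            ∏ i : Fin k, (if g.SameCycle v (b i) then (0 : ℝ) else 1) =
          (B0.card : ℝ) ^ k * (1 - bf B0 g (cyOf g v)) ^ k := by
        intro v _
        rw [powe B0 hB0 g v k]
      rw [Finset.sum_congr rfl h4, ← Finset.mul_sum]
      ring
    rw [h2] at h1
    have hNk : (0 : ℝ) < (B0.card : ℝ) ^ k := by positivity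
    refine le_of_mul_le_mul_left ?_ hNk
    refine h1.trans (le_of_eq ?_)
    rw [pow_succ]
    ring
  have hsecond : stirExp J t (fun g => ∑ v ∈ B0,
      |bf B g (cyOf g v) - bf B0 g (cyOf g v)|) ≤
      B0.card * Real.sqrt (4 * η + 1 / B.card + 1 / B0.card) := by
    calc stirExp J t (fun g => ∑ v ∈ B0, |bf B g (cyOf g v) - bf B0 g (cyOf g v)|)
        ≤ stirExp J t (fun g => B0.card * Real.sqrt (X g)) := by
          refine exp_mono hJ ht fun g => ?_
          rw [hX]
          exact second B B0 hB0 g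
      _ = B0.card * stirExp J t (fun g => Real.sqrt (X g)) := by
          unfold stirExp
          rw [Finset.mul_sum]
          refine Finset.sum_congr rfl fun g _ => ?_
          ring
      _ ≤ B0.card * Real.sqrt (stirExp J t X) :=
          mul_le_mul_of_nonneg_left (jensen hJ ht X hX0) hN.le
      _ ≤ _ := mul_le_mul_of_nonneg_left (Real.sqrt_le_sqrt hXb) hN.le
  rw [exp_sum, div_le_iff₀ hN]
  have htot : stirExp J t (fun g => ∑ v ∈ B0,
      (if (cycleLen g v : ℝ) ≤ B.card / (4 * k) then (1 : ℝ) else 0)) ≤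
      2 * stirExp J t (fun g => ∑ v ∈ B0, (1 - bf B0 g (cyOf g v)) ^ k) +
      4 * k * stirExp J t (fun g => ∑ v ∈ B0, |bf B g (cyOf g v) - bf B0 g (cyOf g v)|) := by
    have e : 2 * stirExp J t (fun g => ∑ v ∈ B0, (1 - bf B0 g (cyOf g v)) ^ k) +
      4 * k * stirExp J t (fun g => ∑ v ∈ B0, |bf B g (cyOf g v) - bf B0 g (cyOf g v)|) =
      stirExp J t (fun g => ∑ v ∈ B0, (2 * (1 - bf B0 g (cyOf g v)) ^ k +
        4 * k * |bf B g (cyOf g v) - bf B0 g (cyOf g v)|)) := by
      unfold stirExp
      rw [Finset.mul_sum, Finset.mul_sum, ← Finset.sum_add_distrib]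
      refine Finset.sum_congr rfl fun g _ => ?_
      beta_reduce
      rw [Finset.sum_add_distrib, ← Finset.mul_sum, ← Finset.mul_sum]
      ring
    rw [e]
    exact exp_mono hJ ht fun g => Finset.sum_le_sum fun v _ => hpt g v
  refine le_trans (le_of_eq ?_) (htot.trans ?_)
  · congr 1
  · have hk1 : (0 : ℝ) ≤ 4 * k := by positivity
    have a1 := mul_le_mul_of_nonneg_left hsecond hk1
    have a2 : (1 / ((k : ℝ) + 1) + η0) ≤ 1 / (k + 1) + (k + 1) * η0 := by nlinarith
    have a3 := mul_le_mul_of_nonneg_left a2 hN.le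
    have a4 : (2 * (1 / ((k : ℝ) + 1) + (k + 1) * η0 + (k + 1) ^ 2 / B0.card) +
        4 * k * Real.sqrt (4 * η + 1 / B.card + 1 / B0.card)) * B0.card =
        2 * (B0.card * (1 / ((k : ℝ) + 1) + (k + 1) * η0) + (k + 1) ^ 2) +
        4 * k * (B0.card * Real.sqrt (4 * η + 1 / B.card + 1 / B0.card)) := by
      field_simp
    rw [a4]
    linarith

end Pool.Agent.R134.PB.Len
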