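import Pool.Agent.R134.PB.Stm2
import Pool.Agent.Y998.LP.Law2
import Pool.Agent.TH268.PD.Core

/-!
# Project PB: two points, and the Lipschitz bound
-/

set_option autoImplicit false

namespace Pool.Agent.R134.PB.Lip

open Finset Equiv
open Pool.Agent.Y998.ST
open Pool.Agent.Y661.PD (dl Free tdist)
open Pool.Agent.TH268.PD (ret ret_spec)

lemma fin2 (π : Perm (Fin 2)) :
    (swap 0 1 * π).SameCycle 0 1 ↔ ¬ π.SameCycle 0 1 := by
  have h3 : ¬ (1 : Perm (Fin 2)).SameCycle 0 1 := by
    rw [Perm.sameCycle_one]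
    decide
  have h4 : (swap 0 1 : Perm (Fin 2)).SameCycle 0 1 := ⟨1, by simp⟩
  have hu : (Finset.univ : Finset (Perm (Fin 2))) = {1, swap 0 1} := by decide
  have hπ : π ∈ (Finset.univ : Finset (Perm (Fin 2))) := Finset.mem_univ π
  rw [hu, Finset.mem_insert, Finset.mem_singleton] at hπ
  rcases hπ with rfl | rfl
  · rw [mul_one]
    exact iff_of_true h4 h3
  · rw [swap_mul_self]
    exact iff_of_false h3 (not_not.2 h4)

section

variable {V : Type} [Fintype V] [DecidableEq V]

lemma flip {x y : V} (hxy : x ≠ y) (g : Perm V) :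
    (swap x y * g).SameCycle x y ↔ ¬ g.SameCycle x y := by
  have hb : Function.Injective (![x, y] : Fin 2 → V) := by
    intro i j hij
    fin_cases i <;> fin_cases j <;> simp_all
  have h1 := (ret_spec 2 ![x, y] hb).2.1 g 0 1
  have h2 := (ret_spec 2 ![x, y] hb).2.2.2 g 0 1
  have h3 := (ret_spec 2 ![x, y] hb).2.2.2 (swap x y * g) 0 1
  simp only [Matrix.cons_val_zero, Matrix.cons_val_one] at h1 h2 h3
  rw [← h3, ← h2, h1]
  exact fin2 _

open Classical in
lemma two (J : V → V → ℝ) (t : ℝ) {x y : V} (hxy : x ≠ y) :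
    |con J t x y - 1 / 2| ≤ dl J t (swap x y) / 2 := by
  have h1 : con J t x y = ∑ g, stirLaw J t g * (if g.SameCycle x y then 1 else 0) := rfl
  have h2 : ∑ g, stirLaw J t g = 1 := by
    have := exp_const J t 1
    unfold stirExp at this
    simpa using this
  have h3 : 1 - con J t x y =
      ∑ g, stirLaw J t (swap x y * g) * (if g.SameCycle x y then 1 else 0) := by
    have e : ∑ g, stirLaw J t g * (if (swap x y * g).SameCycle x y then (1 : ℝ) else 0) =
        ∑ g, stirLaw J t (swap x y * g) * (if g.SameCycle x y then 1 else 0) := by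
      rw [← Equiv.sum_comp (Equiv.mulLeft (swap x y))]
      refine Finset.sum_congr rfl fun g _ => ?_
      simp only [Equiv.coe_mulLeft]
      have h5 : swap x y * (swap x y * g) = g := by rw [← mul_assoc, swap_mul_self, one_mul]
      by_cases hg : g.SameCycle x y
      · rw [if_pos hg, if_pos (by rw [h5]; exact hg)]
      · rw [if_neg hg, if_neg (by rw [h5]; exact hg)]
    have e1 : 1 - con J t x y = (∑ g, stirLaw J t g) -
        ∑ g, stirLaw J t g * (if g.SameCycle x y then 1 else 0) := by rw [h2, h1]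
    rw [← e, e1, ← Finset.sum_sub_distrib]
    refine Finset.sum_congr rfl fun g _ => ?_
    have hf := flip hxy g
    by_cases hg : g.SameCycle x y
    · have hg' : ¬ (swap x y * g).SameCycle x y := fun hh => (hf.1 hh) hg
      rw [if_pos hg, if_neg hg']; ring
    · have hg' : (swap x y * g).SameCycle x y := hf.2 hg
      rw [if_neg hg, if_pos hg']; ring
  have h4 : |con J t x y - (1 - con J t x y)| ≤ dl J t (swap x y) := by
    rw [h3, h1, ← Finset.sum_sub_distrib]
    refine (Finset.abs_sum_le_sum_abs _ _).trans ?_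
    unfold dl
    refine Finset.sum_le_sum fun g _ => ?_
    rw [abs_sub_comm, ← sub_mul, abs_mul]
    have : |(if g.SameCycle x y then (1 : ℝ) else 0)| ≤ 1 := by
      split_ifs <;> simp
    calc _ ≤ |stirLaw J t (swap x y * g) - stirLaw J t g| * 1 := by gcongr
      _ = _ := mul_one _
  rw [abs_le] at h4 ⊢
  constructor <;> linarith [h4.1, h4.2]

open Classical in
lemma lip (J : V → V → ℝ) (t : ℝ) {x y y' : V} (hxy : x ≠ y) (hxy' : x ≠ y') :
    |con J t x y - con J t x y'| ≤ 2 * dl J t (swap y y') := by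
  have h1 : con J t x y = ∑ g, stirLaw J t g * (if g.SameCycle x y then 1 else 0) := rfl
  have h2 : con J t x y' = ∑ g, stirLaw J t (swap y y' * g * swap y y') *
      (if g.SameCycle x y then 1 else 0) := by
    have e0 : con J t x y' = ∑ g, stirLaw J t g * (if g.SameCycle x y' then 1 else 0) := rfl
    rw [e0, ← Equiv.sum_comp ((Equiv.mulLeft (swap y y')).trans (Equiv.mulRight (swap y y')))]
    refine Finset.sum_congr rfl fun g _ => ?_
    simp only [Equiv.trans_apply, Equiv.coe_mulLeft, Equiv.coe_mulRight]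
    have h3 : (swap y y' * g * swap y y').SameCycle x y' ↔ g.SameCycle x y := by
      have h4 := Perm.sameCycle_conj (g := swap y y') (f := g) (x := x) (y := y')
      rw [swap_inv] at h4
      rw [h4, swap_apply_of_ne_of_ne hxy hxy', swap_apply_right]
    by_cases hg : g.SameCycle x y
    · rw [if_pos hg, if_pos (h3.2 hg)]
    · rw [if_neg hg, if_neg (fun hh => hg (h3.1 hh))]
  have h5 : ∑ g, |stirLaw J t (swap y y' * g * swap y y') - stirLaw J t (g * swap y y')| =
      dl J t (swap y y') := by
    unfold dl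
    rw [← Equiv.sum_comp (Equiv.mulRight (swap y y'))
      (fun g => |stirLaw J t (swap y y' * g) - stirLaw J t g|)]
    refine Finset.sum_congr rfl fun g _ => ?_
    simp only [Equiv.coe_mulRight]
    rw [mul_assoc]
  have h6 : ∑ g, |stirLaw J t (g * swap y y') - stirLaw J t g| = dl J t (swap y y') := by
    unfold dl
    rw [← Equiv.sum_comp (Equiv.inv (Perm V))]
    refine Finset.sum_congr rfl fun g _ => ?_
    simp only [Equiv.inv_apply]
    rw [← Pool.Agent.Y998.LP.law_inv J t (g⁻¹ * swap y y'), Pool.Agent.Y998.LP.law_inv J t g,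
      mul_inv_rev, inv_inv, swap_inv]
  have h7 : |con J t x y - con J t x y'| ≤
      ∑ g, |stirLaw J t (swap y y' * g * swap y y') - stirLaw J t g| := by
    rw [h1, h2, ← Finset.sum_sub_distrib]
    refine (Finset.abs_sum_le_sum_abs _ _).trans ?_
    refine Finset.sum_le_sum fun g _ => ?_
    rw [abs_sub_comm, ← sub_mul, abs_mul]
    have : |(if g.SameCycle x y then (1 : ℝ) else 0)| ≤ 1 := by
      split_ifs <;> simp
    calc _ ≤ |stirLaw J t (swap y y' * g * swap y y') - stirLaw J t g| * 1 := by gcongr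
      _ = _ := mul_one _
  refine h7.trans ?_
  calc ∑ g, |stirLaw J t (swap y y' * g * swap y y') - stirLaw J t g|
      ≤ ∑ g, (|stirLaw J t (swap y y' * g * swap y y') - stirLaw J t (g * swap y y')| +
          |stirLaw J t (g * swap y y') - stirLaw J t g|) := by
        refine Finset.sum_le_sum fun g _ => ?_
        exact abs_sub_le _ _ _
    _ = 2 * dl J t (swap y y') := by
        rw [Finset.sum_add_distrib, h5, h6]; ring

end

theorem main : S_DL → S_LIP ∧ S_TP := by
  intro hDL
  constructor
  · intro d hd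
    obtain ⟨C, hC, h⟩ := hDL d hd
    refine ⟨2 * C, by positivity, ?_⟩
    intro L _ hL t ht x y y' hxy hxy'
    have h1 := lip (nnRate d L) t hxy hxy'
    have h2 := h L hL t ht y y'
    calc _ ≤ 2 * dl (nnRate d L) t (swap y y') := h1
      _ ≤ 2 * (C * tdist y y' / Real.sqrt t) := by linarith
      _ = _ := by ring
  · intro d hd
    obtain ⟨C, hC, h⟩ := hDL d hd
    refine ⟨C, hC, ?_⟩
    intro L _ hL t ht x y hxy
    have h1 := two (nnRate d L) t hxy
    have h2 := h L hL t ht x y
    have h3 : 0 ≤ C * tdist x y / Real.sqrt t := by positivity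
    linarith

end Pool.Agent.R134.PB.Lip
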