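import Pool.Agent.R134.PB.Stm
import Pool.Agent.Y799.PD.PR2

/-!
# Project PB, part LLN: the average over the points `b` (second moment)
-/

set_option autoImplicit false

namespace Pool.Agent.R134.PB.Lln

open Finset Equiv
open Pool.Agent.Y998.ST
open Pool.Agent.Y661.PD (dl Free tdist)

section abs

variable {G V : Type} [Fintype G] [Fintype V] [DecidableEq V]

theorem jensen {w : G → ℝ} (hw : ∀ g, 0 ≤ w g) (hw1 : ∑ g, w g = 1) (Y : G → ℝ) :
    (∑ g, w g * Y g) ^ 2 ≤ ∑ g, w g * (Y g) ^ 2 := by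
  set m := ∑ g, w g * Y g with hm
  have h : 0 ≤ ∑ g, w g * (Y g - m) ^ 2 :=
    Finset.sum_nonneg fun g _ => mul_nonneg (hw g) (sq_nonneg _)
  have e : ∑ g, w g * (Y g - m) ^ 2 =
      ∑ g, w g * (Y g) ^ 2 - 2 * m * ∑ g, w g * Y g + m ^ 2 * ∑ g, w g := by
    rw [Finset.mul_sum (a := 2 * m), Finset.mul_sum (a := m ^ 2), ← Finset.sum_sub_distrib,
      ← Finset.sum_add_distrib]
    exact Finset.sum_congr rfl fun g _ => by ring
  rw [e, hw1, ← hm] at h
  nlinarith

omit [DecidableEq V] in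
theorem mB {q : V → V → ℝ} {S : ℝ} (hq : ∀ x u, 0 ≤ q x u) (hqS : ∀ x u, q x u ≤ S)
    {P : V → ℝ} (hP : ∀ u, 0 ≤ P u) (hP1 : ∑ u, P u = 1) {m : V → ℝ}
    (hm : ∀ x, m x = ∑ u, P u * q x u) (x : V) : 0 ≤ m x ∧ m x ≤ S := by
  refine ⟨?_, ?_⟩
  · rw [hm]; exact Finset.sum_nonneg fun u _ => mul_nonneg (hP u) (hq x u)
  · rw [hm]
    calc ∑ u, P u * q x u ≤ ∑ u, P u * S :=
          Finset.sum_le_sum fun u _ => mul_le_mul_of_nonneg_left (hqS x u) (hP u)
      _ = S := by rw [← Finset.sum_mul, hP1, one_mul]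

omit [DecidableEq V] in
theorem absH {q : V → V → ℝ} {S : ℝ} (hq : ∀ x u, 0 ≤ q x u) (hqS : ∀ x u, q x u ≤ S)
    {P : V → ℝ} (hP : ∀ u, 0 ≤ P u) (hP1 : ∑ u, P u = 1) {m : V → ℝ}
    (hm : ∀ x, m x = ∑ u, P u * q x u) (x u : V) : |q x u - m x| ≤ S := by
  obtain ⟨h0, h1⟩ := mB hq hqS hP hP1 hm x
  rw [abs_le]
  constructor <;> linarith [hq x u, hqS x u]

omit [DecidableEq V] in
theorem sumH {q : V → V → ℝ} {S : ℝ} (hq : ∀ x u, 0 ≤ q x u) (hqS : ∀ x u, q x u ≤ S)
    (hcol : ∀ u, ∑ x, q x u = 1)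
    {P : V → ℝ} (hP : ∀ u, 0 ≤ P u) (hP1 : ∑ u, P u = 1) {m : V → ℝ}
    (hm : ∀ x, m x = ∑ u, P u * q x u) (u : V) : ∑ x, |q x u - m x| ≤ 2 := by
  calc ∑ x, |q x u - m x| ≤ ∑ x, (q x u + m x) := Finset.sum_le_sum fun x _ => by
        obtain ⟨h0, h1⟩ := mB hq hqS hP hP1 hm x
        rw [abs_le]
        constructor <;> linarith [hq x u]
    _ = 2 := by
      rw [Finset.sum_add_distrib, hcol]
      have h : ∑ x, m x = 1 := by
        simp only [hm]
        rw [Finset.sum_comm]
        simp only [← Finset.mul_sum, hcol, mul_one, hP1]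
      rw [h]; norm_num

omit [DecidableEq V] in
theorem prodB {S : ℝ} (hS : 0 ≤ S) (a c : V → ℝ) (ha : ∀ x, |a x| ≤ S) (hc : ∑ x, |c x| ≤ 2) :
    |∑ x, a x * c x| ≤ 2 * S := by
  calc |∑ x, a x * c x| ≤ ∑ x, |a x * c x| := Finset.abs_sum_le_sum_abs _ _
    _ ≤ ∑ x, S * |c x| := Finset.sum_le_sum fun x _ => by
        rw [abs_mul]; exact mul_le_mul_of_nonneg_right (ha x) (abs_nonneg _)
    _ = S * ∑ x, |c x| := by rw [Finset.mul_sum]
    _ ≤ S * 2 := mul_le_mul_of_nonneg_left hc hS
    _ = 2 * S := by ring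

theorem cross {w : G → ℝ} {q : V → V → ℝ} {S : ℝ} (hS : 0 ≤ S) (hq : ∀ x u, 0 ≤ q x u)
    (hqS : ∀ x u, q x u ≤ S) (hcol : ∀ u, ∑ x, q x u = 1)
    {P P' : V → ℝ} (hP : ∀ u, 0 ≤ P u) (hP1 : ∑ u, P u = 1)
    (hP' : ∀ u, 0 ≤ P' u) (hP1' : ∑ u, P' u = 1) {m m' : V → ℝ}
    (hm : ∀ x, m x = ∑ u, P u * q x u) (hm' : ∀ x, m' x = ∑ u, P' u * q x u)
    (e e' : G → V) :
    |∑ g, w g * ∑ x, (q x (e g) - m x) * (q x (e' g) - m' x)| ≤
      2 * S * ∑ u, ∑ v, |(∑ g, w g * (if e g = u ∧ e' g = v then 1 else 0)) - P u * P' v| := by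
  set W : V → V → ℝ := fun u v => ∑ x, (q x u - m x) * (q x v - m' x) with hW
  have hWb : ∀ u v, |W u v| ≤ 2 * S := fun u v =>
    prodB hS _ _ (fun x => absH hq hqS hP hP1 hm x u) (sumH hq hqS hcol hP' hP1' hm' v)
  have h1 : ∑ g, w g * W (e g) (e' g) =
      ∑ u, ∑ v, (∑ g, w g * (if e g = u ∧ e' g = v then 1 else 0)) * W u v := by
    have h3 : ∀ g, w g * W (e g) (e' g) =
        ∑ u, ∑ v, w g * (if e g = u ∧ e' g = v then 1 else 0) * W u v := by
      intro g
      rw [Finset.sum_eq_single (e g), Finset.sum_eq_single (e' g)]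
      · simp
      · intro v _ hv
        rw [if_neg (fun h => hv h.2.symm)]; ring
      · intro h; exact absurd (Finset.mem_univ _) h
      · intro u _ hu
        refine Finset.sum_eq_zero fun v _ => ?_
        rw [if_neg (fun h => hu h.1.symm)]; ring
      · intro h; exact absurd (Finset.mem_univ _) h
    rw [Finset.sum_congr rfl fun g _ => h3 g, Finset.sum_comm]
    refine Finset.sum_congr rfl fun u _ => ?_
    rw [Finset.sum_comm]
    refine Finset.sum_congr rfl fun v _ => ?_
    rw [Finset.sum_mul]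
  have h2 : ∑ u, ∑ v, P u * P' v * W u v = 0 := by
    have h4 : ∀ x, ∑ u, P u * (q x u - m x) = 0 := by
      intro x
      simp only [mul_sub, Finset.sum_sub_distrib]
      rw [← Finset.sum_mul, hP1, ← hm x]; ring
    have h5 : ∑ u, ∑ v, P u * P' v * W u v =
        ∑ x, (∑ u, P u * (q x u - m x)) * ∑ v, P' v * (q x v - m' x) := by
      calc ∑ u, ∑ v, P u * P' v * W u v =
          ∑ u, ∑ v, ∑ x, P u * (q x u - m x) * (P' v * (q x v - m' x)) := by
            refine Finset.sum_congr rfl fun u _ => Finset.sum_congr rfl fun v _ => ?_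
            simp only [hW, Finset.mul_sum]
            exact Finset.sum_congr rfl fun x _ => by ring
        _ = ∑ u, ∑ x, ∑ v, P u * (q x u - m x) * (P' v * (q x v - m' x)) :=
            Finset.sum_congr rfl fun u _ => Finset.sum_comm
        _ = ∑ x, ∑ u, ∑ v, P u * (q x u - m x) * (P' v * (q x v - m' x)) := Finset.sum_comm
        _ = _ := Finset.sum_congr rfl fun x _ => by rw [Finset.sum_mul_sum]
    rw [h5]
    exact Finset.sum_eq_zero fun x _ => by rw [h4 x, zero_mul]
  rw [h1]
  have h6 : ∑ u, ∑ v, (∑ g, w g * (if e g = u ∧ e' g = v then 1 else 0)) * W u v =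
      ∑ u, ∑ v, ((∑ g, w g * (if e g = u ∧ e' g = v then 1 else 0)) - P u * P' v) * W u v := by
    simp only [sub_mul, Finset.sum_sub_distrib]
    rw [h2, sub_zero]
  rw [h6, Finset.mul_sum]
  refine (Finset.abs_sum_le_sum_abs _ _).trans (Finset.sum_le_sum fun u _ => ?_)
  rw [Finset.mul_sum]
  refine (Finset.abs_sum_le_sum_abs _ _).trans (Finset.sum_le_sum fun v _ => ?_)
  rw [abs_mul, mul_comm]
  exact mul_le_mul_of_nonneg_right (hWb u v) (abs_nonneg _)

/-- The abstract second moment bound. -/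
theorem second {w : G → ℝ} (hw : ∀ g, 0 ≤ w g) (hw1 : ∑ g, w g = 1)
    {q : V → V → ℝ} {S : ℝ} (hS : 0 ≤ S) (hq : ∀ x u, 0 ≤ q x u)
    (hqS : ∀ x u, q x u ≤ S) (hcol : ∀ u, ∑ x, q x u = 1)
    {n : ℕ} (hn : 1 ≤ n) {P : Fin n → V → ℝ} (hP : ∀ l u, 0 ≤ P l u) (hP1 : ∀ l, ∑ u, P l u = 1)
    {m : Fin n → V → ℝ} (hm : ∀ l x, m l x = ∑ u, P l u * q x u)
    (e : Fin n → G → V) (f : Fin n → G → ℝ) (hf : ∀ l g, f l g = 0 ∨ f l g = 1) {e3 : ℝ}
    (he3 : ∀ l, ∑ g, w g * (1 - f l g) ≤ e3) {D : Fin n → Fin n → ℝ}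
    (hD : ∀ l l', ∑ u, ∑ v, |(∑ g, w g * (if e l g = u ∧ e l' g = v then 1 else 0)) -
      P l u * P l' v| ≤ D l l') (B : Finset V) :
    ∑ g, w g * ∑ x ∈ B, |(∑ l, f l g * (q x (e l g) - m l x)) / n| ≤
      Real.sqrt (B.card * S * (2 / n + 2 * ((∑ l, ∑ l', if l = l' then 0 else D l l') /
        (n : ℝ) ^ 2) + 4 * e3)) := by
  have hn0 : (0 : ℝ) < n := by exact_mod_cast hn
  have hf0 : ∀ l g, 0 ≤ f l g := fun l g => by rcases hf l g with h | h <;> rw [h] <;> norm_num
  have hf1 : ∀ l g, f l g ≤ 1 := fun l g => by rcases hf l g with h | h <;> rw [h] <;> norm_num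
  have he30 : 0 ≤ e3 := by
    refine le_trans ?_ (he3 ⟨0, hn⟩)
    exact Finset.sum_nonneg fun g _ => mul_nonneg (hw g) (by linarith [hf1 ⟨0, hn⟩ g])
  -- products
  have hprod : ∀ l l' g, |∑ x, (q x (e l g) - m l x) * (q x (e l' g) - m l' x)| ≤ 2 * S :=
    fun l l' g => prodB hS _ _ (fun x => absH hq hqS (hP l) (hP1 l) (hm l) x _)
      (sumH hq hqS hcol (hP l') (hP1 l') (hm l') _)
  -- one pair
  have hpair : ∀ l l', ∑ g, w g * ∑ x, (f l g * (q x (e l g) - m l x)) *
      (f l' g * (q x (e l' g) - m l' x)) ≤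
      (if l = l' then 2 * S else 0) + 2 * S * (if l = l' then 0 else D l l') + 4 * S * e3 := by
    intro l l'
    by_cases hll : l = l'
    · subst hll
      rw [if_pos rfl, if_pos rfl, mul_zero, add_zero]
      have h1 : ∑ g, w g * ∑ x, (f l g * (q x (e l g) - m l x)) *
          (f l g * (q x (e l g) - m l x)) ≤ ∑ g, w g * (2 * S) := by
        refine Finset.sum_le_sum fun g _ => mul_le_mul_of_nonneg_left ?_ (hw g)
        have h2 : ∑ x, (f l g * (q x (e l g) - m l x)) * (f l g * (q x (e l g) - m l x)) =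
            (f l g) ^ 2 * ∑ x, (q x (e l g) - m l x) * (q x (e l g) - m l x) := by
          rw [Finset.mul_sum]
          exact Finset.sum_congr rfl fun x _ => by ring
        rw [h2]
        have h3 := (le_abs_self _).trans (hprod l l g)
        rcases hf l g with h | h
        · rw [h]; simp; exact hS
        · rw [h]; simpa using h3
      rw [← Finset.sum_mul, hw1, one_mul] at h1
      have : 0 ≤ 4 * S * e3 := by positivity
      linarith
    · rw [if_neg hll, if_neg hll, zero_add]
      have h1 : ∑ g, w g * ∑ x, (f l g * (q x (e l g) - m l x)) *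
          (f l' g * (q x (e l' g) - m l' x)) =
          ∑ g, w g * ∑ x, (q x (e l g) - m l x) * (q x (e l' g) - m l' x) -
          ∑ g, w g * ((1 - f l g * f l' g) * ∑ x, (q x (e l g) - m l x) *
            (q x (e l' g) - m l' x)) := by
        rw [← Finset.sum_sub_distrib]
        refine Finset.sum_congr rfl fun g _ => ?_
        have h2 : ∑ x, (f l g * (q x (e l g) - m l x)) * (f l' g * (q x (e l' g) - m l' x)) =
            f l g * f l' g * ∑ x, (q x (e l g) - m l x) * (q x (e l' g) - m l' x) := by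
          rw [Finset.mul_sum]
          exact Finset.sum_congr rfl fun x _ => by ring
        rw [h2]; ring
      have h3 : ∑ g, w g * ∑ x, (q x (e l g) - m l x) * (q x (e l' g) - m l' x) ≤
          2 * S * D l l' := by
        refine (le_abs_self _).trans ((cross hS hq hqS hcol (hP l) (hP1 l) (hP l') (hP1 l')
          (hm l) (hm l') (e l) (e l')).trans ?_)
        exact mul_le_mul_of_nonneg_left (hD l l') (by positivity)
      have h4 : -∑ g, w g * ((1 - f l g * f l' g) * ∑ x, (q x (e l g) - m l x) *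
            (q x (e l' g) - m l' x)) ≤ 4 * S * e3 := by
        rw [← Finset.sum_neg_distrib]
        calc ∑ g, -(w g * ((1 - f l g * f l' g) * ∑ x, (q x (e l g) - m l x) *
            (q x (e l' g) - m l' x))) ≤
            ∑ g, (2 * S * (w g * (1 - f l g)) + 2 * S * (w g * (1 - f l' g))) := by
              refine Finset.sum_le_sum fun g _ => ?_
              have h5 := (neg_le_abs _).trans (hprod l l' g)
              have h6 : 0 ≤ 1 - f l g * f l' g := by
                nlinarith [hf0 l g, hf1 l g, hf0 l' g, hf1 l' g]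
              have h7 : 1 - f l g * f l' g ≤ (1 - f l g) + (1 - f l' g) := by
                nlinarith [hf0 l g, hf1 l g, hf0 l' g, hf1 l' g]
              have h8 : (1 - f l g * f l' g) * -(∑ x, (q x (e l g) - m l x) *
                  (q x (e l' g) - m l' x)) ≤ ((1 - f l g) + (1 - f l' g)) * (2 * S) :=
                (mul_le_mul_of_nonneg_left h5 h6).trans
                  (mul_le_mul_of_nonneg_right h7 (by positivity))
              have h9 := mul_le_mul_of_nonneg_left h8 (hw g)
              nlinarith [h9]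
          _ = 2 * S * ∑ g, w g * (1 - f l g) + 2 * S * ∑ g, w g * (1 - f l' g) := by
              rw [Finset.sum_add_distrib, ← Finset.mul_sum, ← Finset.mul_sum]
          _ ≤ 2 * S * e3 + 2 * S * e3 :=
              add_le_add (mul_le_mul_of_nonneg_left (he3 l) (by positivity))
                (mul_le_mul_of_nonneg_left (he3 l') (by positivity))
          _ = 4 * S * e3 := by ring
      rw [h1]; linarith
  -- the second moment
  have hZ : ∑ g, w g * ∑ x, ((∑ l, f l g * (q x (e l g) - m l x)) / n) ^ 2 ≤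
      S * (2 / n + 2 * ((∑ l, ∑ l', if l = l' then 0 else D l l') / (n : ℝ) ^ 2) + 4 * e3) := by
    have h1 : ∑ g, w g * ∑ x, ((∑ l, f l g * (q x (e l g) - m l x)) / n) ^ 2 =
        (∑ l, ∑ l', ∑ g, w g * ∑ x, (f l g * (q x (e l g) - m l x)) *
          (f l' g * (q x (e l' g) - m l' x))) / (n : ℝ) ^ 2 := by
      have h2 : ∀ g x, ((∑ l, f l g * (q x (e l g) - m l x)) / n) ^ 2 =
          (∑ l, ∑ l', (f l g * (q x (e l g) - m l x)) * (f l' g * (q x (e l' g) - m l' x))) /
            (n : ℝ) ^ 2 := by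
        intro g x
        rw [div_pow, sq (∑ l, f l g * (q x (e l g) - m l x)), Finset.sum_mul_sum]
      simp only [h2, ← Finset.sum_div]
      rw [eq_div_iff (by positivity), Finset.sum_mul]
      have h3 : ∀ g, w g * ((∑ x, ∑ l, ∑ l', (f l g * (q x (e l g) - m l x)) *
          (f l' g * (q x (e l' g) - m l' x))) / (n : ℝ) ^ 2) * (n : ℝ) ^ 2 =
          ∑ l, ∑ l', w g * ∑ x, (f l g * (q x (e l g) - m l x)) *
          (f l' g * (q x (e l' g) - m l' x)) := by
        intro g
        rw [mul_assoc, div_mul_cancel₀ _ (by positivity : ((n : ℝ) ^ 2) ≠ 0), Finset.sum_comm,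
          Finset.mul_sum]
        refine Finset.sum_congr rfl fun l _ => ?_
        rw [Finset.sum_comm, Finset.mul_sum]
      rw [Finset.sum_congr rfl fun g _ => h3 g, Finset.sum_comm]
      refine Finset.sum_congr rfl fun l _ => ?_
      rw [Finset.sum_comm]
    rw [h1]
    have h4 : ∑ l, ∑ l', ∑ g, w g * ∑ x, (f l g * (q x (e l g) - m l x)) *
          (f l' g * (q x (e l' g) - m l' x)) ≤
        n * (2 * S) + 2 * S * (∑ l, ∑ l', if l = l' then 0 else D l l') +
          (n : ℝ) ^ 2 * (4 * S * e3) := by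
      calc _ ≤ ∑ l : Fin n, ∑ l' : Fin n, ((if l = l' then 2 * S else 0) +
            2 * S * (if l = l' then 0 else D l l') + 4 * S * e3) :=
          Finset.sum_le_sum fun l _ => Finset.sum_le_sum fun l' _ => hpair l l'
        _ = _ := by
          simp only [Finset.sum_add_distrib, Finset.sum_ite_eq, Finset.mem_univ, if_true,
            Finset.sum_const, Finset.card_univ, Fintype.card_fin, nsmul_eq_mul, Finset.mul_sum]
          ring
    rw [div_le_iff₀ (by positivity)]
    refine h4.trans (le_of_eq ?_)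
    field_simp
  -- conclusion
  apply Real.le_sqrt_of_sq_le
  refine (jensen hw hw1 _).trans ?_
  calc ∑ g, w g * (∑ x ∈ B, |(∑ l, f l g * (q x (e l g) - m l x)) / n|) ^ 2 ≤
      ∑ g, w g * (B.card * ∑ x, ((∑ l, f l g * (q x (e l g) - m l x)) / n) ^ 2) := by
        refine Finset.sum_le_sum fun g _ => mul_le_mul_of_nonneg_left ?_ (hw g)
        refine (sq_sum_le_card_mul_sum_sq).trans ?_
        refine mul_le_mul_of_nonneg_left ?_ (by positivity)
        simp only [sq_abs]
        exact Finset.sum_le_sum_of_subset_of_nonneg (Finset.subset_univ _)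
          fun _ _ _ => sq_nonneg _
    _ = B.card * ∑ g, w g * ∑ x, ((∑ l, f l g * (q x (e l g) - m l x)) / n) ^ 2 := by
        rw [Finset.mul_sum]
        exact Finset.sum_congr rfl fun g _ => by ring
    _ ≤ B.card * (S * (2 / n + 2 * ((∑ l, ∑ l', if l = l' then 0 else D l l') /
          (n : ℝ) ^ 2) + 4 * e3)) := mul_le_mul_of_nonneg_left hZ (by positivity)
    _ = _ := by ring

end abs

section symm

variable {V : Type} [Fintype V] [DecidableEq V]

theorem pow_right (J : V → V → ℝ) (n : ℕ) :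
    ∀ g h k : Perm V, (TT J ^ n) (g * k) (h * k) = (TT J ^ n) g h := by
  induction n with
  | zero =>
    intro g h k
    rw [pow_zero, Matrix.one_apply, Matrix.one_apply]
    simp only [mul_left_inj]
  | succ n ih =>
    intro g h k
    rw [pow_succ', TT_mul, TT_mul]
    refine Finset.sum_congr rfl fun x _ => Finset.sum_congr rfl fun y _ => ?_
    rw [← mul_assoc, ih]

theorem TT_symm (J : V → V → ℝ) (g h : Perm V) : TT J g h = TT J h g := by
  unfold TT
  refine Finset.sum_congr rfl fun x _ => Finset.sum_congr rfl fun y _ => ?_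
  congr 1
  have h1 : h = swap x y * g ↔ g = swap x y * h := by
    constructor
    · rintro rfl; rw [← mul_assoc, swap_mul_self, one_mul]
    · rintro rfl; rw [← mul_assoc, swap_mul_self, one_mul]
  simp only [h1]

theorem pow_symm (J : V → V → ℝ) (n : ℕ) (g h : Perm V) : (TT J ^ n) g h = (TT J ^ n) h g := by
  have h1 : (TT J).transpose = TT J := by
    ext a b
    rw [Matrix.transpose_apply, TT_symm]
  have h2 : (TT J ^ n).transpose = TT J ^ n := by rw [Matrix.transpose_pow, h1]
  calc (TT J ^ n) g h = (TT J ^ n).transpose g h := by rw [h2]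
    _ = _ := rfl

theorem law_inv (J : V → V → ℝ) (t : ℝ) (g : Perm V) : stirLaw J t g⁻¹ = stirLaw J t g := by
  unfold stirLaw
  refine tsum_congr fun n => ?_
  rw [← TT_words, ← TT_words]
  congr 1
  have h1 := pow_right J n 1 g g⁻¹
  rw [one_mul, mul_inv_cancel] at h1
  rw [h1, pow_symm]

/-- the heat kernel is symmetric -/
theorem qq_symm (J : V → V → ℝ) (t : ℝ) (x y : V) : qq J t x y = qq J t y x := by
  unfold qq hop stirExp
  rw [← Equiv.sum_comp (Equiv.inv (Perm V))]
  refine Finset.sum_congr rfl fun g _ => ?_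
  rw [Equiv.inv_apply, law_inv]
  congr 1
  have h1 : (g⁻¹ x = y) ↔ (g y = x) := by
    rw [Perm.inv_eq_iff_eq]
    exact eq_comm
  simp only [h1]

end symm

theorem main : Pool.Agent.R134.PB.S_LLN := by
  classical
  intro V _ _ J hJ hs h0 t s ht hs0 K n hn b B S e3 hS hqS he3
  have hsum : ∑ g, stirLaw J t g = 1 := by
    have h := exp_const J t 1
    simpa [stirExp] using h
  have hKt : 0 ≤ (K : ℝ) * t := by positivity
  have hsym : ∀ x y, qq J ((K : ℝ) * t) x y = qq J ((K : ℝ) * t) y x := qq_symm J _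
  have hmm : ∀ (l : Fin n) (x : V), qq J (s + K * t) x (b l) =
      ∑ u, qq J (K * t) (b l) u * qq J s x u := by
    intro l x
    rw [qq_add hs h0, Matrix.mul_apply]
    refine Finset.sum_congr rfl fun u _ => ?_
    rw [hsym u (b l)]; ring
  have key := second (w := fun g => stirLaw J t g) (fun g => law_nonneg hJ ht g) hsum
    (q := fun x u => qq J s x u) hS (fun x u => qq_nonneg hJ hs0 x u) hqS
    (fun u => Pool.Agent.Y799.PD.PR2.qq_col J s u) hn
    (P := fun l u => qq J (K * t) (b l) u) (fun l u => qq_nonneg hJ hKt _ _)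
    (fun l => qq_row J _ _) (m := fun l x => qq J (s + K * t) x (b l)) hmm
    (fun l g => (g ^ K) (b l)) (fun l g => if Free b g (b l) K then 1 else 0)
    (fun l g => by split_ifs <;> simp) (e3 := e3)
    (fun l => by
      refine le_trans (le_of_eq ?_) (he3 l)
      unfold stirExp
      refine Finset.sum_congr rfl fun g _ => ?_
      by_cases h : Free b g (b l) K
      · simp only [if_pos h, sub_self]
      · simp only [if_neg h, sub_zero])
    (D := fun l l' => PD2 J t K (b l) (b l')) (fun l l' => le_of_eq (by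
      unfold PD2 stirExp
      rfl)) B
  refine le_trans (le_of_eq ?_) key
  unfold stirExp
  refine Finset.sum_congr rfl fun g _ => ?_
  congr 1
  refine Finset.sum_congr rfl fun x _ => ?_
  congr 2
  refine Finset.sum_congr rfl fun l _ => ?_
  unfold hh HH
  by_cases h : Free b g (b l) K
  · rw [if_pos h, if_pos h, one_mul]
  · rw [if_neg h, if_neg h, zero_mul]

end Pool.Agent.R134.PB.Lln
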