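import Pool.Agent.R134.PB.Stm
import Pool.Agent.Y799.PD.PR2

/-!
# Project PB: the rate at which two strands of two orbits meet, for a family of starting points
-/

set_option autoImplicit false

namespace Pool.Agent.R134.PB.Lpr

open Finset Equiv
open Pool.Agent.Y998.ST
open Pool.Agent.Y799.PD.PR2 (qq_col CS_one CS_unmarked pair_CS CS_congr)

section lemmas

variable {V : Type} [Fintype V] [DecidableEq V]

open scoped Matrix.Norms.Operator in
theorem E_symm {A : Matrix V V ℝ} (hA : A.IsSymm) (t : ℝ) : (E A t).IsSymm := by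
  unfold E
  exact Matrix.IsSymm.exp (hA.smul t)

theorem qq_symm {J : V → V → ℝ} (hs : ∀ x y, J x y = J y x) (h0 : ∀ x, J x x = 0) (t : ℝ)
    (x y : V) : qq J t x y = qq J t y x := by
  have h : qq J t = E (GG J) t := eq_E (qq_deriv hs h0) (qq_zero J) t
  have hG : (GG J).IsSymm := by
    ext a b
    rw [Matrix.transpose_apply]
    unfold GG
    by_cases hab : a = b
    · subst hab; rfl
    · rw [if_neg hab, if_neg (Ne.symm hab), hs]
  rw [h]
  exact (E_symm hG t).apply y x

/-- two marked strands in different blocks -/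
theorem cross {J : V → V → ℝ} (hJ : ∀ x y, 0 ≤ J x y) (hs : ∀ x y, J x y = J y x)
    (h0 : ∀ x, J x x = 0) {r : ℝ} (hr : ∀ x, ∑ y, J x y ≤ r) {u w : ℝ} (hu : 0 ≤ u) (hw : 0 ≤ w)
    {ι : Type} [Fintype ι] (X Y : ι → V) :
    ∑ o, ∑ a, ∑ b, J b a * (qq J u (X o) b * qq J w (Y o) b) ≤
      r * ∑ o, qq J (u + w) (X o) (Y o) := by
  rw [Finset.mul_sum]
  refine Finset.sum_le_sum fun o _ => ?_
  rw [Finset.sum_comm]
  have e : qq J (u + w) (X o) (Y o) = ∑ b, qq J u (X o) b * qq J w (Y o) b := by
    rw [qq_add hs h0, Matrix.mul_apply]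
    refine Finset.sum_congr rfl fun b _ => ?_
    rw [qq_symm hs h0 w b (Y o)]
  rw [e, Finset.mul_sum]
  refine Finset.sum_le_sum fun b _ => ?_
  rw [← Finset.sum_mul]
  exact mul_le_mul_of_nonneg_right (hr b) (mul_nonneg (qq_nonneg hJ hu _ _) (qq_nonneg hJ hw _ _))

theorem far {J : V → V → ℝ} (hJ : ∀ x y, 0 ≤ J x y) (hs : ∀ x y, J x y = J y x)
    (h0 : ∀ x, J x x = 0) {t v : ℝ} (hv : 0 ≤ v) {m : ℕ} {c : ℝ}
    (hQ : ∀ a b, qq J (m * t) a b ≤ c) (x y : V) : qq J (m * t + v) x y ≤ c := by
  rw [qq_add hs h0, Matrix.mul_apply]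
  calc ∑ z, qq J (m * t) x z * qq J v z y ≤ ∑ z, c * qq J v z y :=
        Finset.sum_le_sum fun z _ => mul_le_mul_of_nonneg_right (hQ x z) (qq_nonneg hJ hv _ _)
    _ = c := by rw [← Finset.mul_sum, qq_col, mul_one]

/-- the bound in the cross case -/
theorem cross2 {J : V → V → ℝ} (hJ : ∀ x y, 0 ≤ J x y) (hs : ∀ x y, J x y = J y x)
    (h0 : ∀ x, J x x = 0) {r : ℝ} (hr : ∀ x, ∑ y, J x y ≤ r) (hr0 : 0 ≤ r) {s t : ℝ}
    (hs0 : 0 ≤ s) (hst : s ≤ t) (Q : ℕ → ℝ) (hQ : ∀ m : ℕ, 0 < m → ∀ a b, qq J (m * t) a b ≤ Q m)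
    {ι : Type} [Fintype ι] (X Y : ι → V) (g0 : ℝ)
    (hg : ∀ u : ℝ, 0 ≤ u → ∑ a, qq J u (X a) (Y a) ≤ Fintype.card ι * g0) (i j : ℕ) :
    ∑ o, ∑ a, ∑ b, J b a * (qq J ((i : ℝ) * t + (t - s)) (X o) b *
      qq J ((j : ℝ) * t + (t - s)) (Y o) b) ≤
      Fintype.card ι * (r * (if i + j = 0 then g0 else Q (i + j))) := by
  have ht : 0 ≤ t := hs0.trans hst
  have hts : 0 ≤ t - s := sub_nonneg.2 hst
  have hu : 0 ≤ (i : ℝ) * t + (t - s) := by positivity
  have hw : 0 ≤ (j : ℝ) * t + (t - s) := by positivity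
  refine (cross hJ hs h0 hr hu hw X Y).trans ?_
  rw [mul_left_comm]
  refine mul_le_mul_of_nonneg_left ?_ hr0
  by_cases h : i + j = 0
  · rw [if_pos h]
    exact hg _ (by positivity)
  · rw [if_neg h]
    have e : (i : ℝ) * t + (t - s) + ((j : ℝ) * t + (t - s)) =
        ((i + j : ℕ) : ℝ) * t + 2 * (t - s) := by
      push_cast; ring
    rw [e]
    calc ∑ o, qq J (((i + j : ℕ) : ℝ) * t + 2 * (t - s)) (X o) (Y o) ≤ ∑ _o : ι, Q (i + j) :=
          Finset.sum_le_sum fun o _ => far hJ hs h0 (by positivity) (hQ _ (Nat.pos_of_ne_zero h)) _ _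
      _ = Fintype.card ι * Q (i + j) := by
          rw [Finset.sum_const, Finset.card_univ, nsmul_eq_mul]

end lemmas

theorem main : Pool.Agent.R134.PB.S_LPR := by
  intro V _ _ _ J hJ hs h0 K r hr hr0 s t hs0 hst Q hQ ι _ X Y g0 hg0 hg i j hij
  have ht : 0 ≤ t := hs0.trans hst
  simp only [sum_z hs h0 s t i j hij]
  have e : ∀ x y : V, ∑ p : Fin K → V, ∑ q : Fin K → V, ∑ a, ∑ b, J b a *
      ∏ l : Fin (K + K), kk J s t i j a b l (Fin.append (pre x p) (pre y q) l)
        (Fin.append p q l) =
      ∑ a, ∑ b, J b a * (CS K (kk J s t i j a b) x *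
        CS K (fun l => kk J s t i j a b (K + l)) y) := by
    intro x y
    have e1 : ∀ (p q : Fin K → V) (a b : V), ∏ l : Fin (K + K),
        kk J s t i j a b l (Fin.append (pre x p) (pre y q) l) (Fin.append p q l) =
        (∏ l : Fin K, kk J s t i j a b l (pre x p l) (p l)) *
          ∏ l : Fin K, kk J s t i j a b (K + l) (pre y q l) (q l) := by
      intro p q a b
      rw [Fin.prod_univ_add]
      simp only [Fin.append_left, Fin.append_right, Fin.val_castAdd, Fin.val_natAdd]
    simp only [e1]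
    rw [Finset.sum_congr rfl fun p _ => Finset.sum_comm, Finset.sum_comm]
    refine Finset.sum_congr rfl fun a _ => ?_
    rw [Finset.sum_congr rfl fun p _ => Finset.sum_comm, Finset.sum_comm]
    refine Finset.sum_congr rfl fun b _ => ?_
    unfold CS
    rw [Finset.sum_mul_sum, Finset.mul_sum]
    refine Finset.sum_congr rfl fun p _ => ?_
    rw [Finset.mul_sum]
  simp only [e]
  have hik := i.2
  have hjk := j.2
  have hijv : (i : ℕ) ≠ (j : ℕ) := fun h => hij (Fin.ext h)
  have hconst : ∀ c : ℝ, ∑ _o : ι, c = (Fintype.card ι : ℝ) * c := by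
    intro c
    simp only [Finset.sum_const, Finset.card_univ, nsmul_eq_mul]
  by_cases hi : (i : ℕ) < K
  · by_cases hj : (j : ℕ) < K
    · rw [if_pos (by tauto), ← hconst]
      refine Finset.sum_le_sum fun o _ => ?_
      have e2 : ∀ a b, CS K (fun l => kk J s t i j a b (K + l)) (Y o) = 1 := by
        intro a b
        refine CS_unmarked (J := J) t (Y o) _ fun l hl => ?_
        funext x' w
        unfold kk
        rw [if_neg (by omega), if_neg (by omega)]
      simp only [e2, mul_one]
      exact pair_CS hJ hs h0 hr (X o) hst ht (⟨i, hi⟩ : Fin K) ⟨j, hj⟩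
        (fun h => hijv (by simpa using h)) Q (fun m hm _ => hQ m hm)
    · rw [if_neg (by tauto)]
      have e2 : ∀ x y a b, CS K (kk J s t i j a b) x *
          CS K (fun l => kk J s t i j a b (K + l)) y =
          qq J (((i : ℕ) : ℝ) * t + (t - s)) x b *
            qq J ((((j : ℕ) - K : ℕ) : ℝ) * t + (t - s)) y b := by
        intro x y a b
        rw [CS_one hs h0 s t x b a i hi (kk J s t i j a b) (fun l hl hl' => by
            funext x' w
            unfold kk
            rw [if_neg hl', if_neg (by omega)]) (fun x' w => by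
            unfold kk
            rw [if_pos rfl]),
          CS_one hs h0 s t y b b ((j : ℕ) - K) (by omega) (fun l => kk J s t i j a b (K + l))
            (fun l hl hl' => by
              funext x' w
              unfold kk
              rw [if_neg (by omega), if_neg (by omega)]) (fun x' w => by
              unfold kk
              rw [if_neg (by omega), if_pos (by omega)])]
      simp only [e2]
      have e3 : (i : ℕ) % K = i := Nat.mod_eq_of_lt hi
      have e4 : (j : ℕ) % K = (j : ℕ) - K := by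
        rw [Nat.mod_eq_sub_mod (by omega), Nat.mod_eq_of_lt (by omega)]
      rw [e3, e4]
      exact cross2 hJ hs h0 hr hr0 hs0 hst Q hQ X Y g0 hg _ _
  · by_cases hj : (j : ℕ) < K
    · rw [if_neg (by tauto)]
      have e2 : ∀ x y a b, CS K (kk J s t i j a b) x *
          CS K (fun l => kk J s t i j a b (K + l)) y =
          qq J (((j : ℕ) : ℝ) * t + (t - s)) x b *
            qq J ((((i : ℕ) - K : ℕ) : ℝ) * t + (t - s)) y b := by
        intro x y a b
        rw [CS_one hs h0 s t x b b j hj (kk J s t i j a b) (fun l hl hl' => by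
            funext x' w
            unfold kk
            rw [if_neg (by omega), if_neg hl']) (fun x' w => by
            unfold kk
            rw [if_neg (by omega), if_pos rfl]),
          CS_one hs h0 s t y b a ((i : ℕ) - K) (by omega) (fun l => kk J s t i j a b (K + l))
            (fun l hl hl' => by
              funext x' w
              unfold kk
              rw [if_neg (by omega), if_neg (by omega)]) (fun x' w => by
              unfold kk
              rw [if_pos (by omega)])]
      simp only [e2]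
      have e3 : (j : ℕ) % K = j := Nat.mod_eq_of_lt hj
      have e4 : (i : ℕ) % K = (i : ℕ) - K := by
        rw [Nat.mod_eq_sub_mod (by omega), Nat.mod_eq_of_lt (by omega)]
      rw [e3, e4, Nat.add_comm ((i : ℕ) - K)]
      exact cross2 hJ hs h0 hr hr0 hs0 hst Q hQ X Y g0 hg _ _
    · rw [if_pos (by tauto), ← hconst]
      refine Finset.sum_le_sum fun o _ => ?_
      have e2 : ∀ a b, CS K (kk J s t i j a b) (X o) = 1 := by
        intro a b
        refine CS_unmarked (J := J) t (X o) _ fun l hl => ?_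
        funext x' w
        unfold kk
        rw [if_neg (by omega), if_neg (by omega)]
      have e3 : ∀ a b, CS K (fun l => kk J s t i j a b (K + l)) (Y o) =
          CS K (kk J s t ((i : ℕ) - K : ℕ) ((j : ℕ) - K : ℕ) a b) (Y o) := by
        intro a b
        refine CS_congr (fun l hl => ?_) (Y o)
        funext x' w
        unfold kk
        have h1 : (K + l = (i : ℕ)) ↔ l = (i : ℕ) - K := by omega
        have h2 : (K + l = (j : ℕ)) ↔ l = (j : ℕ) - K := by omega
        simp only [h1, h2]
      simp only [e2, e3, one_mul]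
      have h := pair_CS hJ hs h0 hr (Y o) hst ht (⟨(i : ℕ) - K, by omega⟩ : Fin K)
        ⟨(j : ℕ) - K, by omega⟩ (fun h => by
          have := congrArg Fin.val h
          simp only at this
          omega) Q (fun m hm _ => hQ m hm)
      have h3 : max ((i : ℕ) - K) ((j : ℕ) - K) - min ((i : ℕ) - K) ((j : ℕ) - K) =
          max (i : ℕ) j - min (i : ℕ) j := by omega
      simp only [h3] at h
      exact h

end Pool.Agent.R134.PB.Lpr
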