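import Pool.Agent.R134.PB.Stm
import Pool.Agent.Y815.PD.TWOG
import Pool.Agent.Y239.PD.KG

/-!
# Project PB, part LTW: two orbits with given families of starting points are close to two
random walks
-/

set_option autoImplicit false

namespace Pool.Agent.R134.PB.Ltw

open Finset Equiv
open Pool.Agent.Y998.ST
open Pool.Agent.Y661.PD
open Pool.Agent.Y815.PD.TWOG (VV_append act_append UU_append block_le)

/-- index of the starting points and two paths -/
abbrev Jx (ι V : Type) (K : ℕ) : Type := ι × (Fin K → V) × (Fin K → V)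

/-- the positions before the steps -/
def XX {ι V : Type} {K : ℕ} (X Y : ι → V) (a : Jx ι V K) : Fin (K + K) → V :=
  Fin.append (pre (X a.1) a.2.1) (pre (Y a.1) a.2.2)

/-- the positions after the steps -/
def ZZ {ι V : Type} {K : ℕ} (a : Jx ι V K) : Fin (K + K) → V := Fin.append a.2.1 a.2.2

theorem sum_jx {ι V : Type} [Fintype ι] [Fintype V] {K : ℕ} (f : Jx ι V K → ℝ) :
    ∑ a, f a = ∑ x, ∑ p, ∑ q, f (x, p, q) := by
  simp only [Fintype.sum_prod_type]

/-- the cross pairs -/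
theorem cross_le {K : ℕ} (f : ℕ → ℝ) (hf : ∀ m, 0 ≤ f m) :
    ∑ i : Fin K, ∑ j : Fin K, f ((i : ℕ) + j) ≤
      f 0 + ∑ m ∈ Finset.Icc 1 (2 * K), ((m : ℝ) + 1) * f m := by
  have h1 : ∑ i : Fin K, ∑ j : Fin K, f ((i : ℕ) + j) =
      ∑ x ∈ Finset.range K ×ˢ Finset.range K, f (x.1 + x.2) := by
    rw [Finset.sum_product, Finset.sum_range]
    refine Finset.sum_congr rfl fun i _ => ?_
    exact (Finset.sum_range (fun j => f ((i : ℕ) + j))).symm
  have h2 : ∀ x ∈ Finset.range K ×ˢ Finset.range K, x.1 + x.2 ∈ Finset.range (2 * K + 1) := by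
    intro x hx
    rw [Finset.mem_product, Finset.mem_range, Finset.mem_range] at hx
    rw [Finset.mem_range]
    omega
  have h3 : ∑ m ∈ Finset.range (2 * K + 1), ((m : ℝ) + 1) * f m =
      f 0 + ∑ m ∈ Finset.Icc 1 (2 * K), ((m : ℝ) + 1) * f m := by
    have h4 : Finset.range (2 * K + 1) = insert 0 (Finset.Icc 1 (2 * K)) := by
      ext m
      simp only [Finset.mem_range, Finset.mem_insert, Finset.mem_Icc]
      omega
    rw [h4, Finset.sum_insert (by simp)]
    simp
  rw [h1, ← Finset.sum_fiberwise_of_maps_to h2, ← h3]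
  refine Finset.sum_le_sum fun m _ => ?_
  have h5 : ∑ x ∈ Finset.range K ×ˢ Finset.range K with x.1 + x.2 = m, f (x.1 + x.2) ≤
      ∑ x ∈ Finset.HasAntidiagonal.antidiagonal m, f m := by
    have h6 : ∑ x ∈ Finset.range K ×ˢ Finset.range K with x.1 + x.2 = m, f (x.1 + x.2) =
        ∑ x ∈ Finset.range K ×ˢ Finset.range K with x.1 + x.2 = m, f m := by
      refine Finset.sum_congr rfl fun x hx => ?_
      rw [(Finset.mem_filter.1 hx).2]
    rw [h6]
    refine Finset.sum_le_sum_of_subset_of_nonneg ?_ fun x _ _ => hf m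
    intro x hx
    rw [Finset.HasAntidiagonal.mem_antidiagonal]
    exact (Finset.mem_filter.1 hx).2
  refine h5.trans (le_of_eq ?_)
  rw [Finset.sum_const, Finset.Nat.card_antidiagonal, nsmul_eq_mul]
  push_cast
  ring

/-- all the pairs -/
theorem total_le {K : ℕ} (Q : ℕ → ℝ) (hQ : ∀ m, 0 < m → 0 ≤ Q m) {r g0 : ℝ} (hr : 0 ≤ r)
    (hg : 0 ≤ g0) :
    ∑ i : Fin (K + K), ∑ j : Fin (K + K), (if i = j then 0 else
      (if ((i : ℕ) < K ↔ (j : ℕ) < K) then r * Q (max (i : ℕ) j - min (i : ℕ) j) else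
        r * (if (i : ℕ) % K + (j : ℕ) % K = 0 then g0 else Q ((i : ℕ) % K + (j : ℕ) % K)))) ≤
      r * (4 * (K * ∑ m ∈ Finset.Ioo 0 K, Q m)) +
        2 * (r * (g0 + ∑ m ∈ Finset.Icc 1 (2 * K), ((m : ℝ) + 1) * Q m)) := by
  have hb := mul_le_mul_of_nonneg_left (block_le Q (fun m h _ => hQ m h) (K := K)) hr
  obtain ⟨f, hf⟩ : ∃ f : ℕ → ℝ, f = fun m => if m = 0 then g0 else Q m := ⟨_, rfl⟩
  have hf0 : ∀ m, 0 ≤ f m := by
    intro m
    rw [hf]
    beta_reduce
    split_ifs with h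
    · exact hg
    · exact hQ m (Nat.pos_of_ne_zero h)
  have hc := mul_le_mul_of_nonneg_left (cross_le (K := K) f hf0) hr
  have hc0 : f 0 + ∑ m ∈ Finset.Icc 1 (2 * K), ((m : ℝ) + 1) * f m =
      g0 + ∑ m ∈ Finset.Icc 1 (2 * K), ((m : ℝ) + 1) * Q m := by
    congr 1
    · rw [hf]
      exact if_pos rfl
    · refine Finset.sum_congr rfl fun m hm => ?_
      rw [Finset.mem_Icc] at hm
      rw [hf]
      beta_reduce
      rw [if_neg (by omega)]
  rw [hc0] at hc
  have e1 : ∀ i j : Fin K, (if (Fin.castAdd K i) = (Fin.castAdd K j) then (0 : ℝ) else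
      (if (((Fin.castAdd K i : Fin (K + K)) : ℕ) < K ↔ ((Fin.castAdd K j : Fin (K + K)) : ℕ) < K)
        then r * Q (max ((Fin.castAdd K i : Fin (K + K)) : ℕ) (Fin.castAdd K j : Fin (K + K)) -
          min ((Fin.castAdd K i : Fin (K + K)) : ℕ) (Fin.castAdd K j : Fin (K + K))) else
        r * (if ((Fin.castAdd K i : Fin (K + K)) : ℕ) % K +
          ((Fin.castAdd K j : Fin (K + K)) : ℕ) % K = 0 then g0 else
          Q (((Fin.castAdd K i : Fin (K + K)) : ℕ) % K +
            ((Fin.castAdd K j : Fin (K + K)) : ℕ) % K)))) =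
      r * (if i = j then 0 else Q (max (i : ℕ) j - min (i : ℕ) j)) := by
    intro i j
    by_cases hij : i = j
    · subst hij
      rw [if_pos rfl, if_pos rfl, mul_zero]
    · have h1 : ¬ (Fin.castAdd K i = Fin.castAdd K j) := fun h =>
        hij (Fin.castAdd_injective K K h)
      rw [if_neg hij, if_neg h1]
      simp only [Fin.val_castAdd]
      rw [if_pos (iff_of_true i.2 j.2)]
  have e2 : ∀ i j : Fin K, (if (Fin.natAdd K i) = (Fin.natAdd K j) then (0 : ℝ) else
      (if (((Fin.natAdd K i : Fin (K + K)) : ℕ) < K ↔ ((Fin.natAdd K j : Fin (K + K)) : ℕ) < K)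
        then r * Q (max ((Fin.natAdd K i : Fin (K + K)) : ℕ) (Fin.natAdd K j : Fin (K + K)) -
          min ((Fin.natAdd K i : Fin (K + K)) : ℕ) (Fin.natAdd K j : Fin (K + K))) else
        r * (if ((Fin.natAdd K i : Fin (K + K)) : ℕ) % K +
          ((Fin.natAdd K j : Fin (K + K)) : ℕ) % K = 0 then g0 else
          Q (((Fin.natAdd K i : Fin (K + K)) : ℕ) % K +
            ((Fin.natAdd K j : Fin (K + K)) : ℕ) % K)))) =
      r * (if i = j then 0 else Q (max (i : ℕ) j - min (i : ℕ) j)) := by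
    intro i j
    by_cases hij : i = j
    · subst hij
      rw [if_pos rfl, if_pos rfl, mul_zero]
    · have h1 : ¬ (Fin.natAdd K i = Fin.natAdd K j) := fun h =>
        hij (Fin.natAdd_injective K K h)
      rw [if_neg hij, if_neg h1]
      simp only [Fin.val_natAdd]
      rw [if_pos (iff_of_false (by omega) (by omega))]
      have h2 : max (K + (i : ℕ)) (K + (j : ℕ)) - min (K + (i : ℕ)) (K + (j : ℕ)) =
          max (i : ℕ) j - min (i : ℕ) j := by omega
      rw [h2]
  have hmod : ∀ i : Fin K, (i : ℕ) % K = i := fun i => Nat.mod_eq_of_lt i.2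
  have hmod2 : ∀ i : Fin K, (K + (i : ℕ)) % K = i := fun i => by
    rw [Nat.add_mod_left, Nat.mod_eq_of_lt i.2]
  have e3 : ∀ i j : Fin K, (if (Fin.castAdd K i) = (Fin.natAdd K j) then (0 : ℝ) else
      (if (((Fin.castAdd K i : Fin (K + K)) : ℕ) < K ↔ ((Fin.natAdd K j : Fin (K + K)) : ℕ) < K)
        then r * Q (max ((Fin.castAdd K i : Fin (K + K)) : ℕ) (Fin.natAdd K j : Fin (K + K)) -
          min ((Fin.castAdd K i : Fin (K + K)) : ℕ) (Fin.natAdd K j : Fin (K + K))) else
        r * (if ((Fin.castAdd K i : Fin (K + K)) : ℕ) % K +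
          ((Fin.natAdd K j : Fin (K + K)) : ℕ) % K = 0 then g0 else
          Q (((Fin.castAdd K i : Fin (K + K)) : ℕ) % K +
            ((Fin.natAdd K j : Fin (K + K)) : ℕ) % K)))) =
      r * f ((i : ℕ) + j) := by
    intro i j
    have h1 : ¬ (Fin.castAdd K i = Fin.natAdd K j) := fun h => by
      have h2 := congrArg (fun z : Fin (K + K) => (z : ℕ)) h
      simp only [Fin.val_castAdd, Fin.val_natAdd] at h2
      have := i.2
      omega
    rw [if_neg h1]
    simp only [Fin.val_castAdd, Fin.val_natAdd]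
    rw [if_neg (fun h => by
      have := h.1 i.2
      omega), hmod, hmod2, hf]
  have e4 : ∀ i j : Fin K, (if (Fin.natAdd K i) = (Fin.castAdd K j) then (0 : ℝ) else
      (if (((Fin.natAdd K i : Fin (K + K)) : ℕ) < K ↔ ((Fin.castAdd K j : Fin (K + K)) : ℕ) < K)
        then r * Q (max ((Fin.natAdd K i : Fin (K + K)) : ℕ) (Fin.castAdd K j : Fin (K + K)) -
          min ((Fin.natAdd K i : Fin (K + K)) : ℕ) (Fin.castAdd K j : Fin (K + K))) else
        r * (if ((Fin.natAdd K i : Fin (K + K)) : ℕ) % K +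
          ((Fin.castAdd K j : Fin (K + K)) : ℕ) % K = 0 then g0 else
          Q (((Fin.natAdd K i : Fin (K + K)) : ℕ) % K +
            ((Fin.castAdd K j : Fin (K + K)) : ℕ) % K)))) =
      r * f ((i : ℕ) + j) := by
    intro i j
    have h1 : ¬ (Fin.natAdd K i = Fin.castAdd K j) := fun h => by
      have h2 := congrArg (fun z : Fin (K + K) => (z : ℕ)) h
      simp only [Fin.val_castAdd, Fin.val_natAdd] at h2
      have := j.2
      omega
    rw [if_neg h1]
    simp only [Fin.val_castAdd, Fin.val_natAdd]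
    rw [if_neg (fun h => by
      have := h.2 j.2
      omega), hmod, hmod2, hf]
  rw [Fin.sum_univ_add]
  simp only [Fin.sum_univ_add, e1, e2, e3, e4, Finset.sum_add_distrib, ← Finset.mul_sum]
  linarith

theorem main : Pool.Agent.R134.PB.S_LPR → Pool.Agent.R134.PB.S_LCO →
    Pool.Agent.R134.PB.S_TWL := by
  intro hLPR hLCO V _ _ _ J hJ hs h0 K r hr hr0 t ht Q hQ ι _ X Y g0 hg0 hg
  obtain ⟨v0⟩ := (inferInstance : Nonempty V)
  obtain ⟨N, hN⟩ : ∃ N : ℝ, N = (Fintype.card ι : ℝ) := ⟨_, rfl⟩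
  have hN0 : 0 ≤ N := by
    rw [hN]
    positivity
  have hQ0 : ∀ m, 0 < m → 0 ≤ Q m := fun m h1 =>
    (qq_nonneg hJ (by positivity) v0 v0).trans (hQ m h1 v0 v0)
  obtain ⟨P, hP⟩ : ∃ P : ℝ, P = K * ∑ m ∈ Finset.Ioo 0 K, Q m := ⟨_, rfl⟩
  obtain ⟨R, hR⟩ : ∃ R : ℝ, R = ∑ m ∈ Finset.Icc (1 : ℕ) (2 * K), (((m : ℕ) : ℝ) + 1) * Q m :=
    ⟨_, rfl⟩
  have htot := total_le (K := K) Q hQ0 hr0 hg0
  rw [← hP, ← hR] at htot
  have hC : ∀ s, 0 ≤ s → s ≤ t → ∑ i : Fin (K + K), ∑ j : Fin (K + K), (if i = j then 0 else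
      ∑ a : Jx ι V K, ∑ z : Fin (K + K) → V,
        VV J (K + K) (t - s) (XX X Y a) (Function.update z i (z j)) *
        J (z j) (z i) * VV J (K + K) s z (ZZ a)) ≤
      N * (r * (4 * P) + 2 * (r * (g0 + R))) := by
    intro s hs0 hst
    have h1 : ∀ i j : Fin (K + K), (if i = j then 0 else
        ∑ a : Jx ι V K, ∑ z : Fin (K + K) → V,
          VV J (K + K) (t - s) (XX X Y a) (Function.update z i (z j)) *
          J (z j) (z i) * VV J (K + K) s z (ZZ a)) ≤
        N * (if i = j then 0 else (if ((i : ℕ) < K ↔ (j : ℕ) < K) then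
          r * Q (max (i : ℕ) j - min (i : ℕ) j) else
          r * (if (i : ℕ) % K + (j : ℕ) % K = 0 then g0 else
            Q ((i : ℕ) % K + (j : ℕ) % K)))) := by
      intro i j
      by_cases hij : i = j
      · rw [if_pos hij, if_pos hij, mul_zero]
      · rw [if_neg hij, if_neg hij, sum_jx, hN]
        exact hLPR V J hJ hs h0 K r hr hr0 s t hs0 hst Q hQ ι X Y g0 hg0 hg i j hij
    refine (Finset.sum_le_sum fun i _ => Finset.sum_le_sum fun j _ => h1 i j).trans ?_
    simp only [← Finset.mul_sum]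
    exact mul_le_mul_of_nonneg_left htot hN0
  obtain ⟨W, hW0, hWU, hWV, hWm⟩ := Pool.Agent.Y239.PD.KG.main V J hJ hs h0 (K + K) r hr
    (Jx ι V K) (XX X Y) ZZ t (N * (r * (4 * P) + 2 * (r * (g0 + R)))) ht hC
  have hVn : ∀ a : Jx ι V K, 0 ≤ VV J (K + K) t (XX X Y a) (ZZ a) := fun a =>
    VV_nonneg hJ _ ht _ _
  have hUn : ∀ a : Jx ι V K, 0 ≤ UU J (K + K) t (XX X Y a) (ZZ a) := fun a =>
    UU_nonneg hJ _ ht _ _
  have hrow : ∀ x : V, ∑ p : Fin K → V, VV J K t (pre x p) p = 1 := fun x =>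
    CS_stoch (q := qq J t) (qq_row J t) K x
  have hconst : ∑ _x : ι, (1 : ℝ) = N := by
    rw [Finset.sum_const, Finset.card_univ, nsmul_eq_mul, ← hN]
    ring
  have hVV : ∀ (a : ι) (p q : Fin K → V), VV J (K + K) t (XX X Y (a, p, q)) (ZZ (a, p, q)) =
      VV J K t (pre (X a) p) p * VV J K t (pre (Y a) q) q := fun a p q =>
    VV_append J K t (pre (X a) p) (pre (Y a) q) p q
  have hVtot : ∑ a : Jx ι V K, VV J (K + K) t (XX X Y a) (ZZ a) = N := by
    rw [sum_jx, ← hconst]
    refine Finset.sum_congr rfl fun x _ => ?_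
    simp only [hVV, ← Finset.mul_sum, hrow, mul_one]
  have hUtot : ∑ a : Jx ι V K, UU J (K + K) t (XX X Y a) (ZZ a) = N := by
    rw [sum_jx, ← hconst]
    refine Finset.sum_congr rfl fun x _ => ?_
    have h1 : ∀ p q : Fin K → V, UU J (K + K) t (XX X Y (x, p, q)) (ZZ (x, p, q)) =
        stirExp J t (fun g => if (∀ i : Fin K, (g ^ ((i : ℕ) + 1)) (X x) = p i) ∧
          (∀ i : Fin K, (g ^ ((i : ℕ) + 1)) (Y x) = q i) then 1 else 0) := fun p q =>
      UU_append J t (X x) (Y x) p q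
    simp only [h1, exp_sum]
    have h3 : (fun g : Perm V => ∑ p : Fin K → V, ∑ q : Fin K → V,
        (if (∀ i : Fin K, (g ^ ((i : ℕ) + 1)) (X x) = p i) ∧
          (∀ i : Fin K, (g ^ ((i : ℕ) + 1)) (Y x) = q i) then (1 : ℝ) else 0)) =
        fun _ => 1 := by
      funext g
      rw [Finset.sum_eq_single (fun i : Fin K => (g ^ ((i : ℕ) + 1)) (X x))]
      · rw [Finset.sum_eq_single (fun i : Fin K => (g ^ ((i : ℕ) + 1)) (Y x))]
        · rw [if_pos ⟨fun i => rfl, fun i => rfl⟩]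
        · intro z _ hz
          rw [if_neg]
          intro h
          apply hz
          funext i
          exact (h.2 i).symm
        · intro h; exact absurd (Finset.mem_univ _) h
      · intro z _ hz
        refine Finset.sum_eq_zero fun w _ => ?_
        rw [if_neg]
        intro h
        apply hz
        funext i
        exact (h.1 i).symm
      · intro h; exact absurd (Finset.mem_univ _) h
    rw [h3, exp_const]
  have hbad : ∑ a : Jx ι V K with ¬ Function.Injective (ZZ a),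
      VV J (K + K) t (XX X Y a) (ZZ a) ≤ N * (2 * P + R) := by
    rw [Finset.sum_filter, sum_jx, hP, hR, hN]
    refine le_trans (le_of_eq ?_) (hLCO V J hJ hs h0 K t ht Q hQ ι X Y)
    refine Finset.sum_congr rfl fun x _ =>
      Finset.sum_congr rfl fun p _ => Finset.sum_congr rfl fun q _ => ?_
    by_cases h : Function.Injective (Fin.append p q)
    · have h' : ¬ ¬ Function.Injective (ZZ (x, p, q)) := not_not.2 h
      rw [if_neg h', if_pos h]
    · have h' : ¬ Function.Injective (ZZ (x, p, q)) := h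
      rw [if_pos h', if_neg h]
      exact hVV x p q
  have hsplit : ∑ a : Jx ι V K with Function.Injective (ZZ a),
      VV J (K + K) t (XX X Y a) (ZZ a) +
      ∑ a : Jx ι V K with ¬ Function.Injective (ZZ a), VV J (K + K) t (XX X Y a) (ZZ a) = N := by
    rw [← hVtot]
    exact Finset.sum_filter_add_sum_filter_not Finset.univ (fun a : Jx ι V K =>
      Function.Injective (ZZ a)) _
  have h4 : ∀ a : Jx ι V K,
      |UU J (K + K) t (XX X Y a) (ZZ a) - VV J (K + K) t (XX X Y a) (ZZ a)| ≤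
      UU J (K + K) t (XX X Y a) (ZZ a) + VV J (K + K) t (XX X Y a) (ZZ a) -
        2 * (if Function.Injective (ZZ a) then W a else 0) := by
    intro a
    by_cases hy : Function.Injective (ZZ a)
    · rw [if_pos hy, abs_le]
      have := hWU a hy
      have := hWV a hy
      constructor <;> linarith
    · rw [if_neg hy, abs_le]
      have := hUn a
      have := hVn a
      constructor <;> linarith
  have hsum : ∑ a : Jx ι V K,
      |UU J (K + K) t (XX X Y a) (ZZ a) - VV J (K + K) t (XX X Y a) (ZZ a)| ≤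
      N * (2 * ((1 + 2 * r * t) * (2 * P + g0 + R))) := by
    refine (Finset.sum_le_sum fun a _ => h4 a).trans ?_
    rw [Finset.sum_sub_distrib, Finset.sum_add_distrib, hUtot, hVtot, ← Finset.mul_sum,
      ← Finset.sum_filter]
    have h5 : N * (2 * ((1 + 2 * r * t) * (2 * P + g0 + R))) =
        2 * (N * (2 * P + R)) + 2 * (N * g0) +
        2 * (N * (r * (4 * P) + 2 * (r * (g0 + R))) * t) := by
      ring
    have h6 : 0 ≤ N * g0 := mul_nonneg hN0 hg0
    rw [h5]
    linarith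
  rw [← hP, ← hR, ← hN]
  refine le_trans (le_of_eq ?_) hsum
  rw [sum_jx]
  refine Finset.sum_congr rfl fun x _ =>
    Finset.sum_congr rfl fun p _ => Finset.sum_congr rfl fun q _ => ?_
  have h6 : UU J (K + K) t (XX X Y (x, p, q)) (ZZ (x, p, q)) =
      stirExp J t (fun g => if (∀ i : Fin K, (g ^ ((i : ℕ) + 1)) (X x) = p i) ∧
        (∀ i : Fin K, (g ^ ((i : ℕ) + 1)) (Y x) = q i) then 1 else 0) :=
    UU_append J t (X x) (Y x) p q
  have h7 := hVV x p q
  rw [h6, h7]
  rfl

end Pool.Agent.R134.PB.Ltw
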