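import Pool.Agent.R134.PB.Stm
import Pool.Agent.Y415.LP.UP
import Pool.Agent.Y998.ST.Torus

/-! # Project PB: first moment of the heat kernel and geometry of the torus -/

set_option autoImplicit false

namespace Pool.Agent.R134.PB.MomGeo

open Finset Equiv
open Pool.Agent.Y998.ST
open Pool.Agent.Y661.PD (tdist)

/-! ## geometry -/

theorem tdist_symm {d L : ℕ} (x y : Fin d → ZMod L) : tdist x y = tdist y x := by
  unfold tdist
  refine Finset.sum_congr rfl fun i _ => ?_
  rw [← ZMod.natAbs_valMinAbs_neg, neg_sub]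

theorem tdist_self {d L : ℕ} (x : Fin d → ZMod L) : tdist x x = 0 := by
  unfold tdist
  simp

theorem tdist_tri {d L : ℕ} (x y z : Fin d → ZMod L) : tdist x z ≤ tdist x y + tdist y z := by
  unfold tdist
  rw [← Finset.sum_add_distrib]
  refine Finset.sum_le_sum fun i _ => ?_
  have h1 : x i - z i = (x i - y i) + (y i - z i) := by ring
  rw [h1]
  exact (ZMod.natAbs_valMinAbs_add_le _ _).trans (Int.natAbs_add_le _ _)

open Classical in
theorem geo : S_GEO := by
  intro d L _
  refine ⟨tdist_symm, tdist_tri, ?_, ?_, ?_⟩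
  · intro x y z
    unfold tdist
    refine Finset.sum_congr rfl fun i _ => ?_
    rw [Pi.add_apply, Pi.add_apply, add_sub_add_left_eq_sub]
  · intro x y
    unfold tdist
    calc ∑ i, ((x i - y i).valMinAbs).natAbs ≤ ∑ _i : Fin d, L :=
          Finset.sum_le_sum fun i _ => (ZMod.natAbs_valMinAbs_le _).trans (Nat.div_le_self _ _)
      _ = d * L := by simp
  · intro R z hR
    have hcoord : ∀ i : Fin d, ((univ : Finset (ZMod L)).filter
        fun c => ((c - z i).valMinAbs).natAbs ≤ R).card ≤ 3 * R := by
      intro i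
      have h1 : ((univ : Finset (ZMod L)).filter
          fun c => ((c - z i).valMinAbs).natAbs ≤ R).card ≤ (Finset.Icc (-(R : ℤ)) R).card := by
        refine Finset.card_le_card_of_injOn (fun c => (c - z i).valMinAbs) ?_ ?_
        · intro c hc
          have hc2 : ((c - z i).valMinAbs).natAbs ≤ R := by simpa using hc
          have : |(c - z i).valMinAbs| ≤ (R : ℤ) := by
            rw [Int.abs_eq_natAbs]; exact_mod_cast hc2
          rw [abs_le] at this
          simpa using this
        · intro a _ b _ hab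
          have := ZMod.injective_valMinAbs hab
          exact sub_left_injective this
      rw [Int.card_Icc] at h1
      omega
    have hsub : (univ.filter fun x : Fin d → ZMod L => tdist x z ≤ R) ⊆
        Fintype.piFinset fun i => (univ : Finset (ZMod L)).filter
          fun c => ((c - z i).valMinAbs).natAbs ≤ R := by
      intro x hx
      have hx2 : tdist x z ≤ R := by simpa using hx
      rw [Fintype.mem_piFinset]
      intro i
      have h1 : ((x i - z i).valMinAbs).natAbs ≤ tdist x z := by
        unfold tdist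
        exact Finset.single_le_sum (f := fun i => ((x i - z i).valMinAbs).natAbs)
          (fun _ _ => Nat.zero_le _) (Finset.mem_univ i)
      simpa using h1.trans hx2
    refine (Finset.card_le_card hsub).trans ?_
    rw [Fintype.card_piFinset]
    calc ∏ i, ((univ : Finset (ZMod L)).filter
          fun c => ((c - z i).valMinAbs).natAbs ≤ R).card ≤ ∏ _i : Fin d, 3 * R :=
          Finset.prod_le_prod' fun i _ => hcoord i
      _ = (3 * R) ^ d := by simp

/-! ## moments -/

section

variable {V : Type} [Fintype V] [DecidableEq V]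

theorem sum_qq (J : V → V → ℝ) (s : ℝ) (v : V) (F : V → ℝ) :
    ∑ y, qq J s v y * F y = stirExp J s (fun g => F (g v)) := by
  unfold qq hop stirExp
  simp only [Finset.sum_mul]
  rw [Finset.sum_comm]
  refine Finset.sum_congr rfl fun g _ => ?_
  rw [Finset.sum_eq_single (g v)]
  · rw [if_pos rfl, mul_one]
  · intro b _ hb
    rw [if_neg (Ne.symm hb), mul_zero, zero_mul]
  · intro h
    exact absurd (Finset.mem_univ _) h

end

theorem rc_neg' {L : ℕ} [NeZero L] (x : ZMod L) : rc (-x) = rc x := by
  unfold rc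
  rw [rc_neg, Complex.conj_re]

theorem gk_neg {L : ℕ} [NeZero L] (t : ℝ) (u : ZMod L) : gk L t (-u) = gk L t u := by
  unfold gk
  simp only [mul_neg, rc_neg']

theorem qq_symm {d L : ℕ} [NeZero L] (hL : 3 ≤ L) (t : ℝ) (a b : Fin d → ZMod L) :
    qq (nnRate d L) t a b = qq (nnRate d L) t b a := by
  rw [qq_eq_hk hL]
  unfold hk
  refine Finset.prod_congr rfl fun i _ => ?_
  rw [← gk_neg, neg_sub]

theorem mom1 {d L : ℕ} [NeZero L] (hL : 3 ≤ L) {s : ℝ} (hs : 0 ≤ s) (v : Fin d → ZMod L) :
    ∑ y, qq (nnRate d L) s v y * (tdist v y : ℝ) ≤ (3 / 2 * d + 1) * Real.sqrt s := by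
  rcases hs.eq_or_lt with h0 | hpos
  · rw [← h0, qq_zero, Real.sqrt_zero, mul_zero]
    refine le_of_eq (Finset.sum_eq_zero fun y _ => ?_)
    rw [Matrix.one_apply]
    by_cases h : v = y
    · subst h
      rw [tdist_self]
      simp
    · rw [if_neg h, zero_mul]
  · rw [sum_qq]
    have h1 : (fun g : Perm (Fin d → ZMod L) => (tdist v (g v) : ℝ)) =
        fun g => ∑ i, |(((g v) i - v i).valMinAbs : ℝ)| := by
      funext g
      rw [tdist_symm]
      unfold tdist
      rw [Nat.cast_sum]
      refine Finset.sum_congr rfl fun i _ => ?_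
      rw [Nat.cast_natAbs, Int.cast_abs]
    rw [h1, ← exp_sum]
    calc ∑ i, stirExp (nnRate d L) s (fun g => |(((g v) i - v i).valMinAbs : ℝ)|)
        ≤ ∑ _i : Fin d, 3 / 2 * Real.sqrt s :=
          Finset.sum_le_sum fun i _ => Pool.Agent.Y415.LP.first hL hpos v i
      _ = 3 / 2 * d * Real.sqrt s := by
          rw [Finset.sum_const, Finset.card_univ, Fintype.card_fin, nsmul_eq_mul]; ring
      _ ≤ (3 / 2 * d + 1) * Real.sqrt s := by
          have := Real.sqrt_nonneg s
          nlinarith

theorem mom : S_MOM := by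
  intro d
  refine ⟨3 / 2 * d + 1, by positivity, ?_⟩
  intro L _ hL s hs v
  refine ⟨mom1 hL hs v, ?_⟩
  have h : ∑ y, qq (nnRate d L) s y v * (tdist y v : ℝ) =
      ∑ y, qq (nnRate d L) s v y * (tdist v y : ℝ) :=
    Finset.sum_congr rfl fun y _ => by rw [qq_symm hL, tdist_symm]
  rw [h]
  exact mom1 hL hs v

theorem main : Pool.Agent.R134.PB.S_MOM ∧ Pool.Agent.R134.PB.S_GEO := ⟨mom, geo⟩

end Pool.Agent.R134.PB.MomGeo
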