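import Pool.Agent.R134.PB.Stm
import Pool.Agent.Y799.PD.PR2

/-!
# Project PB, part MONO: monotonicity of the averaged two point function
-/

set_option autoImplicit false

namespace Pool.Agent.R134.PB.Mono

open Finset Equiv
open Pool.Agent.Y998.ST
open Pool.Agent.R134.PB

variable {V : Type} [Fintype V] [DecidableEq V]

theorem qq_symm {J : V → V → ℝ} (hs : ∀ x y, J x y = J y x) (h0 : ∀ x, J x x = 0) (t : ℝ)
    (x y : V) : qq J t x y = qq J t y x := by
  have h : qq J t = E (GG J) t := eq_E (qq_deriv hs h0) (qq_zero J) t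
  have hG : (GG J).transpose = GG J := by
    ext a b
    rw [Matrix.transpose_apply]
    unfold GG
    by_cases hab : a = b
    · subst hab; rfl
    · rw [if_neg hab, if_neg (Ne.symm hab), hs]
  have h2 : (E (GG J) t).transpose = E (GG J) t := by
    unfold E
    rw [← Matrix.exp_transpose, Matrix.transpose_smul, hG]
  have h3 := congrFun (congrFun h2 x) y
  rw [Matrix.transpose_apply] at h3
  rw [h]
  exact h3.symm

/-- contraction in `ℓ²` -/
theorem l2 {J : V → V → ℝ} (hJ : ∀ x y, 0 ≤ J x y) {u : ℝ} (hu : 0 ≤ u) (h : V → ℝ) :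
    ∑ x, (∑ y, qq J u x y * h y) ^ 2 ≤ ∑ y, h y ^ 2 := by
  have h1 : ∀ x, (∑ y, qq J u x y * h y) ^ 2 ≤ ∑ y, qq J u x y * h y ^ 2 := by
    intro x
    have h2 := Finset.sum_sq_le_sum_mul_sum_of_sq_le_mul univ (r := fun y => qq J u x y * h y)
      (f := fun y => qq J u x y) (g := fun y => qq J u x y * h y ^ 2)
      (fun y _ => qq_nonneg hJ hu x y)
      (fun y _ => mul_nonneg (qq_nonneg hJ hu x y) (sq_nonneg _)) (fun y _ => le_of_eq (by ring))
    rw [qq_row, one_mul] at h2
    exact h2
  calc ∑ x, (∑ y, qq J u x y * h y) ^ 2 ≤ ∑ x, ∑ y, qq J u x y * h y ^ 2 :=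
        sum_le_sum fun x _ => h1 x
    _ = ∑ y, (∑ x, qq J u x y) * h y ^ 2 := by
        rw [sum_comm]
        exact sum_congr rfl fun y _ => by rw [sum_mul]
    _ = ∑ y, h y ^ 2 := by
        refine sum_congr rfl fun y _ => ?_
        rw [Pool.Agent.Y799.PD.PR2.qq_col, one_mul]

theorem quad {J : V → V → ℝ} (hs : ∀ x y, J x y = J y x) (h0 : ∀ x, J x x = 0) (s : ℝ)
    (f : V → ℝ) : ∑ x, ∑ y, qq J s x y * (f x * f y) =
      ∑ z, (∑ y, qq J (s / 2) z y * f y) ^ 2 := by
  have h1 : ∀ x y, qq J s x y = ∑ z, qq J (s / 2) z x * qq J (s / 2) z y := by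
    intro x y
    have h2 := qq_add hs h0 (s / 2) (s / 2)
    rw [add_halves] at h2
    rw [h2, Matrix.mul_apply]
    exact sum_congr rfl fun z _ => by rw [qq_symm hs h0 (s / 2) x z]
  calc ∑ x, ∑ y, qq J s x y * (f x * f y) =
        ∑ x, ∑ y, ∑ z, (qq J (s / 2) z x * f x) * (qq J (s / 2) z y * f y) := by
        refine sum_congr rfl fun x _ => sum_congr rfl fun y _ => ?_
        rw [h1, sum_mul]
        exact sum_congr rfl fun z _ => by ring
    _ = ∑ x, ∑ z, ∑ y, (qq J (s / 2) z x * f x) * (qq J (s / 2) z y * f y) :=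
        sum_congr rfl fun x _ => sum_comm
    _ = ∑ z, ∑ x, ∑ y, (qq J (s / 2) z x * f x) * (qq J (s / 2) z y * f y) := sum_comm
    _ = _ := by
        refine sum_congr rfl fun z _ => ?_
        rw [sq, sum_mul_sum]

theorem quad_mono {J : V → V → ℝ} (hJ : ∀ x y, 0 ≤ J x y) (hs : ∀ x y, J x y = J y x)
    (h0 : ∀ x, J x x = 0) {s s' : ℝ} (hss : s ≤ s') (f : V → ℝ) :
    ∑ x, ∑ y, qq J s' x y * (f x * f y) ≤ ∑ x, ∑ y, qq J s x y * (f x * f y) := by
  rw [quad hs h0, quad hs h0]
  have h1 : ∀ z, ∑ y, qq J (s' / 2) z y * f y =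
      ∑ w, qq J ((s' - s) / 2) z w * ∑ y, qq J (s / 2) w y * f y := by
    intro z
    have h2 := qq_add hs h0 ((s' - s) / 2) (s / 2)
    rw [show (s' - s) / 2 + s / 2 = s' / 2 by ring] at h2
    rw [h2]
    calc ∑ y, (qq J ((s' - s) / 2) * qq J (s / 2)) z y * f y =
          ∑ y, ∑ w, qq J ((s' - s) / 2) z w * (qq J (s / 2) w y * f y) := by
          refine sum_congr rfl fun y _ => ?_
          rw [Matrix.mul_apply, sum_mul]
          exact sum_congr rfl fun w _ => by ring
      _ = ∑ w, ∑ y, qq J ((s' - s) / 2) z w * (qq J (s / 2) w y * f y) := sum_comm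
      _ = _ := sum_congr rfl fun w _ => by rw [mul_sum]
  simp only [h1]
  exact l2 hJ (by linarith) _

open Classical in
theorem same_sum (g : Perm V) (x y : V) : (if g.SameCycle x y then (1 : ℝ) else 0) =
    ∑ z, (∑ w, if g.SameCycle z w then (1 : ℝ) else 0)⁻¹ *
      ((if g.SameCycle z x then (1 : ℝ) else 0) * (if g.SameCycle z y then (1 : ℝ) else 0)) := by
  by_cases hxy : g.SameCycle x y
  · rw [if_pos hxy]
    have h1 : ∀ z, (∑ w, if g.SameCycle z w then (1 : ℝ) else 0)⁻¹ *
        ((if g.SameCycle z x then (1 : ℝ) else 0) * (if g.SameCycle z y then (1 : ℝ) else 0)) =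
        (∑ w, if g.SameCycle x w then (1 : ℝ) else 0)⁻¹ *
          (if g.SameCycle x z then (1 : ℝ) else 0) := by
      intro z
      by_cases hz : g.SameCycle z x
      · have hzy : g.SameCycle z y := hz.trans hxy
        rw [if_pos hz, if_pos hzy, if_pos hz.symm, mul_one]
        congr 2
        refine sum_congr rfl fun w _ => ?_
        have : g.SameCycle z w ↔ g.SameCycle x w :=
          ⟨fun h => hz.symm.trans h, fun h => hz.trans h⟩
        simp only [this]
      · rw [if_neg hz, if_neg (fun h : g.SameCycle x z => hz h.symm), zero_mul, mul_zero, mul_zero]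
    rw [sum_congr rfl fun z _ => h1 z, ← mul_sum]
    have h2 : (∑ w, if g.SameCycle x w then (1 : ℝ) else 0) ≠ 0 := by
      have h3 : (1 : ℝ) ≤ ∑ w, if g.SameCycle x w then (1 : ℝ) else 0 := by
        have h4 := single_le_sum (f := fun w => if g.SameCycle x w then (1 : ℝ) else 0)
          (s := univ) (fun w _ => by split_ifs <;> norm_num) (mem_univ x)
        simp only [Perm.SameCycle.refl, if_true] at h4
        exact h4
      linarith
    rw [inv_mul_cancel₀ h2]
  · rw [if_neg hxy]
    symm
    apply sum_eq_zero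
    intro z _
    by_cases hz : g.SameCycle z x
    · rw [if_neg (fun h : g.SameCycle z y => hxy (hz.symm.trans h)), mul_zero, mul_zero]
    · rw [if_neg hz, zero_mul, mul_zero]

theorem main : S_MONO := by
  classical
  intro V _ _ _ J hJ hs h0 t ht s s' _ hss
  unfold AA
  apply div_le_div_of_nonneg_right _ (Nat.cast_nonneg _)
  have key : ∀ r : ℝ, ∑ x, ∑ y, qq J r x y * con J t x y =
      ∑ g, stirLaw J t g * ∑ z, (∑ w, if g.SameCycle z w then (1 : ℝ) else 0)⁻¹ *
        ∑ x, ∑ y, qq J r x y * ((if g.SameCycle z x then (1 : ℝ) else 0) *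
          (if g.SameCycle z y then (1 : ℝ) else 0)) := by
    intro r
    have h1 : ∀ x y, con J t x y = ∑ g, stirLaw J t g *
        (if g.SameCycle x y then (1 : ℝ) else 0) := by
      intro x y
      unfold con stirExp
      exact sum_congr rfl fun g _ => by congr
    have h2 : ∀ g : Perm V, ∑ x, ∑ y, qq J r x y * (if g.SameCycle x y then (1 : ℝ) else 0) =
        ∑ z, (∑ w, if g.SameCycle z w then (1 : ℝ) else 0)⁻¹ *
        ∑ x, ∑ y, qq J r x y * ((if g.SameCycle z x then (1 : ℝ) else 0) *
          (if g.SameCycle z y then (1 : ℝ) else 0)) := by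
      intro g
      calc ∑ x, ∑ y, qq J r x y * (if g.SameCycle x y then (1 : ℝ) else 0) =
            ∑ x, ∑ y, ∑ z, (∑ w, if g.SameCycle z w then (1 : ℝ) else 0)⁻¹ *
              (qq J r x y * ((if g.SameCycle z x then (1 : ℝ) else 0) *
              (if g.SameCycle z y then (1 : ℝ) else 0))) := by
            refine sum_congr rfl fun x _ => sum_congr rfl fun y _ => ?_
            rw [same_sum g x y, mul_sum]
            exact sum_congr rfl fun z _ => by ring
        _ = ∑ x, ∑ z, ∑ y, (∑ w, if g.SameCycle z w then (1 : ℝ) else 0)⁻¹ *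
              (qq J r x y * ((if g.SameCycle z x then (1 : ℝ) else 0) *
              (if g.SameCycle z y then (1 : ℝ) else 0))) := sum_congr rfl fun x _ => sum_comm
        _ = ∑ z, ∑ x, ∑ y, (∑ w, if g.SameCycle z w then (1 : ℝ) else 0)⁻¹ *
              (qq J r x y * ((if g.SameCycle z x then (1 : ℝ) else 0) *
              (if g.SameCycle z y then (1 : ℝ) else 0))) := sum_comm
        _ = _ := by
            refine sum_congr rfl fun z _ => ?_
            rw [mul_sum]
            exact sum_congr rfl fun x _ => by rw [mul_sum]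
    calc ∑ x, ∑ y, qq J r x y * con J t x y =
          ∑ x, ∑ y, ∑ g, stirLaw J t g *
            (qq J r x y * (if g.SameCycle x y then (1 : ℝ) else 0)) := by
          refine sum_congr rfl fun x _ => sum_congr rfl fun y _ => ?_
          rw [h1, mul_sum]
          exact sum_congr rfl fun g _ => by ring
      _ = ∑ x, ∑ g, ∑ y, stirLaw J t g *
            (qq J r x y * (if g.SameCycle x y then (1 : ℝ) else 0)) :=
          sum_congr rfl fun x _ => sum_comm
      _ = ∑ g, ∑ x, ∑ y, stirLaw J t g *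
            (qq J r x y * (if g.SameCycle x y then (1 : ℝ) else 0)) := sum_comm
      _ = _ := by
          refine sum_congr rfl fun g _ => ?_
          rw [← h2 g, mul_sum]
          exact sum_congr rfl fun x _ => by rw [mul_sum]
  rw [key, key]
  refine sum_le_sum fun g _ => mul_le_mul_of_nonneg_left ?_ (law_nonneg hJ ht g)
  refine sum_le_sum fun z _ => mul_le_mul_of_nonneg_left ?_
    (inv_nonneg.mpr (sum_nonneg fun w _ => by split_ifs <;> norm_num))
  exact quad_mono hJ hs h0 hss (fun x => if g.SameCycle z x then (1 : ℝ) else 0)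

end Pool.Agent.R134.PB.Mono
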