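import Pool.Agent.R134.PB.Stm

/-!
NUM: the choice of the parameters.
-/

set_option autoImplicit false

namespace Pool.Agent.R134.PB.Num

/-- the bound of the error of one step -/
theorem er_le {d L K n ρ R : ℕ} {t s x c0 : ℝ} (hx : 1 ≤ x) (hs : 0 < s) (hc0 : 0 ≤ c0)
    (ht : 0 < t) (hR1 : x * Real.sqrt (s + K * t) ≤ R) (hR2 : (R : ℝ) ≤ 4 * x ^ 2 * Real.sqrt s)
    (hn1 : x ^ (2 * d + 1) ≤ (n : ℝ)) (hnρ : (n : ℝ) * ρ / Real.sqrt t ≤ 2 / x)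
    (hE0 : 0 ≤ n * eK d L K t + t / (ρ : ℝ) ^ d)
    (hE : n * eK d L K t + t / (ρ : ℝ) ^ d ≤ c0 / x ^ (2 * d + 1)) :
    er d L K n ρ R t s ≤ Real.sqrt (13 ^ d * (1 + c0) / x) + (2 * (13 ^ d * (1 + c0)) + 3) / x := by
  have hx0 : 0 < x := by linarith
  have hss : 0 < Real.sqrt s := Real.sqrt_pos.2 hs
  have hst : 0 < Real.sqrt (s + K * t) := Real.sqrt_pos.2 (by positivity)
  have hR0 : 0 < (R : ℝ) := lt_of_lt_of_le (by positivity) hR1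
  obtain ⟨E, hEd⟩ : ∃ E, E = n * eK d L K t + t / (ρ : ℝ) ^ d := ⟨_, rfl⟩
  have hxp : 0 < x ^ (2 * d + 1) := by positivity
  have hn0 : 0 < (n : ℝ) := lt_of_lt_of_le hxp hn1
  have hM : (1 + 3 * R / Real.sqrt s) ^ d ≤ 13 ^ d * x ^ (2 * d) := by
    have h1 : 3 * (R : ℝ) / Real.sqrt s ≤ 12 * x ^ 2 := by
      rw [div_le_iff₀ hss]
      nlinarith
    have h2 : 1 + 3 * (R : ℝ) / Real.sqrt s ≤ 13 * x ^ 2 := by nlinarith
    calc (1 + 3 * R / Real.sqrt s) ^ d ≤ (13 * x ^ 2) ^ d :=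
          pow_le_pow_left₀ (by positivity) h2 d
      _ = 13 ^ d * x ^ (2 * d) := by rw [mul_pow, ← pow_mul]
  have hM0 : 0 ≤ (1 + 3 * R / Real.sqrt s) ^ d := by positivity
  have hxx : x ^ (2 * d + 1) = x ^ (2 * d) * x := pow_succ _ _
  have h1n : 1 / (n : ℝ) ≤ 1 / x ^ (2 * d + 1) := one_div_le_one_div_of_le hxp hn1
  have hA : (1 + 3 * R / Real.sqrt s) ^ d * (1 / n + E) ≤ 13 ^ d * (1 + c0) / x := by
    have h1 : 1 / (n : ℝ) + E ≤ (1 + c0) / x ^ (2 * d + 1) := by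
      rw [add_div, hEd]
      linarith
    calc (1 + 3 * R / Real.sqrt s) ^ d * (1 / n + E)
        ≤ (13 ^ d * x ^ (2 * d)) * ((1 + c0) / x ^ (2 * d + 1)) :=
          mul_le_mul hM h1 (by rw [hEd]; positivity) (by positivity)
      _ = 13 ^ d * (1 + c0) / x := by
          rw [hxx]
          field_simp
  have hB : (1 + 3 * R / Real.sqrt s) ^ d / n ≤ 13 ^ d * (1 + c0) / x := by
    have h1 : (1 + 3 * R / Real.sqrt s) ^ d / n ≤ (1 + 3 * R / Real.sqrt s) ^ d * (1 / n + E) := by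
      rw [div_eq_mul_one_div]
      refine mul_le_mul_of_nonneg_left ?_ hM0
      rw [hEd]
      linarith
    exact h1.trans hA
  have hD : Real.sqrt (s + K * t) / R ≤ 1 / x := by
    rw [div_le_div_iff₀ hR0 hx0]
    linarith
  have h13 : (1 : ℝ) ≤ 13 ^ d := one_le_pow₀ (by norm_num)
  have hF : E ≤ 13 ^ d * (1 + c0) / x := by
    have h1 : c0 / x ^ (2 * d + 1) ≤ c0 / x :=
      div_le_div_of_nonneg_left hc0 hx0 (le_self_pow₀ hx (by omega))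
    have h2 : c0 / x ≤ 13 ^ d * (1 + c0) / x := by
      apply div_le_div_of_nonneg_right _ hx0.le
      nlinarith
    rw [hEd]
    linarith
  have hS : Real.sqrt ((1 + 3 * R / Real.sqrt s) ^ d * (1 / n + E)) ≤
      Real.sqrt (13 ^ d * (1 + c0) / x) := Real.sqrt_le_sqrt hA
  rw [er, ← hEd]
  have e1 : (2 * (13 ^ d * (1 + c0)) + 3) / x = 13 ^ d * (1 + c0) / x + 2 / x + 1 / x +
      13 ^ d * (1 + c0) / x := by ring
  rw [e1]
  linarith

/-- comparison of a scale with the side of the torus -/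
theorem lemB {d M0 L : ℕ} {x s Λ : ℝ} (hd : 3 ≤ d) (hx : 1 ≤ x) (hΛ : 1 ≤ Λ) (hL : 1 ≤ L)
    (hs0 : 0 ≤ s) (hs1 : s ≤ Λ * (L : ℝ) ^ 2) (hs2 : s ≤ x ^ (2 * M0 * d)) :
    s ^ 2 * x ^ M0 ≤ Λ ^ 2 * (x ^ (4 * M0) * (L : ℝ) ^ d) := by
  have hx0 : 0 < x := by linarith
  have hL' : (1 : ℝ) ≤ L := by exact_mod_cast hL
  rcases Nat.lt_or_ge 3 d with h | h
  · have h1 : s ^ 2 ≤ Λ ^ 2 * (L : ℝ) ^ 4 := by
      calc s ^ 2 ≤ (Λ * (L : ℝ) ^ 2) ^ 2 := pow_le_pow_left₀ hs0 hs1 2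
        _ = _ := by ring
    have h2 : (L : ℝ) ^ 4 ≤ (L : ℝ) ^ d := pow_le_pow_right₀ hL' h
    have h3 : x ^ M0 ≤ x ^ (4 * M0) := pow_le_pow_right₀ hx (by omega)
    calc s ^ 2 * x ^ M0 ≤ (Λ ^ 2 * (L : ℝ) ^ 4) * x ^ (4 * M0) :=
          mul_le_mul h1 h3 (by positivity) (by positivity)
      _ ≤ (Λ ^ 2 * (L : ℝ) ^ d) * x ^ (4 * M0) := by gcongr
      _ = _ := by ring
  · have hd3 : d = 3 := by omega
    subst hd3
    rw [← pow_le_pow_iff_left₀ (by positivity) (by positivity) (two_ne_zero)]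
    have h1 : s ^ 3 ≤ (Λ * (L : ℝ) ^ 2) ^ 3 := pow_le_pow_left₀ hs0 hs1 3
    calc (s ^ 2 * x ^ M0) ^ 2 = s * s ^ 3 * x ^ (2 * M0) := by ring
      _ ≤ x ^ (2 * M0 * 3) * (Λ * (L : ℝ) ^ 2) ^ 3 * x ^ (2 * M0) := by gcongr
      _ = Λ ^ 3 * (x ^ (8 * M0) * (L : ℝ) ^ 6) := by ring
      _ ≤ Λ ^ 4 * (x ^ (8 * M0) * (L : ℝ) ^ 6) := by
          have : Λ ^ 3 ≤ Λ ^ 4 := pow_le_pow_right₀ hΛ (by norm_num)
          gcongr
      _ = _ := by ring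

/-- the first scale -/
theorem lemC {d M0 L : ℕ} {x t Λ : ℝ} (hd : 3 ≤ d) (hx : 1 ≤ x) (hΛ : 1 ≤ Λ) (hL : 1 ≤ L)
    (ht : t = x ^ (4 * M0)) (hs1 : t ≤ x ^ 2 * (Λ * (L : ℝ) ^ 2)) :
    t * x ^ M0 ≤ x ^ 3 * Λ ^ 2 * (L : ℝ) ^ d := by
  have hx0 : 0 < x := by linarith
  have ht0 : 0 < t := by rw [ht]; positivity
  have hL' : (1 : ℝ) ≤ L := by exact_mod_cast hL
  have h2 : (L : ℝ) ^ 3 ≤ (L : ℝ) ^ d := pow_le_pow_right₀ hL' hd
  have h3 : x ^ M0 ≤ x ^ (2 * M0) := pow_le_pow_right₀ hx (by omega)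
  have h4 : t * x ^ (2 * M0) ≤ x ^ 3 * Λ ^ 2 * (L : ℝ) ^ 3 := by
    rw [← pow_le_pow_iff_left₀ (by positivity) (by positivity) (two_ne_zero)]
    calc (t * x ^ (2 * M0)) ^ 2 = t ^ 2 * x ^ (4 * M0) := by ring
      _ = t ^ 3 := by rw [← ht]; ring
      _ ≤ (x ^ 2 * (Λ * (L : ℝ) ^ 2)) ^ 3 := pow_le_pow_left₀ ht0.le hs1 3
      _ = x ^ 6 * Λ ^ 3 * (L : ℝ) ^ 6 := by ring
      _ ≤ x ^ 6 * Λ ^ 4 * (L : ℝ) ^ 6 := by
          have : Λ ^ 3 ≤ Λ ^ 4 := pow_le_pow_right₀ hΛ (by norm_num)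
          gcongr
      _ = _ := by ring
  calc t * x ^ M0 ≤ t * x ^ (2 * M0) := by gcongr
    _ ≤ x ^ 3 * Λ ^ 2 * (L : ℝ) ^ 3 := h4
    _ ≤ _ := by gcongr

theorem rpow_half {d M0 : ℕ} {x t : ℝ} (hx : 0 < x) (ht : t = x ^ (4 * M0)) :
    t ^ ((d : ℝ) / 2) = x ^ (2 * M0 * d) := by
  rw [ht, ← Real.rpow_natCast x (4 * M0), ← Real.rpow_mul hx.le, ← Real.rpow_natCast x (2 * M0 * d)]
  congr 1
  push_cast
  ring

theorem eK_eq {d M0 L K : ℕ} {x t : ℝ} (hx : 0 < x) (ht : t = x ^ (4 * M0)) :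
    eK d L K t = K * t / x ^ (2 * M0 * d) + (K : ℝ) ^ 2 * t / (L : ℝ) ^ d := by
  have ht0 : 0 < t := by rw [ht]; positivity
  rw [eK, Real.rpow_sub ht0, Real.rpow_one, rpow_half hx ht]
  ring

/-- error for the first scale -/
theorem eK_zero {d M0 L : ℕ} {x t Λ : ℝ} (hd : 3 ≤ d) (hx : 1 ≤ x) (hΛ : 1 ≤ Λ) (hL : 1 ≤ L)
    (hM : 4 * d + 5 ≤ M0)
    (ht : t = x ^ (4 * M0)) (hs1 : t ≤ x ^ 2 * (Λ * (L : ℝ) ^ 2)) :
    eK d L 1 t ≤ 2 * x / x ^ (4 * d + 5) + 4 * x ^ 3 * Λ ^ 2 / x ^ M0 := by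
  have hx0 : 0 < x := by linarith
  have hL' : (0 : ℝ) < L := by exact_mod_cast hL
  rw [eK_eq hx0 ht, Nat.cast_one, one_mul, one_pow, one_mul]
  have h1 : t / x ^ (2 * M0 * d) ≤ 2 * x / x ^ (4 * d + 5) := by
    rw [div_le_div_iff₀ (by positivity) (by positivity), ht, ← pow_add]
    have h2 : x ^ (4 * M0 + (4 * d + 5)) ≤ x ^ (2 * M0 * d) := by
      apply pow_le_pow_right₀ hx
      nlinarith
    nlinarith [pow_pos hx0 (2 * M0 * d)]
  have h2 : t / (L : ℝ) ^ d ≤ 4 * x ^ 3 * Λ ^ 2 / x ^ M0 := by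
    rw [div_le_div_iff₀ (by positivity) (by positivity)]
    have h3 := lemC hd hx hΛ hL ht hs1
    have h4 : 0 ≤ x ^ 3 * Λ ^ 2 * (L : ℝ) ^ d := by positivity
    linarith
  linarith

/-- error for the other scales -/
theorem eK_pos {d M0 L K : ℕ} {x t s Λ : ℝ} (hd : 3 ≤ d) (hx : 1 ≤ x) (hΛ : 1 ≤ Λ) (hL : 1 ≤ L)
    (ht : t = x ^ (4 * M0)) (hs0 : 0 < s) (hs1 : s ≤ Λ * (L : ℝ) ^ 2)
    (hs2 : s * x ^ (4 * d + 5) ≤ x ^ (2 * M0 * d)) (hK : K * t ≤ 2 * x * s) :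
    eK d L K t ≤ 2 * x / x ^ (4 * d + 5) + 4 * x ^ 3 * Λ ^ 2 / x ^ M0 := by
  have hx0 : 0 < x := by linarith
  have ht0 : 0 < t := by rw [ht]; positivity
  have hL' : (0 : ℝ) < L := by exact_mod_cast hL
  rw [eK_eq hx0 ht]
  have h1 : K * t / x ^ (2 * M0 * d) ≤ 2 * x / x ^ (4 * d + 5) := by
    rw [div_le_div_iff₀ (by positivity) (by positivity)]
    calc K * t * x ^ (4 * d + 5) ≤ 2 * x * s * x ^ (4 * d + 5) := by gcongr
      _ = 2 * x * (s * x ^ (4 * d + 5)) := by ring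
      _ ≤ 2 * x * x ^ (2 * M0 * d) := by gcongr
  have hs3 : s ≤ x ^ (2 * M0 * d) := by
    have h3 : (1 : ℝ) ≤ x ^ (4 * d + 5) := one_le_pow₀ hx
    nlinarith
  have h2 : (K : ℝ) ^ 2 * t / (L : ℝ) ^ d ≤ 4 * x ^ 3 * Λ ^ 2 / x ^ M0 := by
    have h3 := lemB hd hx hΛ hL hs0.le hs1 hs3
    rw [← ht] at h3
    have h4 : ((K : ℝ) * t) ^ 2 ≤ (2 * x * s) ^ 2 := pow_le_pow_left₀ (by positivity) hK 2
    have h5 : x ^ 2 ≤ x ^ 3 := pow_le_pow_right₀ hx (by norm_num)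
    rw [div_le_div_iff₀ (by positivity) (by positivity)]
    apply le_of_mul_le_mul_left _ ht0
    calc t * ((K : ℝ) ^ 2 * t * x ^ M0) = ((K : ℝ) * t) ^ 2 * x ^ M0 := by ring
      _ ≤ (2 * x * s) ^ 2 * x ^ M0 := by gcongr
      _ = 4 * x ^ 2 * (s ^ 2 * x ^ M0) := by ring
      _ ≤ 4 * x ^ 2 * (Λ ^ 2 * (t * (L : ℝ) ^ d)) := by gcongr
      _ ≤ 4 * x ^ 3 * (Λ ^ 2 * (t * (L : ℝ) ^ d)) := by gcongr
      _ = _ := by ring
  linarith

theorem sc_pos {s0 t : ℝ} {m : ℕ} (h0 : 0 < s0) (ht : 0 < t) : ∀ i, 0 < sc s0 t m i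
  | 0 => h0
  | i + 1 => by
      rw [sc]
      have := sc_pos (m := m) h0 ht i
      positivity

theorem sc_ge {s0 t : ℝ} {m : ℕ} (h0 : 0 < s0) (ht : 0 < t) (i : ℕ) :
    ((m ^ i : ℕ) : ℝ) * t ≤ sc s0 t m (i + 1) := by
  rw [sc]
  have := sc_pos (m := m) h0 ht i
  linarith

/-- all the bounds for one value of the parameter -/
theorem main' {d M0 I : ℕ} {ε Λ C η x t c0 c1 δ : ℝ} (hd : 3 ≤ d) (hΛ : 1 ≤ Λ)
    (hC : 0 < C) (hη : 0 < η) (hM1 : 4 * d + 5 ≤ M0) (hM2 : (2 * d + 3) * d + 2 * d + 1 ≤ M0)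
    (hM3 : (4 * d + 5 : ℝ) ≤ 4 * M0 * ε) (hI : I = 2 * M0 * d + 1)
    (hc0 : c0 = 4 + 8 * Λ ^ 2 + 2 ^ d) (hc1 : c1 = 13 ^ d * (1 + c0))
    (hδ : δ = η / (2 * C * (I + 1))) (hx1 : 64 ≤ x) (hx2 : 2 * d ≤ x) (hx3 : C / η ≤ x)
    (hx4 : c1 / δ ^ 2 ≤ x) (hx5 : (2 * c1 + 3) / δ ≤ x) (ht : t = x ^ (4 * M0)) :
    ∃ (m n ρ : ℕ) (s0 : ℝ), 1 ≤ m ∧ 0 < s0 ∧
    C * (Real.sqrt s0 / Real.sqrt t) ≤ η ∧ 1 ≤ n ∧ 1 ≤ ρ ∧ 2 * n ^ 2 ≤ ρ ^ d ∧
    C * (ρ / Real.sqrt t) ≤ η ∧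
    t ^ ((d : ℝ) / 2) ≤ sc s0 t m I ∧
    ∀ (L : ℕ), 3 ≤ L → ∀ i : ℕ, i < I → sc s0 t m i ≤ t ^ ((d : ℝ) / 2 - ε) →
      sc s0 t m i ≤ Λ * (L : ℝ) ^ 2 → ∃ R : ℕ, 1 ≤ R ∧ 2 * d * ρ ≤ R ∧
        C * er d L (m ^ i) n ρ R t (sc s0 t m i) ≤ η / (I + 1) := by
  have hx0 : 0 < x := by linarith
  have hx : 1 ≤ x := by linarith
  have ht0 : 0 < t := by rw [ht]; positivity
  have ht1 : 1 ≤ t := by rw [ht]; exact one_le_pow₀ hx
  have hI0 : (0 : ℝ) < (I : ℝ) + 1 := by positivity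
  have hδ0 : 0 < δ := by rw [hδ]; positivity
  have hsqt : Real.sqrt t = x ^ (2 * M0) := by
    rw [ht, show 4 * M0 = (2 * M0) * 2 by ring, pow_mul, Real.sqrt_sq (by positivity)]
  obtain ⟨e, he⟩ : ∃ e, e + (2 * d + 3) = 2 * M0 := ⟨2 * M0 - (2 * d + 3), by omega⟩
  -- the parameters
  obtain ⟨n, hn⟩ : ∃ n, n = ⌈x ^ (2 * d + 1)⌉₊ := ⟨_, rfl⟩
  obtain ⟨m, hm⟩ : ∃ m, m = ⌈x⌉₊ := ⟨_, rfl⟩
  obtain ⟨ρ, hρ⟩ : ∃ ρ, ρ = ⌊x ^ e⌋₊ := ⟨_, rfl⟩
  have hxp : ∀ k : ℕ, (1 : ℝ) ≤ x ^ k := fun k => one_le_pow₀ hx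
  have hn1 : x ^ (2 * d + 1) ≤ (n : ℝ) := by rw [hn]; exact Nat.le_ceil _
  have hn2 : (n : ℝ) ≤ 2 * x ^ (2 * d + 1) := by
    have h1 := Nat.ceil_lt_add_one (a := x ^ (2 * d + 1)) (by positivity)
    rw [← hn] at h1
    linarith [hxp (2 * d + 1)]
  have hm1 : x ≤ (m : ℝ) := by rw [hm]; exact Nat.le_ceil _
  have hm2 : (m : ℝ) ≤ 2 * x := by
    have h1 := Nat.ceil_lt_add_one (a := x) (by positivity)
    rw [← hm] at h1
    linarith
  have hρ1 : (ρ : ℝ) ≤ x ^ e := by rw [hρ]; exact Nat.floor_le (by positivity)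
  have he2 : 6 * d + 7 ≤ e := by omega
  have hxe : 64 ≤ x ^ e := hx1.trans (le_self_pow₀ hx (by omega))
  have hρ2 : x ^ e / 2 ≤ (ρ : ℝ) := by
    have h1 := Nat.lt_floor_add_one (x ^ e)
    rw [← hρ] at h1
    linarith
  have hρ3 : (1 : ℝ) ≤ ρ := by linarith
  have hρ0 : (0 : ℝ) < ρ := by linarith
  obtain ⟨s0, hs0⟩ : ∃ s0, s0 = t / x ^ 2 := ⟨_, rfl⟩
  have hs0p : 0 < s0 := by rw [hs0]; positivity
  have hs0t : t = x ^ 2 * s0 := by rw [hs0]; field_simp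
  have hm0 : 1 ≤ m := by
    have : (0 : ℝ) < m := by linarith
    exact_mod_cast this
  refine ⟨m, n, ρ, s0, hm0, hs0p, ?_, ?_, by exact_mod_cast hρ3, ?_, ?_, ?_, ?_⟩
  · -- s0
    have h1 : Real.sqrt s0 / Real.sqrt t = 1 / x := by
      rw [hs0, Real.sqrt_div ht0.le, Real.sqrt_sq hx0.le]
      have : 0 < Real.sqrt t := Real.sqrt_pos.2 ht0
      field_simp
    rw [h1, mul_one_div, div_le_iff₀ hx0]
    rw [div_le_iff₀ hη] at hx3
    linarith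
  · have : (0 : ℝ) < n := by linarith [hxp (2 * d + 1)]
    exact_mod_cast this
  · -- 2 n^2 ≤ ρ^d
    have h1 : (2 : ℝ) * (n : ℝ) ^ 2 ≤ (ρ : ℝ) ^ d := by
      calc (2 : ℝ) * (n : ℝ) ^ 2 ≤ 2 * (2 * x ^ (2 * d + 1)) ^ 2 := by gcongr
        _ = 64 * x ^ (4 * d + 2) / 8 := by ring
        _ ≤ x * x ^ (4 * d + 2) / 8 := by gcongr
        _ = x ^ (4 * d + 3) / 8 := by ring
        _ ≤ x ^ (3 * e) / 8 := by
            gcongr ?_ / 8
            exact pow_le_pow_right₀ hx (by omega)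
        _ = (x ^ e / 2) ^ 3 := by rw [div_pow, ← pow_mul]; ring
        _ ≤ (ρ : ℝ) ^ 3 := by gcongr
        _ ≤ (ρ : ℝ) ^ d := pow_le_pow_right₀ hρ3 hd
    exact_mod_cast h1
  · -- ρ
    have h1 : (ρ : ℝ) / Real.sqrt t ≤ 1 / x := by
      rw [hsqt, div_le_div_iff₀ (by positivity) hx0]
      calc (ρ : ℝ) * x ≤ x ^ e * x := by gcongr
        _ = x ^ (e + 1) := by ring
        _ ≤ x ^ (2 * M0) := pow_le_pow_right₀ hx (by omega)
        _ = 1 * x ^ (2 * M0) := by ring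
    calc C * (ρ / Real.sqrt t) ≤ C * (1 / x) := by gcongr
      _ ≤ η := by
        rw [mul_one_div, div_le_iff₀ hx0]
        rw [div_le_iff₀ hη] at hx3
        linarith
  · -- the last scale
    rw [rpow_half hx0 ht]
    refine le_trans ?_ (hI ▸ sc_ge hs0p ht0 (2 * M0 * d))
    have h1 : x ^ (2 * M0 * d) ≤ ((m ^ (2 * M0 * d) : ℕ) : ℝ) := by
      push_cast
      gcongr
    calc x ^ (2 * M0 * d) ≤ ((m ^ (2 * M0 * d) : ℕ) : ℝ) * 1 := by rw [mul_one]; exact h1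
      _ ≤ _ := by gcongr
  · -- the steps
    intro L hL i hi hsc1 hsc2
    obtain ⟨s, hs⟩ : ∃ s, s = sc s0 t m i := ⟨_, rfl⟩
    obtain ⟨K, hK⟩ : ∃ K, K = m ^ i := ⟨_, rfl⟩
    rw [← hs] at hsc1 hsc2
    rw [← hs, ← hK]
    have hsp : 0 < s := by rw [hs]; exact sc_pos hs0p ht0 i
    have hK1 : 1 ≤ K := by rw [hK]; exact Nat.one_le_pow _ _ hm0
    have hK1' : (1 : ℝ) ≤ K := by exact_mod_cast hK1
    have hKtt : t ≤ K * t := le_mul_of_one_le_left ht0.le hK1'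
    have hs2 : s * x ^ (4 * d + 5) ≤ x ^ (2 * M0 * d) := by
      have h1 : t ^ ((d : ℝ) / 2 - ε) = x ^ (2 * M0 * d) / t ^ ε := by
        rw [Real.rpow_sub ht0, rpow_half hx0 ht]
      have h2 : x ^ (4 * d + 5) ≤ t ^ ε := by
        rw [ht, ← Real.rpow_natCast x (4 * M0), ← Real.rpow_mul hx0.le,
          ← Real.rpow_natCast x (4 * d + 5)]
        apply Real.rpow_le_rpow_of_exponent_le hx
        push_cast
        exact hM3
      have h3 : 0 < t ^ ε := Real.rpow_pos_of_pos ht0 _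
      rw [h1, le_div_iff₀ h3] at hsc1
      calc s * x ^ (4 * d + 5) ≤ s * t ^ ε := by gcongr
        _ ≤ _ := hsc1
    -- relation between K t and s, and the error
    have hKE : (K : ℝ) * t ≤ 2 * x ^ 2 * s ∧
        eK d L K t ≤ 2 * x / x ^ (4 * d + 5) + 4 * x ^ 3 * Λ ^ 2 / x ^ M0 := by
      rcases i with _ | i
      · rw [pow_zero] at hK
        rw [hK]
        have h1 : s = s0 := by rw [hs]; rfl
        refine ⟨?_, eK_zero hd hx hΛ (by omega) hM1 ht ?_⟩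
        · rw [Nat.cast_one, one_mul, h1]
          have : 0 < x ^ 2 * s0 := by positivity
          linarith
        · rw [hs0t, ← h1]
          gcongr
      · have h1 : (K : ℝ) * t ≤ 2 * x * s := by
          have h2 := sc_ge (m := m) hs0p ht0 i
          rw [← hs] at h2
          have h3 : (K : ℝ) = m * ((m ^ i : ℕ) : ℝ) := by
            rw [hK]
            push_cast
            ring
          calc (K : ℝ) * t = m * (((m ^ i : ℕ) : ℝ) * t) := by rw [h3]; ring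
            _ ≤ (2 * x) * s := by gcongr
        refine ⟨?_, eK_pos hd hx hΛ (by omega) ht hsp hsc2 hs2 h1⟩
        have h2 : 2 * x * s ≤ 2 * x ^ 2 * s := by
          have : x ≤ x ^ 2 := le_self_pow₀ hx (by norm_num)
          gcongr
        linarith
    obtain ⟨hKt, heK⟩ := hKE
    have heK0 : 0 ≤ eK d L K t := by
      rw [eK_eq hx0 ht]
      positivity
    have hst : 0 < Real.sqrt (s + K * t) := Real.sqrt_pos.2 (by positivity)
    have hst1 : 1 ≤ x * Real.sqrt (s + K * t) := by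
      have h1 : 1 ≤ Real.sqrt (s + K * t) := by
        rw [Real.one_le_sqrt]
        linarith
      exact one_le_mul_of_one_le_of_one_le hx h1
    refine ⟨⌈x * Real.sqrt (s + K * t)⌉₊, ?_, ?_, ?_⟩
    · rw [Nat.one_le_ceil_iff]
      linarith
    · have h1 : ((2 * d * ρ : ℕ) : ℝ) ≤ x * Real.sqrt (s + K * t) := by
        have h2 : Real.sqrt t ≤ Real.sqrt (s + K * t) := by
          apply Real.sqrt_le_sqrt
          linarith
        have h3 : x ^ e ≤ Real.sqrt t := by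
          rw [hsqt]
          exact pow_le_pow_right₀ hx (by omega)
        push_cast
        calc (2 * (d : ℝ)) * ρ ≤ x * x ^ e := by gcongr
          _ ≤ x * Real.sqrt (s + K * t) := by
              gcongr
              exact h3.trans h2
      exact_mod_cast h1.trans (Nat.le_ceil _)
    · have hR1 := Nat.le_ceil (x * Real.sqrt (s + K * t))
      have hR2 : ((⌈x * Real.sqrt (s + K * t)⌉₊ : ℕ) : ℝ) ≤ 4 * x ^ 2 * Real.sqrt s := by
        have h1 := Nat.ceil_lt_add_one (a := x * Real.sqrt (s + K * t)) (by positivity)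
        have h2 : Real.sqrt (s + K * t) ≤ 2 * x * Real.sqrt s := by
          have h3 : 2 * x * Real.sqrt s = Real.sqrt ((2 * x) ^ 2 * s) := by
            rw [Real.sqrt_mul (by positivity), Real.sqrt_sq (by positivity)]
          rw [h3]
          apply Real.sqrt_le_sqrt
          have h5 : s ≤ x ^ 2 * s := le_mul_of_one_le_left hsp.le (hxp 2)
          have h6 : (2 * x) ^ 2 * s = 4 * (x ^ 2 * s) := by ring
          rw [h6]
          linarith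
        have h4 : x * Real.sqrt (s + K * t) ≤ 2 * x ^ 2 * Real.sqrt s := by
          calc x * Real.sqrt (s + K * t) ≤ x * (2 * x * Real.sqrt s) := by gcongr
            _ = _ := by ring
        linarith
      have hnρ : (n : ℝ) * ρ / Real.sqrt t ≤ 2 / x := by
        rw [hsqt, div_le_div_iff₀ (by positivity) hx0]
        calc (n : ℝ) * ρ * x ≤ (2 * x ^ (2 * d + 1)) * x ^ e * x := by gcongr
          _ = 2 * x ^ (e + (2 * d + 2)) := by ring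
          _ ≤ 2 * x ^ (2 * M0) := by
              gcongr 2 * ?_
              exact pow_le_pow_right₀ hx (by omega)
      have hE1 : n * eK d L K t ≤ (4 + 8 * Λ ^ 2) / x ^ (2 * d + 1) := by
        have h1 : n * eK d L K t ≤ (2 * x ^ (2 * d + 1)) *
            (2 * x / x ^ (4 * d + 5) + 4 * x ^ 3 * Λ ^ 2 / x ^ M0) :=
          mul_le_mul hn2 heK heK0 (by positivity)
        have h2 : (2 * x ^ (2 * d + 1)) * (2 * x / x ^ (4 * d + 5)) ≤ 4 / x ^ (2 * d + 1) := by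
          rw [← mul_div_assoc, div_le_div_iff₀ (by positivity) (by positivity)]
          calc 2 * x ^ (2 * d + 1) * (2 * x) * x ^ (2 * d + 1) = 4 * x ^ (4 * d + 3) := by ring
            _ ≤ 4 * x ^ (4 * d + 5) := by
                gcongr 4 * ?_
                exact pow_le_pow_right₀ hx (by omega)
        have h3 : (2 * x ^ (2 * d + 1)) * (4 * x ^ 3 * Λ ^ 2 / x ^ M0) ≤
            8 * Λ ^ 2 / x ^ (2 * d + 1) := by
          rw [← mul_div_assoc, div_le_div_iff₀ (by positivity) (by positivity)]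
          calc 2 * x ^ (2 * d + 1) * (4 * x ^ 3 * Λ ^ 2) * x ^ (2 * d + 1) =
              8 * Λ ^ 2 * x ^ (4 * d + 5) := by ring
            _ ≤ 8 * Λ ^ 2 * x ^ M0 := by
                gcongr 8 * Λ ^ 2 * ?_
                exact pow_le_pow_right₀ hx hM1
        rw [add_div]
        rw [mul_add] at h1
        linarith
      have hE2 : t / (ρ : ℝ) ^ d ≤ 2 ^ d / x ^ (2 * d + 1) := by
        have h1 : x ^ (e * d) ≤ 2 ^ d * (ρ : ℝ) ^ d := by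
          rw [pow_mul, ← mul_pow]
          apply pow_le_pow_left₀ (by positivity)
          linarith
        have h2 : t * x ^ (2 * d + 1) ≤ x ^ (e * d) := by
          rw [ht, ← pow_add]
          apply pow_le_pow_right₀ hx
          have h3 : e * d + (2 * d + 3) * d = 2 * M0 * d := by rw [← add_mul, he]
          have h4 : 2 * M0 * 3 ≤ 2 * M0 * d := Nat.mul_le_mul_left _ hd
          linarith
        rw [div_le_div_iff₀ (by positivity) (by positivity)]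
        linarith
      have hE : n * eK d L K t + t / (ρ : ℝ) ^ d ≤ c0 / x ^ (2 * d + 1) := by
        rw [hc0, add_div]
        linarith
      have hc0' : 0 ≤ c0 := by rw [hc0]; positivity
      have hE0 : 0 ≤ n * eK d L K t + t / (ρ : ℝ) ^ d := by positivity
      have hfin := er_le (L := L) (R := ⌈x * Real.sqrt (s + K * t)⌉₊) hx hsp hc0' ht0 hR1 hR2 hn1
        hnρ hE0 hE
      rw [← hc1] at hfin
      have hc1' : 0 ≤ c1 := by rw [hc1]; positivity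
      have g1 : Real.sqrt (c1 / x) ≤ δ := by
        rw [Real.sqrt_le_left hδ0.le, div_le_iff₀ hx0]
        rw [div_le_iff₀ (by positivity)] at hx4
        linarith
      have g2 : (2 * c1 + 3) / x ≤ δ := by
        rw [div_le_iff₀ hx0]
        rw [div_le_iff₀ hδ0] at hx5
        linarith
      have g3 : C * (δ + δ) = η / (I + 1) := by
        rw [hδ]
        field_simp
        norm_num
      calc _ ≤ C * (δ + δ) := by
            gcongr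
            linarith
        _ = _ := g3

/-- **NUM.** -/
theorem main : S_NUM := by
  intro d hd ε Λ C η hε hΛ hC hη
  obtain ⟨M1, hM1⟩ := exists_nat_ge ((4 * d + 5 : ℝ) / (4 * ε))
  obtain ⟨M0, hM0⟩ : ∃ M0, M0 = M1 + (4 * d + 5) + ((2 * d + 3) * d + 2 * d + 1) := ⟨_, rfl⟩
  obtain ⟨I, hI⟩ : ∃ I, I = 2 * M0 * d + 1 := ⟨_, rfl⟩
  obtain ⟨c0, hc0⟩ : ∃ c0 : ℝ, c0 = 4 + 8 * Λ ^ 2 + 2 ^ d := ⟨_, rfl⟩
  obtain ⟨c1, hc1⟩ : ∃ c1 : ℝ, c1 = 13 ^ d * (1 + c0) := ⟨_, rfl⟩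
  obtain ⟨δ, hδ⟩ : ∃ δ : ℝ, δ = η / (2 * C * (I + 1)) := ⟨_, rfl⟩
  have hδ0 : 0 < δ := by rw [hδ]; positivity
  have hc00 : 0 < c0 := by rw [hc0]; positivity
  have hc10 : 0 < c1 := by rw [hc1]; positivity
  obtain ⟨x0, hx0⟩ : ∃ x0 : ℝ, x0 = 64 + 2 * d + C / η + c1 / δ ^ 2 + (2 * c1 + 3) / δ := ⟨_, rfl⟩
  have p1 : 0 < C / η := by positivity
  have p2 : 0 < c1 / δ ^ 2 := by positivity
  have p3 : 0 < (2 * c1 + 3) / δ := by positivity
  have p4 : (0 : ℝ) ≤ 2 * d := by positivity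
  have hx0p : 1 ≤ x0 := by linarith
  refine ⟨x0 ^ (4 * M0), I, one_le_pow₀ hx0p, fun t ht => ?_⟩
  have ht0 : 0 < t := lt_of_lt_of_le (by positivity) ht
  have hM : 4 * M0 ≠ 0 := by omega
  obtain ⟨x, hx⟩ : ∃ x : ℝ, x = t ^ (((4 * M0 : ℕ) : ℝ)⁻¹) := ⟨_, rfl⟩
  have hxp : 0 < x := by rw [hx]; positivity
  have hxt : t = x ^ (4 * M0) := by rw [hx, Real.rpow_inv_natCast_pow ht0.le hM]
  have hxx0 : x0 ≤ x := by
    rw [hxt] at ht
    exact (pow_le_pow_iff_left₀ (by linarith) hxp.le hM).1 ht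
  refine main' hd hΛ hC hη (by omega) (by omega) ?_ hI hc0 hc1 hδ (by linarith) (by linarith)
    (by linarith) (by linarith) (by linarith) hxt
  rw [div_le_iff₀ (by positivity)] at hM1
  have h1 : (M1 : ℝ) ≤ M0 := by
    rw [hM0]
    push_cast
    have h2 : (0 : ℝ) ≤ d := Nat.cast_nonneg d
    have h3 : (0 : ℝ) ≤ (2 * d + 3) * d := by positivity
    linarith
  have h2 := mul_le_mul_of_nonneg_right h1 (by positivity : 0 ≤ 4 * ε)
  linarith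

end Pool.Agent.R134.PB.Num
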