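import Pool.Agent.R134.PB.Stm3
import Pool.Agent.Y998.LQ.Final
import Pool.Agent.Y259.PD.BOX

/-!
# Project PB: the Poisson-Dirichlet law for sets of points
-/

set_option autoImplicit false

namespace Pool.Agent.R134.PB.Pds

open Finset Equiv
open Pool.Agent.Y998.ST
open Pool.Agent.Y661.PD (dl Free tdist)
open Pool.Agent.TH268.PD (Cyc cyOf frac top um pdm pdl pdm_close lip_approx)
open Pool.Agent.Y998.LP (bfrac)

section gen

variable {V : Type} [Fintype V] [DecidableEq V]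

theorem bf_nonneg (B : Finset V) (g : Perm V) (γ : Cyc g) : 0 ≤ bf B g γ :=
  Pool.Agent.Y998.LQ.bfrac_nonneg B g γ

/-- the expectation of a square root -/
theorem exp_sqrt {J : V → V → ℝ} (hJ : ∀ x y, 0 ≤ J x y) {t : ℝ} (ht : 0 ≤ t) (F : Perm V → ℝ)
    (hF : ∀ g, 0 ≤ F g) : stirExp J t (fun g => Real.sqrt (F g)) ≤ Real.sqrt (stirExp J t F) := by
  apply Real.le_sqrt_of_sq_le
  have hsum : ∑ g : Perm V, stirLaw J t g = 1 := by
    have := exp_const J t 1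
    unfold stirExp at this
    simpa using this
  have h1 := Finset.sum_mul_sq_le_sq_mul_sq (Finset.univ : Finset (Perm V))
    (fun g => Real.sqrt (stirLaw J t g)) (fun g => Real.sqrt (stirLaw J t g) * Real.sqrt (F g))
  have e1 : ∑ g : Perm V, Real.sqrt (stirLaw J t g) * (Real.sqrt (stirLaw J t g) *
      Real.sqrt (F g)) = stirExp J t (fun g => Real.sqrt (F g)) := by
    unfold stirExp
    refine Finset.sum_congr rfl fun g _ => ?_
    rw [← mul_assoc, Real.mul_self_sqrt (law_nonneg hJ ht g)]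
  have e2 : ∑ g : Perm V, Real.sqrt (stirLaw J t g) ^ 2 = 1 := by
    rw [← hsum]
    exact Finset.sum_congr rfl fun g _ => Real.sq_sqrt (law_nonneg hJ ht g)
  have e3 : ∑ g : Perm V, (Real.sqrt (stirLaw J t g) * Real.sqrt (F g)) ^ 2 =
      stirExp J t F := by
    unfold stirExp
    refine Finset.sum_congr rfl fun g _ => ?_
    rw [mul_pow, Real.sq_sqrt (law_nonneg hJ ht g), Real.sq_sqrt (hF g)]
  rw [e1, e2, e3, one_mul] at h1
  exact h1

theorem exp_sub' (J : V → V → ℝ) (t : ℝ) (F G : Perm V → ℝ) :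
    stirExp J t F - stirExp J t G = stirExp J t (fun g => F g - G g) := by
  unfold stirExp
  rw [← Finset.sum_sub_distrib]
  exact Finset.sum_congr rfl fun g _ => by ring

theorem exp_abs {J : V → V → ℝ} (hJ : ∀ x y, 0 ≤ J x y) {t : ℝ} (ht : 0 ≤ t) (F : Perm V → ℝ) :
    |stirExp J t F| ≤ stirExp J t (fun g => |F g|) := by
  unfold stirExp
  refine (Finset.abs_sum_le_sum_abs _ _).trans (le_of_eq ?_)
  refine Finset.sum_congr rfl fun g _ => ?_
  rw [abs_mul, abs_of_nonneg (law_nonneg hJ ht g)]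

theorem exp_mul' (J : V → V → ℝ) (t c : ℝ) (F : Perm V → ℝ) :
    stirExp J t (fun g => c * F g) = c * stirExp J t F := by
  unfold stirExp
  rw [Finset.mul_sum]
  exact Finset.sum_congr rfl fun g _ => by ring

/-- Lipschitz functions of the ordered fractions of two sets -/
theorem cmp_top (hCMP : S_CMP) {J : V → V → ℝ} (hJ : ∀ x y, 0 ≤ J x y) {t η : ℝ} (ht : 0 ≤ t)
    (hη : 0 ≤ η) {B B' : Finset V} (hB : B.Nonempty) (hB' : B'.Nonempty) (h1 : Near J t η B B)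
    (h2 : Near J t η B' B') (h3 : Near J t η B B') {m : ℕ} (F : (Fin m → ℝ) → ℝ) (Λ : ℝ)
    (hΛ : 0 ≤ Λ)
    (hF : ∀ (u v : Fin m → ℝ) (e : ℝ), 0 ≤ e → (∀ i, |u i - v i| ≤ e) → |F u - F v| ≤ Λ * e) :
    |stirExp J t (fun g => F (fun i => top (bf B g) i)) -
      stirExp J t (fun g => F (fun i => top (bf B' g) i))| ≤
      Λ * Real.sqrt (4 * η + 1 / B.card + 1 / B'.card) := by
  rw [exp_sub']
  refine (exp_abs hJ ht _).trans ?_
  have h4 : ∀ g : Perm V, |F (fun i => top (bf B g) i) - F (fun i => top (bf B' g) i)| ≤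
      Λ * Real.sqrt (∑ᶠ γ : Cyc g, (bf B g γ - bf B' g γ) ^ 2) := by
    intro g
    have hfin : Finite (Cyc g) := Quotient.finite _
    have : Fintype (Cyc g) := Fintype.ofFinite _
    refine hF _ _ _ (Real.sqrt_nonneg _) fun i => ?_
    refine Pool.Agent.TH268.PD.top_lip _ _ (bf_nonneg B g) (bf_nonneg B' g) _
      (Real.sqrt_nonneg _) (fun γ => ?_) i
    apply Real.abs_le_sqrt
    rw [finsum_eq_sum_of_fintype]
    exact Finset.single_le_sum (f := fun γ => (bf B g γ - bf B' g γ) ^ 2)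
      (fun γ _ => sq_nonneg _) (Finset.mem_univ γ)
  have h5 := exp_mono hJ ht h4
  refine h5.trans ?_
  rw [exp_mul']
  refine mul_le_mul_of_nonneg_left ?_ hΛ
  have h6 := exp_sqrt hJ ht (fun g => ∑ᶠ γ : Cyc g, (bf B g γ - bf B' g γ) ^ 2)
    (fun g => finsum_nonneg fun γ => sq_nonneg _)
  refine h6.trans (Real.sqrt_le_sqrt ?_)
  exact hCMP V J hJ t η ht hη B B' hB hB' h1 h2 h3

end gen

/-- The Poisson-Dirichlet law for sets of diameter at most `t ^ (d / 4 - ε)`. -/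
theorem main (hTW : S_TWOPT) (hCMP : S_CMP) (hDL : S_DL) (hGEO : S_GEO) (d : ℕ) (hd : 3 ≤ d)
    (ε : ℝ) (hε : 0 < ε) (m : ℕ) (f : (Fin m → ℝ) → ℝ) (hf : Continuous f) (C : ℝ)
    (hC : ∀ u, |f u| ≤ C) (η : ℝ) (hη : 0 < η) :
    ∃ (T : ℝ) (N₀ : ℕ), 1 ≤ T ∧ ∀ t : ℝ, T ≤ t → ∀ (L : ℕ) [NeZero L], 3 ≤ L →
      ∀ B : Finset (Fin d → ZMod L), N₀ ≤ B.card →
      (∀ x ∈ B, ∀ y ∈ B, (tdist x y : ℝ) ≤ t ^ ((d : ℝ) / 4 - ε)) →
      |stirExp (nnRate d L) t (fun g => f (fun i => top (bf B g) i)) - pdm f| ≤ η := by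
  have hd3 : (3 : ℝ) ≤ d := by exact_mod_cast hd
  obtain ⟨Λ, F, hΛ, hFc, hFC, hFl, hFf⟩ := lip_approx m f hf C hC (η / 8) (by positivity)
  obtain ⟨δ, hδ, N₁, hN₁, hpd⟩ := Pool.Agent.Y998.LQ.pd_gen m F hFc C hFC (η / 8) (by positivity)
  obtain ⟨κ, hκ⟩ : ∃ κ : ℝ, κ = η / (8 * (Λ + 1)) := ⟨_, rfl⟩
  have hκ0 : 0 < κ := by rw [hκ]; positivity
  obtain ⟨N₂, hN₂⟩ := exists_nat_gt (4 / κ ^ 2)
  obtain ⟨ρ, hρ⟩ : ∃ ρ : ℕ, ρ = max N₁ (max N₂ 1) := ⟨_, rfl⟩
  have hρ1 : 1 ≤ ρ := by rw [hρ]; exact (le_max_right _ _).trans (le_max_right _ _)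
  have hρN1 : N₁ ≤ ρ := by rw [hρ]; exact le_max_left _ _
  have hρN2 : N₂ ≤ ρ := by rw [hρ]; exact (le_max_left _ _).trans (le_max_right _ _)
  have hρR : (1 : ℝ) ≤ ρ := by exact_mod_cast hρ1
  obtain ⟨ε1, hε1⟩ : ∃ ε1 : ℝ, ε1 = min ε (1 / 4) / 2 := ⟨_, rfl⟩
  have hε10 : 0 < ε1 := by rw [hε1]; positivity
  have hε11 : 2 * ε1 ≤ ε := by
    have := min_le_left ε (1 / 4)
    rw [hε1]; linarith
  have hε12 : 2 * ε1 ≤ 1 / 4 := by
    have := min_le_right ε (1 / 4)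
    rw [hε1]; linarith
  obtain ⟨T1, hT1, htwo⟩ := hTW d hd ε1 (κ ^ 2 / 8) hε10 (by positivity)
  obtain ⟨C1, hC1, hdl⟩ := hDL d (by omega)
  have hdρ : (0 : ℝ) < 1 + d * ρ := by positivity
  refine ⟨max T1 (max ((1 + d * ρ) ^ (1 / ε1)) ((C1 * (d * ρ) / δ) ^ 2)), ρ ^ d,
    le_max_of_le_left hT1, ?_⟩
  intro t ht L _ hL B hBc hBd
  have htT1 : T1 ≤ t := (le_max_left _ _).trans ht
  have htT2 : (1 + (d : ℝ) * ρ) ^ (1 / ε1) ≤ t :=
    ((le_max_left _ _).trans (le_max_right _ _)).trans ht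
  have htT3 : (C1 * (d * ρ) / δ) ^ 2 ≤ t := ((le_max_right _ _).trans (le_max_right _ _)).trans ht
  have ht1 : 1 ≤ t := hT1.trans htT1
  have ht0 : 0 < t := by linarith
  have hst : 0 < Real.sqrt t := Real.sqrt_pos.2 ht0
  have hJ0 : ∀ x y, 0 ≤ nnRate d L x y := nn_nonneg
  obtain ⟨hsym, htri, htra, hdiam, _⟩ := hGEO d L
  have hρL : ρ ≤ L := by
    have h1 : B.card ≤ L ^ d := by
      have := Finset.card_le_univ B
      rwa [Fintype.card_fun, ZMod.card, Fintype.card_fin] at this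
    exact (Nat.pow_le_pow_iff_left (by omega)).1 (hBc.trans h1)
  have hBpos : 0 < B.card := lt_of_lt_of_le (pow_pos hρ1 d) hBc
  obtain ⟨z, hz⟩ := Finset.card_pos.1 hBpos
  obtain ⟨Q, hQc, hQd⟩ := Pool.Agent.Y259.PD.BOX.main d L ρ hρ1 hρL
  have hQpos : 0 < Q.card := by rw [hQc]; exact pow_pos hρ1 d
  obtain ⟨q0, hq0⟩ := Finset.card_pos.1 hQpos
  obtain ⟨B0, hB0⟩ : ∃ B0 : Finset (Fin d → ZMod L), B0 = Q.image (fun q => (z - q0) + q) :=
    ⟨_, rfl⟩
  have hB0c : B0.card = ρ ^ d := by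
    rw [hB0, Finset.card_image_of_injective _ (add_right_injective _), hQc]
  have hB0mem : ∀ x ∈ B0, ∃ q ∈ Q, x = (z - q0) + q := by
    intro x hx
    rw [hB0, Finset.mem_image] at hx
    obtain ⟨q, hq, hqx⟩ := hx
    exact ⟨q, hq, hqx.symm⟩
  have hB0d : ∀ x ∈ B0, ∀ y ∈ B0, tdist x y ≤ d * ρ := by
    intro x hx y hy
    obtain ⟨q, hq, rfl⟩ := hB0mem x hx
    obtain ⟨q', hq', rfl⟩ := hB0mem y hy
    rw [htra]
    exact hQd q hq q' hq'
  have hzB0 : z ∈ B0 := by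
    rw [hB0, Finset.mem_image]
    exact ⟨q0, hq0, by abel⟩
  have hB0pos : 0 < B0.card := Finset.card_pos.2 ⟨z, hzB0⟩
  -- the distances
  have hpow : t ^ ((d : ℝ) / 4 - ε) + d * ρ ≤ t ^ ((d : ℝ) / 4 - ε1) := by
    have h1 : t ^ ((d : ℝ) / 4 - ε) ≤ t ^ ((d : ℝ) / 4 - 2 * ε1) :=
      Real.rpow_le_rpow_of_exponent_le ht1 (by linarith)
    have h2 : 1 ≤ t ^ ((d : ℝ) / 4 - 2 * ε1) := Real.one_le_rpow ht1 (by linarith)
    have h3 : 1 + (d : ℝ) * ρ ≤ t ^ ε1 := by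
      calc 1 + (d : ℝ) * ρ = ((1 + (d : ℝ) * ρ) ^ (1 / ε1)) ^ ε1 := by
            rw [← Real.rpow_mul hdρ.le, one_div, inv_mul_cancel₀ hε10.ne', Real.rpow_one]
        _ ≤ t ^ ε1 := Real.rpow_le_rpow (by positivity) htT2 hε10.le
    have h4 : t ^ ((d : ℝ) / 4 - ε1) = t ^ ((d : ℝ) / 4 - 2 * ε1) * t ^ ε1 := by
      rw [← Real.rpow_add ht0]
      congr 1
      ring
    rw [h4]
    have h5 : t ^ ((d : ℝ) / 4 - 2 * ε1) * (1 + (d : ℝ) * ρ) ≤
        t ^ ((d : ℝ) / 4 - 2 * ε1) * t ^ ε1 := mul_le_mul_of_nonneg_left h3 (by positivity)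
    have h6 : (0 : ℝ) ≤ d * ρ := by positivity
    nlinarith
  have hn1 : Near (nnRate d L) t (κ ^ 2 / 8) B B := by
    intro x hx y hy hxy
    refine htwo t htT1 L hL x y hxy ((hBd x hx y hy).trans ?_)
    have : (0 : ℝ) ≤ d * ρ := by positivity
    linarith
  have hn2 : Near (nnRate d L) t (κ ^ 2 / 8) B0 B0 := by
    intro x hx y hy hxy
    refine htwo t htT1 L hL x y hxy (le_trans ?_ hpow)
    have h1 : (tdist x y : ℝ) ≤ d * ρ := by exact_mod_cast hB0d x hx y hy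
    have h2 : 0 ≤ t ^ ((d : ℝ) / 4 - ε) := by positivity
    linarith
  have hn3 : Near (nnRate d L) t (κ ^ 2 / 8) B B0 := by
    intro x hx y hy hxy
    refine htwo t htT1 L hL x y hxy (le_trans ?_ hpow)
    have h1 : (tdist z y : ℝ) ≤ d * ρ := by exact_mod_cast hB0d z hzB0 y hy
    have h2 : (tdist x y : ℝ) ≤ tdist x z + tdist z y := by exact_mod_cast htri x z y
    have h3 := hBd x hx z hz
    linarith
  -- the small set
  have hpd0 : |stirExp (nnRate d L) t (fun g => F (fun i => top (bf B0 g) i)) - pdm F| ≤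
      η / 8 := by
    refine hpd (Fin d → ZMod L) (nnRate d L) hJ0 t ht0.le B0 ?_ fun x hx y hy => ?_
    · rw [hB0c]
      exact hρN1.trans (Nat.le_self_pow (by omega) ρ)
    · have h1 := hdl L hL t ht0 x y
      have h2 : Pool.Agent.Y998.LP.NN (nnRate d L) t (swap x y) = dl (nnRate d L) t (swap x y) := by
        unfold Pool.Agent.Y998.LP.NN dl
        rw [swap_inv]
      rw [h2]
      refine h1.trans ?_
      rw [div_le_iff₀ hst]
      have h3 : (tdist x y : ℝ) ≤ d * ρ := by exact_mod_cast hB0d x hx y hy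
      have h4 : C1 * (d * ρ) / δ ≤ Real.sqrt t := Real.le_sqrt_of_sq_le htT3
      rw [div_le_iff₀ hδ] at h4
      have h5 := mul_le_mul_of_nonneg_left h3 hC1.le
      linarith
  have hcmp := cmp_top hCMP hJ0 ht0.le (by positivity) ⟨z, hz⟩ ⟨z, hzB0⟩ hn1 hn2 hn3 F Λ hΛ hFl
  have hcard1 : 1 / (B.card : ℝ) ≤ κ ^ 2 / 4 := by
    have h1 : (N₂ : ℝ) ≤ B.card := by
      have : N₂ ≤ B.card := hρN2.trans ((Nat.le_self_pow (by omega) ρ).trans hBc)
      exact_mod_cast this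
    have h2 : 4 / κ ^ 2 < B.card := lt_of_lt_of_le hN₂ h1
    rw [div_lt_iff₀ (by positivity)] at h2
    rw [div_le_div_iff₀ (by exact_mod_cast hBpos) (by norm_num)]
    linarith
  have hcard2 : 1 / (B0.card : ℝ) ≤ κ ^ 2 / 4 := by
    have h1 : (N₂ : ℝ) ≤ B0.card := by
      have : N₂ ≤ B0.card := by
        rw [hB0c]
        exact hρN2.trans (Nat.le_self_pow (by omega) ρ)
      exact_mod_cast this
    have h2 : 4 / κ ^ 2 < B0.card := lt_of_lt_of_le hN₂ h1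
    rw [div_lt_iff₀ (by positivity)] at h2
    rw [div_le_div_iff₀ (by exact_mod_cast hB0pos) (by norm_num)]
    linarith
  have hcmp2 : |stirExp (nnRate d L) t (fun g => F (fun i => top (bf B g) i)) -
      stirExp (nnRate d L) t (fun g => F (fun i => top (bf B0 g) i))| ≤ η / 8 := by
    refine hcmp.trans ?_
    have h1 : Real.sqrt (4 * (κ ^ 2 / 8) + 1 / B.card + 1 / B0.card) ≤ κ := by
      rw [Real.sqrt_le_left hκ0.le]
      linarith
    calc Λ * Real.sqrt (4 * (κ ^ 2 / 8) + 1 / B.card + 1 / B0.card) ≤ (Λ + 1) * κ :=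
          mul_le_mul (by linarith) h1 (Real.sqrt_nonneg _) (by linarith)
      _ = η / 8 := by rw [hκ]; field_simp
  have k1 : |stirExp (nnRate d L) t (fun g => f (fun i => top (bf B g) i)) -
      stirExp (nnRate d L) t (fun g => F (fun i => top (bf B g) i))| ≤ η / 8 := by
    rw [exp_sub']
    refine (exp_abs hJ0 ht0.le _).trans ?_
    have h2 : ∀ g : Perm (Fin d → ZMod L),
        |f (fun i => top (bf B g) i) - F (fun i => top (bf B g) i)| ≤ η / 8 := by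
      intro g
      have hfin : Finite (Cyc g) := Quotient.finite _
      exact hFf _ fun i => ⟨Pool.Agent.TH268.PD.top_nonneg _ (bf_nonneg B g) i,
          Pool.Agent.TH268.PD.top_le_one _ (bf_nonneg B g)
            (Pool.Agent.Y998.LQ.bfrac_le_one B g) i⟩
    have h3 := exp_mono hJ0 ht0.le h2
    rwa [exp_const] at h3
  have k2 : |pdm f - pdm F| ≤ η / 8 := by
    have := pdm_close pdl m f F hf hFc C hC hFC (η / 8) hFf 1 zero_le_one le_rfl
    simpa only [one_mul] using this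
  rw [abs_le] at hpd0 hcmp2 k1 k2 ⊢
  constructor
  · linarith [hpd0.1, hcmp2.1, k1.1, k2.1, hpd0.2, hcmp2.2, k1.2, k2.2]
  · linarith [hpd0.1, hcmp2.1, k1.1, k2.1, hpd0.2, hcmp2.2, k1.2, k2.2]

end Pool.Agent.R134.PB.Pds
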