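import Pool.Agent.R134.PB.Stm2

/-!
# PB-PT: every pair of points
-/

set_option autoImplicit false

namespace Pool.Agent.R134.PB.Pt

open Finset Equiv
open Pool.Agent.Y998.ST
open Pool.Agent.R134.PB
open Pool.Agent.Y661.PD (dl Free tdist)

section gen

variable {V : Type} [Fintype V] [DecidableEq V]

open Classical in
/-- the cycle of `x` -/
noncomputable def cyc (g : Perm V) (x : V) : Finset V := univ.filter fun y => g.SameCycle x y

/-- the cycles of `g` -/
noncomputable def cycs (g : Perm V) : Finset (Finset V) := univ.image (cyc g)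

theorem mem_cyc (g : Perm V) (x y : V) : y ∈ cyc g x ↔ g.SameCycle x y := by
  unfold cyc
  simp

theorem mem_cycs (g : Perm V) (x : V) : cyc g x ∈ cycs g := mem_image_of_mem _ (mem_univ _)

theorem eq_cyc {g : Perm V} {γ : Finset V} (hγ : γ ∈ cycs g) {x : V} (hx : x ∈ γ) :
    γ = cyc g x := by
  obtain ⟨z, _, rfl⟩ := mem_image.1 hγ
  rw [mem_cyc] at hx
  ext y
  rw [mem_cyc, mem_cyc]
  exact ⟨fun h => hx.symm.trans h, fun h => hx.trans h⟩

/-- indicator function -/
noncomputable def ind (γ : Finset V) (x : V) : ℝ := if x ∈ γ then 1 else 0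

theorem sum_cycs (g : Perm V) (x y : V) :
    ∑ γ ∈ cycs g, ind γ x * ind γ y = if y ∈ cyc g x then 1 else 0 := by
  rw [Finset.sum_eq_single (cyc g x)]
  · unfold ind
    rw [if_pos ((mem_cyc g x x).2 (Perm.SameCycle.refl g x)), one_mul]
  · intro γ hγ hne
    unfold ind
    rw [if_neg, zero_mul]
    intro hx
    exact hne (eq_cyc hγ hx)
  · intro h
    exact absurd (mem_cycs g x) h

theorem con_eq (J : V → V → ℝ) (t : ℝ) (x y : V) :
    con J t x y = stirExp J t (fun g => ∑ γ ∈ cycs g, ind γ x * ind γ y) := by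
  unfold con
  congr 1
  funext g
  rw [sum_cycs]
  by_cases h : g.SameCycle x y
  · rw [if_pos h, if_pos ((mem_cyc g x y).2 h)]
  · rw [if_neg h, if_neg (fun h' => h ((mem_cyc g x y).1 h'))]

theorem con_symm (J : V → V → ℝ) (t : ℝ) (x y : V) : con J t x y = con J t y x := by
  rw [con_eq, con_eq]
  congr 1
  funext g
  exact Finset.sum_congr rfl fun γ _ => mul_comm _ _

theorem con_self (J : V → V → ℝ) (t : ℝ) (x : V) : con J t x x = 1 := by
  rw [con_eq]
  have h : (fun g : Perm V => ∑ γ ∈ cycs g, ind γ x * ind γ x) = fun _ => (1 : ℝ) := by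
    funext g
    rw [sum_cycs, if_pos ((mem_cyc g x x).2 (Perm.SameCycle.refl g x))]
  rw [h, exp_const]

theorem con_le_one {J : V → V → ℝ} (hJ : ∀ x y, 0 ≤ J x y) {t : ℝ} (ht : 0 ≤ t) (x y : V) :
    con J t x y ≤ 1 := by
  rw [con_eq, ← exp_const J t 1]
  refine exp_mono hJ ht fun g => ?_
  rw [sum_cycs]
  split_ifs <;> norm_num

theorem con_nonneg {J : V → V → ℝ} (hJ : ∀ x y, 0 ≤ J x y) {t : ℝ} (ht : 0 ≤ t) (x y : V) :
    0 ≤ con J t x y := by
  rw [con_eq]
  refine exp_nonneg hJ ht fun g => ?_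
  rw [sum_cycs]
  split_ifs <;> norm_num

theorem exp_mul (J : V → V → ℝ) (t c : ℝ) (F : Perm V → ℝ) :
    stirExp J t (fun g => c * F g) = c * stirExp J t F := by
  unfold stirExp
  rw [Finset.mul_sum]
  exact Finset.sum_congr rfl fun g _ => by ring

theorem exp_add (J : V → V → ℝ) (t : ℝ) (F G : Perm V → ℝ) :
    stirExp J t (fun g => F g + G g) = stirExp J t F + stirExp J t G := by
  unfold stirExp
  rw [← Finset.sum_add_distrib]
  exact Finset.sum_congr rfl fun g _ => by ring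

/-- the quadratic form of the two point function -/
noncomputable def qf (J : V → V → ℝ) (t : ℝ) (a : V → ℝ) : ℝ :=
  stirExp J t (fun g => ∑ γ ∈ cycs g, (∑ y, a y * ind γ y) ^ 2)

theorem qf_eq (J : V → V → ℝ) (t : ℝ) (a : V → ℝ) :
    qf J t a = ∑ y, ∑ z, a y * a z * con J t y z := by
  unfold qf
  have h1 : ∀ y z, a y * a z * con J t y z =
      stirExp J t (fun g => ∑ γ ∈ cycs g, (a y * ind γ y) * (a z * ind γ z)) := by
    intro y z
    rw [con_eq, ← exp_mul]
    congr 1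
    funext g
    rw [Finset.mul_sum]
    exact Finset.sum_congr rfl fun γ _ => by ring
  rw [Finset.sum_congr rfl fun y _ => Finset.sum_congr rfl fun z _ => h1 y z]
  rw [Finset.sum_congr rfl fun y _ => exp_sum J t Finset.univ
    (fun z g => ∑ γ ∈ cycs g, (a y * ind γ y) * (a z * ind γ z))]
  rw [exp_sum J t Finset.univ
    (fun y g => ∑ z, ∑ γ ∈ cycs g, (a y * ind γ y) * (a z * ind γ z))]
  congr 1
  funext g
  have h2 : ∀ γ ∈ cycs g, (∑ y, a y * ind γ y) ^ 2 =
      ∑ y, ∑ z, (a y * ind γ y) * (a z * ind γ z) := by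
    intro γ _
    rw [sq, Finset.sum_mul_sum]
  rw [Finset.sum_congr rfl h2, Finset.sum_comm]
  refine Finset.sum_congr rfl fun y _ => ?_
  rw [Finset.sum_comm]

theorem qf_three {J : V → V → ℝ} (hJ : ∀ x y, 0 ≤ J x y) {t : ℝ} (ht : 0 ≤ t)
    (a b c e : V → ℝ) (he : ∀ y, e y = a y + b y + c y) :
    qf J t e ≤ 4 * qf J t a + 2 * qf J t b + 4 * qf J t c := by
  have key : qf J t e ≤ stirExp J t (fun g =>
      (4 * ∑ γ ∈ cycs g, (∑ y, a y * ind γ y) ^ 2 + 2 * ∑ γ ∈ cycs g, (∑ y, b y * ind γ y) ^ 2) +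
        4 * ∑ γ ∈ cycs g, (∑ y, c y * ind γ y) ^ 2) := by
    refine exp_mono hJ ht fun g => ?_
    rw [Finset.mul_sum, Finset.mul_sum, Finset.mul_sum, ← Finset.sum_add_distrib,
      ← Finset.sum_add_distrib]
    refine Finset.sum_le_sum fun γ _ => ?_
    have h1 : ∑ y, e y * ind γ y = ∑ y, a y * ind γ y + ∑ y, b y * ind γ y +
        ∑ y, c y * ind γ y := by
      rw [← Finset.sum_add_distrib, ← Finset.sum_add_distrib]
      refine Finset.sum_congr rfl fun y _ => ?_
      rw [he y]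
      ring
    rw [h1]
    nlinarith [sq_nonneg (∑ y, a y * ind γ y - ∑ y, c y * ind γ y),
      sq_nonneg (∑ y, b y * ind γ y - (∑ y, a y * ind γ y + ∑ y, c y * ind γ y))]
  rw [exp_add, exp_add, exp_mul, exp_mul, exp_mul] at key
  exact key

theorem qf_nonneg {J : V → V → ℝ} (hJ : ∀ x y, 0 ≤ J x y) {t : ℝ} (ht : 0 ≤ t) (a : V → ℝ) :
    0 ≤ qf J t a :=
  exp_nonneg hJ ht fun _ => Finset.sum_nonneg fun _ _ => sq_nonneg _

theorem qf_grad {J : V → V → ℝ} (hJ : ∀ x y, 0 ≤ J x y) {t : ℝ} (ht : 0 ≤ t) (M : V → V → ℝ)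
    (D : ℝ) (h : ∀ f : V → ℝ, ∑ x, (∑ y, M x y * f y) ^ 2 ≤ D * ∑ x, f x ^ 2) :
    ∑ x, qf J t (M x) ≤ D * Fintype.card V := by
  unfold qf
  rw [exp_sum J t Finset.univ (fun x g => ∑ γ ∈ cycs g, (∑ y, M x y * ind γ y) ^ 2)]
  rw [← exp_const J t (D * Fintype.card V)]
  refine exp_mono hJ ht fun g => ?_
  rw [Finset.sum_comm]
  refine (Finset.sum_le_sum fun γ _ => h (ind γ)).trans (le_of_eq ?_)
  rw [← Finset.mul_sum, Finset.sum_comm]
  congr 1
  have h1 : ∀ x : V, ∑ γ ∈ cycs g, ind γ x ^ 2 = 1 := by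
    intro x
    have h2 : ∀ γ ∈ cycs g, ind γ x ^ 2 = ind γ x * ind γ x := fun γ _ => sq _
    rw [Finset.sum_congr rfl h2, sum_cycs, if_pos ((mem_cyc g x x).2 (Perm.SameCycle.refl g x))]
  rw [Finset.sum_congr rfl fun x _ => h1 x]
  simp

/-- the mixed form -/
noncomputable def bf (J : V → V → ℝ) (t : ℝ) (a b : V → ℝ) : ℝ :=
  ∑ y, ∑ z, a y * b z * con J t y z

theorem bf_symm (J : V → V → ℝ) (t : ℝ) (a b : V → ℝ) : bf J t a b = bf J t b a := by
  unfold bf
  rw [Finset.sum_comm]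
  refine Finset.sum_congr rfl fun z _ => Finset.sum_congr rfl fun y _ => ?_
  rw [con_symm J t y z]
  ring

theorem qf_sub (J : V → V → ℝ) (t : ℝ) (a b e : V → ℝ) (he : ∀ y, e y = a y - b y) :
    qf J t e = bf J t a a - 2 * bf J t a b + bf J t b b := by
  have h1 : qf J t e = bf J t a a - bf J t a b - bf J t b a + bf J t b b := by
    rw [qf_eq]
    unfold bf
    rw [← Finset.sum_sub_distrib, ← Finset.sum_sub_distrib, ← Finset.sum_add_distrib]
    refine Finset.sum_congr rfl fun y _ => ?_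
    rw [← Finset.sum_sub_distrib, ← Finset.sum_sub_distrib, ← Finset.sum_add_distrib]
    refine Finset.sum_congr rfl fun z _ => ?_
    rw [he, he]
    ring
  rw [h1, bf_symm J t b a]
  ring

theorem qf_sub_sum (J : V → V → ℝ) (t : ℝ) (A B : V → V → ℝ) (a b c : ℝ)
    (ha : ∑ x, bf J t (fun y => A x y) (fun z => A x z) = a)
    (hb : ∑ x, bf J t (fun y => A x y) (fun z => B x z) = b)
    (hc : ∑ x, bf J t (fun y => B x y) (fun z => B x z) = c) :
    ∑ x, qf J t (fun y => A x y - B x y) = a - 2 * b + c := by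
  rw [← ha, ← hb, ← hc, Finset.mul_sum, ← Finset.sum_sub_distrib, ← Finset.sum_add_distrib]
  exact Finset.sum_congr rfl fun x _ => qf_sub J t (A x) (B x) _ fun y => rfl

theorem bf_qq {J : V → V → ℝ} (hs : ∀ x y, J x y = J y x) (h0 : ∀ x, J x x = 0)
    (hq : ∀ s x y, qq J s x y = qq J s y x) (t u v : ℝ) :
    ∑ x, bf J t (fun y => qq J u x y) (fun z => qq J v x z) =
      ∑ x, ∑ y, qq J (u + v) x y * con J t x y := by
  unfold bf
  rw [Finset.sum_comm]
  refine Finset.sum_congr rfl fun y _ => ?_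
  rw [Finset.sum_comm]
  refine Finset.sum_congr rfl fun z _ => ?_
  rw [← Finset.sum_mul, qq_add hs h0, Matrix.mul_apply]
  congr 1
  refine Finset.sum_congr rfl fun x _ => ?_
  show qq J u x y * qq J v x z = _
  rw [hq u x y]

end gen

section torus

variable {d L : ℕ} [NeZero L]

theorem tdist_sub (x y : Fin d → ZMod L) : tdist (y - x) 0 = tdist x y := by
  unfold tdist
  refine Finset.sum_congr rfl fun i _ => ?_
  rw [Pi.zero_apply, sub_zero, Pi.sub_apply, ← neg_sub (x i) (y i), ZMod.natAbs_valMinAbs_neg]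

/-- the correlation with the shift -/
noncomputable def Bh (d L : ℕ) [NeZero L] (t s0 : ℝ) (h x : Fin d → ZMod L) : ℝ :=
  ∑ z, qq (nnRate d L) s0 x z * con (nnRate d L) t (x + h) z

theorem Bh_const (hT : S_TRA) (t s0 : ℝ) (h x y : Fin d → ZMod L) :
    Bh d L t s0 h y = Bh d L t s0 h x := by
  unfold Bh
  rw [← Equiv.sum_comp (Equiv.addLeft (y - x))]
  refine Finset.sum_congr rfl fun z _ => ?_
  have e1 : y = (y - x) + x := by abel
  have e2 : y + h = (y - x) + (x + h) := by abel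
  rw [Equiv.coe_addLeft]
  congr 1
  · conv_lhs => rw [e1]
    rw [show (y - x + x) - x = y - x by abel]
    exact (hT d L t s0 x z 0).2.2.1 ▸ (hT d L t s0 x z (y - x)).2.2.1
  · rw [e2]
    exact (hT d L t s0 (x + h) z (y - x)).1

theorem bf_shift (hT : S_TRA) (hL : 3 ≤ L) (t s0 : ℝ) (h : Fin d → ZMod L) :
    ∑ x, bf (nnRate d L) t (fun y => qq (nnRate d L) (s0 / 2) (x + h) y)
      (fun z => qq (nnRate d L) (s0 / 2) x z) = ∑ x, Bh d L t s0 h x := by
  have hq : ∀ s x y, qq (nnRate d L) s x y = qq (nnRate d L) s y x := fun s x y =>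
    (hT d L t s x y 0).2.2.2
  have h1 : ∀ x : Fin d → ZMod L, bf (nnRate d L) t (fun y => qq (nnRate d L) (s0 / 2) (x + h) y)
      (fun z => qq (nnRate d L) (s0 / 2) x z) =
      ∑ y, ∑ z, qq (nnRate d L) (s0 / 2) x y * qq (nnRate d L) (s0 / 2) x z *
        con (nnRate d L) t (y + h) z := by
    intro x
    unfold bf
    rw [← Equiv.sum_comp (Equiv.addRight h)]
    refine Finset.sum_congr rfl fun y _ => Finset.sum_congr rfl fun z _ => ?_
    rw [Equiv.coe_addRight]
    have h2 := (hT d L t (s0 / 2) x y h).2.2.1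
    rw [add_comm h x, add_comm h y] at h2
    show qq (nnRate d L) (s0 / 2) (x + h) (y + h) * _ * _ = _
    rw [h2]
  rw [Finset.sum_congr rfl fun x _ => h1 x, Finset.sum_comm]
  refine Finset.sum_congr rfl fun y _ => ?_
  unfold Bh
  rw [Finset.sum_comm]
  refine Finset.sum_congr rfl fun z _ => ?_
  rw [← Finset.sum_mul]
  congr 1
  have h3 : s0 = s0 / 2 + s0 / 2 := by ring
  conv_rhs => rw [h3, qq_add nn_symm (nn_diag hL), Matrix.mul_apply]
  refine Finset.sum_congr rfl fun x _ => ?_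
  rw [hq _ x y]

theorem sum_AA (t s : ℝ) : ∑ x, ∑ y, qq (nnRate d L) s x y * con (nnRate d L) t x y =
    Fintype.card (Fin d → ZMod L) * AA (nnRate d L) t s := by
  unfold AA
  have : (Fintype.card (Fin d → ZMod L) : ℝ) ≠ 0 := by
    exact_mod_cast Fintype.card_ne_zero
  field_simp

/-- the bounds for the correlation with the shift -/
theorem Bh_bounds (hG : S_GRAD) (hT : S_TRA) (hM : S_MONO) (hL : 3 ≤ L) {t s0 s : ℝ} (ht : 0 < t)
    (hs0 : 0 < s0) (hs : s0 ≤ s) (h x : Fin d → ZMod L) :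
    AA (nnRate d L) t s0 - (tdist h 0 : ℝ) ^ 2 / s -
      4 * (AA (nnRate d L) t s0 - AA (nnRate d L) t s) ≤ Bh d L t s0 h x ∧
    Bh d L t s0 h x ≤ AA (nnRate d L) t s0 := by
  have hJ : ∀ x y, 0 ≤ nnRate d L x y := nn_nonneg
  have hsym : ∀ x y, nnRate d L x y = nnRate d L y x := nn_symm
  have hdg : ∀ x, nnRate d L x x = 0 := nn_diag hL
  have hq : ∀ s x y, qq (nnRate d L) s x y = qq (nnRate d L) s y x := fun s x y =>
    (hT d L t s x y 0).2.2.2
  have hN : (0 : ℝ) < Fintype.card (Fin d → ZMod L) := by exact_mod_cast Fintype.card_pos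
  set N : ℝ := (Fintype.card (Fin d → ZMod L) : ℝ) with hNdef
  have hs' : 0 < s := lt_of_lt_of_le hs0 hs
  -- the sum of the correlations
  have hB : ∑ y, Bh d L t s0 h y = N * Bh d L t s0 h x := by
    rw [Finset.sum_congr rfl fun y _ => Bh_const hT t s0 h x y, Finset.sum_const,
      Finset.card_univ, nsmul_eq_mul]
  have hAA : ∀ u v : ℝ, ∑ x, bf (nnRate d L) t (fun y => qq (nnRate d L) u x y)
      (fun z => qq (nnRate d L) v x z) = N * AA (nnRate d L) t (u + v) := by
    intro u v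
    rw [bf_qq hsym hdg hq, sum_AA]
  have hAAsh : ∀ u v : ℝ, ∑ x, bf (nnRate d L) t (fun y => qq (nnRate d L) u (x + h) y)
      (fun z => qq (nnRate d L) v (x + h) z) = N * AA (nnRate d L) t (u + v) := by
    intro u v
    rw [← hAA u v]
    exact Equiv.sum_comp (Equiv.addRight h) (fun x => bf (nnRate d L) t
      (fun y => qq (nnRate d L) u x y) (fun z => qq (nnRate d L) v x z))
  -- the quadratic forms
  have h1 : s0 / 2 + s0 / 2 = s0 := by ring
  have h2 : s / 2 + s / 2 = s := by ring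
  have h3 := hM (Fin d → ZMod L) (nnRate d L) hJ hsym hdg t ht.le (s / 2 + s0 / 2) s
      (by linarith) (by linarith)
  have e1 : ∑ x, qf (nnRate d L) t (fun y => qq (nnRate d L) (s0 / 2) (x + h) y -
      qq (nnRate d L) (s0 / 2) x y) = 2 * (N * AA (nnRate d L) t s0) -
        2 * (N * Bh d L t s0 h x) := by
    have h4 := qf_sub_sum (nnRate d L) t (fun x y => qq (nnRate d L) (s0 / 2) (x + h) y)
      (fun x y => qq (nnRate d L) (s0 / 2) x y) _ _ _ (hAAsh (s0 / 2) (s0 / 2))
      ((bf_shift hT hL t s0 h).trans hB) (hAA (s0 / 2) (s0 / 2))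
    rw [h1] at h4
    refine h4.trans ?_
    ring
  have e2 : ∑ x, qf (nnRate d L) t (fun y => qq (nnRate d L) (s / 2) x y -
      qq (nnRate d L) (s0 / 2) x y) ≤ N * (AA (nnRate d L) t s0 - AA (nnRate d L) t s) := by
    have h4 := qf_sub_sum (nnRate d L) t (fun x y => qq (nnRate d L) (s / 2) x y)
      (fun x y => qq (nnRate d L) (s0 / 2) x y) _ _ _ (hAA (s / 2) (s / 2))
      (hAA (s / 2) (s0 / 2)) (hAA (s0 / 2) (s0 / 2))
    rw [h1, h2] at h4
    refine h4.le.trans ?_
    nlinarith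
  have e2' : ∑ x, qf (nnRate d L) t (fun y => qq (nnRate d L) (s0 / 2) (x + h) y -
      qq (nnRate d L) (s / 2) (x + h) y) ≤
      N * (AA (nnRate d L) t s0 - AA (nnRate d L) t s) := by
    have h4 := qf_sub_sum (nnRate d L) t (fun x y => qq (nnRate d L) (s0 / 2) x y)
      (fun x y => qq (nnRate d L) (s / 2) x y) _ _ _ (hAA (s0 / 2) (s0 / 2))
      (hAA (s0 / 2) (s / 2)) (hAA (s / 2) (s / 2))
    rw [h1, h2, add_comm (s0 / 2) (s / 2)] at h4
    have h5 : ∑ x, qf (nnRate d L) t (fun y => qq (nnRate d L) (s0 / 2) (x + h) y -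
        qq (nnRate d L) (s / 2) (x + h) y) =
        ∑ x, qf (nnRate d L) t (fun y => qq (nnRate d L) (s0 / 2) x y -
          qq (nnRate d L) (s / 2) x y) :=
      Equiv.sum_comp (Equiv.addRight h) (fun x => qf (nnRate d L) t
        (fun y => qq (nnRate d L) (s0 / 2) x y - qq (nnRate d L) (s / 2) x y))
    rw [h5]
    refine h4.le.trans ?_
    nlinarith
  have e3 : ∑ x, qf (nnRate d L) t (fun y => qq (nnRate d L) (s / 2) (x + h) y -
      qq (nnRate d L) (s / 2) x y) ≤ (tdist h 0 : ℝ) ^ 2 / s * N := by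
    refine qf_grad hJ ht.le (fun x y => qq (nnRate d L) (s / 2) (x + h) y -
      qq (nnRate d L) (s / 2) x y) _ fun f => ?_
    refine le_trans (le_of_eq ?_) (hG d L hL s hs' f h)
    refine Finset.sum_congr rfl fun x _ => ?_
    rw [← Finset.sum_sub_distrib]
    congr 1
    exact Finset.sum_congr rfl fun y _ => by ring
  have e4 : ∑ x, qf (nnRate d L) t (fun y => qq (nnRate d L) (s0 / 2) (x + h) y -
      qq (nnRate d L) (s0 / 2) x y) ≤
      4 * ∑ x, qf (nnRate d L) t (fun y => qq (nnRate d L) (s0 / 2) (x + h) y -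
        qq (nnRate d L) (s / 2) (x + h) y) +
      2 * ∑ x, qf (nnRate d L) t (fun y => qq (nnRate d L) (s / 2) (x + h) y -
        qq (nnRate d L) (s / 2) x y) +
      4 * ∑ x, qf (nnRate d L) t (fun y => qq (nnRate d L) (s / 2) x y -
        qq (nnRate d L) (s0 / 2) x y) := by
    rw [Finset.mul_sum, Finset.mul_sum, Finset.mul_sum, ← Finset.sum_add_distrib,
      ← Finset.sum_add_distrib]
    exact Finset.sum_le_sum fun x _ => qf_three hJ ht.le _ _ _ _ fun y => by ring
  have e5 : 0 ≤ ∑ x, qf (nnRate d L) t (fun y => qq (nnRate d L) (s0 / 2) (x + h) y -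
      qq (nnRate d L) (s0 / 2) x y) := Finset.sum_nonneg fun x _ => qf_nonneg hJ ht.le _
  constructor
  · have h1 : N * (AA (nnRate d L) t s0 - (tdist h 0 : ℝ) ^ 2 / s -
        4 * (AA (nnRate d L) t s0 - AA (nnRate d L) t s)) ≤ N * Bh d L t s0 h x := by
      rw [e1] at e4
      nlinarith
    exact le_of_mul_le_mul_left h1 hN
  · have h1 : N * Bh d L t s0 h x ≤ N * AA (nnRate d L) t s0 := by
      rw [e1] at e5
      linarith
    exact le_of_mul_le_mul_left h1 hN

end torus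

theorem main : Pool.Agent.R134.PB.S_GRAD → Pool.Agent.R134.PB.S_LIP → Pool.Agent.R134.PB.S_TP →
    Pool.Agent.R134.PB.S_TRA → Pool.Agent.R134.PB.S_MONO → Pool.Agent.R134.PB.S_MOM →
    Pool.Agent.R134.PB.S_PT := by
  intro hG hLip _ hT hM hMom d hd
  obtain ⟨C1, hC1, hLip⟩ := hLip d hd
  obtain ⟨C2, hC2, hMom⟩ := hMom d
  refine ⟨1 + C1 * C2, by positivity, ?_⟩
  intro L _ hL t s0 s ht hs0 hs x y hxy
  have hJ : ∀ x y, 0 ≤ nnRate d L x y := nn_nonneg
  have hst : 0 < Real.sqrt t := Real.sqrt_pos.2 ht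
  have hss : 0 < Real.sqrt s0 := Real.sqrt_pos.2 hs0
  have hs' : 0 < s := lt_of_lt_of_le hs0 hs
  obtain ⟨h, hh⟩ : ∃ h, h = y - x := ⟨_, rfl⟩
  have hxh : x + h = y := by rw [hh]; abel
  obtain ⟨hlow, hup⟩ := Bh_bounds hG hT hM hL ht hs0 hs h x
  have hth : (tdist h 0 : ℝ) = tdist x y := by rw [hh, tdist_sub]
  rw [hth] at hlow
  have hBh : Bh d L t s0 h x = ∑ z, qq (nnRate d L) s0 x z * con (nnRate d L) t y z := by
    unfold Bh
    rw [hxh]
  have hq0 : ∀ z, 0 ≤ qq (nnRate d L) s0 x z := fun z => qq_nonneg hJ hs0.le x z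
  have hrow : ∑ z, qq (nnRate d L) s0 x z = 1 := qq_row _ _ _
  have hmom := (hMom L hL s0 hs0.le x).1
  have hcs : con (nnRate d L) t y x = con (nnRate d L) t x y := con_symm _ _ _ _
  have hlip : ∀ z, z ≠ y → |con (nnRate d L) t y x - con (nnRate d L) t y z| ≤
      C1 * tdist x z / Real.sqrt t := fun z hz => hLip L hL t ht y x z (Ne.symm hxy) (Ne.symm hz)
  -- the sum of the Lipschitz errors
  have herr : ∑ z, qq (nnRate d L) s0 x z * (C1 * tdist x z / Real.sqrt t) ≤
      C1 * C2 * (Real.sqrt s0 / Real.sqrt t) := by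
    have h1 : ∑ z, qq (nnRate d L) s0 x z * (C1 * tdist x z / Real.sqrt t) =
        C1 / Real.sqrt t * ∑ z, qq (nnRate d L) s0 x z * (tdist x z : ℝ) := by
      rw [Finset.mul_sum]
      exact Finset.sum_congr rfl fun z _ => by ring
    rw [h1]
    calc C1 / Real.sqrt t * ∑ z, qq (nnRate d L) s0 x z * (tdist x z : ℝ)
        ≤ C1 / Real.sqrt t * (C2 * Real.sqrt s0) :=
          mul_le_mul_of_nonneg_left hmom (by positivity)
      _ = C1 * C2 * (Real.sqrt s0 / Real.sqrt t) := by ring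
  have hD : 0 ≤ (tdist x y : ℝ) ^ 2 / s := by positivity
  have hR : 0 ≤ Real.sqrt s0 / Real.sqrt t := by positivity
  have hCC : 0 ≤ C1 * C2 := by positivity
  constructor
  · -- lower bound
    have h1 : ∑ z, qq (nnRate d L) s0 x z * con (nnRate d L) t y z ≤
        ∑ z, (qq (nnRate d L) s0 x z * con (nnRate d L) t x y +
          qq (nnRate d L) s0 x z * (C1 * tdist x z / Real.sqrt t) +
          (if z = y then qq (nnRate d L) s0 x z else 0)) := by
      refine Finset.sum_le_sum fun z _ => ?_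
      by_cases hz : z = y
      · rw [if_pos hz]
        have h2 : con (nnRate d L) t y z ≤ 1 := con_le_one hJ ht.le _ _
        have h3 : 0 ≤ con (nnRate d L) t x y := con_nonneg hJ ht.le _ _
        have h4 : (0 : ℝ) ≤ C1 * tdist x z / Real.sqrt t := by positivity
        have h5 := mul_le_mul_of_nonneg_left h2 (hq0 z)
        have h6 := mul_nonneg (hq0 z) h3
        have h7 := mul_nonneg (hq0 z) h4
        linarith
      · rw [if_neg hz, add_zero, ← mul_add]
        refine mul_le_mul_of_nonneg_left ?_ (hq0 z)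
        have h2 := (abs_le.1 (hlip z hz)).1
        rw [hcs] at h2
        linarith
    rw [Finset.sum_add_distrib, Finset.sum_add_distrib, ← Finset.sum_mul, hrow, one_mul,
      Finset.sum_ite_eq', if_pos (Finset.mem_univ _)] at h1
    have h8 : qq (nnRate d L) s0 x y ≤ (1 / L + 1 / Real.sqrt s0) ^ d := qq_torus hL hs0 x y
    rw [hBh] at hlow
    nlinarith
  · -- upper bound
    have h1 : ∑ z, (qq (nnRate d L) s0 x z * con (nnRate d L) t x y -
          qq (nnRate d L) s0 x z * (C1 * tdist x z / Real.sqrt t)) ≤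
        ∑ z, qq (nnRate d L) s0 x z * con (nnRate d L) t y z := by
      refine Finset.sum_le_sum fun z _ => ?_
      rw [← mul_sub]
      refine mul_le_mul_of_nonneg_left ?_ (hq0 z)
      by_cases hz : z = y
      · rw [hz, con_self]
        have h2 : con (nnRate d L) t x y ≤ 1 := con_le_one hJ ht.le _ _
        have h4 : (0 : ℝ) ≤ C1 * tdist x y / Real.sqrt t := by positivity
        linarith
      · have h2 := (abs_le.1 (hlip z hz)).2
        rw [hcs] at h2
        linarith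
    rw [Finset.sum_sub_distrib, ← Finset.sum_mul, hrow, one_mul] at h1
    rw [hBh] at hup
    nlinarith

end Pool.Agent.R134.PB.Pt
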