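import Pool.Agent.R134.PB.Stm
import Pool.Agent.Y259.PD.BOX

/-!
# PB-STEP: one step on the torus (helper662, for project PB of helper134)
-/

set_option autoImplicit false

namespace Pool.Agent.R134.PB.Step

open Finset Equiv
open Pool.Agent.Y998.ST
open Pool.Agent.Y661.PD (dl Free tdist)
open Pool.Agent.R134.PB

theorem avg_sqrt {ι : Type} [Fintype ι] (f : ι → ℝ) (hf : ∀ z, 0 ≤ f z) {N : ℝ} (hN : 0 < N)
    (hc : (Fintype.card ι : ℝ) = N) :
    (∑ z, Real.sqrt (f z)) / N ≤ Real.sqrt ((∑ z, f z) / N) := by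
  apply Real.le_sqrt_of_sq_le
  have h1 := sq_sum_le_card_mul_sum_sq (s := (Finset.univ : Finset ι))
    (f := fun z => Real.sqrt (f z))
  have h2 : ∑ z, Real.sqrt (f z) ^ 2 = ∑ z, f z :=
    Finset.sum_congr rfl fun z _ => Real.sq_sqrt (hf z)
  rw [h2, Finset.card_univ, hc] at h1
  rw [div_pow, div_le_div_iff₀ (by positivity) hN]
  have h3 : 0 ≤ ∑ z, f z := Finset.sum_nonneg fun z _ => hf z
  calc (∑ z, Real.sqrt (f z)) ^ 2 * N ≤ (N * ∑ z, f z) * N :=
        mul_le_mul_of_nonneg_right h1 hN.le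
    _ = (∑ z, f z) * N ^ 2 := by ring

theorem ball_bound (d : ℕ) {c L R s : ℝ} (hL : 0 < L) (hR : 0 < R) (hs : 0 < s)
    (h1 : c ≤ (3 * R) ^ d) (h2 : c ≤ L ^ d) :
    c * (1 / L + 1 / Real.sqrt s) ^ d ≤ (1 + 3 * R / Real.sqrt s) ^ d := by
  have hq : 0 < Real.sqrt s := Real.sqrt_pos.2 hs
  have hp : 0 ≤ (1 / L + 1 / Real.sqrt s) ^ d := by positivity
  rcases le_total L (3 * R) with h | h
  · calc c * (1 / L + 1 / Real.sqrt s) ^ d ≤ L ^ d * (1 / L + 1 / Real.sqrt s) ^ d :=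
          mul_le_mul_of_nonneg_right h2 hp
      _ = (1 + L / Real.sqrt s) ^ d := by
          rw [← mul_pow]
          congr 1
          field_simp
      _ ≤ (1 + 3 * R / Real.sqrt s) ^ d := by
          apply pow_le_pow_left₀ (by positivity)
          have : L / Real.sqrt s ≤ 3 * R / Real.sqrt s := div_le_div_of_nonneg_right h hq.le
          linarith
  · calc c * (1 / L + 1 / Real.sqrt s) ^ d ≤ (3 * R) ^ d * (1 / L + 1 / Real.sqrt s) ^ d :=
          mul_le_mul_of_nonneg_right h1 hp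
      _ = (3 * R / L + 3 * R / Real.sqrt s) ^ d := by
          rw [← mul_pow]
          congr 1
          ring
      _ ≤ (1 + 3 * R / Real.sqrt s) ^ d := by
          apply pow_le_pow_left₀ (by positivity)
          have : 3 * R / L ≤ 1 := by rw [div_le_one hL]; exact h
          linarith

theorem sum_swap3 {α β γ : Type} (s : Finset α) (t : Finset β) (u : Finset γ)
    (f : α → β → γ → ℝ) :
    ∑ a ∈ s, ∑ b ∈ t, ∑ c ∈ u, f a b c = ∑ c ∈ u, ∑ a ∈ s, ∑ b ∈ t, f a b c :=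
  calc ∑ a ∈ s, ∑ b ∈ t, ∑ c ∈ u, f a b c = ∑ a ∈ s, ∑ c ∈ u, ∑ b ∈ t, f a b c :=
        Finset.sum_congr rfl fun _ _ => Finset.sum_comm
    _ = _ := Finset.sum_comm

theorem PD2_nonneg {V : Type} [Fintype V] [DecidableEq V] (J : V → V → ℝ) (t : ℝ) (K : ℕ)
    (x y : V) : 0 ≤ PD2 J t K x y := by
  unfold PD2
  exact Finset.sum_nonneg fun u _ => Finset.sum_nonneg fun v _ => abs_nonneg _

theorem eK_nonneg (d L K : ℕ) {t : ℝ} (ht : 0 ≤ t) : 0 ≤ eK d L K t := by
  unfold eK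
  positivity

/-- the last numerical step -/
theorem final_num {C1 C2 C3 C4 a E e M n' r q D : ℝ} (hC1 : 0 < C1) (hC2 : 0 < C2) (hC3 : 0 < C3)
    (hC4 : 0 < C4) (hE : 0 ≤ E) (he : 0 ≤ e) (hne : n' * e ≤ E) (heE : e ≤ E) (hM : 0 ≤ M)
    (hn : 0 < n') (hr : 0 ≤ r) (hq : 0 ≤ q) (hD : D ≤ 4 * C2 * E) (hd : 0 ≤ a) (hD0 : 0 ≤ D) :
    2 * (C1 * (n' * e)) + 2 * (C4 * a * r) +
      Real.sqrt (M * (2 / n' + 2 * D + 4 * (C1 * (n' * e)))) / 2 + M / (2 * n') +
      2 * (2 * C3 * q) + C1 * e ≤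
    (3 * C1 + 2 * C4 * a + (2 + 8 * C2 + 4 * C1) + 1 + 4 * C3) *
      (Real.sqrt (M * (1 / n' + E)) + M / n' + r + q + E) := by
  set Cm : ℝ := 2 + 8 * C2 + 4 * C1 with hCm
  have h1 : Real.sqrt (M * (2 / n' + 2 * D + 4 * (C1 * (n' * e)))) ≤
      Cm * Real.sqrt (M * (1 / n' + E)) := by
    rw [Real.sqrt_le_left (by positivity)]
    rw [mul_pow, Real.sq_sqrt (by positivity)]
    have h2 : 2 / n' + 2 * D + 4 * (C1 * (n' * e)) ≤ Cm * (1 / n' + E) := by
      have h3 : 2 / n' = 2 * (1 / n') := by ring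
      rw [h3]
      have h4 : 0 ≤ 1 / n' := by positivity
      have h5 : C1 * (n' * e) ≤ C1 * E := mul_le_mul_of_nonneg_left hne hC1.le
      nlinarith [mul_nonneg hC2.le h4, mul_nonneg hC1.le h4]
    have h6 : Cm ≤ Cm ^ 2 := by nlinarith
    calc M * (2 / n' + 2 * D + 4 * (C1 * (n' * e))) ≤ M * (Cm * (1 / n' + E)) :=
          mul_le_mul_of_nonneg_left h2 hM
      _ = Cm * (M * (1 / n' + E)) := by ring
      _ ≤ Cm ^ 2 * (M * (1 / n' + E)) := mul_le_mul_of_nonneg_right h6 (by positivity)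
  set S := Real.sqrt (M * (1 / n' + E)) with hS
  have hS0 : 0 ≤ S := Real.sqrt_nonneg _
  have hMn : 0 ≤ M / n' := by positivity
  have h7 : M / (2 * n') = (M / n') / 2 := by field_simp
  rw [h7]
  set m := M / n' with hm
  have h5 : C1 * (n' * e) ≤ C1 * E := mul_le_mul_of_nonneg_left hne hC1.le
  have h8 : C1 * e ≤ C1 * E := mul_le_mul_of_nonneg_left heE hC1.le
  have hCm0 : 0 < Cm := by rw [hCm]; positivity
  have e1 : 0 ≤ (3 * C1 + 2 * C4 * a + 1 + 4 * C3) * S := by positivity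
  have e2 : 0 ≤ (3 * C1 + 2 * C4 * a + Cm + 4 * C3) * m := by positivity
  have e3 : 0 ≤ (3 * C1 + Cm + 1 + 4 * C3) * r := by positivity
  have e4 : 0 ≤ (3 * C1 + 2 * C4 * a + Cm + 1) * q := by positivity
  have e5 : 0 ≤ (2 * C4 * a + Cm + 1 + 4 * C3) * E := by positivity
  nlinarith [mul_nonneg hCm0.le hS0]

/-- the tail of the heat kernel outside a ball -/
theorem tail {d L : ℕ} [NeZero L] (hGEO : S_GEO) {C3 : ℝ} {u : ℝ}
    (hm : ∀ v : Fin d → ZMod L,
      ∑ y, qq (nnRate d L) u y v * (tdist y v : ℝ) ≤ C3 * Real.sqrt u) (hu : 0 ≤ u)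
    (R ρ : ℕ) (hR : 1 ≤ R) (hρR : 2 * d * ρ ≤ R) (b0 bl : Fin d → ZMod L)
    (hb : tdist bl b0 ≤ d * ρ) (B : Finset (Fin d → ZMod L))
    (hB : ∀ x, x ∉ B → R < tdist x b0) :
    ∑ x ∈ Bᶜ, qq (nnRate d L) u x bl ≤ 2 * C3 * (Real.sqrt u / R) := by
  have hRp : (0 : ℝ) < R := by exact_mod_cast hR
  have h1 : ∀ x ∈ Bᶜ, qq (nnRate d L) u x bl ≤
      2 / R * (qq (nnRate d L) u x bl * (tdist x bl : ℝ)) := by
    intro x hx
    have hx' := hB x (Finset.mem_compl.1 hx)
    have h2 := (hGEO d L).2.1 x bl b0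
    have h3 : R ≤ 2 * tdist x bl := by
      have : 2 * (d * ρ) ≤ R := by rw [← mul_assoc]; exact hρR
      omega
    have h4 : (R : ℝ) ≤ 2 * (tdist x bl : ℝ) := by exact_mod_cast h3
    have h5 : 0 ≤ qq (nnRate d L) u x bl := qq_nonneg (fun x y => nn_nonneg x y) hu _ _
    have h6 : 1 ≤ 2 / R * (tdist x bl : ℝ) := by
      rw [div_mul_eq_mul_div, le_div_iff₀ hRp]
      linarith
    calc qq (nnRate d L) u x bl = qq (nnRate d L) u x bl * 1 := (mul_one _).symm
      _ ≤ qq (nnRate d L) u x bl * (2 / R * (tdist x bl : ℝ)) :=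
          mul_le_mul_of_nonneg_left h6 h5
      _ = _ := by ring
  calc ∑ x ∈ Bᶜ, qq (nnRate d L) u x bl
      ≤ ∑ x ∈ Bᶜ, 2 / R * (qq (nnRate d L) u x bl * (tdist x bl : ℝ)) :=
        Finset.sum_le_sum h1
    _ = 2 / R * ∑ x ∈ Bᶜ, qq (nnRate d L) u x bl * (tdist x bl : ℝ) := by
        rw [Finset.mul_sum]
    _ ≤ 2 / R * ∑ x, qq (nnRate d L) u x bl * (tdist x bl : ℝ) := by
        apply mul_le_mul_of_nonneg_left _ (by positivity)
        apply Finset.sum_le_sum_of_subset_of_nonneg (Finset.subset_univ _)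
        intro x _ _
        exact mul_nonneg (qq_nonneg (fun x y => nn_nonneg x y) hu _ _) (by positivity)
    _ ≤ 2 / R * (C3 * Real.sqrt u) := mul_le_mul_of_nonneg_left (hm bl) (by positivity)
    _ = 2 * C3 * (Real.sqrt u / R) := by ring

theorem main : Pool.Agent.R134.PB.S_FIX → Pool.Agent.R134.PB.S_AVG → Pool.Agent.R134.PB.S_CHO →
    Pool.Agent.R134.PB.S_TOR2 → Pool.Agent.R134.PB.S_ONE →
    (Pool.Agent.R134.PB.S_MOM ∧ Pool.Agent.R134.PB.S_GEO) → Pool.Agent.R134.PB.S_DL →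
    Pool.Agent.R134.PB.S_STEP := by
  intro hFIX hAVG hCHO hTOR hONE hMG hDL d hd
  obtain ⟨hMOM, hGEO⟩ := hMG
  obtain ⟨C2, hC2, hTOR⟩ := hTOR d hd
  obtain ⟨C1, hC1, hONE⟩ := hONE d hd
  obtain ⟨C3, hC3, hMOM⟩ := hMOM d
  obtain ⟨C4, hC4, hDL⟩ := hDL d (by omega)
  refine ⟨3 * C1 + 2 * C4 * d + (2 + 8 * C2 + 4 * C1) + 1 + 4 * C3, by positivity, ?_⟩
  intro L _ hL t s ht hs K n ρ R hK hn hρ hρL hR hnρ hdρ
  have ht0 : 0 < t := by linarith
  have hLp : (0 : ℝ) < L := by exact_mod_cast (by omega : 0 < L)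
  have hNp : (0 : ℝ) < (L : ℝ) ^ d := by positivity
  have hnp : (0 : ℝ) < n := by exact_mod_cast hn
  have hn1 : (1 : ℝ) ≤ n := by exact_mod_cast hn
  have hρp : (0 : ℝ) < ρ := by exact_mod_cast hρ
  have hRp : (0 : ℝ) < R := by exact_mod_cast hR
  have hcard : (Fintype.card (Fin d → ZMod L) : ℝ) = (L : ℝ) ^ d := by
    rw [Fintype.card_fun, ZMod.card, Fintype.card_fin]
    push_cast
    rfl
  obtain ⟨B, hBc, hBd⟩ := Pool.Agent.Y259.PD.BOX.main d L ρ hρ hρL
  have hBne : B.Nonempty := by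
    rw [← Finset.card_pos, hBc]
    exact Nat.pow_pos (by omega)
  have hBcR : (B.card : ℝ) = (ρ : ℝ) ^ d := by rw [hBc]; push_cast; rfl
  obtain ⟨β, hβi, hβB, hβW⟩ := hCHO (Fin d → ZMod L) B n
    (fun b b' => (∑ z, PD2 (nnRate d L) t K (z + b) (z + b')) / (L : ℝ) ^ d)
    (fun x y => div_nonneg (Finset.sum_nonneg fun z _ => PD2_nonneg _ _ _ _ _) hNp.le)
    hBne (by rw [hBc]; exact hnρ)
  have he0 : 0 ≤ eK d L K t := eK_nonneg d L K ht0.le
  set E : ℝ := n * eK d L K t + t / (ρ : ℝ) ^ d with hE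
  have hne : (n : ℝ) * eK d L K t ≤ E := by
    have : 0 ≤ t / (ρ : ℝ) ^ d := by positivity
    linarith
  have heE : eK d L K t ≤ E := by
    refine le_trans ?_ hne
    nlinarith
  have hE0 : 0 ≤ E := he0.trans heE
  -- the average of the distances
  have hD : (∑ z, (∑ l, ∑ l', if l = l' then 0 else
      PD2 (nnRate d L) t K (z + β l) (z + β l')) / (n : ℝ) ^ 2) / (L : ℝ) ^ d ≤ 4 * C2 * E := by
    have h1 : (∑ z, (∑ l, ∑ l', if l = l' then 0 else
        PD2 (nnRate d L) t K (z + β l) (z + β l')) / (n : ℝ) ^ 2) / (L : ℝ) ^ d =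
        (∑ l, ∑ l', if l = l' then 0 else
          (∑ z, PD2 (nnRate d L) t K (z + β l) (z + β l')) / (L : ℝ) ^ d) / (n : ℝ) ^ 2 := by
      have h0 : ∀ l l' : Fin n, (if l = l' then 0 else
          (∑ z, PD2 (nnRate d L) t K (z + β l) (z + β l')) / (L : ℝ) ^ d) =
          (∑ z, if l = l' then 0 else PD2 (nnRate d L) t K (z + β l) (z + β l')) /
            (L : ℝ) ^ d := by
        intro l l'
        by_cases h : l = l'
        · simp [h]
        · simp [h]
      have h0' : (∑ l, ∑ l', if l = l' then 0 else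
          (∑ z, PD2 (nnRate d L) t K (z + β l) (z + β l')) / (L : ℝ) ^ d) =
          (∑ z, ∑ l, ∑ l', if l = l' then 0 else
            PD2 (nnRate d L) t K (z + β l) (z + β l')) / (L : ℝ) ^ d := by
        rw [← sum_swap3, Finset.sum_div]
        refine Finset.sum_congr rfl fun l _ => ?_
        rw [Finset.sum_div]
        exact Finset.sum_congr rfl fun l' _ => h0 l l'
      rw [h0', ← Finset.sum_div, div_div, div_div, mul_comm]
    rw [h1]
    refine hβW.trans ?_
    have h2 := hTOR L hL t ht K hK B hBne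
    have h3 : (∑ x ∈ B, ∑ y ∈ B, (∑ z, PD2 (nnRate d L) t K (z + x) (z + y)) / (L : ℝ) ^ d) =
        (∑ z, ∑ b ∈ B, ∑ b' ∈ B, PD2 (nnRate d L) t K (z + b) (z + b')) / (L : ℝ) ^ d := by
      rw [← sum_swap3, Finset.sum_div]
      refine Finset.sum_congr rfl fun x _ => ?_
      rw [Finset.sum_div]
    have h4 : (∑ x ∈ B, ∑ y ∈ B, (∑ z, PD2 (nnRate d L) t K (z + x) (z + y)) / (L : ℝ) ^ d) /
        (B.card : ℝ) ^ 2 ≤ C2 * (eK d L K t + t / (ρ : ℝ) ^ d) := by
      rw [h3, div_div, div_le_iff₀ (by rw [hBcR]; positivity)]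
      refine h2.trans (le_of_eq ?_)
      rw [hBcR]
      ring
    have h5 : C2 * (eK d L K t + t / (ρ : ℝ) ^ d) ≤ C2 * E := by
      apply mul_le_mul_of_nonneg_left _ hC2.le
      have : eK d L K t ≤ n * eK d L K t := by nlinarith
      linarith
    linarith
  set D : (Fin d → ZMod L) → ℝ := fun z => (∑ l, ∑ l', if l = l' then 0 else
      PD2 (nnRate d L) t K (z + β l) (z + β l')) / (n : ℝ) ^ 2 with hDdef
  have hD' : (∑ z, D z) / (L : ℝ) ^ d ≤ 4 * C2 * E := hD
  have hDn : ∀ z, 0 ≤ D z := by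
    intro z
    apply div_nonneg _ (by positivity)
    refine Finset.sum_nonneg fun l _ => Finset.sum_nonneg fun l' _ => ?_
    split_ifs
    · exact le_rfl
    · exact PD2_nonneg _ _ _ _ _
  have hsq : 0 < Real.sqrt s := Real.sqrt_pos.2 hs
  have htq : 0 < Real.sqrt t := Real.sqrt_pos.2 ht0
  set M : ℝ := (1 + 3 * (R : ℝ) / Real.sqrt s) ^ d with hM
  have hM0 : 0 ≤ M := by positivity
  have hu : 0 ≤ s + K * t := by positivity
  set q : ℝ := Real.sqrt (s + K * t) / R with hq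
  have hq0 : 0 ≤ q := by positivity
  set r : ℝ := n * ρ / Real.sqrt t with hr
  have hr0 : 0 ≤ r := by positivity
  set e : ℝ := eK d L K t with he
  set l0 : Fin n := ⟨0, by omega⟩ with hl0
  -- the bound for every `z`
  have hz : ∀ z : Fin d → ZMod L, |UF (nnRate d L) t s K (fun l => z + β l)| ≤
      2 * (C1 * (n * e)) + 2 * (C4 * d * r) +
        Real.sqrt (M * (2 / n + 2 * D z + 4 * (C1 * (n * e)))) / 2 + M / (2 * n) +
        2 * (2 * C3 * q) + C1 * e := by
    intro z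
    classical
    set Bz : Finset (Fin d → ZMod L) := Finset.univ.filter fun x => tdist x (z + β l0) ≤ R
      with hBz
    set S : ℝ := (1 / (L : ℝ) + 1 / Real.sqrt s) ^ d with hS
    have hS0 : 0 ≤ S := by positivity
    have hMS : (Bz.card : ℝ) * S ≤ M := by
      apply ball_bound d hLp hRp hs
      · have h1 : Bz.card ≤ (3 * R) ^ d := by
          have h2 := (hGEO d L).2.2.2.2 R (z + β l0) hR
          refine le_trans (le_of_eq ?_) h2
          rw [hBz]
        exact_mod_cast h1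
      · have h1 : Bz.card ≤ Fintype.card (Fin d → ZMod L) := Finset.card_le_univ _
        rw [← hcard]
        exact_mod_cast h1
    have hinj : Function.Injective (fun l => z + β l) := by
      intro l l' h
      exact hβi (add_left_cancel h)
    have hdist : ∀ l l' : Fin n, tdist (z + β l) (z + β l') ≤ d * ρ := by
      intro l l'
      rw [(hGEO d L).2.2.1]
      exact hBd _ (hβB l) _ (hβB l')
    have hfix := hFIX (Fin d → ZMod L) (nnRate d L) (fun x y => nn_nonneg x y)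
      (fun x y => nn_symm x y) (fun x => nn_diag hL x) t s ht0.le hs.le K n hn
      (fun l => z + β l) hinj Bz S (C1 * e) (C1 * (n * e)) (C4 * (d * ρ) / Real.sqrt t)
      (2 * C3 * q) hS0 (by positivity) (fun x y => qq_torus hL hs x y)
      (fun l => (hONE L hL t ht K hK).1 _)
      (fun l => (hONE L hL t ht K hK).2 n (fun l => z + β l) l)
      (by
        intro i j
        refine (hDL L hL t ht0 _ _).trans ?_
        apply div_le_div_of_nonneg_right _ htq.le
        apply mul_le_mul_of_nonneg_left _ hC4.le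
        exact_mod_cast hdist i j)
      (by
        intro l
        apply tail hGEO (fun v => (hMOM L hL (s + K * t) hu v).2) hu R ρ hR hdρ (z + β l0)
          (z + β l) (hdist l l0) Bz
        intro x hx
        rw [hBz, Finset.mem_filter] at hx
        push Not at hx
        exact hx (Finset.mem_univ _))
    refine hfix.trans ?_
    have h1 : (n : ℝ) * (C4 * (d * ρ) / Real.sqrt t) = C4 * d * r := by
      rw [hr]
      ring
    rw [h1]
    have h2 : Real.sqrt (Bz.card * S * (2 / n + 2 * ((∑ l, ∑ l', if l = l' then 0 else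
        PD2 (nnRate d L) t K (z + β l) (z + β l')) / (n : ℝ) ^ 2) + 4 * (C1 * (n * e)))) ≤
        Real.sqrt (M * (2 / n + 2 * D z + 4 * (C1 * (n * e)))) := by
      apply Real.sqrt_le_sqrt
      apply mul_le_mul_of_nonneg_right hMS
      have := hDn z
      positivity
    have h3 : (Bz.card : ℝ) * S / (2 * n) ≤ M / (2 * n) :=
      div_le_div_of_nonneg_right hMS (by positivity)
    linarith
  -- the average
  have havg : AA (nnRate d L) t s - AA (nnRate d L) t (s + K * t) ≤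
      2 * (C1 * (n * e)) + 2 * (C4 * d * r) +
        Real.sqrt (M * (2 / n + 2 * ((∑ z, D z) / (L : ℝ) ^ d) + 4 * (C1 * (n * e)))) / 2 +
        M / (2 * n) + 2 * (2 * C3 * q) + C1 * e := by
    rw [hAVG d L hL t s ht0.le hs.le K n hn β]
    have h1 : ∑ z, UF (nnRate d L) t s K (fun l => z + β l) ≤
        ∑ z : Fin d → ZMod L, ((2 * (C1 * (n * e)) + 2 * (C4 * d * r) + M / (2 * n) +
          2 * (2 * C3 * q) + C1 * e) +
          Real.sqrt (M * (2 / n + 2 * D z + 4 * (C1 * (n * e)))) / 2) := by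
      refine Finset.sum_le_sum fun z _ => (le_abs_self _).trans ((hz z).trans ?_)
      linarith
    rw [Finset.sum_add_distrib, Finset.sum_const, Finset.card_univ, nsmul_eq_mul, hcard,
      ← Finset.sum_div] at h1
    have h2 := avg_sqrt (fun z => M * (2 / n + 2 * D z + 4 * (C1 * (n * e))))
      (fun z => by have := hDn z; positivity) hNp hcard
    have h3 : (∑ z, M * (2 / n + 2 * D z + 4 * (C1 * (n * e)))) / (L : ℝ) ^ d =
        M * (2 / n + 2 * ((∑ z, D z) / (L : ℝ) ^ d) + 4 * (C1 * (n * e))) := by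
      rw [← Finset.mul_sum, Finset.sum_add_distrib, Finset.sum_add_distrib, Finset.sum_const,
        Finset.sum_const, Finset.card_univ, nsmul_eq_mul, nsmul_eq_mul, hcard, ← Finset.mul_sum]
      field_simp
    rw [h3] at h2
    rw [div_le_iff₀ hNp]
    rw [div_le_iff₀ hNp] at h2
    set X : ℝ := Real.sqrt (M * (2 / n + 2 * ((∑ z, D z) / (L : ℝ) ^ d) +
      4 * (C1 * (n * e)))) with hX
    have hA : 2 * (C1 * (n * e)) + 2 * (C4 * d * r) + X / 2 + M / (2 * n) +
        2 * (2 * C3 * q) + C1 * e = (2 * (C1 * (n * e)) + 2 * (C4 * d * r) + M / (2 * n) +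
          2 * (2 * C3 * q) + C1 * e) + X / 2 := by ring
    rw [hA]
    generalize (2 * (C1 * (n * e)) + 2 * (C4 * d * r) + M / (2 * n) +
          2 * (2 * C3 * q) + C1 * e) = A at h1 ⊢
    calc ∑ z, UF (nnRate d L) t s K (fun l => z + β l) ≤ _ := h1
      _ ≤ (L : ℝ) ^ d * A + (X * (L : ℝ) ^ d) / 2 := by linarith
      _ = (A + X / 2) * (L : ℝ) ^ d := by ring
  refine havg.trans ?_
  have hfin := final_num (a := (d : ℝ)) (E := E) (e := e) (M := M) (n' := (n : ℝ)) (r := r)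
    (q := q) (D := (∑ z, D z) / (L : ℝ) ^ d) hC1 hC2 hC3 hC4 hE0 he0 hne heE hM0 hnp hr0 hq0
    hD' (by positivity) (div_nonneg (Finset.sum_nonneg fun z _ => hDn z) hNp.le)
  exact hfin

end Pool.Agent.R134.PB.Step
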