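import Pool.Agent.R134.PB.Stm
import Pool.Agent.TH268.PD.Uni

/-!
# PB-SYM: symmetrisation over the permutations of the points `b`
-/

set_option autoImplicit false

namespace Pool.Agent.R134.PB.Sym

open Finset Equiv
open Pool.Agent.Y998.ST
open Pool.Agent.Y661.PD (dl Free tdist)
open Pool.Agent.TH268.PD (exists_ret unif)

theorem fin2 (σ : Perm (Fin 2)) : (swap 0 1 * σ).SameCycle 0 1 ↔ ¬ σ.SameCycle 0 1 := by
  have h3 : ¬ (1 : Perm (Fin 2)).SameCycle 0 1 := by
    rw [Perm.sameCycle_one]
    decide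
  have h4 : (swap 0 1 : Perm (Fin 2)).SameCycle 0 1 := ⟨1, by simp⟩
  have hu : (Finset.univ : Finset (Perm (Fin 2))) = {1, swap 0 1} := by decide
  have hσ : σ ∈ (Finset.univ : Finset (Perm (Fin 2))) := Finset.mem_univ σ
  rw [hu, Finset.mem_insert, Finset.mem_singleton] at hσ
  rcases hσ with rfl | rfl
  · rw [mul_one]; exact ⟨fun _ => h3, fun _ => h4⟩
  · rw [swap_mul_self]; exact ⟨fun h => absurd h h3, fun h => absurd h4 h⟩

open Classical in
theorem half {n : ℕ} (m l : Fin n) (hml : m ≠ l) :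
    ∑ π : Perm (Fin n), (if π.SameCycle m l then (1 : ℝ) else 0) = (n.factorial : ℝ) / 2 := by
  have hb : Function.Injective (![m, l] : Fin 2 → Fin n) := by
    intro i j hij
    fin_cases i <;> fin_cases j <;> simp_all
  obtain ⟨r, hr⟩ := exists_ret (V := Fin n) 2
  obtain ⟨_, h2, _, h4⟩ := hr ![m, l] hb
  have key : ∀ π : Perm (Fin n), (swap m l * π).SameCycle m l ↔ ¬ π.SameCycle m l := by
    intro π
    have e1 := h4 (swap m l * π) 0 1
    have e2 := h2 π 0 1
    have e3 := h4 π 0 1
    simp only [Matrix.cons_val_zero, Matrix.cons_val_one, Matrix.cons_val_fin_one] at e1 e2 e3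
    rw [← e1, e2, fin2, e3]
  have h5 : ∑ π : Perm (Fin n), (if π.SameCycle m l then (1 : ℝ) else 0) =
      ∑ π : Perm (Fin n), (1 - if π.SameCycle m l then (1 : ℝ) else 0) := by
    rw [← Equiv.sum_comp (Equiv.mulLeft (swap m l))]
    refine Finset.sum_congr rfl fun π _ => ?_
    have e3 : (Equiv.mulLeft (swap m l) : Perm (Perm (Fin n))) π = swap m l * π := rfl
    rw [e3]
    by_cases h : π.SameCycle m l
    · rw [if_neg (by rw [key]; exact not_not.2 h), if_pos h, sub_self]
    · rw [if_pos (by rw [key]; exact h), if_neg h, sub_zero]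
  rw [Finset.sum_sub_distrib, Finset.sum_const, Finset.card_univ, Fintype.card_perm,
    Fintype.card_fin, nsmul_eq_mul, mul_one] at h5
  linarith

section

variable {V : Type} [Fintype V] [DecidableEq V]

open Classical in
/-- the function of a permutation of the indices and a permutation of the points -/
noncomputable def Ph {n : ℕ} (b : Fin n → V) (h : Fin n → V → Perm V → ℝ) (π : Perm (Fin n))
    (g : Perm V) : ℝ :=
  (∑ l, ∑ x, (if ∃ m, OnT b g x m ∧ π.SameCycle m l then h l x g else 0)) / n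

theorem Ph_bound {n : ℕ} (b : Fin n → V) (h : Fin n → V → Perm V → ℝ) (M : ℝ) (hM : 0 ≤ M)
    (hh : ∀ l g, ∑ x, |h l x g| ≤ M) (π : Perm (Fin n)) (g : Perm V) : |Ph b h π g| ≤ M := by
  classical
  unfold Ph
  rcases Nat.eq_zero_or_pos n with hn | hn
  · subst hn
    simpa using hM
  · have hn' : (0 : ℝ) < n := by exact_mod_cast hn
    rw [abs_div, abs_of_pos hn', div_le_iff₀ hn']
    refine (Finset.abs_sum_le_sum_abs _ _).trans ?_
    have h1 : ∀ l ∈ (Finset.univ : Finset (Fin n)),
        |∑ x, (if ∃ m, OnT b g x m ∧ π.SameCycle m l then h l x g else 0)| ≤ M := by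
      intro l _
      refine (Finset.abs_sum_le_sum_abs _ _).trans (le_trans (Finset.sum_le_sum fun x _ => ?_)
        (hh l g))
      split_ifs
      · exact le_rfl
      · rw [abs_zero]; exact abs_nonneg _
    refine (Finset.sum_le_sum h1).trans (le_of_eq ?_)
    rw [Finset.sum_const, Finset.card_univ, Fintype.card_fin, nsmul_eq_mul]
    ring

theorem Ph_inv {n : ℕ} (b : Fin n → V) (h : Fin n → V → Perm V → ℝ)
    (hh : ∀ i j l x g, h l x (swap (b i) (b j) * g) = h l x g)
    (h2 : ∀ g i j x m, OnT b (swap (b i) (b j) * g) x m ↔ OnT b g x m)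
    (π : Perm (Fin n)) (g : Perm V) (i j : Fin n) :
    Ph b h π (swap (b i) (b j) * g) = Ph b h π g := by
  classical
  unfold Ph
  simp only [hh, h2]

open Classical in
theorem Ph_sum {n : ℕ} (b : Fin n → V) (h : Fin n → V → Perm V → ℝ) (g : Perm V)
    (h1 : ∀ x m m', OnT b g x m → OnT b g x m' → m = m') :
    ∑ π, Ph b h π g = (n.factorial : ℝ) * ((∑ l, ∑ x,
      ((if ∃ m, OnT b g x m then (1 : ℝ) else 0) + (if OnT b g x l then 1 else 0)) / 2 *
        h l x g) / n) := by
  unfold Ph
  rw [← Finset.sum_div, ← mul_div_assoc]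
  congr 1
  rw [Finset.sum_comm, Finset.mul_sum]
  refine Finset.sum_congr rfl fun l _ => ?_
  rw [Finset.sum_comm, Finset.mul_sum]
  refine Finset.sum_congr rfl fun x _ => ?_
  by_cases hx : ∃ m, OnT b g x m
  · obtain ⟨m, hm⟩ := hx
    have e1 : ∀ π : Perm (Fin n), (∃ m, OnT b g x m ∧ π.SameCycle m l) ↔ π.SameCycle m l := by
      intro π
      constructor
      · rintro ⟨m', hm', h'⟩
        rwa [h1 x m m' hm hm']
      · exact fun h' => ⟨m, hm, h'⟩
    have e2 : OnT b g x l ↔ m = l := ⟨fun h' => h1 x m l hm h', fun h' => h' ▸ hm⟩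
    rw [if_pos ⟨m, hm⟩]
    simp only [e1]
    have e3 : ∑ π : Perm (Fin n), (if π.SameCycle m l then h l x g else 0) =
        (∑ π : Perm (Fin n), (if π.SameCycle m l then (1 : ℝ) else 0)) * h l x g := by
      rw [Finset.sum_mul]
      refine Finset.sum_congr rfl fun π _ => ?_
      split_ifs <;> simp
    rw [e3]
    by_cases hml : m = l
    · rw [if_pos (e2.2 hml)]
      subst hml
      have e4 : ∑ π : Perm (Fin n), (if π.SameCycle m m then (1 : ℝ) else 0) = n.factorial := by
        rw [Finset.sum_congr rfl fun π _ => if_pos (Perm.SameCycle.refl π m), Finset.sum_const,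
          Finset.card_univ, Fintype.card_perm, Fintype.card_fin, nsmul_eq_mul, mul_one]
      rw [e4]
      ring
    · rw [if_neg (fun h' => hml (e2.1 h')), half m l hml]
      ring
  · have e1 : ∀ π : Perm (Fin n), ¬ ∃ m, OnT b g x m ∧ π.SameCycle m l := by
      rintro π ⟨m, hm, _⟩
      exact hx ⟨m, hm⟩
    have e2 : ¬ OnT b g x l := fun h' => hx ⟨l, h'⟩
    rw [if_neg hx, if_neg e2]
    simp only [e1, if_false, Finset.sum_const_zero]
    ring

end

theorem main : Pool.Agent.R134.PB.S_THR → Pool.Agent.R134.PB.S_SYM := by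
  classical
  intro hT V _ _ J hJ t ht n b hb η hη hdl h hh M hM hhM
  obtain ⟨r, hr⟩ := exists_ret (V := V) n
  obtain ⟨_, hr2, _, hr4⟩ := hr b hb
  have hT' := hT V n b hb
  have hinv := Ph_inv b h hh (fun g => (hT' g).2.1)
  obtain ⟨P, hP⟩ : ∃ P : Perm (Fin n) → ℝ, P = fun σ =>
    ∑ g, stirLaw J t g * Ph b h (σ⁻¹ * r b g) g := ⟨_, rfl⟩
  have h3 : ∀ i j : Fin n, i ≠ j → ∀ σ, |P σ - P (swap i j * σ)| ≤ M * η := by
    intro i j _ σ
    have e1 : P (swap i j * σ) = ∑ g, stirLaw J t (swap (b i) (b j) * g) *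
        Ph b h (σ⁻¹ * r b g) g := by
      rw [hP]
      beta_reduce
      rw [← Equiv.sum_comp (Equiv.mulLeft (swap (b i) (b j)))]
      refine Finset.sum_congr rfl fun g _ => ?_
      have e3 : (Equiv.mulLeft (swap (b i) (b j)) : Perm (Perm V)) g =
          swap (b i) (b j) * g := rfl
      rw [e3, hinv, hr2]
      congr 2
      rw [mul_inv_rev, swap_inv, mul_assoc, ← mul_assoc (swap i j), swap_mul_self, one_mul]
    rw [e1, hP]
    beta_reduce
    rw [← Finset.sum_sub_distrib]
    refine (Finset.abs_sum_le_sum_abs _ _).trans ?_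
    refine le_trans ?_ (mul_le_mul_of_nonneg_left (hdl i j) hM)
    unfold dl
    rw [Finset.mul_sum]
    refine Finset.sum_le_sum fun g _ => ?_
    rw [← sub_mul, abs_mul, abs_sub_comm, mul_comm]
    exact mul_le_mul_of_nonneg_right (Ph_bound b h M hM hhM _ _) (abs_nonneg _)
  have h4 := unif n P (M * η) (by positivity) h3 1
  have e1 : P 1 = stirExp J t (fun g => (∑ l, ∑ x, (if g.SameCycle x (b l) then h l x g else 0)) / n) := by
    rw [hP]
    unfold stirExp
    refine Finset.sum_congr rfl fun g _ => ?_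
    congr 1
    rw [inv_one, one_mul]
    unfold Ph
    congr 1
    refine Finset.sum_congr rfl fun l _ => Finset.sum_congr rfl fun x _ => ?_
    have e2 : (∃ m, OnT b g x m ∧ (r b g).SameCycle m l) ↔ g.SameCycle x (b l) := by
      rw [(hT' g).2.2.1 x l]
      refine exists_congr fun m => and_congr_right fun _ => hr4 g m l
    by_cases h' : g.SameCycle x (b l)
    · rw [if_pos (e2.2 h'), if_pos h']
    · rw [if_neg (fun h'' => h' (e2.1 h'')), if_neg h']
  have hf : (n.factorial : ℝ) ≠ 0 := by exact_mod_cast (Nat.factorial_pos n).ne'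
  have e2 : (∑ σ, P σ) / (n.factorial : ℝ) = stirExp J t (fun g => (∑ l, ∑ x,
      ((if ∃ m, OnT b g x m then (1 : ℝ) else 0) + (if OnT b g x l then 1 else 0)) / 2 *
        h l x g) / n) := by
    rw [hP]
    beta_reduce
    rw [Finset.sum_comm, Finset.sum_div]
    unfold stirExp
    refine Finset.sum_congr rfl fun g _ => ?_
    rw [← Finset.mul_sum]
    have e3 : ∑ σ : Perm (Fin n), Ph b h (σ⁻¹ * r b g) g = ∑ π, Ph b h π g := by
      rw [← Equiv.sum_comp ((Equiv.inv (Perm (Fin n))).trans (Equiv.mulRight (r b g)))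
        (fun π => Ph b h π g)]
      rfl
    rw [e3, Ph_sum b h g (hT' g).1]
    field_simp
  rw [e1, e2] at h4
  exact h4

end Pool.Agent.R134.PB.Sym
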