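import Pool.Agent.R134.PB.Stm

/-!
# Project PB: threads
-/

set_option autoImplicit false

namespace Pool.Agent.R134.PB.Thr

open Finset Equiv
open Pool.Agent.Y998.ST
open Pool.Agent.Y661.PD (dl Free tdist)

section

variable {V : Type} [Fintype V] [DecidableEq V] {n : ℕ} {b : Fin n → V}

lemma orb {g : Perm V} {x : V} {m : ℕ} (i j : Fin n) (h : Free b g x m) :
    ∀ q ≤ m, ((swap (b i) (b j) * g) ^ q) x = (g ^ q) x := by
  intro q
  induction q with
  | zero => intro _; simp
  | succ q ih =>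
    intro hq
    have h1 := ih (by omega)
    have h2 := h (q + 1) (by omega) hq
    have h3 : g ((g ^ q) x) = (g ^ (q + 1)) x := by rw [pow_succ', Perm.mul_apply]
    have h4 : ((swap (b i) (b j) * g) ^ (q + 1)) x = swap (b i) (b j) ((g ^ (q + 1)) x) := by
      rw [pow_succ', Perm.mul_apply, h1, Perm.mul_apply, h3]
    rw [h4]
    apply swap_apply_of_ne_of_ne
    · intro he; exact h2 ⟨i, he.symm⟩
    · intro he; exact h2 ⟨j, he.symm⟩

lemma free_imp {g : Perm V} {x : V} {m : ℕ} (i j : Fin n) (h : Free b g x m) :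
    Free b (swap (b i) (b j) * g) x m := by
  intro s h1 h2
  rw [orb i j h s h2]
  exact h s h1 h2

lemma free_iff (g : Perm V) (x : V) (m : ℕ) (i j : Fin n) :
    Free b (swap (b i) (b j) * g) x m ↔ Free b g x m := by
  constructor
  · intro h
    have := free_imp i j h
    rwa [← mul_assoc, swap_mul_self, one_mul] at this
  · exact free_imp i j

lemma onT_imp {g : Perm V} {x : V} {m : Fin n} (i j : Fin n) (h : OnT b g x m) :
    OnT b (swap (b i) (b j) * g) x m := by
  obtain ⟨p, hp1, hp2⟩ := h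
  have hF : Free b g (b m) p := hp2
  refine ⟨p, ?_, free_imp i j hF⟩
  rw [orb i j hF p le_rfl, hp1]

lemma onT_iff (g : Perm V) (x : V) (m : Fin n) (i j : Fin n) :
    OnT b (swap (b i) (b j) * g) x m ↔ OnT b g x m := by
  constructor
  · intro h
    have := onT_imp i j h
    rwa [← mul_assoc, swap_mul_self, one_mul] at this
  · exact onT_imp i j

lemma uniq_aux (hb : Function.Injective b) {g : Perm V} {x : V} {m m' : Fin n} {p p' : ℕ}
    (hp1 : (g ^ p) (b m) = x) (hp1' : (g ^ p') (b m') = x) (hF' : Free b g (b m') p')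
    (hle : p ≤ p') : m = m' := by
  obtain ⟨q, rfl⟩ := Nat.exists_eq_add_of_le hle
  rw [pow_add, Perm.mul_apply, ← hp1] at hp1'
  have h1 : (g ^ q) (b m') = b m := (g ^ p).injective hp1'
  rcases Nat.eq_zero_or_pos q with h0 | h0
  · subst h0
    rw [pow_zero, Perm.one_apply] at h1
    exact (hb h1).symm
  · exact absurd ⟨m, h1.symm⟩ (hF' q h0 (by omega))

lemma uniq (hb : Function.Injective b) {g : Perm V} {x : V} {m m' : Fin n}
    (h : OnT b g x m) (h' : OnT b g x m') : m = m' := by
  obtain ⟨p, hp1, hp2⟩ := h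
  obtain ⟨p', hp1', hp2'⟩ := h'
  rcases le_total p p' with hle | hle
  · exact uniq_aux hb hp1 hp1' hp2' hle
  · exact (uniq_aux hb hp1' hp1 hp2 hle).symm

lemma sc_iff (g : Perm V) (x : V) (j : Fin n) :
    g.SameCycle x (b j) ↔ ∃ m, OnT b g x m ∧ g.SameCycle (b m) (b j) := by
  classical
  constructor
  · intro h
    have hex : ∃ p : ℕ, ∃ m : Fin n, (g ^ p) (b m) = x := by
      obtain ⟨N, _, hN⟩ := h.symm.exists_pow_eq'
      exact ⟨N, j, hN⟩
    obtain ⟨m, hm⟩ := Nat.find_spec hex
    refine ⟨m, ⟨Nat.find hex, hm, ?_⟩, ?_⟩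
    · intro q h1 h2 hr
      obtain ⟨m', hm'⟩ := hr
      have hlt : Nat.find hex - q < Nat.find hex := by omega
      apply Nat.find_min hex hlt
      refine ⟨m', ?_⟩
      rw [hm', ← Perm.mul_apply, ← pow_add, Nat.sub_add_cancel h2]
      exact hm
    · rw [← hm, Perm.sameCycle_pow_left] at h
      exact h
  · rintro ⟨m, ⟨p, hp1, _⟩, h⟩
    rw [← hp1, Perm.sameCycle_pow_left]
    exact h

end

theorem main : S_THR := by
  intro V _ _ n b hb g
  refine ⟨fun x m m' h h' => uniq hb h h', fun i j x m => onT_iff g x m i j,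
    fun x j => sc_iff g x j, fun i j x m => ⟨free_iff g x m i j, fun h => orb i j h⟩⟩

end Pool.Agent.R134.PB.Thr
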