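import Pool.Agent.R134.PB.Stm

/-!
# Project PB, part TOR2: two nearby points of the torus
-/

set_option autoImplicit false

namespace Pool.Agent.R134.PB.Tor2

open Finset Equiv
open Pool.Agent.Y998.ST

section paths

variable {V : Type} [Fintype V] [DecidableEq V]

/-- law of the end of a path of the random walk -/
theorem end_law {J : V → V → ℝ} (hs : ∀ x y, J x y = J y x) (h0 : ∀ x, J x x = 0) (t : ℝ)
    {K : ℕ} (hK : 0 < K) (x u : V) :
    ∑ p : Fin K → V, (if p ⟨K - 1, by omega⟩ = u then ∏ i, hop J t (pre x p i) (p i) else 0) =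
      qq J (K * t) x u := by
  obtain ⟨k, hk⟩ : ∃ k : ℕ → V → V → ℝ, k = fun l a w =>
    if l = K - 1 then qq J t a u * (if w = u then 1 else 0) else qq J t a w := ⟨_, rfl⟩
  have h1 := one_special (q := qq J t) (qq_row J t) (fun a => qq J t a u)
    (fun w => if w = u then 1 else 0)
    (by rw [Finset.sum_ite_eq', if_pos (Finset.mem_univ _)]) (K - 1) K k x (by omega)
    (fun l hl => by funext a w; rw [hk]; simp only; rw [if_neg hl])
    (fun a w => by rw [hk]; simp only [if_true])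
  rw [mulVec_qq hs h0] at h1
  have h2 : (((K - 1 : ℕ) : ℝ) * t + t) = K * t := by
    have h3 : ((K : ℕ) : ℝ) = ((K - 1 : ℕ) : ℝ) + 1 := by
      have : K = (K - 1) + 1 := by omega
      exact_mod_cast this
    rw [h3]; ring
  rw [h2] at h1
  rw [← h1]
  unfold CS
  refine Finset.sum_congr rfl fun p _ => ?_
  by_cases h : p ⟨K - 1, by omega⟩ = u
  · rw [if_pos h]
    refine Finset.prod_congr rfl fun l _ => ?_
    rw [hk]
    simp only
    by_cases hl : (l : ℕ) = K - 1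
    · have hl' : l = ⟨K - 1, by omega⟩ := Fin.ext hl
      rw [if_pos hl, hl', h, if_pos rfl, mul_one]
      rfl
    · rw [if_neg hl]; rfl
  · rw [if_neg h]
    symm
    refine Finset.prod_eq_zero (Finset.mem_univ (⟨K - 1, by omega⟩ : Fin K)) ?_
    rw [hk]
    simp only [if_true, if_neg h, mul_zero]

theorem end_exp (J : V → V → ℝ) (t : ℝ) {K : ℕ} (hK : 0 < K) (x y u v : V) :
    stirExp J t (fun g => if (g ^ K) x = u ∧ (g ^ K) y = v then 1 else 0) =
    ∑ p : Fin K → V, ∑ q : Fin K → V,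
      (if p ⟨K - 1, by omega⟩ = u ∧ q ⟨K - 1, by omega⟩ = v then
        stirExp J t (fun g => if (∀ i : Fin K, (g ^ ((i : ℕ) + 1)) x = p i) ∧
            (∀ i : Fin K, (g ^ ((i : ℕ) + 1)) y = q i) then 1 else 0) else 0) := by
  have h1 : ∀ (p q : Fin K → V),
      (if p ⟨K - 1, by omega⟩ = u ∧ q ⟨K - 1, by omega⟩ = v then
        stirExp J t (fun g => if (∀ i : Fin K, (g ^ ((i : ℕ) + 1)) x = p i) ∧
            (∀ i : Fin K, (g ^ ((i : ℕ) + 1)) y = q i) then 1 else 0) else 0) =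
      stirExp J t (fun g => if p ⟨K - 1, by omega⟩ = u ∧ q ⟨K - 1, by omega⟩ = v then
        (if (∀ i : Fin K, (g ^ ((i : ℕ) + 1)) x = p i) ∧
            (∀ i : Fin K, (g ^ ((i : ℕ) + 1)) y = q i) then 1 else 0) else 0) := by
    intro p q
    by_cases h : p ⟨K - 1, by omega⟩ = u ∧ q ⟨K - 1, by omega⟩ = v
    · simp only [if_pos h]
    · simp only [if_neg h]
      rw [exp_const]
  simp only [h1]
  simp only [exp_sum]
  congr 1
  funext g
  have hKK : K - 1 + 1 = K := by omega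
  rw [Finset.sum_eq_single (fun i : Fin K => (g ^ ((i : ℕ) + 1)) x),
    Finset.sum_eq_single (fun i : Fin K => (g ^ ((i : ℕ) + 1)) y)]
  · simp [hKK]
  · intro q _ hq
    have : ¬ ((∀ i : Fin K, (g ^ ((i : ℕ) + 1)) x = (g ^ ((i : ℕ) + 1)) x) ∧
        ∀ i : Fin K, (g ^ ((i : ℕ) + 1)) y = q i) := by
      rintro ⟨_, h⟩
      exact hq (funext fun i => (h i).symm)
    rw [if_neg this]
    simp
  · intro h; exact absurd (Finset.mem_univ _) h
  · intro p _ hp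
    refine Finset.sum_eq_zero fun q _ => ?_
    have : ¬ ((∀ i : Fin K, (g ^ ((i : ℕ) + 1)) x = p i) ∧
        ∀ i : Fin K, (g ^ ((i : ℕ) + 1)) y = q i) := by
      rintro ⟨h, _⟩
      exact hp (funext fun i => (h i).symm)
    rw [if_neg this]
    simp
  · intro h; exact absurd (Finset.mem_univ _) h

/-- distance of the laws of two paths -/
noncomputable def PP (J : V → V → ℝ) (t : ℝ) (K : ℕ) (x y : V) : ℝ :=
  ∑ p : Fin K → V, ∑ q : Fin K → V,
    |stirExp J t (fun g => if (∀ i : Fin K, (g ^ ((i : ℕ) + 1)) x = p i) ∧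
        (∀ i : Fin K, (g ^ ((i : ℕ) + 1)) y = q i) then 1 else 0) -
      (∏ i, hop J t (pre x p i) (p i)) * ∏ i, hop J t (pre y q i) (q i)|

theorem PD2_le {J : V → V → ℝ} (hs : ∀ x y, J x y = J y x) (h0 : ∀ x, J x x = 0) (t : ℝ)
    {K : ℕ} (hK : 0 < K) (x y : V) : PD2 J t K x y ≤ PP J t K x y := by
  unfold PD2 PP
  obtain ⟨F, hF⟩ : ∃ F : (Fin K → V) → (Fin K → V) → ℝ, F = fun p q =>
      stirExp J t (fun g => if (∀ i : Fin K, (g ^ ((i : ℕ) + 1)) x = p i) ∧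
        (∀ i : Fin K, (g ^ ((i : ℕ) + 1)) y = q i) then 1 else 0) := ⟨_, rfl⟩
  obtain ⟨G, hG⟩ : ∃ G : V → (Fin K → V) → ℝ, G = fun x p =>
      ∏ i, hop J t (pre x p i) (p i) := ⟨_, rfl⟩
  have e : ∀ u v, |stirExp J t (fun g => if (g ^ K) x = u ∧ (g ^ K) y = v then 1 else 0) -
      qq J (K * t) x u * qq J (K * t) y v| ≤ ∑ p, ∑ q,
        (if p ⟨K - 1, by omega⟩ = u ∧ q ⟨K - 1, by omega⟩ = v then
          |F p q - G x p * G y q| else 0) := by
    intro u v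
    have e1 := end_exp J t hK x y u v
    have e2 := end_law hs h0 t hK x u
    have e3 := end_law hs h0 t hK y v
    rw [e1, ← e2, ← e3, Finset.sum_mul_sum, ← Finset.sum_sub_distrib]
    refine (Finset.abs_sum_le_sum_abs _ _).trans (Finset.sum_le_sum fun p _ => ?_)
    rw [← Finset.sum_sub_distrib]
    refine (Finset.abs_sum_le_sum_abs _ _).trans (Finset.sum_le_sum fun q _ => ?_)
    rw [hF, hG]
    by_cases h1 : p ⟨K - 1, by omega⟩ = u
    · by_cases h2 : q ⟨K - 1, by omega⟩ = v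
      · simp [h1, h2]
      · simp [h1, h2]
    · simp [h1]
  refine (Finset.sum_le_sum fun u _ => Finset.sum_le_sum fun v _ => e u v).trans (le_of_eq ?_)
  have e4 : ∀ p q : Fin K → V, ∑ u, ∑ v,
      (if p ⟨K - 1, by omega⟩ = u ∧ q ⟨K - 1, by omega⟩ = v then
          |F p q - G x p * G y q| else 0) = |F p q - G x p * G y q| := by
    intro p q
    rw [Finset.sum_eq_single (p ⟨K - 1, by omega⟩), Finset.sum_eq_single (q ⟨K - 1, by omega⟩)]
    · rw [if_pos ⟨rfl, rfl⟩]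
    · intro v _ hv
      rw [if_neg (fun h => hv h.2.symm)]
    · intro h; exact absurd (Finset.mem_univ _) h
    · intro u _ hu
      refine Finset.sum_eq_zero fun v _ => ?_
      rw [if_neg (fun h => hu h.1.symm)]
    · intro h; exact absurd (Finset.mem_univ _) h
  rw [Finset.sum_congr rfl fun u _ => Finset.sum_comm, Finset.sum_comm]
  refine Finset.sum_congr rfl fun p _ => ?_
  rw [Finset.sum_congr rfl fun u _ => Finset.sum_comm, Finset.sum_comm]
  refine Finset.sum_congr rfl fun q _ => ?_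
  rw [e4, hF, hG]

end paths

theorem sqrt_pow (s : ℝ) (hs : 0 < s) (d : ℕ) :
    (1 / Real.sqrt s) ^ d = s ^ (-((d : ℝ) / 2)) := by
  rw [Real.sqrt_eq_rpow, one_div, ← Real.rpow_neg hs.le, ← Real.rpow_natCast, ← Real.rpow_mul hs.le]
  congr 1
  ring

theorem near {d L : ℕ} [NeZero L] (B : Finset (Fin d → ZMod L)) (u : ℝ)
    (hu : 0 ≤ u) : ∑ a : (Fin d → ZMod L) × B × B,
      qq (nnRate d L) u (a.1 + a.2.1) (a.1 + a.2.2) ≤
        Fintype.card (Fin d → ZMod L) * (B.card : ℝ) := by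
  rw [Fintype.sum_prod_type]
  have h1 : ∀ z : Fin d → ZMod L, ∑ a : B × B, qq (nnRate d L) u (z + a.1) (z + a.2) ≤
      (B.card : ℝ) := by
    intro z
    rw [Fintype.sum_prod_type]
    have h2 : ∀ b : B, ∑ b' : B, qq (nnRate d L) u (z + b) (z + b') ≤ 1 := by
      intro b
      rw [Finset.sum_coe_sort B (fun b' => qq (nnRate d L) u (z + b) (z + b'))]
      calc ∑ b' ∈ B, qq (nnRate d L) u (z + b) (z + b')
          ≤ ∑ b', qq (nnRate d L) u (z + b) (z + b') :=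
            Finset.sum_le_sum_of_subset_of_nonneg (Finset.subset_univ _)
              fun _ _ _ => qq_nonneg nn_nonneg hu _ _
        _ = ∑ y, qq (nnRate d L) u (z + b) y :=
            Equiv.sum_comp (Equiv.addLeft z) (fun y => qq (nnRate d L) u (z + b) y)
        _ = 1 := qq_row _ _ _
    refine (Finset.sum_le_sum fun b _ => h2 b).trans (le_of_eq ?_)
    simp
  refine (Finset.sum_le_sum fun z _ => h1 z).trans (le_of_eq ?_)
  rw [Finset.sum_const, nsmul_eq_mul, Finset.card_univ]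

theorem main : Pool.Agent.R134.PB.S_TWL → Pool.Agent.R134.PB.S_TOR2 := by
  intro hT d hd
  have hd3 : (3 : ℝ) ≤ d := by exact_mod_cast hd
  have hsum : Summable fun n : ℕ => 1 / (n : ℝ) ^ ((d : ℝ) / 2) :=
    Real.summable_one_div_nat_rpow.2 (by linarith)
  obtain ⟨Z, hZ⟩ : ∃ Z : ℝ, Z = ∑' n : ℕ, 1 / (n : ℝ) ^ ((d : ℝ) / 2) := ⟨_, rfl⟩
  have hZ0 : 0 ≤ Z := by rw [hZ]; exact tsum_nonneg fun n => by positivity
  refine ⟨10 * d * 2 ^ d * (8 + 2 * Z), by positivity, fun L _ hL t ht K hK B hB => ?_⟩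
  have ht0 : 0 < t := by linarith
  have hLpos : (0 : ℝ) < L := by exact_mod_cast (show 0 < L by omega)
  have hBpos : (0 : ℝ) < B.card := by exact_mod_cast hB.card_pos
  have hcard : (Fintype.card (Fin d → ZMod L) : ℝ) = (L : ℝ) ^ d := by
    rw [Fintype.card_fun, ZMod.card, Fintype.card_fin]
    push_cast
    rfl
  have hcardι : (Fintype.card ((Fin d → ZMod L) × B × B) : ℝ) =
      (L : ℝ) ^ d * (B.card : ℝ) ^ 2 := by
    rw [Fintype.card_prod, Fintype.card_prod, Fintype.card_coe]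
    push_cast
    rw [hcard]
    ring
  obtain ⟨Q, hQdef⟩ : ∃ Q : ℕ → ℝ, Q = fun m : ℕ =>
    2 ^ d * ((1 / (L : ℝ)) ^ d + t ^ (-((d : ℝ) / 2)) * (1 / (m : ℝ) ^ ((d : ℝ) / 2))) := ⟨_, rfl⟩
  have hQ : ∀ m : ℕ, 0 < m → ∀ a b, qq (nnRate d L) (m * t) a b ≤ Q m := by
    intro m hm a b
    have hm0 : (0 : ℝ) < m := by exact_mod_cast hm
    have hmt : (0 : ℝ) < m * t := by positivity
    refine (qq_torus hL hmt a b).trans ?_
    refine (add_pow_le (by positivity) (by positivity) d).trans ?_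
    rw [sqrt_pow _ hmt, hQdef]
    have h1 : ((m : ℝ) * t) ^ (-((d : ℝ) / 2)) =
        t ^ (-((d : ℝ) / 2)) * (1 / (m : ℝ) ^ ((d : ℝ) / 2)) := by
      rw [Real.mul_rpow hm0.le ht0.le, Real.rpow_neg hm0.le ((d : ℝ) / 2)]
      ring
    rw [h1]
    refine mul_le_mul_of_nonneg_right ?_ (by positivity)
    exact pow_le_pow_right₀ (by norm_num) (by omega)
  have hrow : ∀ x : Fin d → ZMod L, ∑ y, nnRate d L x y ≤ 2 * (d : ℝ) := fun x =>
    (nn_row hL x).le
  have hmain := hT (Fin d → ZMod L) (nnRate d L) nn_nonneg nn_symm (nn_diag hL) K (2 * (d : ℝ))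
    hrow (by positivity) t ht0.le Q hQ ((Fin d → ZMod L) × B × B)
    (fun a => a.1 + a.2.1) (fun a => a.1 + a.2.2) (1 / B.card) (by positivity) (by
      intro u hu
      refine (near B u hu).trans (le_of_eq ?_)
      rw [hcardι, hcard]
      field_simp)
  rw [hcardι] at hmain
  have hleft : ∑ z, ∑ b ∈ B, ∑ b' ∈ B, PD2 (nnRate d L) t K (z + b) (z + b') ≤
      ∑ a : (Fin d → ZMod L) × B × B, PP (nnRate d L) t K (a.1 + a.2.1) (a.1 + a.2.2) := by
    rw [Fintype.sum_prod_type]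
    refine Finset.sum_le_sum fun z _ => ?_
    rw [Fintype.sum_prod_type]
    simp only
    rw [Finset.sum_coe_sort B (fun b => ∑ b' : B, PP (nnRate d L) t K (z + b) (z + b'))]
    refine Finset.sum_le_sum fun b _ => ?_
    rw [Finset.sum_coe_sort B (fun b' => PP (nnRate d L) t K (z + b) (z + b'))]
    exact Finset.sum_le_sum fun b' _ => PD2_le nn_symm (nn_diag hL) t hK _ _
  have hS : ∑ m ∈ Finset.Ioo 0 K, Q m ≤
      2 ^ d * (K * (1 / (L : ℝ)) ^ d + t ^ (-((d : ℝ) / 2)) * Z) := by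
    rw [hQdef, ← Finset.mul_sum]
    refine mul_le_mul_of_nonneg_left ?_ (by positivity)
    rw [Finset.sum_add_distrib, ← Finset.mul_sum]
    refine add_le_add ?_ (mul_le_mul_of_nonneg_left ?_ (by positivity))
    · rw [Finset.sum_const, nsmul_eq_mul]
      refine mul_le_mul_of_nonneg_right ?_ (by positivity)
      rw [Nat.card_Ioo]
      exact_mod_cast (show K - 0 - 1 ≤ K by omega)
    · rw [hZ]
      exact hsum.sum_le_tsum _ fun m _ => by positivity
  have hK1 : (1 : ℝ) ≤ K := by exact_mod_cast hK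
  have h3 : 0 ≤ t ^ (-((d : ℝ) / 2)) := by positivity
  have hM : ∑ m ∈ Finset.Icc (1 : ℕ) (2 * K), (((m : ℕ) : ℝ) + 1) * Q m ≤
      2 ^ d * (6 * (K : ℝ) ^ 2 * (1 / (L : ℝ)) ^ d + t ^ (-((d : ℝ) / 2)) * (4 * K)) := by
    have h4 : ∀ m ∈ Finset.Icc (1 : ℕ) (2 * K), (((m : ℕ) : ℝ) + 1) * Q m ≤
        2 ^ d * (3 * K * (1 / (L : ℝ)) ^ d + t ^ (-((d : ℝ) / 2)) * 2) := by
      intro m hm
      rw [Finset.mem_Icc] at hm
      have hm1 : (1 : ℝ) ≤ m := by exact_mod_cast hm.1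
      have hm2 : (m : ℝ) ≤ 2 * K := by exact_mod_cast hm.2
      have h5 : (m : ℝ) ≤ (m : ℝ) ^ ((d : ℝ) / 2) := by
        calc (m : ℝ) = (m : ℝ) ^ (1 : ℝ) := (Real.rpow_one _).symm
          _ ≤ _ := Real.rpow_le_rpow_of_exponent_le hm1 (by linarith)
      have h6 : ((m : ℝ) + 1) * (1 / (m : ℝ) ^ ((d : ℝ) / 2)) ≤ 2 := by
        rw [mul_one_div, div_le_iff₀ (by linarith)]
        linarith
      have h7 : (m : ℝ) + 1 ≤ 3 * K := by linarith
      rw [hQdef]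
      simp only
      calc ((m : ℝ) + 1) * (2 ^ d * ((1 / (L : ℝ)) ^ d +
            t ^ (-((d : ℝ) / 2)) * (1 / (m : ℝ) ^ ((d : ℝ) / 2))))
          = 2 ^ d * (((m : ℝ) + 1) * (1 / (L : ℝ)) ^ d +
            t ^ (-((d : ℝ) / 2)) * (((m : ℝ) + 1) * (1 / (m : ℝ) ^ ((d : ℝ) / 2)))) := by ring
        _ ≤ _ := mul_le_mul_of_nonneg_left (add_le_add
            (mul_le_mul_of_nonneg_right h7 (by positivity))
            (mul_le_mul_of_nonneg_left h6 h3)) (by positivity)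
    refine (Finset.sum_le_sum h4).trans (le_of_eq ?_)
    rw [Finset.sum_const, Nat.card_Icc, nsmul_eq_mul]
    have h8 : ((2 * K + 1 - 1 : ℕ) : ℝ) = 2 * K := by
      rw [Nat.add_sub_cancel]
      push_cast
      rfl
    rw [h8]
    ring
  have h1 : 1 + 2 * (2 * (d : ℝ)) * t ≤ 5 * d * t := by nlinarith
  have h2 : t ^ (1 - (d : ℝ) / 2) = t * t ^ (-((d : ℝ) / 2)) := by
    rw [sub_eq_add_neg, Real.rpow_add ht0, Real.rpow_one]
  have hA : 2 * (K * ∑ m ∈ Finset.Ioo 0 K, Q m) +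
      ∑ m ∈ Finset.Icc (1 : ℕ) (2 * K), (((m : ℕ) : ℝ) + 1) * Q m ≤
      2 ^ d * (8 + 2 * Z) * (K * t ^ (-((d : ℝ) / 2)) + (K : ℝ) ^ 2 * (1 / (L : ℝ)) ^ d) := by
    have h4 := mul_le_mul_of_nonneg_left hS (by positivity : (0 : ℝ) ≤ 2 * K)
    have h5 : 0 ≤ 2 ^ d * (K * t ^ (-((d : ℝ) / 2))) := by positivity
    have h6 : 0 ≤ 2 ^ d * ((K : ℝ) ^ 2 * (1 / (L : ℝ)) ^ d) := by positivity
    have h7 : 0 ≤ Z * (2 ^ d * ((K : ℝ) ^ 2 * (1 / (L : ℝ)) ^ d)) := mul_nonneg hZ0 h6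
    nlinarith
  have hA0 : 0 ≤ 2 * (K * ∑ m ∈ Finset.Ioo 0 K, Q m) +
      ∑ m ∈ Finset.Icc (1 : ℕ) (2 * K), (((m : ℕ) : ℝ) + 1) * Q m := by
    have hQn : ∀ m, 0 ≤ Q m := by
      intro m
      rw [hQdef]
      positivity
    have := Finset.sum_nonneg fun m (_ : m ∈ Finset.Ioo 0 K) => hQn m
    have := Finset.sum_nonneg fun m (_ : m ∈ Finset.Icc (1 : ℕ) (2 * K)) =>
      mul_nonneg (by positivity : (0 : ℝ) ≤ (m : ℝ) + 1) (hQn m)
    positivity
  have hfin : 2 * ((1 + 2 * (2 * (d : ℝ)) * t) * (2 * (K * ∑ m ∈ Finset.Ioo 0 K, Q m) +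
      1 / B.card + ∑ m ∈ Finset.Icc (1 : ℕ) (2 * K), (((m : ℕ) : ℝ) + 1) * Q m)) ≤
      10 * d * 2 ^ d * (8 + 2 * Z) * (eK d L K t + t / B.card) := by
    have hB0 : (0 : ℝ) ≤ 1 / B.card := by positivity
    have h4 : (1 + 2 * (2 * (d : ℝ)) * t) * (2 * (K * ∑ m ∈ Finset.Ioo 0 K, Q m) +
        1 / B.card + ∑ m ∈ Finset.Icc (1 : ℕ) (2 * K), (((m : ℕ) : ℝ) + 1) * Q m) ≤
        (5 * d * t) * (2 ^ d * (8 + 2 * Z) * (K * t ^ (-((d : ℝ) / 2)) +
          (K : ℝ) ^ 2 * (1 / (L : ℝ)) ^ d) + 1 / B.card) := by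
      refine mul_le_mul h1 (by linarith) (by linarith) (by positivity)
    have h5 : eK d L K t = t * (K * t ^ (-((d : ℝ) / 2)) + (K : ℝ) ^ 2 * (1 / (L : ℝ)) ^ d) := by
      unfold eK
      rw [h2, one_div_pow]
      ring
    have h6 : (1 : ℝ) ≤ 2 ^ d * (8 + 2 * Z) := by
      have : (1 : ℝ) ≤ 2 ^ d := one_le_pow₀ (by norm_num)
      nlinarith
    have h7 : 5 * d * t * (1 / (B.card : ℝ)) ≤
        5 * d * t * (2 ^ d * (8 + 2 * Z) * (1 / (B.card : ℝ))) := by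
      refine mul_le_mul_of_nonneg_left ?_ (by positivity)
      exact le_mul_of_one_le_left hB0 h6
    calc _ ≤ 2 * ((5 * d * t) * (2 ^ d * (8 + 2 * Z) * (K * t ^ (-((d : ℝ) / 2)) +
          (K : ℝ) ^ 2 * (1 / (L : ℝ)) ^ d) + 1 / B.card)) := by linarith
      _ = 2 * ((5 * d * t) * (2 ^ d * (8 + 2 * Z) * (K * t ^ (-((d : ℝ) / 2)) +
          (K : ℝ) ^ 2 * (1 / (L : ℝ)) ^ d)) + 5 * d * t * (1 / (B.card : ℝ))) := by ring
      _ ≤ 2 * ((5 * d * t) * (2 ^ d * (8 + 2 * Z) * (K * t ^ (-((d : ℝ) / 2)) +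
          (K : ℝ) ^ 2 * (1 / (L : ℝ)) ^ d)) +
          5 * d * t * (2 ^ d * (8 + 2 * Z) * (1 / (B.card : ℝ)))) := by linarith
      _ = _ := by rw [h5]; ring
  calc ∑ z, ∑ b ∈ B, ∑ b' ∈ B, PD2 (nnRate d L) t K (z + b) (z + b') ≤ _ := hleft
    _ ≤ _ := hmain
    _ ≤ (L : ℝ) ^ d * (B.card : ℝ) ^ 2 * (10 * d * 2 ^ d * (8 + 2 * Z) *
        (eK d L K t + t / B.card)) := mul_le_mul_of_nonneg_left hfin (by positivity)
    _ = _ := by ring

end Pool.Agent.R134.PB.Tor2
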