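import Pool.Agent.R134.PB.Stm2
import Pool.Agent.Y998.LP.Law2
import Pool.Agent.Y998.CN.Tor

/-!
# PB-TRA: translation invariance and symmetry
-/

set_option autoImplicit false

namespace Pool.Agent.R134.PB.Tra

open Finset Equiv
open Pool.Agent.Y998.ST
open Pool.Agent.Y998.CN (law_conj nn_trans)
open Pool.Agent.Y998.LP (law_inv)

section gen

variable {V : Type} [Fintype V] [DecidableEq V]

theorem inv_self_app (σ : Perm V) (x : V) : σ⁻¹ (σ x) = x := Equiv.symm_apply_apply σ x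

theorem exp_conj (σ : Perm V) {J : V → V → ℝ} (hJ : ∀ x y, J (σ x) (σ y) = J x y) (t : ℝ)
    (F : Perm V → ℝ) : stirExp J t (fun g => F (σ * g * σ⁻¹)) = stirExp J t F := by
  unfold stirExp
  rw [← Equiv.sum_comp (MulAut.conj σ).toEquiv (fun g => stirLaw J t g * F g)]
  refine Finset.sum_congr rfl fun g _ => ?_
  have e1 : (MulAut.conj σ).toEquiv g = σ * g * σ⁻¹ := rfl
  rw [e1, law_conj σ hJ]

theorem exp_inv (J : V → V → ℝ) (t : ℝ) (F : Perm V → ℝ) :
    stirExp J t (fun g => F g⁻¹) = stirExp J t F := by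
  unfold stirExp
  rw [← Equiv.sum_comp (Equiv.inv (Perm V)) (fun g => stirLaw J t g * F g)]
  refine Finset.sum_congr rfl fun g _ => ?_
  have e1 : (Equiv.inv (Perm V)) g = g⁻¹ := rfl
  rw [e1, law_inv]

theorem con_conj (σ : Perm V) {J : V → V → ℝ} (hJ : ∀ x y, J (σ x) (σ y) = J x y) (t : ℝ)
    (x y : V) : con J t (σ x) (σ y) = con J t x y := by
  classical
  unfold con
  rw [← exp_conj σ hJ t]
  congr 1
  funext g
  have h : (σ * g * σ⁻¹).SameCycle (σ x) (σ y) ↔ g.SameCycle x y := by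
    rw [Perm.sameCycle_conj, inv_self_app, inv_self_app]
  by_cases h1 : g.SameCycle x y
  · rw [if_pos h1, if_pos (h.2 h1)]
  · rw [if_neg h1, if_neg (fun h2 => h1 (h.1 h2))]

theorem con_symm (J : V → V → ℝ) (t : ℝ) (x y : V) : con J t x y = con J t y x := by
  classical
  unfold con
  congr 1
  funext g
  by_cases h1 : g.SameCycle x y
  · rw [if_pos h1, if_pos h1.symm]
  · rw [if_neg h1, if_neg (fun h2 => h1 h2.symm)]

theorem qq_conj (σ : Perm V) {J : V → V → ℝ} (hJ : ∀ x y, J (σ x) (σ y) = J x y) (t : ℝ)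
    (x y : V) : qq J t (σ x) (σ y) = qq J t x y := by
  unfold qq hop
  rw [← exp_conj σ hJ t]
  congr 1
  funext g
  have h : (σ * g * σ⁻¹) (σ x) = σ y ↔ g x = y := by
    rw [Perm.mul_apply, Perm.mul_apply, inv_self_app, σ.apply_eq_iff_eq]
  by_cases h1 : g x = y
  · rw [if_pos h1, if_pos (h.2 h1)]
  · rw [if_neg h1, if_neg (fun h2 => h1 (h.1 h2))]

theorem qq_symm' (J : V → V → ℝ) (t : ℝ) (x y : V) : qq J t x y = qq J t y x := by
  unfold qq hop
  rw [← exp_inv]
  congr 1
  funext g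
  have h : g⁻¹ x = y ↔ g y = x := by
    rw [Perm.inv_eq_iff_eq]
    exact eq_comm
  by_cases h1 : g y = x
  · rw [if_pos h1, if_pos (h.2 h1)]
  · rw [if_neg h1, if_neg (fun h2 => h1 (h.1 h2))]

end gen

theorem main : S_TRA := by
  intro d L _ t s x y z
  have hJ : ∀ u v : Fin d → ZMod L, nnRate d L (Equiv.addLeft z u) (Equiv.addLeft z v) =
      nnRate d L u v := by
    intro u v
    have h := nn_trans u v z
    have e1 : Equiv.addLeft z u = u + z := add_comm z u
    have e2 : Equiv.addLeft z v = v + z := add_comm z v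
    rw [e1, e2]
    exact h
  refine ⟨?_, con_symm _ _ _ _, ?_, qq_symm' _ _ _ _⟩
  · exact con_conj (Equiv.addLeft z) hJ t x y
  · exact qq_conj (Equiv.addLeft z) hJ s x y

end Pool.Agent.R134.PB.Tra
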