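import Pool.Agent.R134.PB.Sta

/-!
# Project PB: the two point function up to the distance `t ^ (d / 4 - ε)`
-/

set_option autoImplicit false

namespace Pool.Agent.R134.PB.Twopt

open Finset Equiv
open Pool.Agent.Y998.ST
open Pool.Agent.Y661.PD (dl Free tdist)

/-- upper bound at small scales -/
theorem aa_up (hTP : S_TP) (hMOM : S_MOM) (d : ℕ) (hd : 1 ≤ d) : ∃ C : ℝ, 0 < C ∧
    ∀ (L : ℕ) [NeZero L], 3 ≤ L → ∀ (t s : ℝ), 0 < t → 0 < s →
    AA (nnRate d L) t s ≤ 1 / 2 + C * (Real.sqrt s / Real.sqrt t) +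
      (1 / L + 1 / Real.sqrt s) ^ d / 2 := by
  obtain ⟨C1, hC1, h1⟩ := hTP d hd
  obtain ⟨C2, hC2, h2⟩ := hMOM d
  refine ⟨C1 * C2, by positivity, fun L _ hL t s ht hs => ?_⟩
  have hst : 0 < Real.sqrt t := Real.sqrt_pos.2 ht
  have hJ0 : ∀ x y, 0 ≤ nnRate d L x y := nn_nonneg
  have hN : (0 : ℝ) < Fintype.card (Fin d → ZMod L) := by exact_mod_cast Fintype.card_pos
  obtain ⟨S, hS⟩ : ∃ S : ℝ, S = (1 / L + 1 / Real.sqrt s) ^ d := ⟨_, rfl⟩
  have hup : ∀ x y : Fin d → ZMod L, con (nnRate d L) t x y ≤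
      1 / 2 + C1 * tdist x y / Real.sqrt t + (if x = y then 1 / 2 else 0) := by
    intro x y
    have hp : 0 ≤ C1 * (tdist x y : ℝ) / Real.sqrt t := by positivity
    by_cases hxy : x = y
    · rw [if_pos hxy]
      subst hxy
      rw [Sta.con_self]
      linarith
    · rw [if_neg hxy]
      have := (abs_le.1 (h1 L hL t ht x y hxy)).2
      linarith
  unfold AA
  rw [div_le_iff₀ hN, ← hS]
  have h3 : ∀ x : Fin d → ZMod L, ∑ y, qq (nnRate d L) s x y * con (nnRate d L) t x y ≤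
      1 / 2 + C1 * C2 * (Real.sqrt s / Real.sqrt t) + S / 2 := by
    intro x
    have h4 : ∑ y, qq (nnRate d L) s x y * con (nnRate d L) t x y ≤
        ∑ y, qq (nnRate d L) s x y * (1 / 2 + C1 * tdist x y / Real.sqrt t +
          (if x = y then 1 / 2 else 0)) :=
      Finset.sum_le_sum fun y _ => mul_le_mul_of_nonneg_left (hup x y) (qq_nonneg hJ0 hs.le x y)
    refine h4.trans ?_
    have h5 : ∑ y, qq (nnRate d L) s x y * (1 / 2 + C1 * tdist x y / Real.sqrt t +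
          (if x = y then 1 / 2 else 0)) =
        1 / 2 + C1 / Real.sqrt t * ∑ y, qq (nnRate d L) s x y * (tdist x y : ℝ) +
          qq (nnRate d L) s x x / 2 := by
      have h6 : ∀ y, qq (nnRate d L) s x y * (1 / 2 + C1 * tdist x y / Real.sqrt t +
          (if x = y then 1 / 2 else 0)) =
          qq (nnRate d L) s x y * (1 / 2) + C1 / Real.sqrt t *
            (qq (nnRate d L) s x y * (tdist x y : ℝ)) +
            (if x = y then qq (nnRate d L) s x y / 2 else 0) := by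
        intro y
        split_ifs <;> ring
      rw [Finset.sum_congr rfl fun y _ => h6 y, Finset.sum_add_distrib, Finset.sum_add_distrib,
        ← Finset.sum_mul, qq_row, ← Finset.mul_sum, Finset.sum_ite_eq,
        if_pos (Finset.mem_univ _)]
      ring
    rw [h5]
    have h7 := mul_le_mul_of_nonneg_left (h2 L hL s hs.le x).1
      (by positivity : 0 ≤ C1 / Real.sqrt t)
    have h8 : C1 * C2 * (Real.sqrt s / Real.sqrt t) = C1 / Real.sqrt t * (C2 * Real.sqrt s) := by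
      ring
    have h9 : qq (nnRate d L) s x x ≤ S := by
      rw [hS]
      exact qq_torus hL hs x x
    rw [h8]
    linarith
  calc ∑ x, ∑ y, qq (nnRate d L) s x y * con (nnRate d L) t x y ≤
      ∑ _x : Fin d → ZMod L, (1 / 2 + C1 * C2 * (Real.sqrt s / Real.sqrt t) + S / 2) :=
        Finset.sum_le_sum fun x _ => h3 x
    _ = _ := by rw [Finset.sum_const, Finset.card_univ, nsmul_eq_mul, mul_comm]

theorem main : S_CORE → S_PT → S_TP → (S_MOM ∧ S_GEO) → S_TWOPT := by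
  intro hCORE hPT hTP hMG d hd ε η hε hη
  obtain ⟨C1, hC1, h1⟩ := hTP d (by omega)
  obtain ⟨C2, hC2, h2⟩ := aa_up hTP hMG.1 d (by omega)
  obtain ⟨C3, hC3, h3⟩ := hPT d (by omega)
  have hd1 : (1 : ℝ) ≤ d := by exact_mod_cast (show 1 ≤ d by omega)
  obtain ⟨C, hC⟩ : ∃ C : ℝ, C = C1 + C2 + C3 := ⟨_, rfl⟩
  have hC0 : 0 < C := by rw [hC]; positivity
  have hC1' : C1 ≤ C := by rw [hC]; linarith
  have hC2' : C2 ≤ C := by rw [hC]; linarith
  have hC3' : C3 ≤ C := by rw [hC]; linarith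
  obtain ⟨η1, hη1⟩ : ∃ η1 : ℝ, η1 = η / 16 := ⟨_, rfl⟩
  have hη10 : 0 < η1 := by rw [hη1]; positivity
  obtain ⟨Λ, hΛ⟩ : ∃ Λ : ℝ, Λ = C / η1 := ⟨_, rfl⟩
  have hΛ0 : 0 < Λ := by rw [hΛ]; positivity
  obtain ⟨a, ha⟩ : ∃ a : ℝ, a = η / C := ⟨_, rfl⟩
  have ha0 : 0 < a := by rw [ha]; positivity
  obtain ⟨δ, hδ⟩ : ∃ δ : ℝ, δ = min (η1 / C) (Real.sqrt Λ * a) := ⟨_, rfl⟩
  have hδ0 : 0 < δ := by rw [hδ]; exact lt_min (by positivity) (by positivity)
  have hδ1 : C * δ ≤ η1 := by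
    have : δ ≤ η1 / C := by rw [hδ]; exact min_le_left _ _
    rw [le_div_iff₀ hC0] at this
    linarith
  have hδ2 : δ ^ 2 ≤ Λ * a ^ 2 := by
    have h4 : δ ≤ Real.sqrt Λ * a := by rw [hδ]; exact min_le_right _ _
    calc δ ^ 2 ≤ (Real.sqrt Λ * a) ^ 2 := pow_le_pow_left₀ hδ0.le h4 2
      _ = Λ * a ^ 2 := by rw [mul_pow, Real.sq_sqrt hΛ0.le]
  obtain ⟨B, hB⟩ : ∃ B : ℝ, B = d / a + 1 / δ := ⟨_, rfl⟩
  have hB0 : 0 < B := by rw [hB]; positivity
  obtain ⟨T1, hT1, hcore⟩ := hCORE d hd ε (max 1 (Λ * d ^ 2)) η1 hε (le_max_left _ _) hη10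
  refine ⟨max T1 (max ((max 1 Λ) ^ (1 / ε)) ((B / η1 + B) ^ 2)), le_max_of_le_left hT1, ?_⟩
  intro t ht L _ hL x y hxy hD
  have htT1 : T1 ≤ t := (le_max_left _ _).trans ht
  have htT2 : (max 1 Λ) ^ (1 / ε) ≤ t := ((le_max_left _ _).trans (le_max_right _ _)).trans ht
  have htT3 : (B / η1 + B) ^ 2 ≤ t := ((le_max_right _ _).trans (le_max_right _ _)).trans ht
  have ht1 : 1 ≤ t := hT1.trans htT1
  have ht0 : 0 < t := by linarith
  have hst : 0 < Real.sqrt t := Real.sqrt_pos.2 ht0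
  obtain ⟨D, hDdef⟩ : ∃ D : ℝ, D = (tdist x y : ℝ) := ⟨_, rfl⟩
  have hD0 : 0 ≤ D := by rw [hDdef]; positivity
  rw [← hDdef] at hD
  rcases le_or_gt D (a * Real.sqrt t) with hcase | hcase
  · -- near points
    refine (h1 L hL t ht0 x y hxy).trans ?_
    rw [← hDdef, div_le_iff₀ hst]
    calc C1 * D ≤ C * (a * Real.sqrt t) := mul_le_mul hC1' hcase hD0 hC0.le
      _ = η * Real.sqrt t := by rw [ha]; field_simp
  · have hDpos : 0 < D := lt_trans (by positivity) hcase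
    obtain ⟨s, hs⟩ : ∃ s : ℝ, s = Λ * D ^ 2 := ⟨_, rfl⟩
    obtain ⟨s0, hs0⟩ : ∃ s0 : ℝ, s0 = δ ^ 2 * t := ⟨_, rfl⟩
    have hs0' : 0 < s0 := by rw [hs0]; positivity
    have hsp : 0 < s := by rw [hs]; positivity
    have hsq0 : Real.sqrt s0 = δ * Real.sqrt t := by
      rw [hs0, Real.sqrt_mul (by positivity), Real.sqrt_sq hδ0.le]
    have hss : s0 ≤ s := by
      have h4 : a ^ 2 * t ≤ D ^ 2 := by
        calc a ^ 2 * t = (a * Real.sqrt t) ^ 2 := by rw [mul_pow, Real.sq_sqrt ht0.le]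
          _ ≤ D ^ 2 := pow_le_pow_left₀ (by positivity) hcase.le 2
      calc s0 = δ ^ 2 * t := hs0
        _ ≤ Λ * a ^ 2 * t := mul_le_mul_of_nonneg_right hδ2 ht0.le
        _ = Λ * (a ^ 2 * t) := by ring
        _ ≤ Λ * D ^ 2 := mul_le_mul_of_nonneg_left h4 hΛ0.le
        _ = s := hs.symm
    have hDL : D ≤ d * L := by
      rw [hDdef]
      exact_mod_cast (hMG.2 d L).2.2.2.1 x y
    have hLpos : (0 : ℝ) < L := by exact_mod_cast (show 0 < L by omega)
    -- the scale `s`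
    have hsr : s ≤ t ^ ((d : ℝ) / 2 - ε) := by
      have h4 : D ^ 2 ≤ (t ^ ((d : ℝ) / 4 - ε)) ^ 2 := pow_le_pow_left₀ hD0 hD 2
      have h5 : (t ^ ((d : ℝ) / 4 - ε)) ^ 2 = t ^ ((d : ℝ) / 2 - ε) * t ^ (-ε) := by
        rw [← Real.rpow_natCast, ← Real.rpow_mul ht0.le, ← Real.rpow_add ht0]
        congr 1
        push_cast
        ring
      have h6 : Λ ≤ t ^ ε := by
        calc Λ ≤ max 1 Λ := le_max_right _ _
          _ = ((max 1 Λ) ^ (1 / ε)) ^ ε := by
              rw [← Real.rpow_mul (by positivity), one_div, inv_mul_cancel₀ hε.ne', Real.rpow_one]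
          _ ≤ t ^ ε := Real.rpow_le_rpow (by positivity) htT2 hε.le
      have h7 : 0 < t ^ ((d : ℝ) / 2 - ε) := Real.rpow_pos_of_pos ht0 _
      have h8 : Λ * t ^ (-ε) ≤ 1 := by
        rw [Real.rpow_neg ht0.le, ← div_eq_mul_inv, div_le_one (Real.rpow_pos_of_pos ht0 _)]
        exact h6
      calc s = Λ * D ^ 2 := hs
        _ ≤ Λ * (t ^ ((d : ℝ) / 2 - ε) * t ^ (-ε)) := by
            rw [← h5]
            exact mul_le_mul_of_nonneg_left h4 hΛ0.le
        _ = Λ * t ^ (-ε) * t ^ ((d : ℝ) / 2 - ε) := by ring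
        _ ≤ 1 * t ^ ((d : ℝ) / 2 - ε) := mul_le_mul_of_nonneg_right h8 h7.le
        _ = _ := one_mul _
    have hsL : s ≤ max 1 (Λ * d ^ 2) * (L : ℝ) ^ 2 := by
      calc s = Λ * D ^ 2 := hs
        _ ≤ Λ * (d * L) ^ 2 := mul_le_mul_of_nonneg_left (pow_le_pow_left₀ hD0 hDL 2) hΛ0.le
        _ = Λ * d ^ 2 * (L : ℝ) ^ 2 := by ring
        _ ≤ _ := mul_le_mul_of_nonneg_right (le_max_right _ _) (by positivity)
    have hAs := hcore t htT1 L hL s hsp.le hsr hsL
    have hAs0 := h2 L hL t s0 ht0 hs0'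
    obtain ⟨hlow, hupp⟩ := h3 L hL t s0 s ht0 hs0' hss x y hxy
    -- small quantities
    have hratio : Real.sqrt s0 / Real.sqrt t = δ := by
      rw [hsq0]
      field_simp
    rw [hratio] at hAs0 hlow hupp
    obtain ⟨S, hS⟩ : ∃ S : ℝ, S = (1 / (L : ℝ) + 1 / Real.sqrt s0) ^ d := ⟨_, rfl⟩
    rw [← hS] at hAs0 hlow
    have hS1 : S ≤ η1 := by
      have h4 : 1 / (L : ℝ) ≤ d / a / Real.sqrt t := by
        rw [div_div, div_le_div_iff₀ hLpos (by positivity)]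
        linarith
      have h5 : 1 / Real.sqrt s0 = 1 / δ / Real.sqrt t := by
        rw [hsq0, div_div]
      have h6 : 1 / (L : ℝ) + 1 / Real.sqrt s0 ≤ B / Real.sqrt t := by
        rw [h5, hB, add_div]
        linarith
      have h7 : B / η1 + B ≤ Real.sqrt t := Real.le_sqrt_of_sq_le htT3
      have h8 : B / Real.sqrt t ≤ 1 := by
        rw [div_le_one hst]
        have : 0 < B / η1 := by positivity
        linarith
      have h9 : B / Real.sqrt t ≤ η1 := by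
        rw [div_le_iff₀ hst]
        have h10 : B / η1 ≤ Real.sqrt t := by linarith
        rw [div_le_iff₀ hη10] at h10
        linarith
      have h0 : 0 ≤ 1 / (L : ℝ) + 1 / Real.sqrt s0 := by positivity
      calc S = (1 / (L : ℝ) + 1 / Real.sqrt s0) ^ d := hS
        _ ≤ (B / Real.sqrt t) ^ d := pow_le_pow_left₀ h0 h6 d
        _ ≤ (B / Real.sqrt t) ^ 1 := pow_le_pow_of_le_one (by positivity) h8 (by omega)
        _ ≤ η1 := by rw [pow_one]; exact h9
    have hS0 : 0 ≤ S := by rw [hS]; positivity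
    have hDs : C3 * (D ^ 2 / s) ≤ η1 := by
      have h4 : D ^ 2 / s = η1 / C := by
        rw [hs, hΛ]
        field_simp
      rw [h4]
      calc C3 * (η1 / C) ≤ C * (η1 / C) := mul_le_mul_of_nonneg_right hC3' (by positivity)
        _ = η1 := by field_simp
    rw [← hDdef] at hlow
    have hc2 : C2 * δ ≤ η1 := (mul_le_mul_of_nonneg_right hC2' hδ0.le).trans hδ1
    have hc3 : C3 * δ ≤ η1 := (mul_le_mul_of_nonneg_right hC3' hδ0.le).trans hδ1
    have hηe : η = 16 * η1 := by rw [hη1]; ring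
    rw [abs_le]
    constructor <;> linarith

end Pool.Agent.R134.PB.Twopt
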