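import Pool.Agent.R134.PB.Avg
import Pool.Agent.R134.PB.Chain
import Pool.Agent.R134.PB.Cho
import Pool.Agent.R134.PB.Cmp
import Pool.Agent.R134.PB.Dl
import Pool.Agent.R134.PB.Fix
import Pool.Agent.R134.PB.Grad
import Pool.Agent.R134.PB.Lco
import Pool.Agent.R134.PB.Len
import Pool.Agent.R134.PB.Lip
import Pool.Agent.R134.PB.Lln
import Pool.Agent.R134.PB.Lpr
import Pool.Agent.R134.PB.Ltw
import Pool.Agent.R134.PB.MomGeo
import Pool.Agent.R134.PB.Mono
import Pool.Agent.R134.PB.Num
import Pool.Agent.R134.PB.One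
import Pool.Agent.R134.PB.Pds
import Pool.Agent.R134.PB.Pt
import Pool.Agent.R134.PB.Sta
import Pool.Agent.R134.PB.Step
import Pool.Agent.R134.PB.Sym
import Pool.Agent.R134.PB.Thr
import Pool.Agent.R134.PB.Tor2
import Pool.Agent.R134.PB.Tra
import Pool.Agent.R134.PB.Twopt

/-!
# Project PB: the parts put together
-/

set_option autoImplicit false

namespace Pool.Agent.R134.PB.All

open Pool.Agent.R134.PB

theorem geo : S_GEO := MomGeo.main.2

theorem lip_tp : S_LIP ∧ S_TP := Lip.main Dl.main

theorem sta : S_STA := Sta.main lip_tp.2 MomGeo.main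

theorem fix : S_FIX := Fix.main Thr.main (Sym.main Thr.main) Lln.main

theorem step : S_STEP :=
  Step.main fix Avg.main Cho.main (Tor2.main (Ltw.main Lpr.main Lco.main)) One.main MomGeo.main
    Dl.main

theorem core : S_CORE := Chain.main step sta Num.main Mono.main

theorem pt : S_PT := Pt.main Grad.main lip_tp.1 lip_tp.2 Tra.main Mono.main MomGeo.main.1

theorem twopt : S_TWOPT := Twopt.main core pt lip_tp.2 MomGeo.main

theorem cmp : S_CMP := Cmp.main

theorem len : S_LEN := Len.main cmp

end Pool.Agent.R134.PB.All
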