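import Pool.Agent.R134.PB.Stm

/-!
# PB-AVG: averaging over translations
-/

set_option autoImplicit false

namespace Pool.Agent.R134.PB.Avg

open Finset Equiv
open Pool.Agent.Y998.ST
open Pool.Agent.R134.PB

section gen

variable {V : Type} [Fintype V] [DecidableEq V]

theorem exp_mul (J : V → V → ℝ) (t c : ℝ) (F : Perm V → ℝ) :
    c * stirExp J t F = stirExp J t (fun g => c * F g) := by
  unfold stirExp
  rw [Finset.mul_sum]
  exact Finset.sum_congr rfl fun g _ => by ring

theorem exp_sub (J : V → V → ℝ) (t : ℝ) (F G : Perm V → ℝ) :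
    stirExp J t F - stirExp J t G = stirExp J t (fun g => F g - G g) := by
  unfold stirExp
  rw [← Finset.sum_sub_distrib]
  exact Finset.sum_congr rfl fun g _ => by ring

open Classical in
/-- the contribution of the starting point `y` -/
noncomputable def D (J : V → V → ℝ) (t s : ℝ) (K : ℕ) (g : Perm V) (y : V) : ℝ :=
  ∑ x, (if g.SameCycle x y then (qq J s x ((g ^ K) y) - qq J (s + K * t) x y) else 0)

open Classical in
theorem AA_eq (J : V → V → ℝ) (t s : ℝ) : AA J t s =
    stirExp J t (fun g => ∑ x, ∑ y, qq J s x y * (if g.SameCycle x y then 1 else 0)) /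
      Fintype.card V := by
  unfold AA con
  congr 1
  rw [← exp_sum]
  refine Finset.sum_congr rfl fun x _ => ?_
  rw [← exp_sum]
  refine Finset.sum_congr rfl fun y _ => ?_
  rw [exp_mul]

open Classical in
theorem key (J : V → V → ℝ) (t s : ℝ) (K : ℕ) (g : Perm V) :
    (∑ x, ∑ y, qq J s x y * (if g.SameCycle x y then 1 else 0)) -
      ∑ x, ∑ y, qq J (s + K * t) x y * (if g.SameCycle x y then 1 else 0) =
    ∑ y, D J t s K g y := by
  have h1 : (∑ x, ∑ y, qq J s x y * (if g.SameCycle x y then (1 : ℝ) else 0)) =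
      ∑ x, ∑ y, qq J s x ((g ^ K) y) * (if g.SameCycle x y then 1 else 0) := by
    refine Finset.sum_congr rfl fun x _ => ?_
    rw [← Equiv.sum_comp (g ^ K)]
    refine Finset.sum_congr rfl fun y _ => ?_
    congr 1
    have h2 : g.SameCycle x ((g ^ K) y) ↔ g.SameCycle x y := Equiv.Perm.sameCycle_pow_right
    by_cases h : g.SameCycle x y
    · rw [if_pos h, if_pos (h2.2 h)]
    · rw [if_neg h, if_neg (fun h' => h (h2.1 h'))]
  rw [h1, Finset.sum_comm, Finset.sum_comm (f := fun x y => qq J (s + K * t) x y *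
    (if g.SameCycle x y then (1 : ℝ) else 0)), ← Finset.sum_sub_distrib]
  refine Finset.sum_congr rfl fun y _ => ?_
  rw [← Finset.sum_sub_distrib]
  unfold D
  refine Finset.sum_congr rfl fun x _ => ?_
  split_ifs <;> ring

theorem diff_eq (J : V → V → ℝ) (t s : ℝ) (K : ℕ) :
    AA J t s - AA J t (s + K * t) =
      stirExp J t (fun g => ∑ y, D J t s K g y) / Fintype.card V := by
  rw [AA_eq, AA_eq, ← sub_div, exp_sub]
  congr 2
  funext g
  exact key J t s K g

end gen

theorem main : S_AVG := by
  intro d L _ hL t s ht hs K n hn β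
  have hcard : (Fintype.card (Fin d → ZMod L) : ℝ) = (L : ℝ) ^ d := by
    rw [Fintype.card_fun, ZMod.card, Fintype.card_fin]
    push_cast
    rfl
  rw [diff_eq, hcard]
  congr 1
  have h1 : ∀ z : Fin d → ZMod L, UF (nnRate d L) t s K (fun l => z + β l) =
      stirExp (nnRate d L) t (fun g => (∑ l, D (nnRate d L) t s K g (z + β l)) / n) := fun z => rfl
  simp only [h1]
  rw [exp_sum]
  congr 1
  funext g
  rw [← Finset.sum_div, Finset.sum_comm]
  have h2 : ∀ l, ∑ z, D (nnRate d L) t s K g (z + β l) = ∑ y, D (nnRate d L) t s K g y := fun l =>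
    Equiv.sum_comp (Equiv.addRight (β l)) (fun y => D (nnRate d L) t s K g y)
  simp only [h2]
  rw [Finset.sum_const, Finset.card_univ, Fintype.card_fin, nsmul_eq_mul]
  have hn' : (n : ℝ) ≠ 0 := by exact_mod_cast (by omega : n ≠ 0)
  field_simp

end Pool.Agent.R134.PB.Avg
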