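import Pool.Agent.R134.PB.Stm
import Pool.Agent.Results.MP_6c3d62_pr.CyclesFollowRandomWalk

/-!
# Project PB, part ONE: one orbit
-/

set_option autoImplicit false

namespace Pool.Agent.R134.PB.One

open Finset Equiv
open Pool.Agent.Y998.ST
open Pool.Agent.Y661.PD (dl Free tdist)
open Pool.Agent.R134.PB

section gen

variable {V : Type} [Fintype V] [DecidableEq V]

/-- the kernel of a chain with a marked function -/
noncomputable def kf (q : Matrix V V ℝ) (f : V → ℝ) (p : ℕ) : ℕ → V → V → ℝ :=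
  fun l x w => if l = p then q x w * f w else q x w

theorem CS_kf {q : Matrix V V ℝ} (hq : ∀ x, ∑ y, q x y = 1) (f : V → ℝ) (p : ℕ) :
    ∀ (n : ℕ) (v : V), p < n → CS n (kf q f p) v = ((q ^ (p + 1)).mulVec f) v := by
  induction p with
  | zero =>
    intro n v hn
    obtain ⟨m, rfl⟩ : ∃ m, n = m + 1 := ⟨n - 1, by omega⟩
    have h1 : (fun l => kf q f 0 (l + 1)) = fun _ => (q : V → V → ℝ) := by
      funext l x w
      unfold kf
      rw [if_neg (by omega)]
    rw [CS_succ, h1]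
    simp only [CS_stoch hq, mul_one]
    rw [zero_add, pow_one]
    refine Finset.sum_congr rfl fun a _ => ?_
    unfold kf
    rw [if_pos rfl]
  | succ p ih =>
    intro n v hn
    obtain ⟨m, rfl⟩ : ∃ m, n = m + 1 := ⟨n - 1, by omega⟩
    have h1 : (fun l => kf q f (p + 1) (l + 1)) = kf q f p := by
      funext l x w
      unfold kf
      by_cases h : l = p
      · rw [if_pos (by omega), if_pos h]
      · rw [if_neg (by omega), if_neg h]
    have h0 : kf q f (p + 1) 0 = q := by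
      funext x w
      unfold kf
      rw [if_neg (by omega)]
    rw [CS_succ, h1, h0]
    simp only [ih m _ (by omega)]
    rw [pow_succ' q (p + 1), ← Matrix.mulVec_mulVec]
    rfl

theorem marg {q : Matrix V V ℝ} (hq : ∀ x, ∑ y, q x y = 1) (f : V → ℝ) (n : ℕ) (i : Fin n)
    (v : V) : ∑ y : Fin n → V, (∏ l, q (pre v y l) (y l)) * f (y i) =
      ((q ^ ((i : ℕ) + 1)).mulVec f) v := by
  rw [← CS_kf hq f i n v i.2]
  unfold CS
  refine Finset.sum_congr rfl fun y _ => ?_
  have h1 : ∀ l : Fin n, kf q f i l (pre v y l) (y l) =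
      q (pre v y l) (y l) * (if l = i then f (y l) else 1) := by
    intro l
    unfold kf
    by_cases h : l = i
    · rw [if_pos (by rw [h]), if_pos h]
    · rw [if_neg (fun h' => h (Fin.ext h')), if_neg h, mul_one]
  rw [Finset.prod_congr rfl fun l _ => h1 l, Finset.prod_mul_distrib]
  congr 1
  rw [Finset.prod_ite_eq' Finset.univ i (fun l => f (y l)), if_pos (Finset.mem_univ _)]

/-- the law of the path -/
noncomputable def PP (J : V → V → ℝ) (t : ℝ) (K : ℕ) (v : V) (y : Fin K → V) : ℝ :=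
  stirExp J t (fun g => if ∀ i : Fin K, (g ^ ((i : ℕ) + 1)) v = y i then 1 else 0)

/-- the law of the random walk -/
noncomputable def WW (J : V → V → ℝ) (t : ℝ) (K : ℕ) (v : V) (y : Fin K → V) : ℝ :=
  ∏ i : Fin K, hop J t (pre v y i) (y i)

theorem path_exp (J : V → V → ℝ) (t : ℝ) (K : ℕ) (v : V) (G : (Fin K → V) → ℝ) :
    stirExp J t (fun g => G (fun i => (g ^ ((i : ℕ) + 1)) v)) = ∑ y, PP J t K v y * G y := by
  unfold PP stirExp
  simp only [Finset.sum_mul]
  rw [Finset.sum_comm]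
  refine Finset.sum_congr rfl fun g _ => ?_
  rw [Finset.sum_eq_single (fun i : Fin K => (g ^ ((i : ℕ) + 1)) v)]
  · rw [if_pos (fun i => rfl), mul_one]
  · intro y _ hy
    rw [if_neg, mul_zero, zero_mul]
    intro h
    exact hy (funext fun i => (h i).symm)
  · intro h; exact absurd (Finset.mem_univ _) h

theorem path_diff (J : V → V → ℝ) (t : ℝ) (K : ℕ) (v : V) (G : (Fin K → V) → ℝ) :
    |stirExp J t (fun g => G (fun i => (g ^ ((i : ℕ) + 1)) v)) - ∑ y, WW J t K v y * G y| ≤
      ∑ y, |PP J t K v y - WW J t K v y| * |G y| := by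
  rw [path_exp, ← Finset.sum_sub_distrib]
  refine (Finset.abs_sum_le_sum_abs _ _).trans (le_of_eq ?_)
  refine Finset.sum_congr rfl fun y _ => ?_
  rw [← sub_mul, abs_mul]

theorem walk_marg {J : V → V → ℝ} (hs : ∀ x y, J x y = J y x) (h0 : ∀ x, J x x = 0) (t : ℝ)
    (K : ℕ) (v : V) (i : Fin K) (u : V) :
    ∑ y, WW J t K v y * (if y i = u then 1 else 0) = qq J (((i : ℕ) + 1 : ℕ) * t) v u := by
  have h := marg (qq_row J t) (fun w => if w = u then (1 : ℝ) else 0) K i v
  rw [qq_pow hs h0] at h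
  refine Eq.trans ?_ (h.trans ?_)
  · rfl
  · unfold Matrix.mulVec dotProduct
    simp

theorem pd1_le {J : V → V → ℝ} (hs : ∀ x y, J x y = J y x) (h0 : ∀ x, J x x = 0) (t : ℝ)
    (K : ℕ) (hK : 1 ≤ K) (v : V) :
    PD1 J t K v ≤ ∑ y, |PP J t K v y - WW J t K v y| := by
  unfold PD1
  obtain ⟨m, rfl⟩ : ∃ m, K = m + 1 := ⟨K - 1, by omega⟩
  have h1 : ∀ u : V, |stirExp J t (fun g => if (g ^ (m + 1)) v = u then 1 else 0) -
      qq J (((m + 1 : ℕ) : ℝ) * t) v u| ≤
      ∑ y : Fin (m + 1) → V, |PP J t (m + 1) v y - WW J t (m + 1) v y| *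
        (if y (Fin.last m) = u then 1 else 0) := by
    intro u
    have h2 := path_diff J t (m + 1) v (fun y => if y (Fin.last m) = u then 1 else 0)
    have h3 := walk_marg hs h0 t (m + 1) v (Fin.last m) u
    rw [h3] at h2
    refine le_trans (le_of_eq ?_) (h2.trans (le_of_eq ?_))
    · rfl
    · refine Finset.sum_congr rfl fun y _ => ?_
      congr 1
      split_ifs
      · exact abs_one
      · exact abs_zero
  have h4 := Finset.sum_le_sum fun u (_ : u ∈ (Finset.univ : Finset V)) => h1 u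
  refine le_trans (le_of_eq ?_) (h4.trans (le_of_eq ?_))
  · refine Finset.sum_congr rfl fun u _ => ?_
    congr 2
  · rw [Finset.sum_comm]
    refine Finset.sum_congr rfl fun y _ => ?_
    rw [← Finset.mul_sum, Finset.sum_ite_eq, if_pos (Finset.mem_univ _), mul_one]

open Classical in
theorem free_le {J : V → V → ℝ} (hJ : ∀ x y, 0 ≤ J x y) (hs : ∀ x y, J x y = J y x)
    (h0 : ∀ x, J x x = 0) {t : ℝ} (ht : 0 ≤ t) (K : ℕ) (n : ℕ) (b : Fin n → V) (v : V) :
    stirExp J t (fun g => if Free b g v K then 0 else 1) ≤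
      ∑ y, |PP J t K v y - WW J t K v y| +
        ∑ i : Fin K, ∑ l : Fin n, qq J (((i : ℕ) + 1 : ℕ) * t) v (b l) := by
  obtain ⟨G, hG⟩ : ∃ G : (Fin K → V) → ℝ, G = fun y => if ∃ i, y i ∈ Set.range b then 1 else 0 :=
    ⟨_, rfl⟩
  have hG0 : ∀ y, 0 ≤ G y := by
    intro y; rw [hG]; simp only; split_ifs <;> norm_num
  have hG1 : ∀ y, G y ≤ 1 := by
    intro y; rw [hG]; simp only; split_ifs <;> norm_num
  have hW0 : ∀ y, 0 ≤ WW J t K v y := fun y =>
    Finset.prod_nonneg fun i _ => qq_nonneg hJ ht _ _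
  have h1 : stirExp J t (fun g => if Free b g v K then 0 else 1) =
      stirExp J t (fun g => G (fun i => (g ^ ((i : ℕ) + 1)) v)) := by
    congr 1
    funext g
    rw [hG]
    simp only
    by_cases h : Free b g v K
    · rw [if_pos h, if_neg]
      rintro ⟨i, hi⟩
      exact h ((i : ℕ) + 1) (by omega) (by omega) hi
    · rw [if_neg h, if_pos]
      unfold Free at h
      push Not at h
      obtain ⟨s, hs1, hs2, hs3⟩ := h
      refine ⟨⟨s - 1, by omega⟩, ?_⟩
      have : s - 1 + 1 = s := by omega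
      simp only [this]
      exact hs3
  have h2 := path_diff J t K v G
  have h3 : ∑ y, |PP J t K v y - WW J t K v y| * |G y| ≤ ∑ y, |PP J t K v y - WW J t K v y| := by
    refine Finset.sum_le_sum fun y _ => ?_
    rw [abs_of_nonneg (hG0 y)]
    exact mul_le_of_le_one_right (abs_nonneg _) (hG1 y)
  have h4 : ∑ y, WW J t K v y * G y ≤
      ∑ i : Fin K, ∑ l : Fin n, qq J (((i : ℕ) + 1 : ℕ) * t) v (b l) := by
    have h5 : ∀ y, G y ≤ ∑ i : Fin K, ∑ l : Fin n, (if y i = b l then (1 : ℝ) else 0) := by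
      intro y
      have h0' : ∀ i : Fin K, 0 ≤ ∑ l : Fin n, (if y i = b l then (1 : ℝ) else 0) := fun i =>
        Finset.sum_nonneg fun l _ => by split_ifs <;> norm_num
      by_cases h : ∃ i, y i ∈ Set.range b
      · obtain ⟨i, l, hl⟩ := h
        refine (hG1 y).trans ?_
        refine le_trans ?_ (Finset.single_le_sum (fun i _ => h0' i) (Finset.mem_univ i))
        refine le_trans ?_ (Finset.single_le_sum
          (f := fun l => (if y i = b l then (1 : ℝ) else 0))
          (fun l _ => by split_ifs <;> norm_num) (Finset.mem_univ l))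
        rw [if_pos hl.symm]
      · rw [hG]
        simp only
        rw [if_neg h]
        exact Finset.sum_nonneg fun i _ => h0' i
    refine (Finset.sum_le_sum fun y _ => mul_le_mul_of_nonneg_left (h5 y) (hW0 y)).trans
      (le_of_eq ?_)
    simp only [Finset.mul_sum]
    rw [Finset.sum_comm]
    refine Finset.sum_congr rfl fun i _ => ?_
    rw [Finset.sum_comm]
    refine Finset.sum_congr rfl fun l _ => ?_
    exact walk_marg hs h0 t K v i (b l)
  rw [h1]
  have h6 := abs_le.1 h2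
  linarith [h6.2]

end gen

theorem main : S_ONE := by
  intro d hd
  have hd3 : (3 : ℝ) ≤ d := by exact_mod_cast hd
  obtain ⟨C0, hC0, hmain⟩ :=
    Pool.Agent.Results.MP_6c3d62_pr.CyclesFollowRandomWalk.result d hd
  have hsum : Summable fun n : ℕ => 1 / (n : ℝ) ^ ((d : ℝ) / 2) :=
    Real.summable_one_div_nat_rpow.2 (by linarith)
  obtain ⟨Z, hZ⟩ : ∃ Z : ℝ, Z = ∑' n : ℕ, 1 / (n : ℝ) ^ ((d : ℝ) / 2) := ⟨_, rfl⟩
  have hZ0 : 0 ≤ Z := by rw [hZ]; exact tsum_nonneg fun n => by positivity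
  refine ⟨C0 + 2 ^ d * (1 + Z), by positivity, fun L _ hL t ht K hK => ?_⟩
  have ht0 : 0 < t := by linarith
  have hLpos : (0 : ℝ) < L := by exact_mod_cast (show 0 < L by omega)
  have hK1 : (1 : ℝ) ≤ K := by exact_mod_cast hK
  have heK : 0 ≤ eK d L K t := by
    unfold eK
    positivity
  have hPW : ∀ v, ∑ y, |PP (nnRate d L) t K v y - WW (nnRate d L) t K v y| ≤
      C0 * eK d L K t := fun v => (hmain L hL t ht K v).2
  refine ⟨fun v => ?_, fun n b l => ?_⟩
  · refine (pd1_le nn_symm (nn_diag hL) t K hK v).trans ((hPW v).trans ?_)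
    have : 0 ≤ 2 ^ d * (1 + Z) * eK d L K t := by positivity
    linarith
  · have hn : (1 : ℝ) ≤ n := by
      have := l.2
      exact_mod_cast (show 1 ≤ n by omega)
    refine (free_le nn_nonneg nn_symm (nn_diag hL) ht0.le K n b (b l)).trans ?_
    have hq : ∀ i : Fin K, ∀ l' : Fin n, qq (nnRate d L) (((i : ℕ) + 1 : ℕ) * t) (b l) (b l') ≤
        2 ^ d * ((1 / (L : ℝ)) ^ d + t ^ (-((d : ℝ) / 2)) *
          (1 / (((i : ℕ) + 1 : ℕ) : ℝ) ^ ((d : ℝ) / 2))) := by
      intro i l'
      obtain ⟨m, hm⟩ : ∃ m : ℕ, m = (i : ℕ) + 1 := ⟨_, rfl⟩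
      rw [← hm]
      have hm0 : (0 : ℝ) < m := by exact_mod_cast (show 0 < m by omega)
      have hmt : (0 : ℝ) < m * t := by positivity
      refine (qq_torus hL hmt _ _).trans ?_
      refine (add_pow_le (by positivity) (by positivity) d).trans ?_
      rw [Pool.Agent.Results.MP_6c3d62_pr.CyclesFollowRandomWalk.sqrt_pow _ hmt]
      have h1 : ((m : ℝ) * t) ^ (-((d : ℝ) / 2)) =
          t ^ (-((d : ℝ) / 2)) * (1 / (m : ℝ) ^ ((d : ℝ) / 2)) := by
        rw [Real.mul_rpow hm0.le ht0.le, Real.rpow_neg hm0.le ((d : ℝ) / 2)]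
        ring
      rw [h1]
      refine mul_le_mul_of_nonneg_right ?_ (by positivity)
      exact pow_le_pow_right₀ (by norm_num) (by omega)
    have hsumi : ∑ i : Fin K, 1 / (((i : ℕ) + 1 : ℕ) : ℝ) ^ ((d : ℝ) / 2) ≤ Z := by
      rw [Fin.sum_univ_eq_sum_range (fun i : ℕ => 1 / ((i + 1 : ℕ) : ℝ) ^ ((d : ℝ) / 2)) K, hZ]
      have h1 := hsum.sum_le_tsum (Finset.range (K + 1)) (fun m _ => by positivity)
      rw [Finset.sum_range_succ'] at h1
      refine le_trans ?_ h1
      have : 0 ≤ 1 / ((0 : ℕ) : ℝ) ^ ((d : ℝ) / 2) := by positivity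
      linarith
    have hS : ∑ i : Fin K, ∑ l' : Fin n, qq (nnRate d L) (((i : ℕ) + 1 : ℕ) * t) (b l) (b l') ≤
        n * (2 ^ d * (K * (1 / (L : ℝ)) ^ d + t ^ (-((d : ℝ) / 2)) * Z)) := by
      refine (Finset.sum_le_sum fun i _ => Finset.sum_le_sum fun l' _ => hq i l').trans ?_
      simp only [Finset.sum_const, Finset.card_univ, Fintype.card_fin, nsmul_eq_mul]
      rw [← Finset.mul_sum]
      refine mul_le_mul_of_nonneg_left ?_ (by positivity)
      rw [← Finset.mul_sum]
      refine mul_le_mul_of_nonneg_left ?_ (by positivity)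
      rw [Finset.sum_add_distrib, ← Finset.mul_sum]
      refine add_le_add (le_of_eq ?_) (mul_le_mul_of_nonneg_left hsumi (by positivity))
      rw [Finset.sum_const, Finset.card_univ, Fintype.card_fin, nsmul_eq_mul]
    have h2 : t ^ (1 - (d : ℝ) / 2) = t * t ^ (-((d : ℝ) / 2)) := by
      rw [sub_eq_add_neg, Real.rpow_add ht0, Real.rpow_one]
    have hX : 2 ^ d * (K * (1 / (L : ℝ)) ^ d + t ^ (-((d : ℝ) / 2)) * Z) ≤
        2 ^ d * (1 + Z) * eK d L K t := by
      rw [mul_assoc]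
      refine mul_le_mul_of_nonneg_left ?_ (by positivity)
      unfold eK
      have h3 : (K : ℝ) * (1 / (L : ℝ)) ^ d ≤ (K : ℝ) ^ 2 * t / (L : ℝ) ^ d := by
        rw [one_div_pow, mul_one_div]
        refine div_le_div_of_nonneg_right ?_ (by positivity)
        nlinarith [mul_nonneg (by linarith : (0 : ℝ) ≤ K - 1) (by linarith : (0 : ℝ) ≤ t - 1)]
      have h4 : t ^ (-((d : ℝ) / 2)) ≤ K * t ^ (1 - (d : ℝ) / 2) := by
        rw [h2]
        have h5 : (0 : ℝ) ≤ t ^ (-((d : ℝ) / 2)) := by positivity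
        have h6 : 1 ≤ K * t := by nlinarith
        nlinarith
      have h7 : (0 : ℝ) ≤ (K : ℝ) ^ 2 * t / (L : ℝ) ^ d := by positivity
      have h8 : (0 : ℝ) ≤ K * t ^ (1 - (d : ℝ) / 2) := by positivity
      have h9 := mul_le_mul_of_nonneg_right h4 hZ0
      nlinarith [mul_nonneg hZ0 h7]
    have hfin : C0 * eK d L K t ≤ C0 * (n * eK d L K t) := by
      refine mul_le_mul_of_nonneg_left ?_ hC0.le
      nlinarith
    have h10 := mul_le_mul_of_nonneg_left hX (by positivity : (0 : ℝ) ≤ n)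
    have h11 := hPW (b l)
    calc _ ≤ C0 * (n * eK d L K t) + n * (2 ^ d * (1 + Z) * eK d L K t) := by linarith
      _ = _ := by ring

end Pool.Agent.R134.PB.One
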