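import Pool.Agent.Y661.PD.Stm2

/-!
# Project PB: nearest neighbour stirring on the torus, the two point function far beyond `√t`

Statements of the parts.
-/

set_option autoImplicit false

namespace Pool.Agent.R134.PB

open Finset Equiv
open Pool.Agent.Y998.ST
open Pool.Agent.Y661.PD (dl Free tdist)

section defs

variable {V : Type} [Fintype V] [DecidableEq V]

open Classical in
/-- the probability that two points are on the same cycle -/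
noncomputable def con (J : V → V → ℝ) (t : ℝ) (x y : V) : ℝ :=
  stirExp J t (fun g => if g.SameCycle x y then 1 else 0)

/-- the same, averaged with the heat kernel at time `s` -/
noncomputable def AA (J : V → V → ℝ) (t s : ℝ) : ℝ :=
  (∑ x, ∑ y, qq J s x y * con J t x y) / Fintype.card V

/-- `x` is on the thread of `g` that starts at `b m` and runs until the next point of `b` -/
def OnT {n : ℕ} (b : Fin n → V) (g : Perm V) (x : V) (m : Fin n) : Prop :=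
  ∃ p : ℕ, (g ^ p) (b m) = x ∧ ∀ q, 1 ≤ q → q ≤ p → (g ^ q) (b m) ∉ Set.range b

/-- the difference of the heat kernels from the end of the path of `b l` and from `b l` -/
noncomputable def HH (J : V → V → ℝ) (t s : ℝ) (K : ℕ) {n : ℕ} (b : Fin n → V) (l : Fin n)
    (x : V) (g : Perm V) : ℝ := qq J s x ((g ^ K) (b l)) - qq J (s + K * t) x (b l)

open Classical in
/-- the same for paths that do not meet `b` -/
noncomputable def hh (J : V → V → ℝ) (t s : ℝ) (K : ℕ) {n : ℕ} (b : Fin n → V) (l : Fin n)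
    (x : V) (g : Perm V) : ℝ := if Free b g (b l) K then HH J t s K b l x g else 0

open Classical in
/-- distance of the law of the ends of the `K`-step paths of `x` and `y` from the law for two
independent random walks -/
noncomputable def PD2 (J : V → V → ℝ) (t : ℝ) (K : ℕ) (x y : V) : ℝ :=
  ∑ u, ∑ v, |stirExp J t (fun g => if (g ^ K) x = u ∧ (g ^ K) y = v then 1 else 0) -
    qq J (K * t) x u * qq J (K * t) y v|

open Classical in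
/-- distance of the law of the end of the `K`-step path of `x` from that of a random walk -/
noncomputable def PD1 (J : V → V → ℝ) (t : ℝ) (K : ℕ) (x : V) : ℝ :=
  ∑ u, |stirExp J t (fun g => if (g ^ K) x = u then 1 else 0) - qq J (K * t) x u|

open Classical in
/-- the contribution of the points `b` -/
noncomputable def UF (J : V → V → ℝ) (t s : ℝ) (K : ℕ) {n : ℕ} (b : Fin n → V) : ℝ :=
  stirExp J t (fun g => (∑ l, ∑ x, (if g.SameCycle x (b l) then HH J t s K b l x g else 0)) / n)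

end defs

/-- THR: threads. -/
def S_THR : Prop := ∀ (V : Type) [Fintype V] [DecidableEq V] (n : ℕ) (b : Fin n → V),
  Function.Injective b → ∀ g : Perm V,
    (∀ x m m', OnT b g x m → OnT b g x m' → m = m') ∧
    (∀ i j x m, OnT b (swap (b i) (b j) * g) x m ↔ OnT b g x m) ∧
    (∀ x j, g.SameCycle x (b j) ↔ ∃ m, OnT b g x m ∧ g.SameCycle (b m) (b j)) ∧
    (∀ i j x m, (Free b (swap (b i) (b j) * g) x m ↔ Free b g x m) ∧
      (Free b g x m → ∀ q ≤ m, ((swap (b i) (b j) * g) ^ q) x = (g ^ q) x))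

open Classical in
/-- SYM: symmetrisation over the permutations of the points `b`. -/
def S_SYM : Prop := ∀ (V : Type) [Fintype V] [DecidableEq V] (J : V → V → ℝ), (∀ x y, 0 ≤ J x y) →
  ∀ t : ℝ, 0 ≤ t → ∀ (n : ℕ) (b : Fin n → V), Function.Injective b → ∀ η : ℝ, 0 ≤ η →
  (∀ i j, dl J t (swap (b i) (b j)) ≤ η) → ∀ (h : Fin n → V → Perm V → ℝ),
  (∀ i j l x g, h l x (swap (b i) (b j) * g) = h l x g) → ∀ M : ℝ, 0 ≤ M →
  (∀ l g, ∑ x, |h l x g| ≤ M) →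
  |stirExp J t (fun g => (∑ l, ∑ x, (if g.SameCycle x (b l) then h l x g else 0)) / n) -
    stirExp J t (fun g => (∑ l, ∑ x, ((if ∃ m, OnT b g x m then (1 : ℝ) else 0) +
      (if OnT b g x l then 1 else 0)) / 2 * h l x g) / n)| ≤ n * (M * η)

/-- LPR: the rate at which two strands of two orbits meet, for a family of starting points. -/
def S_LPR : Prop := ∀ (V : Type) [Fintype V] [DecidableEq V] [Nonempty V] (J : V → V → ℝ),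
  (∀ x y, 0 ≤ J x y) → (∀ x y, J x y = J y x) → (∀ x, J x x = 0) →
  ∀ (K : ℕ) (r : ℝ), (∀ x, ∑ y, J x y ≤ r) → 0 ≤ r → ∀ (s t : ℝ), 0 ≤ s → s ≤ t →
    ∀ Q : ℕ → ℝ, (∀ m : ℕ, 0 < m → ∀ a b, qq J (m * t) a b ≤ Q m) →
    ∀ (ι : Type) [Fintype ι] (X Y : ι → V) (g0 : ℝ), 0 ≤ g0 →
    (∀ u : ℝ, 0 ≤ u → ∑ a, qq J u (X a) (Y a) ≤ Fintype.card ι * g0) →
    ∀ i j : Fin (K + K), i ≠ j →
      ∑ a, ∑ p : Fin K → V, ∑ q : Fin K → V, ∑ z : Fin (K + K) → V,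
        VV J (K + K) (t - s) (Fin.append (pre (X a) p) (pre (Y a) q)) (Function.update z i (z j)) *
          J (z j) (z i) * VV J (K + K) s z (Fin.append p q) ≤
      Fintype.card ι * (if ((i : ℕ) < K ↔ (j : ℕ) < K) then
        r * Q (max (i : ℕ) j - min (i : ℕ) j) else
        r * (if (i : ℕ) % K + (j : ℕ) % K = 0 then g0 else Q ((i : ℕ) % K + (j : ℕ) % K)))

/-- LCO: coincidences, for a family of starting points. -/
def S_LCO : Prop := ∀ (V : Type) [Fintype V] [DecidableEq V] [Nonempty V] (J : V → V → ℝ),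
  (∀ x y, 0 ≤ J x y) → (∀ x y, J x y = J y x) → (∀ x, J x x = 0) →
  ∀ (K : ℕ) (t : ℝ), 0 ≤ t →
    ∀ Q : ℕ → ℝ, (∀ m : ℕ, 0 < m → ∀ a b, qq J (m * t) a b ≤ Q m) →
    ∀ (ι : Type) [Fintype ι] (X Y : ι → V),
      ∑ a, ∑ p : Fin K → V, ∑ q : Fin K → V,
        (if Function.Injective (Fin.append p q) then 0 else
          (∏ i, hop J t (pre (X a) p i) (p i)) * ∏ i, hop J t (pre (Y a) q i) (q i)) ≤
      Fintype.card ι * (2 * (K * ∑ m ∈ Finset.Ioo 0 K, Q m) +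
        ∑ m ∈ Finset.Icc (1 : ℕ) (2 * K), (((m : ℕ) : ℝ) + 1) * Q m)

/-- TWL: two orbits are close to two random walks, for a family of starting points. -/
def S_TWL : Prop := ∀ (V : Type) [Fintype V] [DecidableEq V] [Nonempty V] (J : V → V → ℝ),
  (∀ x y, 0 ≤ J x y) → (∀ x y, J x y = J y x) → (∀ x, J x x = 0) →
  ∀ (K : ℕ) (r : ℝ), (∀ x, ∑ y, J x y ≤ r) → 0 ≤ r → ∀ t : ℝ, 0 ≤ t →
    ∀ Q : ℕ → ℝ, (∀ m : ℕ, 0 < m → ∀ a b, qq J (m * t) a b ≤ Q m) →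
    ∀ (ι : Type) [Fintype ι] (X Y : ι → V) (g0 : ℝ), 0 ≤ g0 →
    (∀ u : ℝ, 0 ≤ u → ∑ a, qq J u (X a) (Y a) ≤ Fintype.card ι * g0) →
      ∑ a, ∑ p : Fin K → V, ∑ q : Fin K → V,
        |stirExp J t (fun g => if (∀ i : Fin K, (g ^ ((i : ℕ) + 1)) (X a) = p i) ∧
            (∀ i : Fin K, (g ^ ((i : ℕ) + 1)) (Y a) = q i) then 1 else 0) -
          (∏ i, hop J t (pre (X a) p i) (p i)) * ∏ i, hop J t (pre (Y a) q i) (q i)| ≤
      Fintype.card ι * (2 * ((1 + 2 * r * t) * (2 * (K * ∑ m ∈ Finset.Ioo 0 K, Q m) + g0 +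
        ∑ m ∈ Finset.Icc (1 : ℕ) (2 * K), (((m : ℕ) : ℝ) + 1) * Q m)))

/-- the error for `K` steps -/
noncomputable def eK (d L K : ℕ) (t : ℝ) : ℝ :=
  K * t ^ (1 - (d : ℝ) / 2) + (K : ℝ) ^ 2 * t / (L : ℝ) ^ d

/-- TOR2: two nearby points of the torus. -/
def S_TOR2 : Prop := ∀ d : ℕ, 3 ≤ d → ∃ C : ℝ, 0 < C ∧ ∀ (L : ℕ) [NeZero L], 3 ≤ L →
  ∀ t : ℝ, 1 ≤ t → ∀ K : ℕ, 1 ≤ K → ∀ B : Finset (Fin d → ZMod L), B.Nonempty →
    ∑ z, ∑ b ∈ B, ∑ b' ∈ B, PD2 (nnRate d L) t K (z + b) (z + b') ≤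
      C * ((L : ℝ) ^ d * (B.card : ℝ) ^ 2) * (eK d L K t + t / B.card)

open Classical in
/-- ONE: one orbit. -/
def S_ONE : Prop := ∀ d : ℕ, 3 ≤ d → ∃ C : ℝ, 0 < C ∧ ∀ (L : ℕ) [NeZero L], 3 ≤ L →
  ∀ t : ℝ, 1 ≤ t → ∀ K : ℕ, 1 ≤ K →
    (∀ v, PD1 (nnRate d L) t K v ≤ C * eK d L K t) ∧
    ∀ (n : ℕ) (b : Fin n → Fin d → ZMod L) (l : Fin n),
      stirExp (nnRate d L) t (fun g => if Free b g (b l) K then 0 else 1) ≤ C * (n * eK d L K t)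

/-- MOM: the first moment of the heat kernel. -/
def S_MOM : Prop := ∀ d : ℕ, ∃ C : ℝ, 0 < C ∧ ∀ (L : ℕ) [NeZero L], 3 ≤ L → ∀ s : ℝ, 0 ≤ s →
  ∀ v : Fin d → ZMod L,
    ∑ y, qq (nnRate d L) s v y * (tdist v y : ℝ) ≤ C * Real.sqrt s ∧
    ∑ y, qq (nnRate d L) s y v * (tdist y v : ℝ) ≤ C * Real.sqrt s

open Classical in
/-- GEO: distances and balls on the torus. -/
def S_GEO : Prop := ∀ (d L : ℕ) [NeZero L],
  (∀ x y : Fin d → ZMod L, tdist x y = tdist y x) ∧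
  (∀ x y z : Fin d → ZMod L, tdist x z ≤ tdist x y + tdist y z) ∧
  (∀ x y z : Fin d → ZMod L, tdist (z + x) (z + y) = tdist x y) ∧
  (∀ x y : Fin d → ZMod L, tdist x y ≤ d * L) ∧
  ∀ (R : ℕ) (z : Fin d → ZMod L), 1 ≤ R →
    (Finset.univ.filter fun x => tdist x z ≤ R).card ≤ (3 * R) ^ d

open Classical in
/-- LLN: the average over the points `b`. -/
def S_LLN : Prop := ∀ (V : Type) [Fintype V] [DecidableEq V] (J : V → V → ℝ), (∀ x y, 0 ≤ J x y) →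
  (∀ x y, J x y = J y x) → (∀ x, J x x = 0) → ∀ (t s : ℝ), 0 ≤ t → 0 ≤ s → ∀ (K n : ℕ), 1 ≤ n →
  ∀ (b : Fin n → V) (B : Finset V) (S e3 : ℝ), 0 ≤ S → (∀ x y, qq J s x y ≤ S) →
  (∀ l, stirExp J t (fun g => if Free b g (b l) K then 0 else 1) ≤ e3) →
  stirExp J t (fun g => ∑ x ∈ B, |(∑ l, hh J t s K b l x g) / n|) ≤
    Real.sqrt (B.card * S * (2 / n + 2 * ((∑ l, ∑ l', if l = l' then 0 else
      PD2 J t K (b l) (b l')) / (n : ℝ) ^ 2) + 4 * e3))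

/-- FIX: the contribution of fixed points `b`. -/
def S_FIX : Prop := ∀ (V : Type) [Fintype V] [DecidableEq V] (J : V → V → ℝ), (∀ x y, 0 ≤ J x y) →
  (∀ x y, J x y = J y x) → (∀ x, J x x = 0) → ∀ (t s : ℝ), 0 ≤ t → 0 ≤ s → ∀ (K n : ℕ), 1 ≤ n →
  ∀ (b : Fin n → V), Function.Injective b → ∀ (B : Finset V) (S e1 e3 η τ : ℝ), 0 ≤ S → 0 ≤ η →
  (∀ x y, qq J s x y ≤ S) → (∀ l, PD1 J t K (b l) ≤ e1) →
  (∀ l, stirExp J t (fun g => open Classical in if Free b g (b l) K then 0 else 1) ≤ e3) →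
  (∀ i j, dl J t (swap (b i) (b j)) ≤ η) →
  (∀ l, ∑ x ∈ Bᶜ, qq J (s + K * t) x (b l) ≤ τ) →
  |UF J t s K b| ≤ 2 * e3 + 2 * (n * η) + Real.sqrt (B.card * S * (2 / n + 2 * ((∑ l, ∑ l',
    if l = l' then 0 else PD2 J t K (b l) (b l')) / (n : ℝ) ^ 2) + 4 * e3)) / 2 +
      B.card * S / (2 * n) + 2 * τ + e1

/-- AVG: the points `z + β l`, averaged over `z`. -/
def S_AVG : Prop := ∀ (d L : ℕ) [NeZero L], 3 ≤ L → ∀ (t s : ℝ), 0 ≤ t → 0 ≤ s →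
  ∀ (K n : ℕ), 1 ≤ n → ∀ β : Fin n → Fin d → ZMod L,
    AA (nnRate d L) t s - AA (nnRate d L) t (s + K * t) =
      (∑ z, UF (nnRate d L) t s K (fun l => z + β l)) / (L : ℝ) ^ d

/-- CHO: the choice of points. -/
def S_CHO : Prop := ∀ (V : Type) [DecidableEq V] (B : Finset V) (n : ℕ) (W : V → V → ℝ),
  (∀ x y, 0 ≤ W x y) → B.Nonempty → 2 * n ^ 2 ≤ B.card →
  ∃ β : Fin n → V, Function.Injective β ∧ (∀ l, β l ∈ B) ∧
    (∑ l, ∑ l', if l = l' then 0 else W (β l) (β l')) / (n : ℝ) ^ 2 ≤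
      4 * ((∑ x ∈ B, ∑ y ∈ B, W x y) / (B.card : ℝ) ^ 2)

/-- MONO: monotonicity and positivity. -/
def S_MONO : Prop := ∀ (V : Type) [Fintype V] [DecidableEq V] [Nonempty V] (J : V → V → ℝ),
  (∀ x y, 0 ≤ J x y) → (∀ x y, J x y = J y x) → (∀ x, J x x = 0) → ∀ t : ℝ, 0 ≤ t →
  ∀ s s' : ℝ, 0 ≤ s → s ≤ s' → AA J t s' ≤ AA J t s

/-- the error of one step -/
noncomputable def er (d L K n ρ R : ℕ) (t s : ℝ) : ℝ :=
  Real.sqrt ((1 + 3 * R / Real.sqrt s) ^ d * (1 / n + (n * eK d L K t + t / (ρ : ℝ) ^ d))) +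
    (1 + 3 * R / Real.sqrt s) ^ d / n + n * ρ / Real.sqrt t + Real.sqrt (s + K * t) / R +
    (n * eK d L K t + t / (ρ : ℝ) ^ d)

/-- STEP: one step. -/
def S_STEP : Prop := ∀ d : ℕ, 3 ≤ d → ∃ C : ℝ, 0 < C ∧ ∀ (L : ℕ) [NeZero L], 3 ≤ L →
  ∀ (t s : ℝ), 1 ≤ t → 0 < s → ∀ K n ρ R : ℕ, 1 ≤ K → 1 ≤ n → 1 ≤ ρ → ρ ≤ L → 1 ≤ R →
    2 * n ^ 2 ≤ ρ ^ d → 2 * d * ρ ≤ R →
    AA (nnRate d L) t s - AA (nnRate d L) t (s + K * t) ≤ C * er d L K n ρ R t s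

/-- DL: the law changes little under transpositions. -/
def S_DL : Prop := ∀ d : ℕ, 1 ≤ d → ∃ C : ℝ, 0 < C ∧ ∀ (L : ℕ) [NeZero L], 3 ≤ L → ∀ t : ℝ, 0 < t →
  ∀ x y : Fin d → ZMod L, dl (nnRate d L) t (swap x y) ≤ C * tdist x y / Real.sqrt t

/-- STA: small scales, and all scales on small tori. -/
def S_STA : Prop := ∀ d : ℕ, 3 ≤ d → ∃ C : ℝ, 0 < C ∧ ∀ (L : ℕ) [NeZero L], 3 ≤ L →
  ∀ (t s : ℝ), 0 < t → 0 ≤ s → 1 / 2 - C * (Real.sqrt s / Real.sqrt t) ≤ AA (nnRate d L) t s ∧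
    1 / 2 - C * (L / Real.sqrt t) ≤ AA (nnRate d L) t s

/-- the scales of the steps -/
noncomputable def sc (s0 t : ℝ) (m : ℕ) : ℕ → ℝ
  | 0 => s0
  | i + 1 => sc s0 t m i + (m ^ i : ℕ) * t

/-- NUM: the choice of the parameters. -/
def S_NUM : Prop := ∀ d : ℕ, 3 ≤ d → ∀ (ε Λ C η : ℝ), 0 < ε → 1 ≤ Λ → 0 < C → 0 < η →
  ∃ (T : ℝ) (I : ℕ), 1 ≤ T ∧ ∀ t : ℝ, T ≤ t → ∃ (m n ρ : ℕ) (s0 : ℝ), 1 ≤ m ∧ 0 < s0 ∧
    C * (Real.sqrt s0 / Real.sqrt t) ≤ η ∧ 1 ≤ n ∧ 1 ≤ ρ ∧ 2 * n ^ 2 ≤ ρ ^ d ∧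
    C * (ρ / Real.sqrt t) ≤ η ∧
    t ^ ((d : ℝ) / 2) ≤ sc s0 t m I ∧
    ∀ (L : ℕ), 3 ≤ L → ∀ i : ℕ, i < I → sc s0 t m i ≤ t ^ ((d : ℝ) / 2 - ε) →
      sc s0 t m i ≤ Λ * (L : ℝ) ^ 2 → ∃ R : ℕ, 1 ≤ R ∧ 2 * d * ρ ≤ R ∧
        C * er d L (m ^ i) n ρ R t (sc s0 t m i) ≤ η / (I + 1)

/-- CORE: the two point function up to the scale `t ^ (d / 2 - ε)`. -/
def S_CORE : Prop := ∀ d : ℕ, 3 ≤ d → ∀ (ε Λ η : ℝ), 0 < ε → 1 ≤ Λ → 0 < η →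
  ∃ T : ℝ, 1 ≤ T ∧ ∀ t : ℝ, T ≤ t → ∀ (L : ℕ) [NeZero L], 3 ≤ L → ∀ s : ℝ, 0 ≤ s →
    s ≤ t ^ ((d : ℝ) / 2 - ε) → s ≤ Λ * (L : ℝ) ^ 2 → 1 / 2 - η ≤ AA (nnRate d L) t s

end Pool.Agent.R134.PB
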