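import Pool.Agent.R134.PB.Stm

/-!
# Project PB, second part: from the averaged two point function to every pair of points

Statements of the parts.
-/

set_option autoImplicit false

namespace Pool.Agent.R134.PB

open Finset Equiv
open Pool.Agent.Y998.ST
open Pool.Agent.Y661.PD (dl Free tdist)

/-- GRAD: smoothness of the heat semigroup. -/
def S_GRAD : Prop := ∀ (d L : ℕ) [NeZero L], 3 ≤ L → ∀ s : ℝ, 0 < s →
  ∀ (f : (Fin d → ZMod L) → ℝ) (h : Fin d → ZMod L),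
    ∑ x, (∑ y, qq (nnRate d L) (s / 2) (x + h) y * f y -
      ∑ y, qq (nnRate d L) (s / 2) x y * f y) ^ 2 ≤ (tdist h 0 : ℝ) ^ 2 / s * ∑ x, f x ^ 2

/-- LIP: the two point function changes slowly. -/
def S_LIP : Prop := ∀ d : ℕ, 1 ≤ d → ∃ C : ℝ, 0 < C ∧ ∀ (L : ℕ) [NeZero L], 3 ≤ L →
  ∀ t : ℝ, 0 < t → ∀ x y y' : Fin d → ZMod L, x ≠ y → x ≠ y' →
    |con (nnRate d L) t x y - con (nnRate d L) t x y'| ≤ C * tdist y y' / Real.sqrt t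

/-- TWO: two points. -/
def S_TP : Prop := ∀ d : ℕ, 1 ≤ d → ∃ C : ℝ, 0 < C ∧ ∀ (L : ℕ) [NeZero L], 3 ≤ L →
  ∀ t : ℝ, 0 < t → ∀ x y : Fin d → ZMod L, x ≠ y →
    |con (nnRate d L) t x y - 1 / 2| ≤ C * tdist x y / Real.sqrt t

/-- TRA: translations. -/
def S_TRA : Prop := ∀ (d L : ℕ) [NeZero L], ∀ (t s : ℝ) (x y z : Fin d → ZMod L),
  con (nnRate d L) t (z + x) (z + y) = con (nnRate d L) t x y ∧
  con (nnRate d L) t x y = con (nnRate d L) t y x ∧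
  qq (nnRate d L) s (z + x) (z + y) = qq (nnRate d L) s x y ∧
  qq (nnRate d L) s x y = qq (nnRate d L) s y x

/-- PT: every pair of points. -/
def S_PT : Prop := ∀ d : ℕ, 1 ≤ d → ∃ C : ℝ, 0 < C ∧ ∀ (L : ℕ) [NeZero L], 3 ≤ L →
  ∀ t s0 s : ℝ, 0 < t → 0 < s0 → s0 ≤ s → ∀ x y : Fin d → ZMod L, x ≠ y →
    AA (nnRate d L) t s0 - 4 * (AA (nnRate d L) t s0 - AA (nnRate d L) t s) -
      C * ((tdist x y : ℝ) ^ 2 / s) - C * (Real.sqrt s0 / Real.sqrt t) -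
      (1 / L + 1 / Real.sqrt s0) ^ d ≤ con (nnRate d L) t x y ∧
    con (nnRate d L) t x y ≤ AA (nnRate d L) t s0 + C * (Real.sqrt s0 / Real.sqrt t)

/-- TWOPT: the two point function up to the distance `t ^ (d / 4 - ε)`. -/
def S_TWOPT : Prop := ∀ d : ℕ, 3 ≤ d → ∀ (ε η : ℝ), 0 < ε → 0 < η →
  ∃ T : ℝ, 1 ≤ T ∧ ∀ t : ℝ, T ≤ t → ∀ (L : ℕ) [NeZero L], 3 ≤ L → ∀ x y : Fin d → ZMod L,
    x ≠ y → (tdist x y : ℝ) ≤ t ^ ((d : ℝ) / 4 - ε) → |con (nnRate d L) t x y - 1 / 2| ≤ η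

end Pool.Agent.R134.PB
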