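import Pool.Agent.R134.PB.Stm2
import Pool.Agent.TH268.PD.Defs

/-!
# Project PB, third part: sets of points

Statements of the parts.
-/

set_option autoImplicit false

namespace Pool.Agent.R134.PB

open Finset Equiv
open Pool.Agent.Y998.ST
open Pool.Agent.Y661.PD (dl Free tdist)
open Pool.Agent.TH268.PD (Cyc cyOf)

section defs

variable {V : Type}

/-- the fraction of `B` in the cycle `γ` -/
noncomputable def bf (B : Finset V) (g : Perm V) (γ : Cyc g) : ℝ :=
  (Nat.card {v : V // v ∈ B ∧ cyOf g v = γ} : ℝ) / B.card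

end defs

/-- the two point function is nearly `1 / 2` between the points of `B` -/
def Near {V : Type} [Fintype V] [DecidableEq V] (J : V → V → ℝ) (t η : ℝ) (B B' : Finset V) :
    Prop := ∀ x ∈ B, ∀ y ∈ B', x ≠ y → |con J t x y - 1 / 2| ≤ η

/-- CMP: comparison of two sets. -/
def S_CMP : Prop := ∀ (V : Type) [Fintype V] [DecidableEq V] (J : V → V → ℝ), (∀ x y, 0 ≤ J x y) →
  ∀ (t η : ℝ), 0 ≤ t → 0 ≤ η → ∀ (B B' : Finset V), B.Nonempty → B'.Nonempty →
  Near J t η B B → Near J t η B' B' → Near J t η B B' →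
  stirExp J t (fun g => ∑ᶠ γ : Cyc g, (bf B g γ - bf B' g γ) ^ 2) ≤
    4 * η + 1 / B.card + 1 / B'.card

open Classical in
/-- LEN: the cycles of the points of a small set have many points in a large set. -/
def S_LEN : Prop := ∀ (V : Type) [Fintype V] [DecidableEq V] (J : V → V → ℝ), (∀ x y, 0 ≤ J x y) →
  ∀ (t η η0 : ℝ), 0 ≤ t → 0 ≤ η → 0 ≤ η0 → ∀ (B B0 : Finset V), B.Nonempty → B0.Nonempty →
  Near J t η B B → Near J t η B0 B0 → Near J t η B B0 →
  (∀ x ∈ B0, ∀ y ∈ B0, dl J t (swap x y) ≤ η0) → ∀ k : ℕ, 1 ≤ k →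
  (∑ v ∈ B0, stirExp J t (fun g => if (cycleLen g v : ℝ) ≤ B.card / (4 * k) then 1 else 0)) /
      B0.card ≤
    2 * (1 / (k + 1) + (k + 1) * η0 + (k + 1) ^ 2 / B0.card) +
      4 * k * Real.sqrt (4 * η + 1 / B.card + 1 / B0.card)

end Pool.Agent.R134.PB
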