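import Pool.Agent.Y998.ST.Defs

/-!
# Project PB, fourth part: the mass of the longest cycles

Statement.
-/

set_option autoImplicit false

namespace Pool.Agent.R134.PB

open Finset Equiv
open Pool.Agent.Y998.ST

/-- The `i`-th longest cycle length (`i = 0` for the longest) divided by the number of points, and
`0` if there are at most `i` cycles. -/
noncomputable def pf {V : Type} [Fintype V] [DecidableEq V] (g : Perm V) (i : ℕ) : ℝ :=
  sSup {x : ℝ | i + 1 ≤ Multiset.card
    (Multiset.filter (fun c : ℕ => x ≤ (c : ℝ) / Fintype.card V) g.partition.parts)}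

/-- TOP: the long cycles are among the first ones. -/
def S_TOP : Prop := ∀ (V : Type) [Fintype V] [DecidableEq V] [Nonempty V] (g : Perm V) (k : ℕ)
  (c : ℝ), 0 < c → 1 ≤ k * c →
  (Nat.card {v : V // c * Fintype.card V < cycleLen g v} : ℝ) / Fintype.card V ≤
    ∑ i ∈ Finset.range k, pf g i

end Pool.Agent.R134.PB
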