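import Pool.Agent.R134.PB.Stm4
import Pool.Agent.TH268.PD.Rec

/-!
# PB-TOP: the mass of the longest cycles (helper159)
-/

set_option autoImplicit false

namespace Pool.Agent.R134.PB.TopS

open Finset Equiv
open Pool.Agent.Y998.ST
open Pool.Agent.TH268.PD (Cyc cyOf Rec.sum_cyc Rec.cy_eq)

variable {V : Type} [Fintype V] [DecidableEq V]

/-- the set in the definition of `pf` -/
def pset (g : Perm V) (i : ℕ) : Set ℝ := {x : ℝ | i + 1 ≤ Multiset.card
    (Multiset.filter (fun c : ℕ => x ≤ (c : ℝ) / Fintype.card V) g.partition.parts)}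

theorem part_le (g : Perm V) {c : ℕ} (hc : c ∈ g.partition.parts) : c ≤ Fintype.card V := by
  have h1 := Multiset.single_le_sum (fun x _ => Nat.zero_le x) c hc
  rwa [g.partition.parts_sum] at h1

theorem bdd (g : Perm V) (i : ℕ) : BddAbove (pset g i) := by
  refine ⟨1, fun x hx => ?_⟩
  have h1 : 0 < Multiset.card
    (Multiset.filter (fun c : ℕ => x ≤ (c : ℝ) / Fintype.card V) g.partition.parts) :=
    lt_of_lt_of_le (Nat.succ_pos i) hx
  obtain ⟨c, hc⟩ := Multiset.card_pos_iff_exists_mem.1 h1
  rw [Multiset.mem_filter] at hc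
  have h2 : (c : ℝ) ≤ Fintype.card V := by exact_mod_cast part_le g hc.1
  exact hc.2.trans (div_le_one_of_le₀ h2 (Nat.cast_nonneg _))

theorem pf_nonneg (g : Perm V) (i : ℕ) : 0 ≤ pf g i := by
  unfold pf
  rcases Set.eq_empty_or_nonempty (pset g i) with h | ⟨x, hx⟩
  · have h' : {x : ℝ | i + 1 ≤ Multiset.card
      (Multiset.filter (fun c : ℕ => x ≤ (c : ℝ) / Fintype.card V) g.partition.parts)} = ∅ := h
    rw [h', Real.sSup_empty]
  · refine le_csSup (bdd g i) ?_
    have hx' : i + 1 ≤ Multiset.card
      (Multiset.filter (fun c : ℕ => x ≤ (c : ℝ) / Fintype.card V) g.partition.parts) := hx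
    change i + 1 ≤ Multiset.card
      (Multiset.filter (fun c : ℕ => (0 : ℝ) ≤ (c : ℝ) / Fintype.card V) g.partition.parts)
    have h0 : Multiset.filter (fun c : ℕ => (0 : ℝ) ≤ (c : ℝ) / Fintype.card V)
        g.partition.parts = g.partition.parts :=
      Multiset.filter_eq_self.2 fun c _ => by positivity
    rw [h0]
    exact hx'.trans (Multiset.card_le_card (Multiset.filter_le _ _))

/-- the first entries dominate any subfamily of parts -/
theorem sub_le (g : Perm V) : ∀ (J : ℕ) (T : Multiset ℕ), Multiset.card T = J →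
    T ≤ g.partition.parts →
    (T.map fun c : ℕ => (c : ℝ) / Fintype.card V).sum ≤ ∑ i ∈ Finset.range J, pf g i := by
  intro J
  induction J with
  | zero =>
    intro T hT _
    rw [Multiset.card_eq_zero.1 hT]
    simp
  | succ J ih =>
    intro T hT hle
    have hne : T ≠ 0 := by
      rintro rfl
      simp at hT
    obtain ⟨m, hm, hmin⟩ : ∃ m ∈ T, ∀ x ∈ T, m ≤ x := by
      have hfin : (T.toFinset).Nonempty := by
        rw [Multiset.toFinset_nonempty]
        exact hne
      refine ⟨T.toFinset.min' hfin, Multiset.mem_toFinset.1 (Finset.min'_mem _ _), fun x hx => ?_⟩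
      exact Finset.min'_le _ _ (Multiset.mem_toFinset.2 hx)
    have h1 := ih (T.erase m) (by rw [Multiset.card_erase_of_mem hm, hT]; rfl)
      ((Multiset.erase_le m T).trans hle)
    have h2 : (m : ℝ) / Fintype.card V ≤ pf g J := by
      unfold pf
      refine le_csSup (bdd g J) ?_
      change J + 1 ≤ Multiset.card (Multiset.filter
        (fun c : ℕ => (m : ℝ) / Fintype.card V ≤ (c : ℝ) / Fintype.card V) g.partition.parts)
      rw [← hT]
      refine Multiset.card_le_card (Multiset.le_filter.2 ⟨hle, fun x hx => ?_⟩)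
      have h3 : (m : ℝ) ≤ x := by exact_mod_cast hmin x hx
      gcongr
    rw [Finset.sum_range_succ, ← Multiset.cons_erase hm, Multiset.map_cons, Multiset.sum_cons,
      add_comm]
    exact add_le_add h1 h2

open Classical in
/-- the number of points on long cycles -/
theorem card_long (g : Perm V) (a : ℝ) :
    (Nat.card {v : V // a < cycleLen g v} : ℝ) =
      ((g.partition.parts.filter fun c : ℕ => a < c).map fun c : ℕ => (c : ℝ)).sum := by
  have : Finite (Cyc g) := Quotient.finite _
  have : Fintype (Cyc g) := Fintype.ofFinite _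
  have h1 := Rec.sum_cyc g (fun c : ℕ => if a < (c : ℝ) then (c : ℚ) else 0)
  have hlen : ∀ v : V, cycleLen g v = Nat.card {w : V // cyOf g w = cyOf g v} := by
    intro v
    unfold cycleLen
    refine Nat.card_congr (Equiv.subtypeEquivRight fun w => ?_)
    rw [Rec.cy_eq]
    exact ⟨fun h => h.symm, fun h => h.symm⟩
  have h2 : (Nat.card {v : V // a < cycleLen g v} : ℚ) =
      ∑ γ : Cyc g, (if a < ((Nat.card {w : V // cyOf g w = γ} : ℕ) : ℝ) then
        ((Nat.card {w : V // cyOf g w = γ} : ℕ) : ℚ) else 0) := by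
    rw [Nat.card_eq_fintype_card, Fintype.card_subtype, Finset.card_filter, Nat.cast_sum,
      ← Finset.sum_fiberwise (s := (univ : Finset V)) (g := cyOf g)]
    refine Finset.sum_congr rfl fun γ _ => ?_
    have h3 : ∀ v ∈ (univ : Finset V).filter (fun v => cyOf g v = γ),
        ((if a < (cycleLen g v : ℝ) then 1 else 0 : ℕ) : ℚ) =
        if a < ((Nat.card {w : V // cyOf g w = γ} : ℕ) : ℝ) then 1 else 0 := by
      intro v hv
      rw [hlen, (Finset.mem_filter.1 hv).2]
      push_cast
      rfl
    rw [Finset.sum_congr rfl h3, Finset.sum_const, nsmul_eq_mul]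
    have h4 : #{v : V | cyOf g v = γ} = Nat.card {w : V // cyOf g w = γ} := by
      rw [Nat.card_eq_fintype_card, Fintype.card_subtype]
    rw [h4]
    split_ifs <;> simp
  have h5 : ∀ s : Multiset ℕ, ((s.map fun c : ℕ => if a < (c : ℝ) then (c : ℚ) else 0).sum : ℚ) =
      (((s.filter fun c : ℕ => a < (c : ℝ)).sum : ℕ) : ℚ) := by
    intro s
    induction s using Multiset.induction_on with
    | empty => simp
    | cons x s ih =>
      rw [Multiset.map_cons, Multiset.sum_cons, ih]
      split_ifs with h
      · rw [Multiset.filter_cons_of_pos (p := fun c : ℕ => a < (c : ℝ)) _ h, Multiset.sum_cons]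
        push_cast
        ring
      · rw [Multiset.filter_cons_of_neg (p := fun c : ℕ => a < (c : ℝ)) _ h, zero_add]
  have h6 : Nat.card {v : V // a < cycleLen g v} =
      (g.partition.parts.filter fun c : ℕ => a < (c : ℝ)).sum := by
    have h7 := h2.trans (h1.trans (h5 _))
    exact_mod_cast h7
  rw [h6]
  exact map_multiset_sum (Nat.castRingHom ℝ) _

theorem main : S_TOP := by
  classical
  intro V _ _ _ g k c hc hk
  have hN : (0 : ℝ) < Fintype.card V := by exact_mod_cast Fintype.card_pos
  rw [card_long g]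
  set T : Multiset ℕ := g.partition.parts.filter fun x : ℕ => c * Fintype.card V < x with hT
  have hTle : T ≤ g.partition.parts := Multiset.filter_le _ _
  have hJ : Multiset.card T ≤ k := by
    have h1 : (T.map fun x : ℕ => (x : ℝ)).sum ≤ Fintype.card V := by
      have h2 : T.sum ≤ g.partition.parts.sum := by
        obtain ⟨U, hU⟩ := Multiset.le_iff_exists_add.1 hTle
        rw [hU, Multiset.sum_add]
        exact Nat.le_add_right _ _
      rw [g.partition.parts_sum] at h2
      have h3 : (T.map fun x : ℕ => (x : ℝ)).sum = ((T.sum : ℕ) : ℝ) :=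
        (map_multiset_sum (Nat.castRingHom ℝ) T).symm
      rw [h3]
      exact_mod_cast h2
    have h4 := Multiset.card_nsmul_le_sum (s := T.map fun x : ℕ => (x : ℝ))
      (a := c * Fintype.card V) (fun x hx => by
        obtain ⟨y, hy, rfl⟩ := Multiset.mem_map.1 hx
        rw [hT, Multiset.mem_filter] at hy
        exact hy.2.le)
    rw [Multiset.card_map, nsmul_eq_mul] at h4
    have h5 : (Multiset.card T : ℝ) * c ≤ 1 := by
      have h6 : ((Multiset.card T : ℝ) * c) * Fintype.card V ≤ 1 * Fintype.card V := by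
        rw [one_mul, mul_assoc]
        exact h4.trans h1
      exact le_of_mul_le_mul_right h6 hN
    have h7 : (Multiset.card T : ℝ) ≤ k := le_of_mul_le_mul_right (h5.trans hk) hc
    exact_mod_cast h7
  have h8 := sub_le g (Multiset.card T) T rfl hTle
  have h9 : (T.map fun x : ℕ => (x : ℝ)).sum / Fintype.card V =
      (T.map fun x : ℕ => (x : ℝ) / Fintype.card V).sum := by
    simp only [div_eq_mul_inv]
    rw [Multiset.sum_map_mul_right]
  rw [h9]
  refine h8.trans (Finset.sum_le_sum_of_subset_of_nonneg
    (Finset.range_subset_range.2 hJ) fun i _ _ => pf_nonneg g i)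

end Pool.Agent.R134.PB.TopS
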