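import Pool.Agent.R134.PB.All
import Pool.Agent.Y998.CN.Tor

/-!
# Project PB: the length of typical cycles
-/

set_option autoImplicit false

namespace Pool.Agent.R134.PB.Typ

open Finset Equiv
open Pool.Agent.Y998.ST
open Pool.Agent.Y661.PD (dl Free tdist)
open Pool.Agent.R134.PB

open Classical in
/-- translation invariance of the law of the cycle length -/
theorem len_trans (d L : ℕ) [NeZero L] (t K : ℝ) (v w : Fin d → ZMod L) :
    stirExp (nnRate d L) t (fun g => if (cycleLen g v : ℝ) ≤ K then (1 : ℝ) else 0) =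
      stirExp (nnRate d L) t (fun g => if (cycleLen g w : ℝ) ≤ K then (1 : ℝ) else 0) := by
  obtain ⟨σ, hσ⟩ : ∃ σ : Perm (Fin d → ZMod L), σ = Equiv.addLeft (w - v) := ⟨_, rfl⟩
  have hσx : ∀ x, σ x = (w - v) + x := fun x => by rw [hσ]; rfl
  have hσv : σ v = w := by rw [hσx]; abel
  have hJ : ∀ x y, nnRate d L (σ x) (σ y) = nnRate d L x y := by
    intro x y
    rw [hσx, hσx]
    unfold nnRate
    have h1 : ∀ x y : Fin d → ZMod L, ∀ a : Fin d,
        ((w - v) + y = Function.update ((w - v) + x) a (((w - v) + x) a + 1)) ↔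
          y = Function.update x a (x a + 1) := by
      intro x y a
      have h2 : Function.update ((w - v) + x) a (((w - v) + x) a + 1) =
          (w - v) + Function.update x a (x a + 1) := by
        funext i
        by_cases hi : i = a
        · subst hi
          simp only [Function.update_self, Pi.add_apply, Pi.sub_apply]
          ring
        · simp only [Function.update_of_ne hi, Pi.add_apply, Pi.sub_apply]
      rw [h2, add_right_inj]
    simp only [h1]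
  have hlen : ∀ g : Perm (Fin d → ZMod L), cycleLen (σ * g * σ⁻¹) w = cycleLen g v := by
    intro g
    unfold cycleLen
    refine (Nat.card_congr (Equiv.subtypeEquiv σ fun x => ?_)).symm
    rw [← hσv]
    exact (Pool.Agent.Y998.CN.same_conj σ g v x).symm
  unfold stirExp
  rw [← Equiv.sum_comp (MulAut.conj σ).toEquiv (fun g => stirLaw (nnRate d L) t g *
    (if (cycleLen g w : ℝ) ≤ K then (1 : ℝ) else 0))]
  refine Finset.sum_congr rfl fun g _ => ?_
  have e1 : (MulAut.conj σ).toEquiv g = σ * g * σ⁻¹ := rfl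
  rw [e1, Pool.Agent.Y998.CN.law_conj σ hJ, hlen]

open Classical in
/-- the length of typical cycles -/
theorem main (d : ℕ) (hd : 3 ≤ d) (ε : ℝ) (hε : 0 < ε) (η : ℝ) (hη : 0 < η) :
    ∃ (c T : ℝ), 0 < c ∧ ∀ t : ℝ, T ≤ t → ∀ (L : ℕ) [NeZero L], 3 ≤ L → ∀ v : Fin d → ZMod L,
      stirExp (nnRate d L) t (fun g => if (cycleLen g v : ℝ) ≤
        c * min (t ^ ((d : ℝ) ^ 2 / 4 - ε)) ((L : ℝ) ^ d) then (1 : ℝ) else 0) ≤ η := by
  have hd3 : (3 : ℝ) ≤ d := by exact_mod_cast hd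
  have hd0 : (0 : ℝ) < d := by linarith
  obtain ⟨k, hk⟩ := exists_nat_gt (8 / η)
  have hkR : (0 : ℝ) < k := lt_trans (by positivity) hk
  have hk1 : 1 ≤ k := by
    have : 0 < k := by exact_mod_cast hkR
    omega
  obtain ⟨κ, hκ⟩ : ∃ κ : ℝ, κ = η / (16 * k) := ⟨_, rfl⟩
  have hκ0 : 0 < κ := by rw [hκ]; positivity
  obtain ⟨n1, hn1⟩ := exists_nat_gt (3 / κ ^ 2)
  obtain ⟨n2, hn2⟩ := exists_nat_gt (8 * ((k : ℝ) + 1) ^ 2 / η)
  obtain ⟨ρ, hρ⟩ : ∃ ρ : ℕ, ρ = max n1 (max n2 1) := ⟨_, rfl⟩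
  have hρ1 : 1 ≤ ρ := by rw [hρ]; exact (le_max_right _ _).trans (le_max_right _ _)
  have hρn1 : n1 ≤ ρ := by rw [hρ]; exact le_max_left _ _
  have hρn2 : n2 ≤ ρ := by rw [hρ]; exact (le_max_left _ _).trans (le_max_right _ _)
  have hρR : (1 : ℝ) ≤ ρ := by exact_mod_cast hρ1
  obtain ⟨ε1, hε1⟩ : ∃ ε1 : ℝ, ε1 = min (ε / (2 * d)) (1 / 8) := ⟨_, rfl⟩
  have hε10 : 0 < ε1 := by rw [hε1]; positivity
  have hε11 : 2 * d * ε1 ≤ ε := by
    have h1 : ε1 ≤ ε / (2 * d) := by rw [hε1]; exact min_le_left _ _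
    rw [le_div_iff₀ (by positivity)] at h1
    linarith
  have hε12 : ε1 ≤ 1 / 8 := by rw [hε1]; exact min_le_right _ _
  obtain ⟨T1, hT1, htwo⟩ := All.twopt d hd ε1 (κ ^ 2 / 12) hε10 (by positivity)
  obtain ⟨C1, hC1, hdl⟩ := Dl.main d (by omega)
  obtain ⟨η0, hη0⟩ : ∃ η0 : ℝ, η0 = η / (8 * (k + 1)) := ⟨_, rfl⟩
  have hη00 : 0 < η0 := by rw [hη0]; positivity
  have hdρ : (0 : ℝ) < d * (1 + ρ) := by positivity
  obtain ⟨e1, he1⟩ : ∃ e1 : ℝ, e1 = (d : ℝ) / 4 - 2 * ε1 := ⟨_, rfl⟩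
  have he10 : 1 / 2 ≤ e1 := by rw [he1]; linarith
  refine ⟨1 / (2 ^ d * (4 * k) * (2 * (ρ : ℝ) ^ d)),
    max T1 (max ((d * (1 + ρ)) ^ (1 / ε1)) (max ((C1 * (d * ρ) / η0) ^ 2)
      ((ρ : ℝ) ^ (1 / e1)))), by positivity, ?_⟩
  intro t ht L _ hL v
  have htT1 : T1 ≤ t := (le_max_left _ _).trans ht
  have ht' := (le_max_right _ _).trans ht
  have htT2 : ((d : ℝ) * (1 + ρ)) ^ (1 / ε1) ≤ t := (le_max_left _ _).trans ht'
  have ht'' := (le_max_right _ _).trans ht'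
  have htT3 : (C1 * (d * ρ) / η0) ^ 2 ≤ t := (le_max_left _ _).trans ht''
  have htT4 : (ρ : ℝ) ^ (1 / e1) ≤ t := (le_max_right _ _).trans ht''
  have ht1 : 1 ≤ t := hT1.trans htT1
  have ht0 : 0 < t := by linarith
  have hst : 0 < Real.sqrt t := Real.sqrt_pos.2 ht0
  have hJ0 : ∀ x y, 0 ≤ nnRate d L x y := nn_nonneg
  have hL0 : (0 : ℝ) < L := by exact_mod_cast (show 0 < L by omega)
  obtain ⟨hsym, htri, htra, hdiam, _⟩ := All.geo d L
  have hP : (0 : ℝ) < 2 ^ d * (4 * k) * (2 * (ρ : ℝ) ^ d) := by positivity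
  rcases lt_or_ge L ρ with hcase | hρL
  · -- a small torus
    have h1 : ∀ g : Perm (Fin d → ZMod L), ¬ ((cycleLen g v : ℝ) ≤
        1 / (2 ^ d * (4 * k) * (2 * (ρ : ℝ) ^ d)) *
          min (t ^ ((d : ℝ) ^ 2 / 4 - ε)) ((L : ℝ) ^ d)) := by
      intro g h
      have h2 : 1 ≤ (cycleLen g v : ℝ) := by
        have h3 : 0 < cycleLen g v := by
          unfold cycleLen
          have : Nonempty {w // g.SameCycle v w} := ⟨⟨v, Perm.SameCycle.refl g v⟩⟩
          exact Nat.card_pos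
        exact_mod_cast h3
      have h4 : min (t ^ ((d : ℝ) ^ 2 / 4 - ε)) ((L : ℝ) ^ d) ≤ (ρ : ℝ) ^ d :=
        (min_le_right _ _).trans (pow_le_pow_left₀ hL0.le (by exact_mod_cast hcase.le) d)
      have h5 : 1 / (2 ^ d * (4 * k) * (2 * (ρ : ℝ) ^ d)) *
          min (t ^ ((d : ℝ) ^ 2 / 4 - ε)) ((L : ℝ) ^ d) ≤
          1 / (2 ^ d * (4 * k) * (2 * (ρ : ℝ) ^ d)) * (ρ : ℝ) ^ d :=
        mul_le_mul_of_nonneg_left h4 (by positivity)
      have h6 : 1 / (2 ^ d * (4 * k) * (2 * (ρ : ℝ) ^ d)) * (ρ : ℝ) ^ d < 1 := by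
        rw [one_div, inv_mul_lt_iff₀ hP, mul_one]
        have h7 : (1 : ℝ) ≤ 2 ^ d := one_le_pow₀ (by norm_num)
        have h8 : (1 : ℝ) ≤ k := by exact_mod_cast hk1
        have h9 : (0 : ℝ) < (ρ : ℝ) ^ d := by positivity
        have h10 : (1 : ℝ) * (4 * 1) ≤ 2 ^ d * (4 * k) :=
          mul_le_mul h7 (by linarith) (by norm_num) (by positivity)
        nlinarith
      linarith
    have h2 : (fun g : Perm (Fin d → ZMod L) => if (cycleLen g v : ℝ) ≤
        1 / (2 ^ d * (4 * k) * (2 * (ρ : ℝ) ^ d)) *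
          min (t ^ ((d : ℝ) ^ 2 / 4 - ε)) ((L : ℝ) ^ d) then (1 : ℝ) else 0) = fun _ => 0 := by
      funext g
      rw [if_neg (h1 g)]
    rw [h2, exp_const]
    exact hη.le
  -- the large box
  obtain ⟨r, hr⟩ : ∃ r : ℕ, r = min ⌊t ^ e1⌋₊ L := ⟨_, rfl⟩
  have hte1 : 1 ≤ t ^ e1 := Real.one_le_rpow ht1 (by linarith)
  have hρt : (ρ : ℝ) ≤ t ^ e1 := by
    calc (ρ : ℝ) = ((ρ : ℝ) ^ (1 / e1)) ^ e1 := by
          rw [← Real.rpow_mul (by positivity), one_div, inv_mul_cancel₀ (by linarith),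
            Real.rpow_one]
      _ ≤ t ^ e1 := Real.rpow_le_rpow (by positivity) htT4 (by linarith)
  have hρr : ρ ≤ r := by
    rw [hr]
    exact le_min (Nat.le_floor hρt) hρL
  have hr1 : 1 ≤ r := hρ1.trans hρr
  have hrL : r ≤ L := by rw [hr]; exact min_le_right _ _
  have hrt : (r : ℝ) ≤ t ^ e1 := by
    have h1 : r ≤ ⌊t ^ e1⌋₊ := by rw [hr]; exact min_le_left _ _
    exact (by exact_mod_cast h1 : (r : ℝ) ≤ (⌊t ^ e1⌋₊ : ℝ)).trans (Nat.floor_le (by positivity))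
  have hrlow : min (t ^ e1 / 2) (L : ℝ) ≤ r := by
    rcases le_total ⌊t ^ e1⌋₊ L with h1 | h1
    · have h2 : r = ⌊t ^ e1⌋₊ := by rw [hr]; exact min_eq_left h1
      rw [h2]
      refine (min_le_left _ _).trans ?_
      have h3 := Nat.lt_floor_add_one (t ^ e1)
      have h4 : (1 : ℝ) ≤ (⌊t ^ e1⌋₊ : ℝ) := by
        exact_mod_cast (show 1 ≤ ⌊t ^ e1⌋₊ by rw [← h2]; exact hr1)
      linarith
    · have h2 : r = L := by rw [hr]; exact min_eq_right h1
      rw [h2]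
      exact min_le_right _ _
  obtain ⟨B, hBc, hBd⟩ := Pool.Agent.Y259.PD.BOX.main d L r hr1 hrL
  obtain ⟨Q, hQc, hQd⟩ := Pool.Agent.Y259.PD.BOX.main d L ρ hρ1 hρL
  have hBpos : 0 < B.card := by rw [hBc]; exact pow_pos hr1 d
  have hQpos : 0 < Q.card := by rw [hQc]; exact pow_pos hρ1 d
  obtain ⟨z, hz⟩ := Finset.card_pos.1 hBpos
  obtain ⟨q0, hq0⟩ := Finset.card_pos.1 hQpos
  obtain ⟨B0, hB0⟩ : ∃ B0 : Finset (Fin d → ZMod L), B0 = Q.image (fun q => (z - q0) + q) :=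
    ⟨_, rfl⟩
  have hB0c : B0.card = ρ ^ d := by
    rw [hB0, Finset.card_image_of_injective _ (add_right_injective _), hQc]
  have hB0mem : ∀ x ∈ B0, ∃ q ∈ Q, x = (z - q0) + q := by
    intro x hx
    rw [hB0, Finset.mem_image] at hx
    obtain ⟨q, hq, hqx⟩ := hx
    exact ⟨q, hq, hqx.symm⟩
  have hB0d : ∀ x ∈ B0, ∀ y ∈ B0, tdist x y ≤ d * ρ := by
    intro x hx y hy
    obtain ⟨q, hq, rfl⟩ := hB0mem x hx
    obtain ⟨q', hq', rfl⟩ := hB0mem y hy
    rw [htra]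
    exact hQd q hq q' hq'
  have hzB0 : z ∈ B0 := by
    rw [hB0, Finset.mem_image]
    exact ⟨q0, hq0, by abel⟩
  have hB0pos : 0 < B0.card := Finset.card_pos.2 ⟨z, hzB0⟩
  have hpow : (d : ℝ) * r + d * ρ ≤ t ^ ((d : ℝ) / 4 - ε1) := by
    have h3 : (d : ℝ) * (1 + ρ) ≤ t ^ ε1 := by
      calc (d : ℝ) * (1 + ρ) = (((d : ℝ) * (1 + ρ)) ^ (1 / ε1)) ^ ε1 := by
            rw [← Real.rpow_mul hdρ.le, one_div, inv_mul_cancel₀ hε10.ne', Real.rpow_one]
        _ ≤ t ^ ε1 := Real.rpow_le_rpow (by positivity) htT2 hε10.le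
    have h4 : t ^ ((d : ℝ) / 4 - ε1) = t ^ e1 * t ^ ε1 := by
      rw [← Real.rpow_add ht0, he1]
      congr 1
      ring
    rw [h4]
    have h5 : t ^ e1 * ((d : ℝ) * (1 + ρ)) ≤ t ^ e1 * t ^ ε1 :=
      mul_le_mul_of_nonneg_left h3 (by positivity)
    have h6 : (d : ℝ) * r ≤ d * t ^ e1 := mul_le_mul_of_nonneg_left hrt hd0.le
    have h7 : (d : ℝ) * ρ ≤ t ^ e1 * (d * ρ) := by
      have : (0 : ℝ) ≤ d * ρ := by positivity
      nlinarith
    calc (d : ℝ) * r + d * ρ ≤ d * t ^ e1 + t ^ e1 * (d * ρ) := add_le_add h6 h7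
      _ = t ^ e1 * ((d : ℝ) * (1 + ρ)) := by ring
      _ ≤ _ := h5
  have hdr0 : (0 : ℝ) ≤ d * r := by positivity
  have hdρ0 : (0 : ℝ) ≤ d * ρ := by positivity
  have hn1' : Near (nnRate d L) t (κ ^ 2 / 12) B B := by
    intro x hx y hy hxy
    refine htwo t htT1 L hL x y hxy (le_trans ?_ hpow)
    have h1 : (tdist x y : ℝ) ≤ d * r := by exact_mod_cast hBd x hx y hy
    linarith
  have hn2' : Near (nnRate d L) t (κ ^ 2 / 12) B0 B0 := by
    intro x hx y hy hxy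
    refine htwo t htT1 L hL x y hxy (le_trans ?_ hpow)
    have h1 : (tdist x y : ℝ) ≤ d * ρ := by exact_mod_cast hB0d x hx y hy
    linarith
  have hn3' : Near (nnRate d L) t (κ ^ 2 / 12) B B0 := by
    intro x hx y hy hxy
    refine htwo t htT1 L hL x y hxy (le_trans ?_ hpow)
    have h1 : (tdist z y : ℝ) ≤ d * ρ := by exact_mod_cast hB0d z hzB0 y hy
    have h2 : (tdist x y : ℝ) ≤ tdist x z + tdist z y := by exact_mod_cast htri x z y
    have h3 : (tdist x z : ℝ) ≤ d * r := by exact_mod_cast hBd x hx z hz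
    linarith
  have hdl0 : ∀ x ∈ B0, ∀ y ∈ B0, dl (nnRate d L) t (swap x y) ≤ η0 := by
    intro x hx y hy
    refine (hdl L hL t ht0 x y).trans ?_
    rw [div_le_iff₀ hst]
    have h3 : (tdist x y : ℝ) ≤ d * ρ := by exact_mod_cast hB0d x hx y hy
    have h4 : C1 * (d * ρ) / η0 ≤ Real.sqrt t := Real.le_sqrt_of_sq_le htT3
    rw [div_le_iff₀ hη00] at h4
    have h5 := mul_le_mul_of_nonneg_left h3 hC1.le
    linarith
  have hlen := All.len (Fin d → ZMod L) (nnRate d L) hJ0 t (κ ^ 2 / 12) η0 ht0.le (by positivity)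
    hη00.le B B0 ⟨z, hz⟩ ⟨z, hzB0⟩ hn1' hn2' hn3' hdl0 k hk1
  -- the left side
  have hB0R : (0 : ℝ) < B0.card := by exact_mod_cast hB0pos
  have hleft : (∑ w ∈ B0, stirExp (nnRate d L) t (fun g => if (cycleLen g w : ℝ) ≤
      B.card / (4 * k) then (1 : ℝ) else 0)) / B0.card =
      stirExp (nnRate d L) t (fun g => if (cycleLen g v : ℝ) ≤
        B.card / (4 * k) then (1 : ℝ) else 0) := by
    rw [Finset.sum_congr rfl fun w _ => len_trans d L t (B.card / (4 * k)) w v,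
      Finset.sum_const, nsmul_eq_mul, mul_div_cancel_left₀ _ hB0R.ne']
  rw [hleft] at hlen
  -- the right side
  have hb1 : 2 * (1 / ((k : ℝ) + 1)) ≤ η / 4 := by
    have h1 : 8 < η * k := by rwa [div_lt_iff₀ hη, mul_comm] at hk
    rw [mul_one_div, div_le_div_iff₀ (by positivity) (by norm_num)]
    nlinarith
  have hb2 : 2 * (((k : ℝ) + 1) * η0) ≤ η / 4 := by
    rw [hη0]
    apply le_of_eq
    field_simp
    norm_num
  have hb3 : 2 * (((k : ℝ) + 1) ^ 2 / B0.card) ≤ η / 4 := by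
    have h1 : (n2 : ℝ) ≤ B0.card := by
      have : n2 ≤ B0.card := by
        rw [hB0c]
        exact hρn2.trans (Nat.le_self_pow (by omega) ρ)
      exact_mod_cast this
    have h2 : 8 * ((k : ℝ) + 1) ^ 2 / η < B0.card := lt_of_lt_of_le hn2 h1
    rw [div_lt_iff₀ hη] at h2
    rw [mul_div_assoc', div_le_div_iff₀ hB0R (by norm_num)]
    linarith
  have hb4 : 4 * (k : ℝ) * Real.sqrt (4 * (κ ^ 2 / 12) + 1 / B.card + 1 / B0.card) ≤ η / 4 := by
    have hB0' : 1 / (B0.card : ℝ) ≤ κ ^ 2 / 3 := by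
      have h1 : (n1 : ℝ) ≤ B0.card := by
        have : n1 ≤ B0.card := by
          rw [hB0c]
          exact hρn1.trans (Nat.le_self_pow (by omega) ρ)
        exact_mod_cast this
      have h2 : 3 / κ ^ 2 < B0.card := lt_of_lt_of_le hn1 h1
      rw [div_lt_iff₀ (by positivity)] at h2
      rw [div_le_div_iff₀ hB0R (by norm_num)]
      linarith
    have hB' : 1 / (B.card : ℝ) ≤ κ ^ 2 / 3 := by
      have h1 : (n1 : ℝ) ≤ B.card := by
        have : n1 ≤ B.card := by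
          rw [hBc]
          exact (hρn1.trans hρr).trans (Nat.le_self_pow (by omega) r)
        exact_mod_cast this
      have h2 : 3 / κ ^ 2 < B.card := lt_of_lt_of_le hn1 h1
      rw [div_lt_iff₀ (by positivity)] at h2
      rw [div_le_div_iff₀ (by exact_mod_cast hBpos) (by norm_num)]
      linarith
    have h1 : Real.sqrt (4 * (κ ^ 2 / 12) + 1 / B.card + 1 / B0.card) ≤ κ := by
      rw [Real.sqrt_le_left hκ0.le]
      linarith
    calc 4 * (k : ℝ) * Real.sqrt (4 * (κ ^ 2 / 12) + 1 / B.card + 1 / B0.card) ≤ 4 * k * κ :=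
          mul_le_mul_of_nonneg_left h1 (by positivity)
      _ = η / 4 := by rw [hκ]; field_simp; norm_num
  have hfin : stirExp (nnRate d L) t (fun g => if (cycleLen g v : ℝ) ≤
        B.card / (4 * k) then (1 : ℝ) else 0) ≤ η := by linarith
  refine le_trans ?_ hfin
  refine exp_mono hJ0 ht0.le fun g => ?_
  -- comparison of the thresholds
  have hthr : 1 / (2 ^ d * (4 * k) * (2 * (ρ : ℝ) ^ d)) *
      min (t ^ ((d : ℝ) ^ 2 / 4 - ε)) ((L : ℝ) ^ d) ≤ B.card / (4 * k) := by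
    have h1 : min (t ^ ((d : ℝ) ^ 2 / 4 - ε)) ((L : ℝ) ^ d) ≤ 2 ^ d * (r : ℝ) ^ d := by
      rw [← mul_pow]
      rcases le_total (t ^ e1 / 2) (L : ℝ) with h2 | h2
      · have h3 : t ^ e1 ≤ 2 * r := by
          rw [min_eq_left h2] at hrlow
          linarith
        calc min (t ^ ((d : ℝ) ^ 2 / 4 - ε)) ((L : ℝ) ^ d) ≤ t ^ ((d : ℝ) ^ 2 / 4 - ε) :=
              min_le_left _ _
          _ ≤ t ^ (e1 * d) := by
              refine Real.rpow_le_rpow_of_exponent_le ht1 ?_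
              rw [he1]
              nlinarith
          _ = (t ^ e1) ^ d := by rw [Real.rpow_mul ht0.le, Real.rpow_natCast]
          _ ≤ (2 * (r : ℝ)) ^ d := pow_le_pow_left₀ (by positivity) h3 d
      · have h3 : (L : ℝ) ≤ 2 * r := by
          rw [min_eq_right h2] at hrlow
          have : (0 : ℝ) ≤ r := by positivity
          linarith
        exact (min_le_right _ _).trans (pow_le_pow_left₀ hL0.le h3 d)
    have h4 : (B.card : ℝ) = (r : ℝ) ^ d := by rw [hBc]; push_cast; rfl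
    rw [h4, one_div, inv_mul_le_iff₀ hP]
    have h5 : (1 : ℝ) ≤ (ρ : ℝ) ^ d := one_le_pow₀ hρR
    have h6 : 2 ^ d * (4 * (k : ℝ)) * (2 * (ρ : ℝ) ^ d) * ((r : ℝ) ^ d / (4 * k)) =
        (2 * (ρ : ℝ) ^ d) * (2 ^ d * (r : ℝ) ^ d) := by
      field_simp
    rw [h6]
    have h7 : (0 : ℝ) ≤ 2 ^ d * (r : ℝ) ^ d := by positivity
    nlinarith
  by_cases h : (cycleLen g v : ℝ) ≤ 1 / (2 ^ d * (4 * k) * (2 * (ρ : ℝ) ^ d)) *
      min (t ^ ((d : ℝ) ^ 2 / 4 - ε)) ((L : ℝ) ^ d)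
  · rw [if_pos h, if_pos (h.trans hthr)]
  · rw [if_neg h]
    split_ifs
    · exact zero_le_one
    · exact le_rfl

end Pool.Agent.R134.PB.Typ
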